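import Pool.Agent.Lib.MP_d216ef_co.Lin.Defs

/-!
# A1: elementary facts about bary, ev, Sx, mo
-/

set_option autoImplicit false

namespace Pool.Agent.Lib.BeerLin

open Set MeasureTheory Topology
open scoped ENNReal
open Pool.Agent.Lib.BeerIndex

variable {k : ℕ}

theorem ev_add (y z : V k) (u : Fin k → ℝ) : ev (y + z) u = ev y u + ev z u := by
  simp only [ev, Pi.add_apply, mul_add, Finset.sum_add_distrib]

theorem ev_sub (y z : V k) (u : Fin k → ℝ) : ev (y - z) u = ev y u - ev z u := by
  simp only [ev, Pi.sub_apply, mul_sub, Finset.sum_sub_distrib]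

theorem ev_smul (c : ℝ) (y : V k) (u : Fin k → ℝ) : ev (c • y) u = c * ev y u := by
  simp only [ev, Pi.smul_apply, smul_eq_mul, Finset.mul_sum]
  exact Finset.sum_congr rfl fun i _ => by ring

theorem ev_const (c : ℝ) (u : Fin k → ℝ) : ev (fun _ : Fin (k + 1) => c) u = c := by
  simp only [ev, ← Finset.sum_mul, sum_bary, one_mul]

/-- `|y i| ≤ r` at the vertices gives `|y(u)| ≤ r` on the simplex. -/
theorem abs_ev_le {y : V k} {u : Fin k → ℝ} {r : ℝ} (hu : u ∈ Sx k) (h : ∀ i, |y i| ≤ r) :
    |ev y u| ≤ r := by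
  have h1 : |ev y u| ≤ ∑ i, |bary u i * y i| := Finset.abs_sum_le_sum_abs _ _
  refine h1.trans ?_
  have h2 : ∑ i, |bary u i * y i| ≤ ∑ i, bary u i * r := by
    refine Finset.sum_le_sum fun i _ => ?_
    rw [abs_mul, abs_of_nonneg (hu i)]
    exact mul_le_mul_of_nonneg_left (h i) (hu i)
  refine h2.trans (le_of_eq ?_)
  rw [← Finset.sum_mul, sum_bary, one_mul]

theorem ev_comb (y : V k) (u v : Fin k → ℝ) {a b : ℝ} (hab : a + b = 1) :
    ev y (a • u + b • v) = a * ev y u + b * ev y v := by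
  simp only [ev, bary_comb u v hab, Finset.mul_sum, ← Finset.sum_add_distrib]
  exact Finset.sum_congr rfl fun i _ => by ring

theorem continuous_ev : Continuous fun p : V k × (Fin k → ℝ) => ev p.1 p.2 := by
  unfold ev
  refine continuous_finsetSum _ fun i _ => ?_
  exact ((continuous_bary_apply i).comp continuous_snd).mul
    ((continuous_apply i).comp continuous_fst)

/-- explicit form: vertex `0` has barycentric coordinate `1 - ∑ u`. -/
theorem ev_eq (y : V k) (u : Fin k → ℝ) : ev y u = y 0 + ∑ i : Fin k, u i * (y i.succ - y 0) := by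
  simp only [ev, Fin.sum_univ_succ, bary_zero, bary_succ, mul_sub, Finset.sum_sub_distrib,
    ← Finset.sum_mul]
  ring

theorem isClosed_Sx : IsClosed (Sx k) := by
  have h : Sx k = ⋂ i : Fin (k + 1), {u : Fin k → ℝ | 0 ≤ bary u i} := by
    ext u
    simp [Sx]
  rw [h]
  exact isClosed_iInter fun i => isClosed_le continuous_const (continuous_bary_apply i)

theorem isCompact_Sx : IsCompact (Sx k) := by
  refine (isCompact_Icc (a := (0 : Fin k → ℝ)) (b := fun _ => 1)).of_isClosed_subset isClosed_Sx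
    ?_
  intro u hu
  have h0 : ∀ i : Fin k, 0 ≤ u i := fun i => by
    have := hu i.succ
    rwa [bary_succ] at this
  refine ⟨fun i => h0 i, fun i => ?_⟩
  have h1 := hu 0
  rw [bary_zero] at h1
  have h2 : u i ≤ ∑ j, u j := Finset.single_le_sum (fun j _ => h0 j) (Finset.mem_univ i)
  show u i ≤ 1
  linarith

theorem convex_Sx : Convex ℝ (Sx k) := by
  intro u hu v hv a b ha hb hab i
  rw [bary_comb u v hab]
  exact add_nonneg (mul_nonneg ha (hu i)) (mul_nonneg hb (hv i))

theorem mo_zero : (mo (0 : Fin (k + 2)) : V k) = 0 := by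
  rfl

theorem mo_succ (i i' : Fin (k + 1)) :
    (mo i.succ : V k) i' = if i' = i then -((k : ℝ) - 1 / 2) else 1 := by
  rfl

theorem ev_mo_succ (i : Fin (k + 1)) (u : Fin k → ℝ) :
    ev (mo i.succ) u = 1 - ((k : ℝ) + 1 / 2) * bary u i := by
  have h1 : ev (mo i.succ) u =
      ∑ i', (bary u i' - if i' = i then ((k : ℝ) + 1 / 2) * bary u i' else 0) := by
    refine Finset.sum_congr rfl fun i' _ => ?_
    rw [mo_succ]
    split_ifs
    · ring
    · ring
  rw [h1, Finset.sum_sub_distrib, sum_bary, Finset.sum_ite_eq' Finset.univ i]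
  simp

theorem abs_mo_le (hk : 1 ≤ k) (j : Fin (k + 2)) (i : Fin (k + 1)) : |(mo j : V k) i| ≤ k := by
  have hk' : (1 : ℝ) ≤ k := by exact_mod_cast hk
  refine Fin.cases ?_ (fun j => ?_) j
  · rw [mo_zero]
    simp
  · rw [mo_succ]
    split_ifs
    · rw [abs_neg, abs_of_nonneg (by linarith)]
      linarith
    · rw [abs_one]
      exact hk'

theorem c0_pos : 0 < c0 k := by
  unfold c0
  positivity

end Pool.Agent.Lib.BeerLin
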