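import Pool.Agent.Lib.MP_d216ef_co.Lin.A1

/-!
# A2: elementary facts about plate, G, sh
-/

set_option autoImplicit false

namespace Pool.Agent.Lib.BeerLin

open Set MeasureTheory Topology
open scoped ENNReal
open Pool.Agent.Lib.BeerIndex

variable {k : ℕ}

/-- All conditions defining a plate are affine in the point. -/
theorem convex_plate (ω : Om k) (w : ℝ) : Convex ℝ (plate ω w) := by
  intro x hx y hy a b ha hb hab
  obtain ⟨hx1, hx2, hx3⟩ := hx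
  obtain ⟨hy1, hy2, hy3⟩ := hy
  refine ⟨?_, ?_, ?_⟩
  · exact convex_Sx hx1 hy1 ha hb hab
  · simp only [Prod.fst_add, Prod.snd_add, Prod.smul_fst, Prod.smul_snd, smul_eq_mul]
    rw [ev_comb _ _ _ hab]
    have h1 : a * x.2.1 + b * y.2.1 - (a * ev ω.1.1 x.1 + b * ev ω.1.1 y.1) =
        a * (x.2.1 - ev ω.1.1 x.1) + b * (y.2.1 - ev ω.1.1 y.1) := by ring
    rw [h1]
    rw [abs_le] at hx2 hy2 ⊢
    constructor
    · nlinarith [mul_le_mul_of_nonneg_left hx2.1 ha, mul_le_mul_of_nonneg_left hy2.1 hb]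
    · nlinarith [mul_le_mul_of_nonneg_left hx2.2 ha, mul_le_mul_of_nonneg_left hy2.2 hb]
  · simp only [Prod.fst_add, Prod.snd_add, Prod.smul_fst, Prod.smul_snd, smul_eq_mul]
    rw [ev_comb _ _ _ hab, ev_comb _ _ _ hab, hx3, hy3]
    ring

theorem plate_mono (ω : Om k) {w w' : ℝ} (h : w' ≤ w) : plate ω w' ⊆ plate ω w :=
  fun _ hx => ⟨hx.1, hx.2.1.trans h, hx.2.2⟩

theorem sh_zero (ω : Om k) : sh 0 ω = ω := by
  obtain ⟨⟨y, z⟩, a⟩ := ω
  simp [sh]

theorem sh_sh (τ τ' : V k) (ω : Om k) : sh τ' (sh τ ω) = sh (τ + τ') ω := by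
  obtain ⟨⟨y, z⟩, a⟩ := ω
  simp only [sh, smul_add, add_assoc]

theorem continuous_sh : Continuous fun q : V k × Om k => sh q.1 q.2 := by
  unfold sh
  fun_prop

theorem plate_sh {ω : Om k} {τ : V k} {w w' : ℝ} (h : ‖τ‖ + w' ≤ w) :
    plate (sh τ ω) w' ⊆ plate ω w := by
  rintro x ⟨hx1, hx2, hx3⟩
  simp only [sh] at hx2 hx3
  rw [ev_add] at hx2
  rw [ev_add, ev_add, ev_smul] at hx3
  have hτ : |ev τ x.1| ≤ ‖τ‖ := abs_ev_le hx1 (fun i => by
    rw [← Real.norm_eq_abs]; exact norm_le_pi_norm τ i)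
  refine ⟨hx1, ?_, ?_⟩
  · rw [abs_le] at hx2 hτ ⊢
    constructor
    · linarith [hx2.1, hτ.1]
    · linarith [hx2.2, hτ.2]
  · rw [hx3]; ring

theorem G_anti (R : Set (X k)) {w w' : ℝ} (h : w' ≤ w) : G R w ⊆ G R w' :=
  fun _ hω => ⟨hω.1, (plate_mono _ h).trans hω.2⟩

theorem sh_mem_G {R : Set (X k)} {ω : Om k} {τ : V k} {w w' : ℝ} (hω : ω ∈ G R w)
    (h : ‖τ‖ + w' ≤ w) : sh τ ω ∈ G R w' :=
  ⟨hω.1, (plate_sh h).trans hω.2⟩

/-- from `sh_mem_G` with `-τ` and `sh_sh`, `sh_zero`. -/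
theorem mem_G_of_sh {R : Set (X k)} {ω : Om k} {τ : V k} {w w' : ℝ} (hω : sh τ ω ∈ G R w)
    (h : ‖τ‖ + w' ≤ w) : ω ∈ G R w' := by
  have h1 : sh (-τ) (sh τ ω) ∈ G R w' := sh_mem_G hω (by rwa [norm_neg])
  rwa [sh_sh, add_neg_cancel, sh_zero] at h1

private theorem continuous_ev_left (u : Fin k → ℝ) : Continuous fun y : V k => ev y u := by
  have h := (continuous_ev (k := k)).comp (Continuous.prodMk_left u)
  exact h

/-- `G R w` is an intersection over `u ∈ Sx k`, `σ ∈ [-w, w]` of closed conditions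
`(u, ev y u + σ, ev z u + a σ) ∈ R`. -/
theorem isClosed_G {R : Set (X k)} (hR : IsClosed R) (w : ℝ) : IsClosed (G R w) := by
  have hG : G R w = {ω : Om k | |ω.2| ≤ 1} ∩ ⋂ u ∈ Sx k, ⋂ σ ∈ Set.Icc (-w) w,
      {ω : Om k | ((u, ev ω.1.1 u + σ, ev ω.1.2 u + ω.2 * σ) : X k) ∈ R} := by
    ext ω
    simp only [G, Set.mem_inter_iff, Set.mem_iInter]
    constructor
    · rintro ⟨h1, h2⟩
      refine ⟨h1, fun u hu σ hσ => h2 ⟨hu, ?_, ?_⟩⟩
      · show |ev ω.1.1 u + σ - ev ω.1.1 u| ≤ w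
        rw [add_sub_cancel_left]
        exact abs_le.2 hσ
      · show ev ω.1.2 u + ω.2 * σ = ev ω.1.2 u + ω.2 * (ev ω.1.1 u + σ - ev ω.1.1 u)
        ring
    · rintro ⟨h1, h2⟩
      refine ⟨h1, ?_⟩
      rintro ⟨u, s, t⟩ ⟨hu, hs, ht⟩
      simp only at hu hs ht
      have h3 := h2 u hu (s - ev ω.1.1 u) (abs_le.1 hs)
      have h4 : ((u, ev ω.1.1 u + (s - ev ω.1.1 u),
          ev ω.1.2 u + ω.2 * (s - ev ω.1.1 u)) : X k) = (u, s, t) := by
        rw [← ht, add_sub_cancel]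
      have h5 : ((u, ev ω.1.1 u + (s - ev ω.1.1 u),
          ev ω.1.2 u + ω.2 * (s - ev ω.1.1 u)) : X k) ∈ R := h3
      rwa [h4] at h5
  rw [hG]
  refine IsClosed.inter (isClosed_le (by fun_prop) continuous_const) ?_
  refine isClosed_biInter fun u _ => isClosed_biInter fun σ _ => ?_
  refine hR.preimage ?_
  have h1 : Continuous fun ω : Om k => ev ω.1.1 u :=
    (continuous_ev_left u).comp (continuous_fst.comp continuous_fst)
  have h2 : Continuous fun ω : Om k => ev ω.1.2 u :=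
    (continuous_ev_left u).comp (continuous_snd.comp continuous_fst)
  fun_prop

/-- the points of the line belong to the plate -/
theorem base_mem_plate (ω : Om k) {w : ℝ} (hw : 0 ≤ w) {u : Fin k → ℝ} (hu : u ∈ Sx k) :
    ((u, ev ω.1.1 u, ev ω.1.2 u) : X k) ∈ plate ω w := by
  refine ⟨hu, ?_, ?_⟩
  · show |ev ω.1.1 u - ev ω.1.1 u| ≤ w
    simpa using hw
  · show ev ω.1.2 u = ev ω.1.2 u + ω.2 * (ev ω.1.1 u - ev ω.1.1 u)
    ring

private theorem zero_mem_Sx : (0 : Fin k → ℝ) ∈ Sx k := by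
  intro i
  refine Fin.cases ?_ (fun j => ?_) i
  · simp
  · simp

/-- if two plates contain the same line then they meet -/
theorem plate_inter_nonempty (p : V k × V k) (a a' : ℝ) {w w' : ℝ} (hw : 0 ≤ w) (hw' : 0 ≤ w') :
    (plate (p, a) w ∩ plate (p, a') w').Nonempty :=
  ⟨((0, ev p.1 0, ev p.2 0) : X k), base_mem_plate (p, a) hw zero_mem_Sx,
    base_mem_plate (p, a') hw' zero_mem_Sx⟩

/-- a plate contains the shifted lines: `plate ω w` meets every plate through the line of `sh τ ω`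
if `‖τ‖ ≤ w`. -/
theorem plate_inter_sh_nonempty (ω : Om k) (τ : V k) (a : ℝ) {w w' : ℝ} (hτ : ‖τ‖ ≤ w)
    (hw' : 0 ≤ w') : (plate ω w ∩ plate ((sh τ ω).1, a) w').Nonempty :=
  ⟨((0, ev (sh τ ω).1.1 0, ev (sh τ ω).1.2 0) : X k),
    plate_sh (by simpa using hτ) (base_mem_plate (sh τ ω) le_rfl zero_mem_Sx),
    base_mem_plate ((sh τ ω).1, a) hw' zero_mem_Sx⟩

end Pool.Agent.Lib.BeerLin
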