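import Pool.Agent.Lib.MP_d216ef_co.Lin.A1

section

/-!
# A3a: the tent lemma
-/

set_option autoImplicit false

namespace Pool.Agent.Lib.BeerLin

open Set MeasureTheory Topology
open scoped ENNReal
open Pool.Agent.Lib.BeerIndex

variable {k : ℕ}

/-- **Tent lemma.** Let `τ j` be close to `c + ρ mo j` and `|s j| ≤ c0 ρ`. If `y` is above the lower
wall and below all upper walls over the parameter `u` (`u` is NOT assumed to be in the simplex), then
`u` is in the interior of the simplex, and `y` is close to `c(u)`.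

Proof. Put `β i = bary u i`, `∑ β i = 1`, `e j = τ j - (c + ρ mo j)`, `|e j i| ≤ c0 ρ`. For every `i`
`0 ≤ ev (τ i.succ) u + s i.succ - ev (τ 0) u - s 0`
`= ρ (1 - (k + 1/2) β i) + ev (e i.succ - e 0) u + s i.succ - s 0`
`≤ ρ (1 - (k + 1/2) β i) + 2 c0 ρ ∑ |β i'| + 2 c0 ρ`.
With `N = ∑ max (-β i') 0` we have `∑ |β i'| = 1 + 2 N`, `∑ max (β i') 0 = 1 + N`. Hence
`(k + 1/2) β i ≤ 1 + 4 c0 + 4 c0 N` for every `i`. If some `β i₀ ≤ 0`, then `1 + N` is a sum of at most
`k` numbers `max (β i) 0`, `i ≠ i₀`, so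
`(k + 1/2) (1 + N) ≤ k (1 + 4 c0 + 4 c0 N)`, i.e. `1/2 + N (k + 1/2) ≤ 4 k c0 + 4 k c0 N ≤ 1/4 + N/4`,
contradiction. So all `β i > 0`, `∑ |β i| = 1`, and
`ev c u - 2 c0 ρ ≤ ev (τ 0) u + s 0 ≤ y ≤ ev (τ i.succ) u + s i.succ ≤ ev c u + ρ + 2 c0 ρ`. -/
theorem tent (hk : 1 ≤ k) {ρ : ℝ} (hρ : 0 < ρ) (c : V k) (τ : Fin (k + 2) → V k)
    (hτ : ∀ j i, |τ j i - (c i + ρ * (mo j : V k) i)| ≤ c0 k * ρ)
    (u : Fin k → ℝ) (s : Fin (k + 2) → ℝ) (hs : ∀ j, |s j| ≤ c0 k * ρ) (y : ℝ)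
    (h0 : ev (τ 0) u + s 0 ≤ y)
    (h1 : ∀ i : Fin (k + 1), y ≤ ev (τ i.succ) u + s i.succ) :
    (∀ i, 0 < bary u i) ∧ |y - ev c u| ≤ 2 * ρ := by
  have hc0 : 0 < c0 k := c0_pos
  have hkR : (1 : ℝ) ≤ k := by exact_mod_cast hk
  have hc16 : 16 * ((k : ℝ) + 1) * c0 k = 1 := by
    unfold c0
    have : (0 : ℝ) < 16 * ((k : ℝ) + 1) := by positivity
    field_simp
  have hck : 4 * (k : ℝ) * c0 k ≤ 1 / 4 := by nlinarith
  have hc32 : c0 k ≤ 1 / 32 := by nlinarith
  set A : ℝ := ∑ i, |bary u i| with hA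
  have hA0 : 0 ≤ A := Finset.sum_nonneg fun i _ => abs_nonneg _
  -- the error estimate
  have E : ∀ j, |ev (τ j) u - (ev c u + ρ * ev (mo j : V k) u)| ≤ c0 k * ρ * A := by
    intro j
    have h1 : ev (τ j) u - (ev c u + ρ * ev (mo j : V k) u)
        = ∑ i, bary u i * (τ j i - (c i + ρ * (mo j : V k) i)) := by
      unfold ev
      rw [Finset.mul_sum, ← Finset.sum_add_distrib, ← Finset.sum_sub_distrib]
      refine Finset.sum_congr rfl fun i _ => ?_
      ring
    rw [h1]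
    refine (Finset.abs_sum_le_sum_abs _ _).trans ?_
    rw [hA, Finset.mul_sum]
    refine Finset.sum_le_sum fun i _ => ?_
    rw [abs_mul, mul_comm]
    exact mul_le_mul_of_nonneg_right (hτ j i) (abs_nonneg _)
  have hlow : ev c u - c0 k * ρ * A - c0 k * ρ ≤ y := by
    have h2 := (abs_le.1 (E 0)).1
    have h3 := (abs_le.1 (hs 0)).1
    have h4 : ev (mo (0 : Fin (k + 2)) : V k) u = 0 := by
      rw [mo_zero]
      simp [ev]
    rw [h4] at h2
    linarith
  have hup : ∀ i : Fin (k + 1), y ≤ ev c u + ρ * (1 - ((k : ℝ) + 1 / 2) * bary u i)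
      + c0 k * ρ * A + c0 k * ρ := by
    intro i
    have h2 := (abs_le.1 (E i.succ)).2
    have h3 := (abs_le.1 (hs i.succ)).2
    rw [ev_mo_succ] at h2
    have := h1 i
    linarith
  have hkey : ∀ i : Fin (k + 1), ((k : ℝ) + 1 / 2) * bary u i ≤ 1 + 2 * c0 k * A + 2 * c0 k := by
    intro i
    have h2 := hup i
    have h3 : 0 ≤ ρ * (1 + 2 * c0 k * A + 2 * c0 k - ((k : ℝ) + 1 / 2) * bary u i) := by
      nlinarith
    have h4 := nonneg_of_mul_nonneg_right h3 hρ
    linarith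
  have hpos : ∀ i, 0 < bary u i := by
    by_contra hcon
    push Not at hcon
    obtain ⟨i0, hi0⟩ := hcon
    set P : ℝ := ∑ i, max (bary u i) 0 with hP
    have hAP : A = 2 * P - 1 := by
      have h2 : ∀ i, |bary u i| = 2 * max (bary u i) 0 - bary u i := by
        intro i
        rcases le_total 0 (bary u i) with h | h
        · rw [abs_of_nonneg h, max_eq_left h]; ring
        · rw [abs_of_nonpos h, max_eq_right h]; ring
      rw [hA, Finset.sum_congr rfl fun i _ => h2 i, Finset.sum_sub_distrib, ← Finset.mul_sum,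
        sum_bary]
    have hP1 : 1 ≤ P := by
      rw [← sum_bary u, hP]
      exact Finset.sum_le_sum fun i _ => le_max_left _ _
    have hPle : ((k : ℝ) + 1 / 2) * P ≤ k * (1 + 2 * c0 k * A + 2 * c0 k) := by
      have h2 : P = ∑ i ∈ Finset.univ.erase i0, max (bary u i) 0 := by
        rw [hP, ← Finset.add_sum_erase _ _ (Finset.mem_univ i0), max_eq_right hi0, zero_add]
      rw [h2, Finset.mul_sum]
      have h3 : ∀ i ∈ Finset.univ.erase i0, ((k : ℝ) + 1 / 2) * max (bary u i) 0 ≤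
          1 + 2 * c0 k * A + 2 * c0 k := by
        intro i _
        rcases le_total 0 (bary u i) with h | h
        · rw [max_eq_left h]; exact hkey i
        · rw [max_eq_right h, mul_zero]; positivity
      refine (Finset.sum_le_sum h3).trans ?_
      rw [Finset.sum_const, Finset.card_erase_of_mem (Finset.mem_univ _), Finset.card_univ,
        Fintype.card_fin, nsmul_eq_mul]
      simp
    rw [hAP] at hPle
    nlinarith
  refine ⟨hpos, ?_⟩
  have hA1 : A = 1 := by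
    rw [hA, ← sum_bary u]
    exact Finset.sum_congr rfl fun i _ => abs_of_pos (hpos i)
  have hup0 := hup 0
  rw [hA1] at hlow hup0
  have h5 : 0 ≤ ρ * (((k : ℝ) + 1 / 2) * bary u 0) :=
    mul_nonneg hρ.le (mul_nonneg (by positivity) (hpos 0).le)
  have h6 : c0 k * ρ ≤ 1 / 32 * ρ := mul_le_mul_of_nonneg_right hc32 hρ.le
  rw [abs_le]
  constructor <;> linarith

end Pool.Agent.Lib.BeerLin
end

section

/-!
# A4: frontier of a polyhedron, volume of a sheared box
-/

set_option autoImplicit false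

namespace Pool.Agent.Lib.BeerLin

open Set MeasureTheory Topology
open scoped ENNReal
open Pool.Agent.Lib.BeerIndex

variable {k : ℕ}

/-- A frontier point of `{x | ∀ i, 0 ≤ g i x}` satisfies one of the inequalities with equality. -/
theorem frontier_polyhedron {E ι : Type*} [TopologicalSpace E] [Finite ι] (g : ι → E → ℝ)
    (hg : ∀ i, Continuous (g i)) :
    frontier {x | ∀ i, 0 ≤ g i x} ⊆ {x | (∀ i, 0 ≤ g i x) ∧ ∃ i, g i x = 0} := by
  intro x hx
  have hcl : IsClosed {x | ∀ i, 0 ≤ g i x} := by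
    have h : {x | ∀ i, 0 ≤ g i x} = ⋂ i, {x | 0 ≤ g i x} := by ext; simp
    rw [h]
    exact isClosed_iInter fun i => isClosed_le continuous_const (hg i)
  rw [hcl.frontier_eq] at hx
  have hx1 : ∀ i, 0 ≤ g i x := hx.1
  refine ⟨hx1, ?_⟩
  by_contra h
  have h' : ∀ i, g i x ≠ 0 := fun i hi => h ⟨i, hi⟩
  apply hx.2
  have hop : IsOpen {x | ∀ i, 0 < g i x} := by
    have h : {x | ∀ i, 0 < g i x} = ⋂ i, {x | 0 < g i x} := by ext; simp
    rw [h]
    exact isOpen_iInter_of_finite fun i => isOpen_lt continuous_const (hg i)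
  have hsub : {x | ∀ i, 0 < g i x} ⊆ {x | ∀ i, 0 ≤ g i x} := fun y hy i => (hy i).le
  exact interior_maximal hsub hop (fun i => lt_of_le_of_ne (hx1 i) (h' i).symm)

private theorem volume_slice1 (a α β : ℝ) :
    volume {y : ℝ | y - a ∈ Icc α β} = ENNReal.ofReal (β - α) := by
  have h : {y : ℝ | y - a ∈ Icc α β} = Icc (α + a) (β + a) := by
    ext y
    simp only [mem_ofPred_eq, mem_Icc]
    constructor
    · rintro ⟨h1, h2⟩; constructor <;> linarith
    · rintro ⟨h1, h2⟩; constructor <;> linarith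
  rw [h, Real.volume_Icc]
  congr 1
  ring

private theorem volume_slice2 (a : ℝ) (h : ℝ → ℝ) (hh : Continuous h) (α β γ δ : ℝ) :
    volume {p : ℝ × ℝ | p.1 - a ∈ Icc α β ∧ p.2 - h p.1 ∈ Icc γ δ} =
      ENNReal.ofReal (β - α) * ENNReal.ofReal (δ - γ) := by
  have hm : MeasurableSet {p : ℝ × ℝ | p.1 - a ∈ Icc α β ∧ p.2 - h p.1 ∈ Icc γ δ} := by
    have h1 : IsClosed {p : ℝ × ℝ | p.1 - a ∈ Icc α β} :=
      isClosed_Icc.preimage (continuous_fst.sub continuous_const)
    have h2 : IsClosed {p : ℝ × ℝ | p.2 - h p.1 ∈ Icc γ δ} :=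
      isClosed_Icc.preimage (continuous_snd.sub (hh.comp continuous_fst))
    exact (h1.inter h2).measurableSet
  rw [Measure.volume_eq_prod, Measure.prod_apply hm]
  have h1 : ∀ y : ℝ, volume (Prod.mk y ⁻¹' {p : ℝ × ℝ | p.1 - a ∈ Icc α β ∧
      p.2 - h p.1 ∈ Icc γ δ}) =
      ({y : ℝ | y - a ∈ Icc α β}).indicator (fun _ => ENNReal.ofReal (δ - γ)) y := by
    intro y
    by_cases hy : y - a ∈ Icc α β
    · rw [indicator_of_mem (show y ∈ {y : ℝ | y - a ∈ Icc α β} from hy), ← volume_slice1 (h y) γ δ]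
      congr 1
      ext z
      simp only [mem_preimage, mem_ofPred_eq]
      exact ⟨fun hz => hz.2, fun hz => ⟨hy, hz⟩⟩
    · rw [indicator_of_notMem (show y ∉ {y : ℝ | y - a ∈ Icc α β} from hy)]
      have : (Prod.mk y ⁻¹' {p : ℝ × ℝ | p.1 - a ∈ Icc α β ∧ p.2 - h p.1 ∈ Icc γ δ}) = ∅ := by
        ext z
        simp only [mem_preimage, mem_ofPred_eq, mem_empty_iff_false, iff_false]
        exact fun hz => hy hz.1
      rw [this, measure_empty]
  have hm1 : MeasurableSet {y : ℝ | y - a ∈ Icc α β} :=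
    (isClosed_Icc.preimage (continuous_id.sub continuous_const)).measurableSet
  rw [lintegral_congr h1, lintegral_indicator hm1, setLIntegral_const, volume_slice1, mul_comm]

/-- Volume of a sheared box (Tonelli; for fixed `u` the shears are translations). -/
theorem volume_shear (A : Set (Fin k → ℝ)) (hA : MeasurableSet A) (F : (Fin k → ℝ) → ℝ)
    (hF : Continuous F) (H : (Fin k → ℝ) × ℝ → ℝ) (hH : Continuous H) (α β γ δ : ℝ) :
    volume {x : X k | x.1 ∈ A ∧ x.2.1 - F x.1 ∈ Icc α β ∧ x.2.2 - H (x.1, x.2.1) ∈ Icc γ δ} =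
      volume A * (ENNReal.ofReal (β - α) * ENNReal.ofReal (δ - γ)) := by
  have hm : MeasurableSet {x : X k | x.1 ∈ A ∧ x.2.1 - F x.1 ∈ Icc α β ∧
      x.2.2 - H (x.1, x.2.1) ∈ Icc γ δ} := by
    have h0 : MeasurableSet {x : X k | x.1 ∈ A} := measurable_fst hA
    have h1 : IsClosed {x : X k | x.2.1 - F x.1 ∈ Icc α β} :=
      isClosed_Icc.preimage (by fun_prop)
    have h2 : IsClosed {x : X k | x.2.2 - H (x.1, x.2.1) ∈ Icc γ δ} :=
      isClosed_Icc.preimage (by fun_prop)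
    exact h0.inter (h1.measurableSet.inter h2.measurableSet)
  rw [Measure.volume_eq_prod, Measure.prod_apply hm]
  have h1 : ∀ u : Fin k → ℝ, volume (Prod.mk u ⁻¹' {x : X k | x.1 ∈ A ∧ x.2.1 - F x.1 ∈ Icc α β ∧
      x.2.2 - H (x.1, x.2.1) ∈ Icc γ δ}) =
      A.indicator (fun _ => ENNReal.ofReal (β - α) * ENNReal.ofReal (δ - γ)) u := by
    intro u
    by_cases hu : u ∈ A
    · rw [indicator_of_mem hu, ← volume_slice2 (F u) (fun y => H (u, y)) (by fun_prop) α β γ δ]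
      congr 1
      ext p
      simp only [mem_preimage, mem_ofPred_eq]
      exact ⟨fun hz => hz.2, fun hz => ⟨hu, hz⟩⟩
    · rw [indicator_of_notMem hu]
      have : (Prod.mk u ⁻¹' {x : X k | x.1 ∈ A ∧ x.2.1 - F x.1 ∈ Icc α β ∧
          x.2.2 - H (x.1, x.2.1) ∈ Icc γ δ}) = ∅ := by
        ext z
        simp only [mem_preimage, mem_ofPred_eq, mem_empty_iff_false, iff_false]
        exact fun hz => hu hz.1
      rw [this, measure_empty]
  rw [lintegral_congr h1, lintegral_indicator hA, setLIntegral_const, mul_comm]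

/-- Volume of a cube in the parameter space. -/
theorem volume_cube (c : Fin k → ℝ) {r : ℝ} (hr : 0 ≤ r) :
    volume {u : Fin k → ℝ | ∀ i, |u i - c i| ≤ r} = ENNReal.ofReal ((2 * r) ^ k) := by
  have h : {u : Fin k → ℝ | ∀ i, |u i - c i| ≤ r} = Icc (fun i => c i - r) (fun i => c i + r) := by
    ext u
    simp only [mem_ofPred_eq, mem_Icc, Pi.le_def]
    constructor
    · intro hu
      exact ⟨fun i => by have := abs_le.mp (hu i); linarith [this.1],
        fun i => by have := abs_le.mp (hu i); linarith [this.2]⟩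
    · rintro ⟨h1, h2⟩ i
      exact abs_le.mpr ⟨by linarith [h1 i], by linarith [h2 i]⟩
  rw [h, Real.volume_Icc_pi]
  have h2 : ∀ i : Fin k, ENNReal.ofReal (c i + r - (c i - r)) = ENNReal.ofReal (2 * r) := by
    intro i
    congr 1
    ring
  rw [Finset.prod_congr rfl fun i _ => h2 i, Finset.prod_const, Finset.card_univ, Fintype.card_fin,
    ENNReal.ofReal_pow (by positivity)]

end Pool.Agent.Lib.BeerLin
end

section

/-!
# A3b: the core of the tent
-/

set_option autoImplicit false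

namespace Pool.Agent.Lib.BeerLin

open Set MeasureTheory Topology
open scoped ENNReal
open Pool.Agent.Lib.BeerIndex

variable {k : ℕ}

/-- **The core of the tent.** For `u` close to the barycentre (`|u i - 1/(k+1)| ≤ 1/(16 (k+1)^3)`) and
`y - ev c u ∈ [ρ/(8(k+1)), ρ/(4(k+1))]` the point is well inside the tent: above the lower wall by at
least `ρ/(16(k+1))` and below every upper wall by at least `ρ/(16(k+1))`.

Proof. `|bary u i - 1/(k+1)| ≤ k/(16 (k+1)^3) ≤ 1/(16(k+1)^2)` for all `i` (for `i = 0`: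
`bary u 0 = 1 - ∑ u`). So `u ∈ Sx k`, `ev (τ 0) u ≤ ev c u + c0 ρ = ev c u + ρ/(16(k+1))` and
`ev (τ i.succ) u ≥ ev c u + ρ (1 - (k+1/2) bary u i) - c0 ρ ≥ ev c u + ρ (1 - (k+1/2)/(k+1) - 1/(16(k+1))) - ρ/(16(k+1))
= ev c u + (3/8) ρ/(k+1)`. -/
theorem tent_core (hk : 1 ≤ k) {ρ : ℝ} (hρ : 0 < ρ) (c : V k) (τ : Fin (k + 2) → V k)
    (hτ : ∀ j i, |τ j i - (c i + ρ * (mo j : V k) i)| ≤ c0 k * ρ)
    (u : Fin k → ℝ) (hu : ∀ i, |u i - 1 / ((k : ℝ) + 1)| ≤ 1 / (16 * ((k : ℝ) + 1) ^ 3)) (y : ℝ)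
    (hy1 : ρ / (8 * ((k : ℝ) + 1)) ≤ y - ev c u) (hy2 : y - ev c u ≤ ρ / (4 * ((k : ℝ) + 1))) :
    u ∈ Sx k ∧ ev (τ 0) u + ρ / (16 * ((k : ℝ) + 1)) ≤ y ∧
      ∀ i : Fin (k + 1), y + ρ / (16 * ((k : ℝ) + 1)) ≤ ev (τ i.succ) u := by
  have hk' : (1 : ℝ) ≤ (k : ℝ) := by exact_mod_cast hk
  have hK : (0 : ℝ) < (k : ℝ) + 1 := by positivity
  obtain ⟨t, ht⟩ : ∃ t : ℝ, t = 1 / ((k : ℝ) + 1) := ⟨_, rfl⟩
  have ht0 : 0 < t := by rw [ht]; positivity
  have hKt : ((k : ℝ) + 1) * t = 1 := by rw [ht]; field_simp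
  have ht1 : t ≤ 1 := by nlinarith
  have hb : 1 / (16 * ((k : ℝ) + 1) ^ 3) = t ^ 3 / 16 := by rw [ht]; field_simp
  have e16 : ρ / (16 * ((k : ℝ) + 1)) = ρ * t / 16 := by rw [ht]; field_simp
  have e8 : ρ / (8 * ((k : ℝ) + 1)) = ρ * t / 8 := by rw [ht]; field_simp
  have e4 : ρ / (4 * ((k : ℝ) + 1)) = ρ * t / 4 := by rw [ht]; field_simp
  have ec : c0 k * ρ = ρ * t / 16 := by rw [ht, c0]; field_simp
  rw [← ht, hb] at hu
  have hbar : ∀ i : Fin (k + 1), |bary u i - t| ≤ t ^ 2 / 16 := by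
    intro i
    refine Fin.cases ?_ (fun j => ?_) i
    · rw [bary_zero]
      have h1 : 1 - ∑ i, u i - t = ∑ i : Fin k, (t - u i) := by
        rw [Finset.sum_sub_distrib, Finset.sum_const, Finset.card_univ, Fintype.card_fin,
          nsmul_eq_mul]
        linear_combination (-1 : ℝ) * hKt
      rw [h1]
      calc |∑ i : Fin k, (t - u i)| ≤ ∑ i : Fin k, |t - u i| := Finset.abs_sum_le_sum_abs _ _
        _ ≤ ∑ _i : Fin k, t ^ 3 / 16 := Finset.sum_le_sum fun i _ => by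
            rw [abs_sub_comm]; exact hu i
        _ = (k : ℝ) * (t ^ 3 / 16) := by
            rw [Finset.sum_const, Finset.card_univ, Fintype.card_fin, nsmul_eq_mul]
        _ ≤ ((k : ℝ) + 1) * (t ^ 3 / 16) := by
            have : (0 : ℝ) < t ^ 3 / 16 := by positivity
            nlinarith
        _ = t ^ 2 / 16 := by linear_combination (t ^ 2 / 16) * hKt
    · rw [bary_succ]
      refine (hu j).trans ?_
      have : t ^ 3 ≤ t ^ 2 := by
        have h2 : 0 ≤ t ^ 2 := by positivity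
        nlinarith
      linarith
  have hpos : ∀ i : Fin (k + 1), 0 ≤ bary u i := by
    intro i
    have h1 := (abs_le.1 (hbar i)).1
    nlinarith [mul_pos ht0 ht0]
  have hS : u ∈ Sx k := hpos
  have hev : ∀ j : Fin (k + 2), |ev (τ j) u - (ev c u + ρ * ev (mo j) u)| ≤ ρ * t / 16 := by
    intro j
    have h1 := abs_ev_le (y := τ j - (c + ρ • (mo j : V k))) (r := c0 k * ρ) hS (fun i => by
      simpa using hτ j i)
    rw [ev_sub, ev_add, ev_smul, ec] at h1
    exact h1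
  refine ⟨hS, ?_, fun i => ?_⟩
  · have h1 := (abs_le.1 (hev 0)).2
    have h2 : ev (mo (0 : Fin (k + 2)) : V k) u = 0 := by
      rw [mo_zero]
      simp [ev]
    rw [h2] at h1
    rw [e16]
    rw [e8] at hy1
    linarith
  · have h1 := (abs_le.1 (hev i.succ)).1
    rw [ev_mo_succ] at h1
    rw [e16]
    rw [e4] at hy2
    have h2 := (abs_le.1 (hbar i)).2
    have h3 : ((k : ℝ) + 1 / 2) * bary u i ≤ 1 - t / 2 + t / 16 := by
      have h4 : ((k : ℝ) + 1 / 2) * bary u i ≤ ((k : ℝ) + 1 / 2) * (t + t ^ 2 / 16) := by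
        have : (0 : ℝ) ≤ (k : ℝ) + 1 / 2 := by positivity
        exact mul_le_mul_of_nonneg_left (by linarith) this
      have h5 : ((k : ℝ) + 1 / 2) * (t + t ^ 2 / 16) = 1 - t / 2 + t / 16 - t ^ 2 / 32 := by
        linear_combination (1 + t / 16) * hKt
      have h6 : 0 ≤ t ^ 2 / 32 := by positivity
      linarith
    have h7 : ρ * (t / 2 - t / 16) ≤ ρ * (1 - ((k : ℝ) + 1 / 2) * bary u i) :=
      mul_le_mul_of_nonneg_left (by linarith) hρ.le
    have h8 : 0 < ρ * t := mul_pos hρ ht0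
    nlinarith

end Pool.Agent.Lib.BeerLin
end
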