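import Pool.Agent.Lib.MP_d216ef_co.Lin.A2
import Pool.Agent.Lib.MP_d216ef_co.Lin.A3b

/-!
# B3: the prism lemma, geometric part
-/

set_option autoImplicit false

namespace Pool.Agent.Lib.BeerLin

open Set MeasureTheory Topology
open scoped ENNReal
open Pool.Agent.Lib.BeerIndex

variable {k : ℕ}

/-- height of the line of `ω₂` above the plate `ω₁` (at the vertices) -/
def gg (ω₁ ω₂ : Om k) : V k := fun i =>
  ω₂.1.2 i - ω₁.1.2 i - ω₁.2 * (ω₂.1.1 i - ω₁.1.1 i)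

/-- the data of a prism: two floors `ω₁`, `ω₂` of width `w₁`, walls through the lines `sh (τ j) ω₁` of `ω₁` in
tent position with centre `c` and size `ρ`, all slopes on the same side of the slope of `ω₁`, and a
convex set `T` connecting the two floors -/
structure Prism (R : Set (X k)) (m w₁ ρ h φ : ℝ) (ω₁ ω₂ : Om k) (c : V k) (τ : Fin (k + 2) → V k)
    (a : Fin (k + 2) → ℝ) (T : Set (X k)) : Prop where
  m_pos : 0 < m
  w₁_pos : 0 < w₁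
  ρ_pos : 0 < ρ
  ρ_le : ρ ≤ w₁
  h_pos : 0 < h
  φ_pos : 0 < φ
  h_le : h / φ ≤ c0 k * ρ
  fills : Fills R (ENNReal.ofReal m)
  floor₁ : plate ω₁ w₁ ⊆ R
  floor₂ : plate ω₂ w₁ ⊆ R
  c_le : ∀ i, |c i| + (k + 2) * ρ ≤ w₁ / 2
  near : ∀ i, |ω₂.1.1 i - ω₁.1.1 i| ≤ w₁ / 4
  tent : ∀ j i, |τ j i - (c i + ρ * (mo j : V k) i)| ≤ c0 k * ρ
  side : (∀ j, φ ≤ a j - ω₁.2) ∨ (∀ j, φ ≤ ω₁.2 - a j)
  wall : ∀ j, plate ((sh (τ j) ω₁).1, a j) (h / φ) ⊆ R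
  height : ∀ i, |gg ω₁ ω₂ i| + |ω₂.2 - ω₁.2| * w₁ < h
  T_conv : Convex ℝ T
  T_sub : T ⊆ R
  T₁ : (T ∩ plate ω₁ w₁).Nonempty
  T₂ : (T ∩ plate ω₂ w₁).Nonempty

/-- height coordinate `y'` over the plate `ω₁` -/
private def yp (ω₁ : Om k) (x : X k) : ℝ := x.2.1 - ev ω₁.1.1 x.1

private def zp (ω₁ : Om k) (x : X k) : ℝ := x.2.2 - ev ω₁.1.2 x.1 - ω₁.2 * yp ω₁ x

private def ff₂ (ω₁ ω₂ : Om k) (x : X k) : ℝ :=
  ev (gg ω₁ ω₂) x.1 + (ω₂.2 - ω₁.2) * (yp ω₁ x - ev (ω₂.1.1 - ω₁.1.1) x.1)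

private def IsAff (g : X k → ℝ) : Prop :=
  Continuous g ∧ ∀ (x y : X k) (a b : ℝ), a + b = 1 → g (a • x + b • y) = a * g x + b * g y

private theorem aff_ev (y : V k) : IsAff (fun x : X k => ev y x.1) := by
  refine ⟨continuous_ev.comp (continuous_const.prodMk continuous_fst), fun x x' a b hab => ?_⟩
  exact ev_comb y x.1 x'.1 hab

private theorem aff_y : IsAff (fun x : X k => x.2.1) :=
  ⟨continuous_fst.comp continuous_snd, fun x x' a b _ => by simp⟩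

private theorem aff_z : IsAff (fun x : X k => x.2.2) :=
  ⟨continuous_snd.comp continuous_snd, fun x x' a b _ => by simp⟩

private theorem IsAff.add {f g : X k → ℝ} (hf : IsAff f) (hg : IsAff g) :
    IsAff (fun x => f x + g x) :=
  ⟨hf.1.add hg.1, fun x y a b hab => by
    show f _ + g _ = _
    rw [hf.2 x y a b hab, hg.2 x y a b hab]; ring⟩

private theorem IsAff.sub {f g : X k → ℝ} (hf : IsAff f) (hg : IsAff g) :
    IsAff (fun x => f x - g x) :=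
  ⟨hf.1.sub hg.1, fun x y a b hab => by
    show f _ - g _ = _
    rw [hf.2 x y a b hab, hg.2 x y a b hab]; ring⟩

private theorem IsAff.mul {f : X k → ℝ} (c : ℝ) (hf : IsAff f) :
    IsAff (fun x => c * f x) :=
  ⟨continuous_const.mul hf.1, fun x y a b hab => by
    show c * f _ = _
    rw [hf.2 x y a b hab]; ring⟩

private theorem IsAff.const (c : ℝ) : IsAff (fun _ : X k => c) :=
  ⟨continuous_const, fun x y a b hab => by
    show c = a * c + b * c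
    rw [← add_mul, hab, one_mul]⟩

private theorem IsAff.div {f : X k → ℝ} (hf : IsAff f) (c : ℝ) :
    IsAff (fun x => f x / c) :=
  ⟨hf.1.div_const c, fun x y a b hab => by
    show f _ / c = _
    rw [hf.2 x y a b hab]; ring⟩

private theorem aff_yp (ω₁ : Om k) : IsAff (yp ω₁) := aff_y.sub (aff_ev _)

private theorem aff_zp (ω₁ : Om k) : IsAff (zp ω₁) :=
  (aff_z.sub (aff_ev _)).sub ((aff_yp ω₁).mul _)

private theorem aff_ff (ω₁ ω₂ : Om k) : IsAff (ff₂ ω₁ ω₂) :=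
  (aff_ev _).add (((aff_yp ω₁).sub (aff_ev _)).mul _)

/-- the affine functions defining the prism -/
private noncomputable def gK (ε h : ℝ) (ω₁ ω₂ : Om k) (τ : Fin (k + 2) → V k) (b : Fin (k + 2) → ℝ) :
    Fin (k + 2) ⊕ Fin 3 → X k → ℝ :=
  Sum.elim
    (Fin.cons (fun x => yp ω₁ x - ev (τ 0) x.1 - zp ω₁ x / b 0)
      (fun i : Fin (k + 1) => fun x => ev (τ i.succ) x.1 + zp ω₁ x / b i.succ - yp ω₁ x))
    ![fun x => ε * zp ω₁ x, fun x => h - ε * zp ω₁ x, fun x => ε * ff₂ ω₁ ω₂ x - ε * zp ω₁ x]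

private theorem aff_gK (ε h : ℝ) (ω₁ ω₂ : Om k) (τ : Fin (k + 2) → V k) (b : Fin (k + 2) → ℝ)
    (i : Fin (k + 2) ⊕ Fin 3) : IsAff (gK ε h ω₁ ω₂ τ b i) := by
  rcases i with j | i
  · refine Fin.cases ?_ (fun i => ?_) j
    · exact ((aff_yp ω₁).sub (aff_ev _)).sub ((aff_zp ω₁).div _)
    · exact ((aff_ev _).add ((aff_zp ω₁).div _)).sub (aff_yp ω₁)
  · fin_cases i
    · exact (aff_zp ω₁).mul _
    · exact (IsAff.const h).sub ((aff_zp ω₁).mul _)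
    · exact ((aff_ff ω₁ ω₂).mul _).sub ((aff_zp ω₁).mul _)

private theorem convex_of_aff {ι : Type*} (g : ι → X k → ℝ) (hg : ∀ i, IsAff (g i)) :
    Convex ℝ {x | ∀ i, 0 ≤ g i x} := by
  intro x hx y hy a b ha hb hab i
  have h1 := hx i
  have h2 := hy i
  show 0 ≤ g i (a • x + b • y)
  rw [(hg i).2 x y a b hab]
  positivity

private theorem abs_ev_lt {y : V k} {u : Fin k → ℝ} {r : ℝ} (hu : u ∈ Sx k) (h : ∀ i, |y i| < r) :
    |ev y u| < r := by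
  obtain ⟨M, hM1, hM2⟩ : ∃ M, M < r ∧ ∀ i, |y i| ≤ M := by
    refine ⟨Finset.univ.sup' ⟨0, Finset.mem_univ _⟩ (fun i => |y i|), ?_, fun i => ?_⟩
    · exact (Finset.sup'_lt_iff _).2 fun i _ => h i
    · exact Finset.le_sup' (fun i => |y i|) (Finset.mem_univ i)
  exact (abs_ev_le hu hM2).trans_lt hM1

/-- facts about the points of the prism -/
private theorem facts (hk : 1 ≤ k) {R : Set (X k)} {m w₁ ρ h φ : ℝ} {ω₁ ω₂ : Om k} {c : V k}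
    {τ : Fin (k + 2) → V k} {a : Fin (k + 2) → ℝ} {T : Set (X k)}
    (H : Prism R m w₁ ρ h φ ω₁ ω₂ c τ a T) {x : X k}
    (hu : x.1 ∈ Sx k) (hy : |yp ω₁ x - ev c x.1| ≤ 2 * ρ) :
    |yp ω₁ x| ≤ w₁ / 2 ∧ |yp ω₁ x - ev (ω₂.1.1 - ω₁.1.1) x.1| ≤ w₁ ∧ |ff₂ ω₁ ω₂ x| < h := by
  have hk' : (1 : ℝ) ≤ k := by exact_mod_cast hk
  have hρ := H.ρ_pos
  have h1 : |ev c x.1| ≤ w₁ / 2 - (k + 2) * ρ :=
    abs_ev_le hu fun i => by linarith [H.c_le i]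
  have h2 : |yp ω₁ x| ≤ w₁ / 2 := by
    have h3 : |yp ω₁ x| ≤ |yp ω₁ x - ev c x.1| + |ev c x.1| := by
      have := abs_add_le (yp ω₁ x - ev c x.1) (ev c x.1)
      simpa using this
    nlinarith
  have h3 : |ev (ω₂.1.1 - ω₁.1.1) x.1| ≤ w₁ / 4 := abs_ev_le hu fun i => H.near i
  have h4 : |yp ω₁ x - ev (ω₂.1.1 - ω₁.1.1) x.1| ≤ w₁ := by
    have := abs_sub (yp ω₁ x) (ev (ω₂.1.1 - ω₁.1.1) x.1)
    linarith [H.w₁_pos]
  refine ⟨h2, h4, ?_⟩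
  have h5 : |ev (gg ω₁ ω₂) x.1| < h - |ω₂.2 - ω₁.2| * w₁ :=
    abs_ev_lt hu fun i => by linarith [H.height i]
  have h6 : |(ω₂.2 - ω₁.2) * (yp ω₁ x - ev (ω₂.1.1 - ω₁.1.1) x.1)| ≤ |ω₂.2 - ω₁.2| * w₁ := by
    rw [abs_mul]
    exact mul_le_mul_of_nonneg_left h4 (abs_nonneg _)
  have h7 := abs_add_le (ev (gg ω₁ ω₂) x.1) ((ω₂.2 - ω₁.2) * (yp ω₁ x - ev (ω₂.1.1 - ω₁.1.1) x.1))
  show |ev (gg ω₁ ω₂) x.1 + (ω₂.2 - ω₁.2) * (yp ω₁ x - ev (ω₂.1.1 - ω₁.1.1) x.1)| < h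
  linarith

private theorem b_ge {R : Set (X k)} {m w₁ ρ h φ : ℝ} {ω₁ ω₂ : Om k} {c : V k}
    {τ : Fin (k + 2) → V k} {a : Fin (k + 2) → ℝ} {T : Set (X k)}
    (H : Prism R m w₁ ρ h φ ω₁ ω₂ c τ a T) (j : Fin (k + 2)) : φ ≤ |a j - ω₁.2| := by
  rcases H.side with h1 | h1
  · exact (h1 j).trans (le_abs_self _)
  · exact (h1 j).trans (by rw [abs_sub_comm]; exact le_abs_self _)

private theorem s_le {R : Set (X k)} {m w₁ ρ h φ : ℝ} {ω₁ ω₂ : Om k} {c : V k}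
    {τ : Fin (k + 2) → V k} {a : Fin (k + 2) → ℝ} {T : Set (X k)}
    (H : Prism R m w₁ ρ h φ ω₁ ω₂ c τ a T) {z : ℝ} (hz : |z| ≤ h) (j : Fin (k + 2)) :
    |z / (a j - ω₁.2)| ≤ h / φ := by
  rw [abs_div]
  exact div_le_div₀ H.h_pos.le hz H.φ_pos (b_ge H j)

private theorem tau_le (hk : 1 ≤ k) {R : Set (X k)} {m w₁ ρ h φ : ℝ} {ω₁ ω₂ : Om k} {c : V k}
    {τ : Fin (k + 2) → V k} {a : Fin (k + 2) → ℝ} {T : Set (X k)}
    (H : Prism R m w₁ ρ h φ ω₁ ω₂ c τ a T) (j : Fin (k + 2)) : ‖τ j‖ ≤ w₁ := by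
  have hk' : (1 : ℝ) ≤ k := by exact_mod_cast hk
  have hρ := H.ρ_pos
  have hw := H.w₁_pos
  have hc0 : c0 k ≤ 1 := by
    unfold c0
    rw [div_le_one (by positivity)]
    linarith
  refine (pi_norm_le_iff_of_nonneg hw.le).2 fun i => ?_
  rw [Real.norm_eq_abs]
  have h1 := H.tent j i
  have h2 := abs_mo_le hk j i
  have h3 := H.c_le i
  have h4 : |τ j i| ≤ |τ j i - (c i + ρ * (mo j : V k) i)| + (|c i| + |ρ * (mo j : V k) i|) := by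
    have e1 := abs_add_le (τ j i - (c i + ρ * (mo j : V k) i)) (c i + ρ * (mo j : V k) i)
    have e2 := abs_add_le (c i) (ρ * (mo j : V k) i)
    rw [sub_add_cancel] at e1
    linarith
  have h5 : |ρ * (mo j : V k) i| ≤ ρ * k := by
    rw [abs_mul, abs_of_pos hρ]
    exact mul_le_mul_of_nonneg_left h2 hρ.le
  have h6 : c0 k * ρ ≤ 1 * ρ := mul_le_mul_of_nonneg_right hc0 hρ.le
  nlinarith

/-- the points of the prism are over the simplex -/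
private theorem mem_K (hk : 1 ≤ k) {R : Set (X k)} {m w₁ ρ h φ : ℝ} {ω₁ ω₂ : Om k} {c : V k}
    {τ : Fin (k + 2) → V k} {a : Fin (k + 2) → ℝ} {T : Set (X k)}
    (H : Prism R m w₁ ρ h φ ω₁ ω₂ c τ a T) {ε : ℝ} (hε : ε = 1 ∨ ε = -1) {x : X k}
    (hx : ∀ i, 0 ≤ gK ε h ω₁ ω₂ τ (fun j => a j - ω₁.2) i x) :
    x.1 ∈ Sx k ∧ |zp ω₁ x| ≤ h ∧ |yp ω₁ x - ev c x.1| ≤ 2 * ρ := by
  have z0 : 0 ≤ ε * zp ω₁ x := hx (Sum.inr 0)
  have z1 : 0 ≤ h - ε * zp ω₁ x := hx (Sum.inr 1)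
  have hz : |zp ω₁ x| ≤ h := by
    rw [abs_le]
    rcases hε with rfl | rfl
    · constructor <;> linarith [H.h_pos]
    · constructor <;> linarith [H.h_pos]
  have h0 : 0 ≤ yp ω₁ x - ev (τ 0) x.1 - zp ω₁ x / (a 0 - ω₁.2) := hx (Sum.inl 0)
  have h1 : ∀ i : Fin (k + 1), 0 ≤ ev (τ i.succ) x.1 + zp ω₁ x / (a i.succ - ω₁.2) - yp ω₁ x :=
    fun i => hx (Sum.inl i.succ)
  obtain ⟨e1, e2⟩ := tent hk H.ρ_pos c τ H.tent x.1 (fun j => zp ω₁ x / (a j - ω₁.2))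
    (fun j => (s_le H hz j).trans H.h_le) (yp ω₁ x) (by linarith) (fun i => by linarith [h1 i])
  exact ⟨fun i => (e1 i).le, hz, e2⟩

private theorem compact_K (hk : 1 ≤ k) {R : Set (X k)} {m w₁ ρ h φ : ℝ} {ω₁ ω₂ : Om k} {c : V k}
    {τ : Fin (k + 2) → V k} {a : Fin (k + 2) → ℝ} {T : Set (X k)}
    (H : Prism R m w₁ ρ h φ ω₁ ω₂ c τ a T) {ε : ℝ} (hε : ε = 1 ∨ ε = -1) :
    IsCompact {x : X k | ∀ i, 0 ≤ gK ε h ω₁ ω₂ τ (fun j => a j - ω₁.2) i x} := by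
  have hcl : IsClosed {x : X k | ∀ i, 0 ≤ gK ε h ω₁ ω₂ τ (fun j => a j - ω₁.2) i x} := by
    rw [Set.ofPred_forall]
    exact isClosed_iInter fun i => isClosed_le continuous_const (aff_gK _ _ _ _ _ _ i).1
  have hcont : Continuous (fun p : (Fin k → ℝ) × ℝ × ℝ =>
      ((p.1, p.2.1 + ev ω₁.1.1 p.1, p.2.2 + ev ω₁.1.2 p.1 + ω₁.2 * p.2.1) : X k)) := by
    have e1 : Continuous (fun p : (Fin k → ℝ) × ℝ × ℝ => ev ω₁.1.1 p.1) := (aff_ev ω₁.1.1).1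
    have e2 : Continuous (fun p : (Fin k → ℝ) × ℝ × ℝ => ev ω₁.1.2 p.1) := (aff_ev ω₁.1.2).1
    fun_prop
  have hc : IsCompact ((fun p : (Fin k → ℝ) × ℝ × ℝ =>
      ((p.1, p.2.1 + ev ω₁.1.1 p.1, p.2.2 + ev ω₁.1.2 p.1 + ω₁.2 * p.2.1) : X k)) ''
      (Sx k ×ˢ (Icc (-(w₁ / 2)) (w₁ / 2) ×ˢ Icc (-h) h))) :=
    (isCompact_Sx.prod (isCompact_Icc.prod isCompact_Icc)).image hcont
  refine hc.of_isClosed_subset hcl fun x hx => ?_
  obtain ⟨h1, h2, h3⟩ := mem_K hk H hε hx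
  obtain ⟨h4, -, -⟩ := facts hk H h1 h3
  refine ⟨(x.1, yp ω₁ x, zp ω₁ x), ⟨h1, abs_le.1 h4, abs_le.1 h2⟩, ?_⟩
  obtain ⟨u, y, z⟩ := x
  simp only [yp, zp]
  refine Prod.ext rfl (Prod.ext ?_ ?_)
  · show y - ev ω₁.1.1 u + ev ω₁.1.1 u = y
    ring
  · show z - ev ω₁.1.2 u - ω₁.2 * (y - ev ω₁.1.1 u) + ev ω₁.1.2 u + ω₁.2 * (y - ev ω₁.1.1 u) = z
    ring

private theorem mem_floor₁ {ω₁ : Om k} {w₁ : ℝ} {x : X k} (h1 : x.1 ∈ Sx k) (h2 : |yp ω₁ x| ≤ w₁)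
    (h3 : zp ω₁ x = 0) : x ∈ plate ω₁ w₁ := by
  refine ⟨h1, h2, ?_⟩
  have : x.2.2 - ev ω₁.1.2 x.1 - ω₁.2 * (x.2.1 - ev ω₁.1.1 x.1) = 0 := h3
  linarith

private theorem mem_floor₂ {ω₁ ω₂ : Om k} {w₁ : ℝ} {x : X k} (h1 : x.1 ∈ Sx k)
    (h2 : |yp ω₁ x - ev (ω₂.1.1 - ω₁.1.1) x.1| ≤ w₁)
    (h3 : zp ω₁ x = ff₂ ω₁ ω₂ x) : x ∈ plate ω₂ w₁ := by
  have e1 : ev (ω₂.1.1 - ω₁.1.1) x.1 = ev ω₂.1.1 x.1 - ev ω₁.1.1 x.1 := ev_sub _ _ _
  have e2 : ev (gg ω₁ ω₂) x.1 = ev ω₂.1.2 x.1 - ev ω₁.1.2 x.1 -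
      ω₁.2 * (ev ω₂.1.1 x.1 - ev ω₁.1.1 x.1) := by
    have : gg ω₁ ω₂ = (ω₂.1.2 - ω₁.1.2) - ω₁.2 • (ω₂.1.1 - ω₁.1.1) := by
      funext i
      simp [gg]
    rw [this, ev_sub, ev_sub, ev_smul, ev_sub]
  refine ⟨h1, ?_, ?_⟩
  · rw [e1] at h2
    simp only [yp] at h2
    have : x.2.1 - ev ω₁.1.1 x.1 - (ev ω₂.1.1 x.1 - ev ω₁.1.1 x.1) = x.2.1 - ev ω₂.1.1 x.1 := by ring
    rwa [this] at h2
  · simp only [zp, ff₂, yp] at h3
    rw [e1, e2] at h3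
    linear_combination h3

private theorem mem_wall {ω₁ : Om k} {τ : V k} {a w : ℝ} {x : X k} (h1 : x.1 ∈ Sx k)
    (hb : a - ω₁.2 ≠ 0)
    (h2 : |zp ω₁ x / (a - ω₁.2)| ≤ w) (h3 : yp ω₁ x = ev τ x.1 + zp ω₁ x / (a - ω₁.2)) :
    x ∈ plate ((sh τ ω₁).1, a) w := by
  have e1 : ev (ω₁.1.1 + τ) x.1 = ev ω₁.1.1 x.1 + ev τ x.1 := ev_add _ _ _
  have e2 : ev (ω₁.1.2 + ω₁.2 • τ) x.1 = ev ω₁.1.2 x.1 + ω₁.2 * ev τ x.1 := by
    rw [ev_add, ev_smul]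
  have h4 : x.2.1 - ev (ω₁.1.1 + τ) x.1 = zp ω₁ x / (a - ω₁.2) := by
    rw [e1]
    simp only [yp] at h3
    linarith
  refine ⟨h1, ?_, ?_⟩
  · show |x.2.1 - ev (ω₁.1.1 + τ) x.1| ≤ w
    rw [h4]
    exact h2
  · show x.2.2 = ev (ω₁.1.2 + ω₁.2 • τ) x.1 + a * (x.2.1 - ev (ω₁.1.1 + τ) x.1)
    rw [h4, e2]
    have h5 : zp ω₁ x = (a - ω₁.2) * (zp ω₁ x / (a - ω₁.2)) := by field_simp
    have h6 : x.2.2 = ev ω₁.1.2 x.1 + ω₁.2 * yp ω₁ x + zp ω₁ x := by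
      simp only [zp]; ring
    have h7 : ω₁.2 * yp ω₁ x = ω₁.2 * (ev τ x.1 + zp ω₁ x / (a - ω₁.2)) := by rw [← h3]
    linear_combination h6 + h7 + h5

private theorem volume_K_le (hk : 1 ≤ k) {R : Set (X k)} {m w₁ ρ h φ : ℝ} {ω₁ ω₂ : Om k} {c : V k}
    {τ : Fin (k + 2) → V k} {a : Fin (k + 2) → ℝ} {T : Set (X k)}
    (H : Prism R m w₁ ρ h φ ω₁ ω₂ c τ a T) {ε : ℝ} (hε : ε = 1 ∨ ε = -1) :
    volume {x : X k | ∀ i, 0 ≤ gK ε h ω₁ ω₂ τ (fun j => a j - ω₁.2) i x} ≤ ENNReal.ofReal m := by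
  have hhφ : 0 ≤ h / φ := (div_pos H.h_pos H.φ_pos).le
  let C : Fin ((k + 4) + 1) → Set (X k) :=
    Fin.cons (plate ω₁ w₁) (Fin.cons T (Fin.cons (plate ω₂ w₁)
      (fun j : Fin (k + 2) => plate ((sh (τ j) ω₁).1, a j) (h / φ))))
  have hC0 : C 0 = plate ω₁ w₁ := rfl
  have hC1 : C 1 = T := rfl
  have hC2 : C 2 = plate ω₂ w₁ := rfl
  have hC3 : ∀ j : Fin (k + 2), C j.succ.succ.succ = plate ((sh (τ j) ω₁).1, a j) (h / φ) :=
    fun j => rfl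
  have hind : ∀ P : Set (X k) → Prop, P (plate ω₁ w₁) → P T → P (plate ω₂ w₁) →
      (∀ j : Fin (k + 2), P (plate ((sh (τ j) ω₁).1, a j) (h / φ))) → ∀ i, P (C i) := by
    intro P p0 p1 p2 p3 i
    refine Fin.cases p0 (fun i => ?_) i
    refine Fin.cases p1 (fun i => ?_) i
    refine Fin.cases p2 (fun i => ?_) i
    exact p3 i
  have hne : ∀ j, a j - ω₁.2 ≠ 0 := fun j h0 => by
    have := b_ge H j
    rw [h0, abs_zero] at this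
    exact absurd H.φ_pos (not_lt.2 this)
  refine H.fills _ (k + 4) C (compact_K hk H hε) (convex_of_aff _ fun i => aff_gK _ _ _ _ _ _ i)
    ?_ ?_ ?_ ?_
  · exact hind _ (convex_plate _ _) H.T_conv (convex_plate _ _) fun j => convex_plate _ _
  · exact hind (fun s => s ⊆ R) H.floor₁ H.T_sub H.floor₂ H.wall
  · have r1 : Relation.ReflTransGen (fun a b => (C a ∩ C b).Nonempty) 0 (1 : Fin ((k + 4) + 1)) := by
      refine Relation.ReflTransGen.single ?_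
      rw [hC0, hC1, inter_comm]
      exact H.T₁
    intro i
    refine Fin.cases Relation.ReflTransGen.refl (fun i => ?_) i
    refine Fin.cases r1 (fun i => ?_) i
    refine Fin.cases (r1.tail (b := 1) ?_) (fun i => ?_) i
    · exact H.T₂
    · refine Relation.ReflTransGen.single ?_
      exact plate_inter_sh_nonempty ω₁ (τ i) (a i) (tau_le hk H i) hhφ
  · refine (frontier_polyhedron _ fun i => (aff_gK _ _ _ _ _ _ i).1).trans ?_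
    rintro x ⟨hx, i, hi⟩
    obtain ⟨h1, h2, h3⟩ := mem_K hk H hε hx
    obtain ⟨h4, h5, h6⟩ := facts hk H h1 h3
    have hyw : |yp ω₁ x| ≤ w₁ := h4.trans (by linarith [H.w₁_pos])
    rcases i with j | i
    · refine mem_iUnion.2 ⟨j.succ.succ.succ, ?_⟩
      rw [hC3]
      revert hi
      refine Fin.cases (fun hi => ?_) (fun i hi => ?_) j
      · have hi' : yp ω₁ x - ev (τ 0) x.1 - zp ω₁ x / (a 0 - ω₁.2) = 0 := hi
        exact mem_wall h1 (hne 0) (s_le H h2 0) (by linarith)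
      · have hi' : ev (τ i.succ) x.1 + zp ω₁ x / (a i.succ - ω₁.2) - yp ω₁ x = 0 := hi
        exact mem_wall h1 (hne _) (s_le H h2 _) (by linarith)
    · have hε0 : ε ≠ 0 := by rcases hε with rfl | rfl <;> norm_num
      fin_cases i
      · have hi' : ε * zp ω₁ x = 0 := hi
        have hz : zp ω₁ x = 0 := (mul_eq_zero.1 hi').resolve_left hε0
        exact mem_iUnion.2 ⟨0, by rw [hC0]; exact mem_floor₁ h1 hyw hz⟩
      · have hi' : h - ε * zp ω₁ x = 0 := hi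
        have hx2 : 0 ≤ ε * ff₂ ω₁ ω₂ x - ε * zp ω₁ x := hx (Sum.inr 2)
        exfalso
        have h7 := abs_lt.1 h6
        rcases hε with rfl | rfl <;> linarith [h7.1, h7.2]
      · have hi' : ε * ff₂ ω₁ ω₂ x - ε * zp ω₁ x = 0 := hi
        have hz : zp ω₁ x = ff₂ ω₁ ω₂ x := by
          have : ε * ff₂ ω₁ ω₂ x = ε * zp ω₁ x := by linarith
          exact (mul_left_cancel₀ hε0 this).symm
        exact mem_iUnion.2 ⟨2, by rw [hC2]; exact mem_floor₂ h1 h5 hz⟩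

/-- **Prism lemma, geometric part.** `ε = ±1`. If over a sheared box inside the core of the tent the second
floor is above the first one (`ε = 1`; below, `ε = -1`) by at least `L`, then `volume of the box * L ≤ m`.

Proof. For `x = (u, y, z)` let `y' = y - ev ω₁.1.1 u`, `z' = z - ev ω₁.1.2 u - ω₁.2 * y'`,
`f u y' = ev (gg ω₁ ω₂) u + (ω₂.2 - ω₁.2) * (y' - ev (ω₂.1.1 - ω₁.1.1) u)` (so the plate `ω₂` is
`z' = f u y'`), `b j = a j - ω₁.2`, `|b j| ≥ φ`. If `v₀ ≤ v₁` then `0 ≤ L < h` (value at one point of the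
box, since `|f| < h` for `u ∈ Sx k`, `|y'| ≤ w₁/2` by `abs_ev_le`, `height`, `near`); if `v₁ < v₀` the claim
is trivial. Let
`K = {x | 0 ≤ ε z', ε z' ≤ h, ε z' ≤ ε f u y', ev (τ 0) u + z'/b 0 ≤ y', ∀ i, y' ≤ ev (τ i.succ) u + z'/b i.succ}`.
For `x ∈ K`, `|z'/b j| ≤ h/φ ≤ c0 ρ`, so by `tent` `u ∈ Sx k` (even interior) and `|y' - ev c u| ≤ 2 ρ`, so
`|y'| ≤ w₁/2` (`c_le`). Hence `K` is compact and convex. Frontier (`frontier_polyhedron`): `ε z' = h` is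
impossible (`ε z' ≤ ε f < h`); `z' = 0` gives a point of `plate ω₁ w₁`; `z' = f` gives a point of
`plate ω₂ w₁` (`|y - ev ω₂.1.1 u| ≤ |y'| + w₁/4`); `y' = ev (τ j) u + z'/b j` gives a point of
`plate ((sh (τ j) ω₁).1, a j) (h/φ)`. The plates are joined: walls and `plate ω₁ w₁`:
`plate_inter_sh_nonempty` (`‖τ j‖ ≤ w₁` by `c_le`, `abs_mo_le`), `T` meets both floors. So
`volume K ≤ ofReal m`. By `tent_core` the sheared box
`|u i - u₀ i| ≤ r`, `y' - ev c u ∈ [v₀, v₁]`, `ε z' ∈ [0, L]` is in `K` (the margin `ρ/(16(k+1)) = c0 ρ`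
is `≥ |z'/b j|`), use `volume_shear`, `volume_cube`. -/
theorem prism_box (hk : 1 ≤ k) {R : Set (X k)} {m w₁ ρ h φ : ℝ} {ω₁ ω₂ : Om k} {c : V k}
    {τ : Fin (k + 2) → V k} {a : Fin (k + 2) → ℝ} {T : Set (X k)}
    (H : Prism R m w₁ ρ h φ ω₁ ω₂ c τ a T) {ε : ℝ} (hε : ε = 1 ∨ ε = -1)
    (u₀ : Fin k → ℝ) (r v₀ v₁ L : ℝ) (hr : 0 ≤ r) (hL : 0 ≤ L)
    (hbox : ∀ u : Fin k → ℝ, (∀ i, |u i - u₀ i| ≤ r) → ∀ v ∈ Icc v₀ v₁,
      (∀ i, |u i - 1 / ((k : ℝ) + 1)| ≤ 1 / (16 * ((k : ℝ) + 1) ^ 3)) ∧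
      ρ / (8 * ((k : ℝ) + 1)) ≤ v ∧ v ≤ ρ / (4 * ((k : ℝ) + 1)) ∧
      L ≤ ε * (ev (gg ω₁ ω₂) u +
        (ω₂.2 - ω₁.2) * (v + ev c u - ev (ω₂.1.1 - ω₁.1.1) u))) :
    (2 * r) ^ k * (v₁ - v₀) * L ≤ m := by
  rcases lt_or_ge v₁ v₀ with hv | hv
  · have h1 : (2 * r) ^ k * (v₁ - v₀) * L ≤ 0 := by
      refine mul_nonpos_of_nonpos_of_nonneg (mul_nonpos_of_nonneg_of_nonpos (by positivity) ?_) hL
      linarith
    exact h1.trans H.m_pos.le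
  have hK := volume_K_le hk H hε
  obtain ⟨γ, δ, hγδ, hiff⟩ : ∃ γ δ : ℝ, δ - γ = L ∧
      ∀ z : ℝ, z ∈ Icc γ δ → 0 ≤ ε * z ∧ ε * z ≤ L := by
    rcases hε with rfl | rfl
    · exact ⟨0, L, by ring, fun z hz => ⟨by linarith [hz.1], by linarith [hz.2]⟩⟩
    · exact ⟨-L, 0, by ring, fun z hz => ⟨by linarith [hz.2], by linarith [hz.1]⟩⟩
  have hsub : {x : X k | x.1 ∈ {u : Fin k → ℝ | ∀ i, |u i - u₀ i| ≤ r} ∧
      x.2.1 - (ev ω₁.1.1 x.1 + ev c x.1) ∈ Icc v₀ v₁ ∧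
      x.2.2 - (fun p : (Fin k → ℝ) × ℝ => ev ω₁.1.2 p.1 + ω₁.2 * (p.2 - ev ω₁.1.1 p.1))
        (x.1, x.2.1) ∈ Icc γ δ} ⊆
      {x : X k | ∀ i, 0 ≤ gK ε h ω₁ ω₂ τ (fun j => a j - ω₁.2) i x} := by
    rintro x ⟨hx1, hx2, hx3⟩
    obtain ⟨b1, b2, b3, b4⟩ := hbox x.1 hx1 _ hx2
    have ey : x.2.1 - (ev ω₁.1.1 x.1 + ev c x.1) = yp ω₁ x - ev c x.1 := by
      simp only [yp]; ring
    have ez : x.2.2 - (ev ω₁.1.2 x.1 + ω₁.2 * (x.2.1 - ev ω₁.1.1 x.1)) = zp ω₁ x := by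
      simp only [yp, zp]; ring
    have hx3' : x.2.2 - (ev ω₁.1.2 x.1 + ω₁.2 * (x.2.1 - ev ω₁.1.1 x.1)) ∈ Icc γ δ := hx3
    rw [ez] at hx3'
    rw [ey] at b2 b3 b4
    obtain ⟨z0, z1⟩ := hiff _ hx3'
    obtain ⟨c1, c2, c3⟩ := tent_core hk H.ρ_pos c τ H.tent x.1 b1 (yp ω₁ x) b2 b3
    have e4 : L ≤ ε * ff₂ ω₁ ω₂ x := by
      refine b4.trans (le_of_eq ?_)
      simp only [ff₂]
      ring
    have hρ := H.ρ_pos
    have hρ8 : 0 ≤ ρ / (8 * ((k : ℝ) + 1)) := by positivity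
    have hρ4 : ρ / (4 * ((k : ℝ) + 1)) ≤ 2 * ρ := by
      rw [div_le_iff₀ (by positivity)]
      have : (0 : ℝ) ≤ k := Nat.cast_nonneg k
      nlinarith
    obtain ⟨-, -, f3⟩ := facts hk H c1 (x := x) (by
      rw [abs_le]
      constructor <;> linarith)
    have f4 := abs_lt.1 f3
    have hz : |zp ω₁ x| ≤ h := by
      rw [abs_le]
      rcases hε with rfl | rfl
      · constructor <;> linarith [H.h_pos]
      · constructor <;> linarith [H.h_pos]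
    have hzh : ε * zp ω₁ x ≤ h := by
      have := abs_le.1 hz
      rcases hε with rfl | rfl <;> linarith [this.1, this.2]
    have hs : ∀ j, |zp ω₁ x / (a j - ω₁.2)| ≤ ρ / (16 * ((k : ℝ) + 1)) := by
      intro j
      refine ((s_le H hz j).trans H.h_le).trans (le_of_eq ?_)
      unfold c0
      ring
    intro i
    rcases i with j | i
    · refine Fin.cases ?_ (fun i => ?_) j
      · show 0 ≤ yp ω₁ x - ev (τ 0) x.1 - zp ω₁ x / (a 0 - ω₁.2)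
        have := abs_le.1 (hs 0)
        linarith [this.1, this.2]
      · show 0 ≤ ev (τ i.succ) x.1 + zp ω₁ x / (a i.succ - ω₁.2) - yp ω₁ x
        have := abs_le.1 (hs i.succ)
        linarith [this.1, this.2, c3 i]
    · fin_cases i
      · exact z0
      · show 0 ≤ h - ε * zp ω₁ x
        linarith
      · show 0 ≤ ε * ff₂ ω₁ ω₂ x - ε * zp ω₁ x
        linarith
  have hcont1 : Continuous (fun u : Fin k → ℝ => ev ω₁.1.1 u + ev c u) :=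
    (continuous_ev.comp (continuous_const.prodMk continuous_id)).add
      (continuous_ev.comp (continuous_const.prodMk continuous_id))
  have hcont2 : Continuous (fun p : (Fin k → ℝ) × ℝ =>
      ev ω₁.1.2 p.1 + ω₁.2 * (p.2 - ev ω₁.1.1 p.1)) := by
    have e1 : Continuous (fun p : (Fin k → ℝ) × ℝ => ev ω₁.1.2 p.1) :=
      continuous_ev.comp (continuous_const.prodMk continuous_fst)
    have e2 : Continuous (fun p : (Fin k → ℝ) × ℝ => ev ω₁.1.1 p.1) :=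
      continuous_ev.comp (continuous_const.prodMk continuous_fst)
    fun_prop
  have hA : MeasurableSet {u : Fin k → ℝ | ∀ i, |u i - u₀ i| ≤ r} := by
    rw [Set.ofPred_forall]
    refine (isClosed_iInter fun i => isClosed_le ?_ continuous_const).measurableSet
    fun_prop
  have hvol := volume_shear {u : Fin k → ℝ | ∀ i, |u i - u₀ i| ≤ r} hA
    (fun u => ev ω₁.1.1 u + ev c u) hcont1
    (fun p : (Fin k → ℝ) × ℝ => ev ω₁.1.2 p.1 + ω₁.2 * (p.2 - ev ω₁.1.1 p.1)) hcont2 v₀ v₁ γ δ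
  rw [volume_cube u₀ hr, hγδ] at hvol
  have h1 := (measure_mono hsub).trans hK
  rw [hvol, ← ENNReal.ofReal_mul (by linarith), ← ENNReal.ofReal_mul (by positivity)] at h1
  have h2 := (ENNReal.ofReal_le_ofReal_iff H.m_pos.le).1 h1
  linarith [h2]

end Pool.Agent.Lib.BeerLin
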