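import Mathlib
import Pool.Agent.Lib.MP_d216ef_co.Lin.A2
import Pool.Agent.Lib.MP_d216ef_co.Lin.B3

section

/-!
# B1: the pattern lemma
-/

set_option autoImplicit false

namespace Pool.Agent.Lib.BeerLin

open Set MeasureTheory Topology
open scoped ENNReal

/-- all `N^D` subcubes meet `Z` -/
private def B1full {D : ℕ} (N : ℕ) (Z : Set (Fin D → ℝ)) (x' : Fin D → ℝ) (s' : ℝ) : Prop :=
  ∀ n : Fin D → Fin N,
    (Z ∩ Icc (fun i => x' i + s' / N * ((n i : ℕ) : ℝ))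
      (fun i => x' i + s' / N * (((n i : ℕ) : ℝ) + 1))).Nonempty

private theorem B1vol {D : ℕ} (x : Fin D → ℝ) {s : ℝ} (hs : 0 ≤ s) :
    volume (Icc x (fun i => x i + s)) = ENNReal.ofReal (s ^ D) := by
  rw [Real.volume_Icc_pi]
  simp [ENNReal.ofReal_pow hs]

private theorem B1cover {D N : ℕ} (hN : 2 ≤ N) (x : Fin D → ℝ) {s : ℝ} (hs : 0 < s) :
    Icc x (fun i => x i + s) ⊆ ⋃ m : Fin D → Fin N,
      Icc (fun i => x i + s / N * ((m i : ℕ) : ℝ)) (fun i => x i + s / N * (((m i : ℕ) : ℝ) + 1)) := by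
  intro y hy
  have hN0 : (0 : ℝ) < N := by positivity
  have hsN : 0 < s / N := by positivity
  rw [mem_iUnion]
  have key : ∀ i, ∃ k : Fin N, x i + s / N * ((k : ℕ) : ℝ) ≤ y i ∧
      y i ≤ x i + s / N * (((k : ℕ) : ℝ) + 1) := by
    intro i
    have h1 : x i ≤ y i := hy.1 i
    have h2 : y i ≤ x i + s := hy.2 i
    obtain ⟨t, ht⟩ : ∃ t, t = (y i - x i) / (s / N) := ⟨_, rfl⟩
    have ht0 : 0 ≤ t := by rw [ht]; exact div_nonneg (by linarith) hsN.le
    have hyt : y i = x i + s / N * t := by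
      rw [ht]; field_simp; ring
    have htN : t ≤ N := by
      rw [ht, div_le_iff₀ hsN]
      have : (N : ℝ) * (s / N) = s := by field_simp
      rw [this]; linarith
    rcases lt_or_ge ⌊t⌋₊ N with hlt | hge
    · refine ⟨⟨⌊t⌋₊, hlt⟩, ?_, ?_⟩
      · rw [hyt]
        have := Nat.floor_le ht0
        have := mul_le_mul_of_nonneg_left this hsN.le
        simpa using this
      · rw [hyt]
        have := (Nat.lt_floor_add_one t).le
        have := mul_le_mul_of_nonneg_left this hsN.le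
        simpa using this
    · have h3 : (N : ℝ) ≤ t := (Nat.cast_le.2 hge).trans (Nat.floor_le ht0)
      have h4 : t = N := le_antisymm htN h3
      have h5 : ((N - 1 : ℕ) : ℝ) = (N : ℝ) - 1 := by
        rw [Nat.cast_sub (by omega)]; simp
      refine ⟨⟨N - 1, by omega⟩, ?_, ?_⟩
      · rw [hyt, h4]
        have : s / N * ((N - 1 : ℕ) : ℝ) ≤ s / N * N :=
          mul_le_mul_of_nonneg_left (by rw [h5]; linarith) hsN.le
        simpa using this
      · rw [hyt, h4]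
        have : s / N * N ≤ s / N * (((N - 1 : ℕ) : ℝ) + 1) :=
          mul_le_mul_of_nonneg_left (by rw [h5]; linarith) hsN.le
        simpa using this
  choose m hm1 hm2 using key
  exact ⟨m, fun i => hm1 i, fun i => hm2 i⟩

private theorem B1sub {D N : ℕ} (hN : 2 ≤ N) (x : Fin D → ℝ) {s : ℝ} (hs : 0 < s)
    (m : Fin D → Fin N) :
    Icc (fun i => x i + s / N * ((m i : ℕ) : ℝ)) (fun i => x i + s / N * (((m i : ℕ) : ℝ) + 1)) ⊆
      Icc x (fun i => x i + s) := by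
  have hN0 : (0 : ℝ) < N := by positivity
  have hsN : 0 < s / N := by positivity
  apply Icc_subset_Icc
  · intro i
    have : 0 ≤ s / N * ((m i : ℕ) : ℝ) := by positivity
    show x i ≤ x i + s / N * ((m i : ℕ) : ℝ)
    linarith
  · intro i
    have h1 : ((m i : ℕ) : ℝ) + 1 ≤ N := by exact_mod_cast (m i).2
    have h2 : s / N * (((m i : ℕ) : ℝ) + 1) ≤ s / N * N := mul_le_mul_of_nonneg_left h1 hsN.le
    have h3 : s / N * N = s := by field_simp
    show x i + s / N * (((m i : ℕ) : ℝ) + 1) ≤ x i + s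
    linarith

private theorem B1ind {D N : ℕ} (hN : 2 ≤ N) (Z : Set (Fin D → ℝ)) (n : ℕ) :
    ∀ (x : Fin D → ℝ) (s : ℝ), 0 < s →
      (∃ (x' : Fin D → ℝ) (s' : ℝ), s * (1 / N : ℝ) ^ n ≤ s' / N ∧
        Icc x' (fun i => x' i + s') ⊆ Icc x (fun i => x i + s) ∧ B1full N Z x' s') ∨
      volume (Z ∩ Icc x (fun i => x i + s)) ≤
        ENNReal.ofReal ((1 - 1 / (N : ℝ) ^ D) ^ n * s ^ D) := by
  have hN0 : (0 : ℝ) < N := by positivity
  have hND : (1 : ℝ) ≤ (N : ℝ) ^ D := one_le_pow₀ (by exact_mod_cast (by omega : 1 ≤ N))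
  have hθ0 : 0 ≤ 1 - 1 / (N : ℝ) ^ D := by
    have : 1 / (N : ℝ) ^ D ≤ 1 := by
      rw [div_le_one (by positivity)]; exact hND
    linarith
  induction n with
  | zero =>
    intro x s hs
    right
    rw [pow_zero, one_mul, ← B1vol x hs.le]
    exact measure_mono inter_subset_right
  | succ n ih =>
    intro x s hs
    have hsN : 0 < s / N := by positivity
    by_cases hfull : B1full N Z x s
    · left
      refine ⟨x, s, ?_, subset_rfl, hfull⟩
      have h1 : (1 / N : ℝ) ^ n ≤ 1 := pow_le_one₀ (by positivity) (by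
        rw [div_le_one hN0]; exact_mod_cast (by omega : 1 ≤ N))
      rw [pow_succ]
      have h2 : s * ((1 / N : ℝ) ^ n * (1 / N)) = s / N * (1 / N : ℝ) ^ n := by ring
      rw [h2]
      calc s / N * (1 / N : ℝ) ^ n ≤ s / N * 1 := mul_le_mul_of_nonneg_left h1 hsN.le
        _ = s / N := mul_one _
    · have hcube : ∀ m : Fin D → Fin N,
          Icc (fun i => x i + s / N * ((m i : ℕ) : ℝ))
            (fun i => x i + s / N * (((m i : ℕ) : ℝ) + 1)) =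
          Icc (fun i => x i + s / N * ((m i : ℕ) : ℝ))
            (fun i => (x i + s / N * ((m i : ℕ) : ℝ)) + s / N) := by
        intro m
        congr 1
        funext i
        ring
      by_cases hex : ∃ m : Fin D → Fin N, ∃ (x' : Fin D → ℝ) (s' : ℝ),
          s / N * (1 / N : ℝ) ^ n ≤ s' / N ∧
          Icc x' (fun i => x' i + s') ⊆ Icc (fun i => x i + s / N * ((m i : ℕ) : ℝ))
            (fun i => (x i + s / N * ((m i : ℕ) : ℝ)) + s / N) ∧ B1full N Z x' s'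
      · left
        obtain ⟨m, x', s', h1, h2, h3⟩ := hex
        refine ⟨x', s', ?_, ?_, h3⟩
        · rw [pow_succ]
          have h4 : s * ((1 / N : ℝ) ^ n * (1 / N)) = s / N * (1 / N : ℝ) ^ n := by ring
          rw [h4]; exact h1
        · refine h2.trans ?_
          rw [← hcube m]
          exact B1sub hN x hs m
      · right
        have hall : ∀ m : Fin D → Fin N,
            volume (Z ∩ Icc (fun i => x i + s / N * ((m i : ℕ) : ℝ))
              (fun i => x i + s / N * (((m i : ℕ) : ℝ) + 1))) ≤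
            ENNReal.ofReal ((1 - 1 / (N : ℝ) ^ D) ^ n * (s / N) ^ D) := by
          intro m
          rcases ih (fun i => x i + s / N * ((m i : ℕ) : ℝ)) (s / N) hsN with h | h
          · exact absurd ⟨m, h⟩ hex
          · rw [hcube m]; exact h
        unfold B1full at hfull
        push Not at hfull
        obtain ⟨m0, hm0⟩ := hfull
        have hcov : volume (Z ∩ Icc x (fun i => x i + s)) ≤
            ∑ m : Fin D → Fin N, volume (Z ∩ Icc (fun i => x i + s / N * ((m i : ℕ) : ℝ))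
              (fun i => x i + s / N * (((m i : ℕ) : ℝ) + 1))) := by
          refine (measure_mono ?_).trans (measure_iUnion_fintype_le volume _)
          rw [← inter_iUnion]
          exact inter_subset_inter_right _ (B1cover hN x hs)
        refine hcov.trans ?_
        classical
        rw [← Finset.add_sum_erase _ _ (Finset.mem_univ m0), hm0, measure_empty, zero_add]
        refine (Finset.sum_le_sum fun m _ => hall m).trans ?_
        rw [Finset.sum_const, Finset.card_erase_of_mem (Finset.mem_univ m0), Finset.card_univ,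
          Fintype.card_fun, Fintype.card_fin, Fintype.card_fin, nsmul_eq_mul]
        have h1 : ((N ^ D - 1 : ℕ) : ℝ≥0∞) = ENNReal.ofReal ((N : ℝ) ^ D - 1) := by
          have hle : 1 ≤ N ^ D := Nat.one_le_pow _ _ (by omega)
          have h2 : ((N ^ D - 1 : ℕ) : ℝ) = (N : ℝ) ^ D - 1 := by
            rw [Nat.cast_sub hle]; simp
          rw [← h2, ENNReal.ofReal_natCast]
        rw [h1, ← ENNReal.ofReal_mul (by linarith)]
        apply ENNReal.ofReal_le_ofReal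
        apply le_of_eq
        rw [pow_succ, div_pow]
        have hNDpos : (0 : ℝ) < (N : ℝ) ^ D := by positivity
        field_simp

/-- **Pattern lemma.** A set of relative (outer) measure `κ` in a cube meets all `N^D` subcubes of some
cube of relative side `≥ κ^q`.

Proof. Let `θ = 1 - N^(-D) < 1`. By induction on `n`: if a cube `Q` of side `s` contains no cube `Q'` of the
`N`-adic subdivisions of level `< n` all of whose `N^D` (closed) subcubes meet `Z`, then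
`volume (Z ∩ Q) ≤ ofReal (θ^n s^D)`. (`n = 0` is trivial; for `n + 1`: one of the subcubes of `Q` does not
meet `Z`, the other `N^D - 1` subcubes satisfy the hypothesis with `n`, so
`volume (Z ∩ Q) ≤ (N^D - 1) θ^n (s/N)^D = θ^(n+1) s^D`.) Only subadditivity is used, `Z` need not be
measurable. Choose `q ≥ 1` with `θ^q ≤ 1/N`. Given `κ`, let `n` be minimal with `θ^n < κ` (`n ≥ 1` since
`κ ≤ 1`); then `θ^(n-1) ≥ κ` and a full cube exists at a level `l ≤ n - 1` (if `volume (Z ∩ Q) > θ^n s^D`,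
which holds as `κ > θ^n`), its side is `s / N^l ≥ s (1/N)^(n-1) ≥ s θ^(q(n-1)) ≥ s κ^q`.
(For `D = 0` everything is trivial.) -/
theorem pattern (D N : ℕ) (hN : 2 ≤ N) : ∃ q : ℕ, 1 ≤ q ∧
    ∀ (Z : Set (Fin D → ℝ)) (x : Fin D → ℝ) (s κ : ℝ), 0 < s → 0 < κ → κ ≤ 1 →
      ENNReal.ofReal (κ * s ^ D) ≤ volume (Z ∩ Icc x (fun i => x i + s)) →
      ∃ (x' : Fin D → ℝ) (s' : ℝ), κ ^ q * s ≤ s' ∧
        Icc x' (fun i => x' i + s') ⊆ Icc x (fun i => x i + s) ∧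
        ∀ n : Fin D → Fin N,
          (Z ∩ Icc (fun i => x' i + s' / N * ((n i : ℕ) : ℝ))
            (fun i => x' i + s' / N * (((n i : ℕ) : ℝ) + 1))).Nonempty := by
  have hN0 : (0 : ℝ) < N := by positivity
  have hND : (1 : ℝ) ≤ (N : ℝ) ^ D := one_le_pow₀ (by exact_mod_cast (by omega : 1 ≤ N))
  obtain ⟨θ, hθ⟩ : ∃ θ : ℝ, θ = 1 - 1 / (N : ℝ) ^ D := ⟨_, rfl⟩
  have hθ0 : 0 ≤ θ := by
    have : 1 / (N : ℝ) ^ D ≤ 1 := by
      rw [div_le_one (by positivity)]; exact hND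
    rw [hθ]; linarith
  have hθ1 : θ < 1 := by
    have : 0 < 1 / (N : ℝ) ^ D := by positivity
    rw [hθ]; linarith
  obtain ⟨q, hq⟩ := exists_pow_lt_of_lt_one (by positivity : (0 : ℝ) < 1 / N) hθ1
  have hq' : θ ^ (q + 1) ≤ 1 / N := by
    rw [pow_succ]
    have := mul_le_mul_of_nonneg_left hθ1.le (pow_nonneg hθ0 q)
    linarith
  refine ⟨q + 1, by omega, ?_⟩
  intro Z x s κ hs hκ hκ1 hvol
  classical
  have hex : ∃ n, θ ^ n < κ := exists_pow_lt_of_lt_one hκ hθ1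
  obtain ⟨n, hn⟩ : ∃ n, n = Nat.find hex := ⟨_, rfl⟩
  have hn1 : θ ^ n < κ := by rw [hn]; exact Nat.find_spec hex
  have hn0 : n ≠ 0 := by
    intro h0
    rw [h0, pow_zero] at hn1
    linarith
  obtain ⟨m, rfl⟩ : ∃ m, n = m + 1 := ⟨n - 1, by omega⟩
  have hm : κ ≤ θ ^ m := by
    have := Nat.find_min hex (m := m) (by omega)
    exact not_lt.1 this
  rcases B1ind hN Z (m + 1) x s hs with ⟨x', s', h1, h2, h3⟩ | h
  · refine ⟨x', s', ?_, h2, h3⟩
    have h4 : s * (1 / N : ℝ) ^ m ≤ s' := by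
      have h5 : s * (1 / N : ℝ) ^ (m + 1) = (s * (1 / N : ℝ) ^ m) / N := by
        rw [pow_succ]; ring
      rw [h5] at h1
      exact (div_le_div_iff_of_pos_right hN0).1 h1
    have h6 : κ ^ (q + 1) ≤ (1 / N : ℝ) ^ m := by
      calc κ ^ (q + 1) ≤ (θ ^ m) ^ (q + 1) := pow_le_pow_left₀ hκ.le hm _
        _ = (θ ^ (q + 1)) ^ m := by rw [← pow_mul, ← pow_mul, mul_comm]
        _ ≤ (1 / N : ℝ) ^ m := pow_le_pow_left₀ (pow_nonneg hθ0 _) hq' _
    calc κ ^ (q + 1) * s ≤ (1 / N : ℝ) ^ m * s := mul_le_mul_of_nonneg_right h6 hs.le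
      _ = s * (1 / N : ℝ) ^ m := mul_comm _ _
      _ ≤ s' := h4
  · exfalso
    rw [← hθ] at h
    have h5 := hvol.trans h
    have hsD : 0 < s ^ D := by positivity
    rw [ENNReal.ofReal_le_ofReal_iff (mul_nonneg (pow_nonneg hθ0 _) hsD.le)] at h5
    have h6 := le_of_mul_le_mul_right h5 hsD
    linarith

end Pool.Agent.Lib.BeerLin
end

section

/-!
# B2: two points in one cell
-/

set_option autoImplicit false

namespace Pool.Agent.Lib.BeerLin

open Set MeasureTheory Topology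
open scoped ENNReal

/-- **Two points lemma.** `Z ⊆ {‖τ‖ ≤ w/16}` has outer measure `≥ κ w^D`, `α` is a function on `Z` with
`|α - a| ≤ 2 φ`. Then there are two points of `Z` with `‖τ₁ - τ₂‖ ≤ h`, `|α τ₁ - α τ₂| ≤ φ h / w₁` which
are not too close.

Proof. Divide `[a - 2φ, a + 2φ]` into at most `5 w₁/h` intervals of length `≤ φ h / w₁` and
`[-w/16, w/16]^D` into at most `(2 w/h)^D` cubes of side `≤ h`; `Z` is the union of the corresponding cells
`Z ∩ cube ∩ α⁻¹ interval`, so some cell has measure `≥ κ w^D / (5 (w₁/h) (2w/h)^D)`. If all pairs of points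
of a cell have distance `≤ r` then the cell is contained in a ball of radius `r` (sup norm) and its measure is
`≤ (2 r)^D`. With `C = 5 * 4^D + 1`: if the claim fails, all pairs in the same cell have distance
`< r := h (κ h/(C w₁))^(1/D)`, whence `κ w^D ≤ 5 (w₁/h) (2w/h)^D (2r)^D`, i.e. `κ ≤ 5 * 4^D κ / C < κ`.
(Alternatively use indices `⌊(τ i + w/16)/h⌋`, `⌊(α τ - a + 2 φ) / (φ h/w₁)⌋`.) -/
theorem two_points (D : ℕ) (hD : 1 ≤ D) : ∃ C : ℝ, 0 < C ∧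
    ∀ (Z : Set (Fin D → ℝ)) (α : (Fin D → ℝ) → ℝ) (a φ w w₁ h κ : ℝ),
      0 < φ → 0 < w → w ≤ w₁ → 0 < h → h ≤ w → 0 < κ →
      (∀ τ ∈ Z, ‖τ‖ ≤ w / 16) → (∀ τ ∈ Z, |α τ - a| ≤ 2 * φ) →
      ENNReal.ofReal (κ * w ^ D) ≤ volume Z →
      ∃ τ₁ ∈ Z, ∃ τ₂ ∈ Z, ‖τ₁ - τ₂‖ ≤ h ∧ |α τ₁ - α τ₂| ≤ φ * h / w₁ ∧
        κ ≤ C * (w₁ / h) * (‖τ₁ - τ₂‖ / h) ^ D := by
  refine ⟨5 * 4 ^ D + 1, by positivity, ?_⟩
  intro Z α a φ w w₁ h κ hφ hw hww hh hhw hκ hZ1 hZ2 hvol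
  by_contra hcon
  push Not at hcon
  obtain ⟨C, hC⟩ : ∃ C : ℝ, C = 5 * 4 ^ D + 1 := ⟨_, rfl⟩
  rw [← hC] at hcon
  have hCp : 0 < C := by rw [hC]; positivity
  have hw1 : 0 < w₁ := lt_of_lt_of_le hw hww
  have hDp : (0 : ℝ) < D := by exact_mod_cast hD
  obtain ⟨r, hr⟩ : ∃ r : ℝ, r = h * (κ * h / (C * w₁)) ^ ((1 : ℝ) / D) := ⟨_, rfl⟩
  have hrp : 0 < r := by rw [hr]; positivity
  have hrD : (r / h) ^ D = κ * h / (C * w₁) := by
    have h1 : r / h = (κ * h / (C * w₁)) ^ ((1 : ℝ) / D) := by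
      rw [hr, mul_div_assoc, mul_comm, div_mul_cancel₀ _ hh.ne']
    rw [h1, ← Real.rpow_natCast, ← Real.rpow_mul (by positivity), one_div,
      inv_mul_cancel₀ hDp.ne', Real.rpow_one]
  have hclose : ∀ τ₁ ∈ Z, ∀ τ₂ ∈ Z, ‖τ₁ - τ₂‖ ≤ h → |α τ₁ - α τ₂| ≤ φ * h / w₁ →
      ‖τ₁ - τ₂‖ ≤ r := by
    intro τ₁ h1 τ₂ h2 h3 h4
    have h5 := hcon τ₁ h1 τ₂ h2 h3 h4
    by_contra h6
    push Not at h6
    have h7 : (r / h) ^ D ≤ (‖τ₁ - τ₂‖ / h) ^ D :=
      pow_le_pow_left₀ (by positivity) (div_le_div_of_nonneg_right h6.le hh.le) D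
    rw [hrD] at h7
    have h8 := mul_le_mul_of_nonneg_left h7 (by positivity : 0 ≤ C * (w₁ / h))
    have h9 : C * (w₁ / h) * (κ * h / (C * w₁)) = κ := by field_simp
    linarith
  obtain ⟨idx, hidx⟩ : ∃ idx : (Fin D → ℝ) → (Fin D → ℤ) × ℤ, idx = fun τ =>
    (fun i => ⌊(τ i + w / 16) / h⌋, ⌊(α τ - a + 2 * φ) / (φ * h / w₁)⌋) := ⟨_, rfl⟩
  obtain ⟨F, hF⟩ : ∃ F : Finset ((Fin D → ℤ) × ℤ), F =
    (Fintype.piFinset fun _ : Fin D => Finset.Icc (0 : ℤ) ⌊w / (8 * h)⌋) ×ˢ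
      Finset.Icc (0 : ℤ) ⌊4 * w₁ / h⌋ := ⟨_, rfl⟩
  have hmem : ∀ τ ∈ Z, idx τ ∈ F := by
    intro τ hτ
    rw [hF, hidx, Finset.mem_product, Fintype.mem_piFinset]
    refine ⟨fun i => ?_, ?_⟩
    · have h1 : |τ i| ≤ w / 16 := by
        have h2 := norm_le_pi_norm τ i
        rw [Real.norm_eq_abs] at h2
        exact h2.trans (hZ1 τ hτ)
      rw [abs_le] at h1
      rw [Finset.mem_Icc]
      refine ⟨Int.floor_nonneg.2 (div_nonneg (by linarith) hh.le), Int.floor_le_floor ?_⟩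
      have h3 : w / (8 * h) = (w / 8) / h := by field_simp
      rw [h3]
      exact div_le_div_of_nonneg_right (by linarith) hh.le
    · have h1 := hZ2 τ hτ
      rw [abs_le] at h1
      have h2 : 0 < φ * h / w₁ := by positivity
      rw [Finset.mem_Icc]
      refine ⟨Int.floor_nonneg.2 (div_nonneg (by linarith) h2.le), Int.floor_le_floor ?_⟩
      have h3 : 4 * w₁ / h = (4 * φ) / (φ * h / w₁) := by field_simp
      rw [h3]
      exact div_le_div_of_nonneg_right (by linarith) h2.le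
  have hfl : ∀ x y : ℝ, ⌊x⌋ = ⌊y⌋ → |x - y| ≤ 1 := by
    intro x y hxy
    exact (Int.abs_sub_lt_one_of_floor_eq_floor hxy).le
  have hcell : ∀ c, volume {τ | τ ∈ Z ∧ idx τ = c} ≤ ENNReal.ofReal ((2 * r) ^ D) := by
    intro c
    rcases Set.eq_empty_or_nonempty {τ | τ ∈ Z ∧ idx τ = c} with he | ⟨τ₀, h0, h0c⟩
    · rw [he, measure_empty]; positivity
    · have hsub : {τ | τ ∈ Z ∧ idx τ = c} ⊆ Metric.closedBall τ₀ r := by
        rintro τ ⟨h1, h1c⟩
        rw [Metric.mem_closedBall, dist_eq_norm]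
        have h2 : idx τ = idx τ₀ := h1c.trans h0c.symm
        rw [hidx, Prod.mk.injEq] at h2
        apply hclose τ h1 τ₀ h0
        · rw [pi_norm_le_iff_of_nonneg hh.le]
          intro i
          have h3 := hfl _ _ (congrFun h2.1 i)
          have h4 : (τ i + w / 16) / h - (τ₀ i + w / 16) / h = (τ i - τ₀ i) / h := by ring
          rw [h4, abs_div, abs_of_pos hh, div_le_one hh] at h3
          rw [Pi.sub_apply, Real.norm_eq_abs]
          exact h3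
        · have h3 := hfl _ _ h2.2
          have h5 : 0 < φ * h / w₁ := by positivity
          have h4 : (α τ - a + 2 * φ) / (φ * h / w₁) - (α τ₀ - a + 2 * φ) / (φ * h / w₁)
              = (α τ - α τ₀) / (φ * h / w₁) := by rw [← sub_div]; congr 1; ring
          rw [h4, abs_div, abs_of_pos h5, div_le_one h5] at h3
          exact h3
      refine (measure_mono hsub).trans ?_
      rw [Real.volume_pi_closedBall _ hrp.le, Fintype.card_fin]
  have hcover : Z ⊆ ⋃ c ∈ F, {τ | τ ∈ Z ∧ idx τ = c} := by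
    intro τ hτ
    simp only [Set.mem_iUnion]
    exact ⟨idx τ, hmem τ hτ, hτ, rfl⟩
  have h1 : ENNReal.ofReal (κ * w ^ D) ≤ (F.card : ℝ≥0∞) * ENNReal.ofReal ((2 * r) ^ D) := by
    calc ENNReal.ofReal (κ * w ^ D) ≤ volume Z := hvol
      _ ≤ volume (⋃ c ∈ F, {τ | τ ∈ Z ∧ idx τ = c}) := measure_mono hcover
      _ ≤ ∑ c ∈ F, volume {τ | τ ∈ Z ∧ idx τ = c} := measure_biUnion_finset_le _ _
      _ ≤ ∑ _c ∈ F, ENNReal.ofReal ((2 * r) ^ D) := Finset.sum_le_sum fun c _ => hcell c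
      _ = _ := by rw [Finset.sum_const, nsmul_eq_mul]
  have h2 : κ * w ^ D ≤ (F.card : ℝ) * (2 * r) ^ D := by
    rw [← ENNReal.ofReal_natCast, ← ENNReal.ofReal_mul (by positivity),
      ENNReal.ofReal_le_ofReal_iff (by positivity)] at h1
    exact h1
  have htn : ∀ x : ℝ, 0 ≤ x → (((⌊x⌋ + 1 - 0).toNat : ℕ) : ℝ) ≤ x + 1 := by
    intro x hx
    have h3 : 0 ≤ ⌊x⌋ + 1 - 0 := by
      have := Int.floor_nonneg.2 hx
      omega
    have h4 : (((⌊x⌋ + 1 - 0).toNat : ℤ) : ℝ) = ((⌊x⌋ + 1 - 0 : ℤ) : ℝ) := by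
      rw [Int.toNat_of_nonneg h3]
    have h5 := Int.floor_le x
    push_cast at h4 ⊢
    linarith
  have h3 : (F.card : ℝ) ≤ (2 * w / h) ^ D * (5 * w₁ / h) := by
    rw [hF, Finset.card_product, Fintype.card_piFinset_const, Int.card_Icc, Int.card_Icc]
    push_cast
    have h4 : (1 : ℝ) ≤ w / h := by rw [le_div_iff₀ hh]; linarith
    have h5 : (1 : ℝ) ≤ w₁ / h := by rw [le_div_iff₀ hh]; linarith
    refine mul_le_mul (pow_le_pow_left₀ (by positivity) ?_ _) ?_ (by positivity) (by positivity)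
    · refine (htn _ (by positivity)).trans ?_
      have h6 : w / (8 * h) = (w / h) / 8 := by field_simp
      have h7 : 2 * w / h = 2 * (w / h) := by ring
      rw [h6, h7]
      linarith
    · refine (htn _ (by positivity)).trans ?_
      have h6 : 4 * w₁ / h = 4 * (w₁ / h) := by ring
      have h7 : 5 * w₁ / h = 5 * (w₁ / h) := by ring
      rw [h6, h7]
      linarith
  have h4 : (F.card : ℝ) * (2 * r) ^ D ≤ (2 * w / h) ^ D * (5 * w₁ / h) * (2 * r) ^ D :=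
    mul_le_mul_of_nonneg_right h3 (by positivity)
  have h5 : (2 * w / h) ^ D * (5 * w₁ / h) * (2 * r) ^ D = 5 * 4 ^ D * (w ^ D * κ / C) := by
    have h6 : (2 * w / h) ^ D * (5 * w₁ / h) * (2 * r) ^ D
        = 5 * (w₁ / h) * 4 ^ D * w ^ D * (r / h) ^ D := by
      have h7 : (2 * w / h) ^ D * (2 * r) ^ D = 4 ^ D * w ^ D * (r / h) ^ D := by
        rw [← mul_pow, ← mul_pow, ← mul_pow]
        congr 1
        ring
      calc (2 * w / h) ^ D * (5 * w₁ / h) * (2 * r) ^ D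
          = (5 * w₁ / h) * ((2 * w / h) ^ D * (2 * r) ^ D) := by ring
        _ = _ := by rw [h7]; ring
    rw [h6, hrD]
    field_simp
  rw [h5] at h4
  have h6 : 5 * 4 ^ D * (w ^ D * κ / C) < κ * w ^ D := by
    have h7 : 5 * 4 ^ D * (w ^ D * κ / C) = (κ * w ^ D) * (5 * 4 ^ D / C) := by ring
    have h8 : 5 * 4 ^ D / C < 1 := by
      rw [div_lt_one hCp, hC]; linarith
    rw [h7]
    exact mul_lt_of_lt_one_right (by positivity) h8
  linarith

end Pool.Agent.Lib.BeerLin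
end

section

/-!
# B4a: tent positions among the walls
-/

set_option autoImplicit false

namespace Pool.Agent.Lib.BeerLin

open Set MeasureTheory Topology
open scoped ENNReal
open Pool.Agent.Lib.BeerIndex

variable {k : ℕ}

private theorem tent_aux (hk : 1 ≤ k) : ∃ q : ℕ, 1 ≤ q ∧
    ∀ (Z : Set (V k)) (w₁ κ : ℝ), 0 < w₁ → 0 < κ → κ ≤ 1 → (∀ τ ∈ Z, ‖τ‖ ≤ w₁ / 2) →
      ENNReal.ofReal (κ * w₁ ^ (k + 1)) ≤ volume Z →
      ∃ (ρ : ℝ) (c : V k) (τ : Fin (k + 2) → V k),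
        κ ^ q * w₁ / (4 * ((k : ℝ) + 1)) ≤ ρ ∧ (∀ i, |c i| + (k + 2) * ρ ≤ w₁ / 2) ∧
        (∀ j i, |τ j i - (c i + ρ * (mo j : V k) i)| ≤ c0 k * ρ) ∧ ∀ j, τ j ∈ Z := by
  have hN : 2 ≤ 64 * (k + 1) ^ 2 := by nlinarith [Nat.zero_le k]
  obtain ⟨q, hq, H⟩ := pattern (k + 1) (64 * (k + 1) ^ 2) hN
  refine ⟨q, hq, ?_⟩
  intro Z w₁ κ hw₁ hκ hκ1 hZ hvol
  have hsub : Z ∩ Icc (fun _ : Fin (k + 1) => -(w₁ / 2)) (fun i => (fun _ : Fin (k + 1) => -(w₁ / 2)) i + w₁) = Z := by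
    apply inter_eq_left.mpr
    intro τ hτ
    have h1 := hZ τ hτ
    rw [pi_norm_le_iff_of_nonneg (by linarith)] at h1
    constructor
    · intro i
      have := abs_le.mp (h1 i)
      show -(w₁ / 2) ≤ τ i
      exact this.1
    · intro i
      have := abs_le.mp (h1 i)
      show τ i ≤ -(w₁ / 2) + w₁
      linarith [this.2]
  obtain ⟨x', s', hs', hicc, hcell⟩ := H Z (fun _ => -(w₁ / 2)) w₁ κ hw₁ hκ hκ1 (by
    rw [hsub]; exact hvol)
  have hs'pos : 0 < s' := lt_of_lt_of_le (mul_pos (pow_pos hκ q) hw₁) hs'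
  have hk1 : (0 : ℝ) < (k : ℝ) + 1 := by positivity
  have hkR : (1 : ℝ) ≤ (k : ℝ) := by exact_mod_cast hk
  have hlow : ∀ i, -(w₁ / 2) ≤ x' i := by
    have h := hicc (show x' ∈ Icc x' (fun i => x' i + s') from
      ⟨le_refl _, fun i => by show x' i ≤ x' i + s'; linarith⟩)
    intro i
    exact h.1 i
  have hup : ∀ i, x' i + s' ≤ w₁ / 2 := by
    have h := hicc (show (fun i => x' i + s') ∈ Icc x' (fun i => x' i + s') from
      ⟨fun i => by show x' i ≤ x' i + s'; linarith, le_refl _⟩)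
    intro i
    have := h.2 i
    have h2 : x' i + s' ≤ -(w₁ / 2) + w₁ := this
    linarith
  set ρ : ℝ := s' / (4 * ((k : ℝ) + 1)) with hρ
  have hρpos : 0 < ρ := by rw [hρ]; positivity
  have hρs : s' = 4 * ((k : ℝ) + 1) * ρ := by rw [hρ]; field_simp
  have hNc : ((64 * (k + 1) ^ 2 : ℕ) : ℝ) = 64 * ((k : ℝ) + 1) ^ 2 := by push_cast; ring
  have hNpos : (0 : ℝ) < ((64 * (k + 1) ^ 2 : ℕ) : ℝ) := by rw [hNc]; positivity
  have hsN : s' / ((64 * (k + 1) ^ 2 : ℕ) : ℝ) = c0 k * ρ := by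
    rw [hNc, hρs, c0]
    field_simp
    ring
  -- the points
  have key : ∀ j : Fin (k + 2), ∃ τ ∈ Z, ∀ i, |τ i - (x' i + s' / 2 + ρ * (mo j : V k) i)| ≤
      c0 k * ρ := by
    intro j
    have hb : ∀ i, s' / 4 ≤ s' / 2 + ρ * (mo j : V k) i ∧
        s' / 2 + ρ * (mo j : V k) i ≤ 3 * s' / 4 := by
      intro i
      have h1 := abs_le.mp (abs_mo_le hk j i)
      have h2 : ρ * (mo j : V k) i ≤ ρ * k := mul_le_mul_of_nonneg_left h1.2 hρpos.le
      have h3 : ρ * (-(k : ℝ)) ≤ ρ * (mo j : V k) i := mul_le_mul_of_nonneg_left h1.1 hρpos.le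
      have h4 : ρ * (k : ℝ) ≤ s' / 4 := by rw [hρs]; nlinarith
      constructor
      · nlinarith
      · nlinarith
    -- index
    have hfl : ∀ i, ∃ n : Fin (64 * (k + 1) ^ 2),
        s' / ((64 * (k + 1) ^ 2 : ℕ) : ℝ) * ((n : ℕ) : ℝ) ≤ s' / 2 + ρ * (mo j : V k) i ∧
        s' / 2 + ρ * (mo j : V k) i ≤ s' / ((64 * (k + 1) ^ 2 : ℕ) : ℝ) * (((n : ℕ) : ℝ) + 1) := by
      intro i
      obtain ⟨hb1, hb2⟩ := hb i
      set P := s' / 2 + ρ * (mo j : V k) i with hP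
      set N : ℝ := ((64 * (k + 1) ^ 2 : ℕ) : ℝ) with hNdef
      have hPpos : 0 ≤ P := by linarith
      have ht : 0 ≤ P * N / s' := by positivity
      have hlt : ⌊P * N / s'⌋₊ < 64 * (k + 1) ^ 2 := by
        rw [Nat.floor_lt ht]
        rw [div_lt_iff₀ hs'pos]
        have : P < s' := by linarith
        calc P * N < s' * N := by
              apply mul_lt_mul_of_pos_right this hNpos
          _ = N * s' := by ring
      refine ⟨⟨⌊P * N / s'⌋₊, hlt⟩, ?_, ?_⟩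
      · have h1 := Nat.floor_le ht
        show s' / N * ((⌊P * N / s'⌋₊ : ℕ) : ℝ) ≤ P
        calc s' / N * ((⌊P * N / s'⌋₊ : ℕ) : ℝ) ≤ s' / N * (P * N / s') := by
              apply mul_le_mul_of_nonneg_left h1 (by positivity)
          _ = P := by field_simp
      · have h1 := (Nat.lt_floor_add_one (P * N / s')).le
        show P ≤ s' / N * (((⌊P * N / s'⌋₊ : ℕ) : ℝ) + 1)
        calc P = s' / N * (P * N / s') := by field_simp
          _ ≤ s' / N * (((⌊P * N / s'⌋₊ : ℕ) : ℝ) + 1) := by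
              apply mul_le_mul_of_nonneg_left h1 (by positivity)
    choose n hn1 hn2 using hfl
    obtain ⟨τ, hτZ, hτ⟩ := hcell n
    refine ⟨τ, hτZ, fun i => ?_⟩
    have h1 := hτ.1 i
    have h2 := hτ.2 i
    have h3 := hn1 i
    have h4 := hn2 i
    simp only at h1 h2
    rw [← hsN]
    set u := s' / ((64 * (k + 1) ^ 2 : ℕ) : ℝ) with hu
    rw [abs_le]
    constructor
    · nlinarith
    · nlinarith
  choose τ hτZ hτ using key
  refine ⟨ρ, fun i => x' i + s' / 2, τ, ?_, ?_, hτ, hτZ⟩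
  · rw [hρ]
    exact div_le_div_of_nonneg_right hs' (by positivity)
  · intro i
    have h1 := hlow i
    have h2 := hup i
    have h3 : |x' i + s' / 2| ≤ w₁ / 2 - s' / 2 := by
      rw [abs_le]
      constructor
      · linarith
      · linarith
    have h4 : ((k : ℝ) + 2) * ρ ≤ s' / 2 := by
      rw [hρs]
      nlinarith
    show |x' i + s' / 2| + ((k : ℝ) + 2) * ρ ≤ w₁ / 2
    linarith

/-- In a rich plate there are walls in tent position, of size `ρ ≥ (κ/2)^q w₁ / (4 (k+1))`, all on the same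
side.

Proof. `Z = {τ | ‖τ‖ ≤ w₁/2 ∧ sh τ ω₁ ∈ Wall R w φ}` is the union of the part with walls of larger slope and
the part with walls of smaller slope; one of them, `Z'`, has outer measure `≥ (κ/2) w₁^(k+1)`. Apply
`pattern` with `D = k + 1`, `N = 64 (k+1)^2`, `x = -w₁/2`, `s = w₁`, and `κ/2` (this fixes `q`). We get a cube
`Icc x' (x' + s')`, `s' ≥ (κ/2)^q w₁`, inside `Icc (-w₁/2) (w₁/2)`, all of whose subcubes of side `s'/N` meet
`Z'`. Put `c i = x' i + s'/2`, `ρ = s'/(4(k+1))`. The points `c + ρ mo j` are in the cube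
(`abs_mo_le`, `k ρ ≤ s'/4`), so there is a point `τ j ∈ Z'` in the same subcube, at sup distance
`≤ s'/N = c0 ρ`. `|c i| ≤ w₁/2 - s'/2` and `(k+2) ρ ≤ s'/2`. -/
theorem exists_tent (hk : 1 ≤ k) : ∃ q : ℕ, 1 ≤ q ∧
    ∀ (R : Set (X k)) (w w₁ φ κ : ℝ) (ω₁ : Om k), 0 < w₁ → 0 < κ → κ ≤ 1 →
      ω₁ ∈ Rich R w w₁ φ κ →
      ∃ (ρ : ℝ) (c : V k) (τ : Fin (k + 2) → V k) (a : Fin (k + 2) → ℝ),
        (κ / 2) ^ q * w₁ / (4 * ((k : ℝ) + 1)) ≤ ρ ∧ (∀ i, |c i| + (k + 2) * ρ ≤ w₁ / 2) ∧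
        (∀ j i, |τ j i - (c i + ρ * (mo j : V k) i)| ≤ c0 k * ρ) ∧
        ((∀ j, φ ≤ a j - ω₁.2) ∨ (∀ j, φ ≤ ω₁.2 - a j)) ∧
        (∀ j, plate ((sh (τ j) ω₁).1, a j) w ⊆ R) := by
  obtain ⟨q, hq, H⟩ := tent_aux (k := k) hk
  refine ⟨q, hq, ?_⟩
  intro R w w₁ φ κ ω₁ hw₁ hκ hκ1 hrich
  obtain ⟨_, hvol⟩ := hrich
  set Zp : Set (V k) := {τ | ‖τ‖ ≤ w₁ / 2 ∧ ∃ a, φ ≤ a - ω₁.2 ∧
    plate ((sh τ ω₁).1, a) w ⊆ R} with hZp
  set Zm : Set (V k) := {τ | ‖τ‖ ≤ w₁ / 2 ∧ ∃ a, φ ≤ ω₁.2 - a ∧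
    plate ((sh τ ω₁).1, a) w ⊆ R} with hZm
  have hcov : {τ : V k | ‖τ‖ ≤ w₁ / 2 ∧ sh τ ω₁ ∈ Wall R w φ} ⊆ Zp ∪ Zm := by
    rintro τ ⟨h1, a, ha1, _, ha3⟩
    have h2 : (sh τ ω₁).2 = ω₁.2 := rfl
    rw [h2] at ha1
    rcases le_abs.mp ha1 with h | h
    · left
      exact ⟨h1, a, h, ha3.2⟩
    · right
      exact ⟨h1, a, by linarith, ha3.2⟩
  have hsum : ENNReal.ofReal (κ * w₁ ^ (k + 1)) ≤ volume Zp + volume Zm :=
    hvol.trans ((measure_mono hcov).trans (measure_union_le _ _))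
  have hhalf : ENNReal.ofReal (κ * w₁ ^ (k + 1)) =
      ENNReal.ofReal (κ / 2 * w₁ ^ (k + 1)) + ENNReal.ofReal (κ / 2 * w₁ ^ (k + 1)) := by
    rw [← ENNReal.ofReal_add (by positivity) (by positivity)]
    congr 1
    ring
  rcases le_or_gt (ENNReal.ofReal (κ / 2 * w₁ ^ (k + 1))) (volume Zp) with hP | hP
  · obtain ⟨ρ, c, τ, h1, h2, h3, h4⟩ := H Zp w₁ (κ / 2) hw₁ (by linarith) (by linarith)
      (fun τ hτ => hτ.1) hP
    have h5 : ∀ j, ∃ a, φ ≤ a - ω₁.2 ∧ plate ((sh (τ j) ω₁).1, a) w ⊆ R := fun j => (h4 j).2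
    choose a ha1 ha2 using h5
    exact ⟨ρ, c, τ, a, h1, h2, h3, Or.inl ha1, ha2⟩
  · have hM : ENNReal.ofReal (κ / 2 * w₁ ^ (k + 1)) ≤ volume Zm := by
      by_contra hcon
      rw [not_le] at hcon
      have h6 := ENNReal.add_lt_add hP hcon
      rw [← hhalf] at h6
      exact absurd hsum (not_le.mpr h6)
    obtain ⟨ρ, c, τ, h1, h2, h3, h4⟩ := H Zm w₁ (κ / 2) hw₁ (by linarith) (by linarith)
      (fun τ hτ => hτ.1) hM
    have h5 : ∀ j, ∃ a, φ ≤ ω₁.2 - a ∧ plate ((sh (τ j) ω₁).1, a) w ⊆ R := fun j => (h4 j).2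
    choose a ha1 ha2 using h5
    exact ⟨ρ, c, τ, a, h1, h2, h3, Or.inr ha1, ha2⟩

end Pool.Agent.Lib.BeerLin
end

section

/-!
# B3b: the prism lemma
-/

set_option autoImplicit false

namespace Pool.Agent.Lib.BeerLin

open Set MeasureTheory Topology
open scoped ENNReal
open Pool.Agent.Lib.BeerIndex

variable {k : ℕ}

private theorem sgn_ex (x : ℝ) : ∃ e : ℝ, (e = 1 ∨ e = -1) ∧ e * x = |x| := by
  rcases le_total 0 x with h | h
  · exact ⟨1, Or.inl rfl, by rw [abs_of_nonneg h, one_mul]⟩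
  · exact ⟨-1, Or.inr rfl, by rw [abs_of_nonpos h]; ring⟩

private theorem sgn_eq {e x : ℝ} (he : e = 1 ∨ e = -1) (h : e * x = |x|) : x = e * |x| := by
  rw [← h]
  rcases he with rfl | rfl <;> ring

private theorem sgn_mul {e e' : ℝ} (he : e = 1 ∨ e = -1) (he' : e' = 1 ∨ e' = -1) :
    e * e' = 1 ∨ e * e' = -1 := by
  rcases he with rfl | rfl <;> rcases he' with rfl | rfl <;> norm_num

private theorem box_aux {e x y r : ℝ} (he : e = 1 ∨ e = -1)
    (h : |x - (y + e * (3 / 4 * r))| ≤ r / 4) : r / 2 ≤ e * (x - y) ∧ |x - y| ≤ r := by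
  rw [abs_le] at h ⊢
  rcases he with rfl | rfl
  · refine ⟨by linarith [h.1], ?_, ?_⟩ <;> linarith [h.1, h.2]
  · refine ⟨by linarith [h.2], ?_, ?_⟩ <;> linarith [h.1, h.2]

/-- **Prism lemma.** The two floors of a prism are close to each other.

Proof. `f = ev q u + b v` on the core, where `b = ω₂.2 - ω₁.2`, `v = y' - ev c u` and
`q i = gg ω₁ ω₂ i + b * (c i - (ω₂.1.1 - ω₁.1.1) i)`; by `ev_eq`, `ev q u = q 0 + ∑ u i * d i`,
`d i = q i.succ - q 0`. Centre: `u_c = (1/(k+1), …)`, `v_c = 3ρ/(16(k+1))`, half widths `r₀ = 1/(16(k+1)^3)`,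
`v_h = ρ/(16(k+1))`, `f_c = ev q u_c + b v_c`. Let `ε = ±1` be the sign of `f_c`, and take the corner box
`u i ∈ 1/(k+1) + ε sgn (d i) [r₀/2, r₀]`, `v ∈ v_c + ε sgn b [v_h/2, v_h]` (with `sgn = ±1`, any sign for
`0`). There `ε f ≥ L := |f_c| + (r₀/2) ∑ |d i| + (v_h/2) |b|`. By `prism_box`
(`u₀ i = 1/(k+1) + ε sgn (d i) (3/4) r₀`, `r = r₀/4`, `v₁ - v₀ = v_h/2`)
`(r₀/2)^k (v_h/2) L ≤ m`, so `L ≤ C m/ρ`. Hence `|b| ≤ C m/ρ²`, `|d i| ≤ C m/ρ`,
`|ev q u_c| ≤ C m/ρ`, so `|q i| ≤ C m/ρ` (`q 0 = ev q u_c - ∑ d i/(k+1)`), and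
`|gg i| ≤ |q i| + |b| (w₁/2 + w₁/4) ≤ C m w₁/ρ²` as `ρ ≤ w₁`. -/
theorem prism (hk : 1 ≤ k) : ∃ Cp : ℝ, 0 < Cp ∧
    ∀ (R : Set (X k)) (m w₁ ρ h φ : ℝ) (ω₁ ω₂ : Om k) (c : V k) (τ : Fin (k + 2) → V k)
      (a : Fin (k + 2) → ℝ) (T : Set (X k)), Prism R m w₁ ρ h φ ω₁ ω₂ c τ a T →
      ∀ i, |gg ω₁ ω₂ i| ≤ Cp * m * w₁ / ρ ^ 2 := by
  obtain ⟨K, hKdef⟩ : ∃ K : ℝ, K = (k : ℝ) + 1 := ⟨_, rfl⟩
  have hK1 : 1 ≤ K := by
    rw [hKdef]
    have : (0 : ℝ) ≤ k := Nat.cast_nonneg k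
    linarith
  have hK : 0 < K := by linarith
  obtain ⟨r0, hr0⟩ : ∃ r0 : ℝ, r0 = 1 / (16 * K ^ 3) := ⟨_, rfl⟩
  have hr0pos : 0 < r0 := by rw [hr0]; positivity
  refine ⟨32 * K * (2 / r0) ^ k * (7 + 4 / r0 + 32 * K), by positivity, ?_⟩
  intro R m w₁ ρ h φ ω₁ ω₂ c τ a T H i
  have hρ := H.ρ_pos
  have hw := H.w₁_pos
  have hm := H.m_pos
  obtain ⟨b, hb⟩ : ∃ b : ℝ, b = ω₂.2 - ω₁.2 := ⟨_, rfl⟩
  obtain ⟨q, hq⟩ : ∃ q : V k, q = gg ω₁ ω₂ + b • (c - (ω₂.1.1 - ω₁.1.1)) := ⟨_, rfl⟩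
  have hqi : ∀ j, q j = gg ω₁ ω₂ j + b * (c j - (ω₂.1.1 j - ω₁.1.1 j)) := by
    intro j
    rw [hq]
    simp only [Pi.add_apply, Pi.smul_apply, Pi.sub_apply, smul_eq_mul]
  obtain ⟨d, hd⟩ : ∃ d : Fin k → ℝ, d = fun j => q j.succ - q 0 := ⟨_, rfl⟩
  obtain ⟨vc, hvc⟩ : ∃ vc : ℝ, vc = 3 * ρ / (16 * K) := ⟨_, rfl⟩
  obtain ⟨vh, hvh⟩ : ∃ vh : ℝ, vh = ρ / (16 * K) := ⟨_, rfl⟩
  have hvhpos : 0 < vh := by rw [hvh]; positivity
  have hvch : vc = 3 * vh := by rw [hvc, hvh]; ring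
  obtain ⟨fc, hfc⟩ : ∃ fc : ℝ, fc = q 0 + ∑ j, (1 / K) * d j + b * vc := ⟨_, rfl⟩
  have hF : ∀ (u : Fin k → ℝ) (v : ℝ), ev (gg ω₁ ω₂) u +
      (ω₂.2 - ω₁.2) * (v + ev c u - ev (ω₂.1.1 - ω₁.1.1) u) =
      q 0 + ∑ j, u j * d j + b * v := by
    intro u v
    have h1 : ev q u = ev (gg ω₁ ω₂) u + b * (ev c u - ev (ω₂.1.1 - ω₁.1.1) u) := by
      rw [hq, ev_add, ev_smul, ev_sub]
    have h2 := ev_eq q u
    rw [hd]
    rw [h1] at h2
    rw [← hb]
    linarith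
  obtain ⟨ε, hε, hεf⟩ := sgn_ex fc
  choose s hs hsd using fun j => sgn_ex (d j)
  obtain ⟨t, ht, htb⟩ := sgn_ex b
  have hdj : ∀ j, d j = s j * |d j| := fun j => sgn_eq (hs j) (hsd j)
  have hbt : b = t * |b| := sgn_eq ht htb
  have hεt := sgn_mul hε ht
  obtain ⟨S, hS⟩ : ∃ S : ℝ, S = ∑ j, |d j| := ⟨_, rfl⟩
  have hS0 : 0 ≤ S := by rw [hS]; exact Finset.sum_nonneg fun j _ => abs_nonneg _
  obtain ⟨L, hL⟩ : ∃ L : ℝ, L = |fc| + r0 / 2 * S + vh / 2 * |b| := ⟨_, rfl⟩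
  have hL0 : 0 ≤ L := by rw [hL]; positivity
  have key := prism_box hk H hε (fun j => 1 / K + ε * s j * (3 / 4 * r0)) (r0 / 4)
    (vc + ε * t * (3 / 4 * vh) - vh / 4) (vc + ε * t * (3 / 4 * vh) + vh / 4) L
    (by positivity) hL0 (by
      intro u hu v hv
      have hu' : ∀ j, r0 / 2 ≤ ε * s j * (u j - 1 / K) ∧ |u j - 1 / K| ≤ r0 := fun j =>
        box_aux (sgn_mul hε (hs j)) (hu j)
      have hv' : vh / 2 ≤ ε * t * (v - vc) ∧ |v - vc| ≤ vh := by
        apply box_aux hεt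
        rw [abs_le]
        constructor
        · linarith [hv.1]
        · linarith [hv.2]
      have hv2 := abs_le.1 hv'.2
      refine ⟨?_, ?_, ?_, ?_⟩
      · intro j
        rw [← hKdef, ← hr0]
        exact (hu' j).2
      · rw [← hKdef]
        have : ρ / (8 * K) = vc - vh := by rw [hvc, hvh]; field_simp; ring
        rw [this]
        linarith [hv2.1]
      · rw [← hKdef]
        have : ρ / (4 * K) = vc + vh := by rw [hvc, hvh]; field_simp; ring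
        rw [this]
        linarith [hv2.2]
      · rw [hF u v]
        have hsum : ε * ∑ j, u j * d j = ε * ∑ j, (1 / K) * d j +
            ∑ j, (ε * s j * (u j - 1 / K)) * |d j| := by
          rw [Finset.mul_sum, Finset.mul_sum, ← Finset.sum_add_distrib]
          refine Finset.sum_congr rfl fun j _ => ?_
          have := hdj j
          linear_combination (ε * (u j - 1 / K)) * this
        have h1 : r0 / 2 * S ≤ ∑ j, (ε * s j * (u j - 1 / K)) * |d j| := by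
          rw [hS, Finset.mul_sum]
          refine Finset.sum_le_sum fun j _ => ?_
          exact mul_le_mul_of_nonneg_right (hu' j).1 (abs_nonneg _)
        have h2 : vh / 2 * |b| ≤ (ε * t * (v - vc)) * |b| :=
          mul_le_mul_of_nonneg_right hv'.1 (abs_nonneg _)
        have h3 : ε * (b * v) = ε * (b * vc) + (ε * t * (v - vc)) * |b| := by
          linear_combination (ε * (v - vc)) * hbt
        have h4 : ε * (q 0 + ∑ j, u j * d j + b * v) = ε * fc +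
            ∑ j, (ε * s j * (u j - 1 / K)) * |d j| + (ε * t * (v - vc)) * |b| := by
          rw [hfc, mul_add, mul_add, hsum, h3]
          ring
        rw [h4, hεf, hL]
        linarith)
  have hLm : L ≤ 32 * K * (2 / r0) ^ k * m / ρ := by
    have e2 : (2 / r0) ^ k * (r0 / 2) ^ k = 1 := by
      rw [← mul_pow]
      have : 2 / r0 * (r0 / 2) = 1 := by field_simp
      rw [this, one_pow]
    have e4 : (2 * (r0 / 4)) ^ k * (vc + ε * t * (3 / 4 * vh) + vh / 4 -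
        (vc + ε * t * (3 / 4 * vh) - vh / 4)) * L = (r0 / 2) ^ k * (vh / 2) * L := by
      have : 2 * (r0 / 4) = r0 / 2 := by ring
      rw [this]
      ring
    rw [e4] at key
    rw [le_div_iff₀ hρ]
    have e3 : L * ρ = 32 * K * ((2 / r0) ^ k * ((r0 / 2) ^ k * (vh / 2) * L)) := by
      have e5 : (2 / r0) ^ k * ((r0 / 2) ^ k * (vh / 2) * L) =
          ((2 / r0) ^ k * (r0 / 2) ^ k) * ((vh / 2) * L) := by ring
      rw [e5, e2, hvh]
      field_simp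
      ring
    rw [e3]
    have e6 : 32 * K * (2 / r0) ^ k * m = 32 * K * ((2 / r0) ^ k * m) := by ring
    rw [e6]
    exact mul_le_mul_of_nonneg_left (mul_le_mul_of_nonneg_left key (by positivity)) (by positivity)
  have hfL : |fc| ≤ L := by
    rw [hL]
    have : 0 ≤ r0 / 2 * S := by positivity
    have : 0 ≤ vh / 2 * |b| := by positivity
    linarith
  have hSL : S ≤ 2 / r0 * L := by
    have h1 : r0 / 2 * S ≤ L := by
      rw [hL]
      have : 0 ≤ |fc| := abs_nonneg _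
      have : 0 ≤ vh / 2 * |b| := by positivity
      linarith
    have h2 : S = 2 / r0 * (r0 / 2 * S) := by field_simp
    rw [h2]
    exact mul_le_mul_of_nonneg_left h1 (by positivity)
  have hbL : vh * |b| ≤ 2 * L := by
    have h1 : vh / 2 * |b| ≤ L := by
      rw [hL]
      have : 0 ≤ |fc| := abs_nonneg _
      have : 0 ≤ r0 / 2 * S := by positivity
      linarith
    linarith
  have hq0 : |q 0| ≤ (7 + 2 / r0) * L := by
    have h1 : q 0 = fc - ∑ j, (1 / K) * d j - b * vc := by rw [hfc]; ring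
    have h2 : |∑ j, (1 / K) * d j| ≤ S := by
      refine (Finset.abs_sum_le_sum_abs _ _).trans ?_
      rw [hS]
      refine Finset.sum_le_sum fun j _ => ?_
      rw [abs_mul, abs_of_pos (by positivity : 0 < 1 / K)]
      have : 1 / K ≤ 1 := by rw [div_le_one hK]; exact hK1
      exact mul_le_of_le_one_left (abs_nonneg _) this
    have h3 : |b * vc| ≤ 6 * L := by
      rw [hvch, abs_mul, abs_of_pos (by positivity : 0 < 3 * vh)]
      linarith
    have h4 : |q 0| ≤ |fc| + |∑ j, (1 / K) * d j| + |b * vc| := by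
      rw [h1]
      exact (abs_sub _ _).trans (add_le_add (abs_sub _ _) le_rfl)
    have h5 : (7 + 2 / r0) * L = L + 2 / r0 * L + 6 * L := by ring
    rw [h5]
    linarith
  have hqiL : ∀ j, |q j| ≤ (7 + 4 / r0) * L := by
    intro j
    have h5 : (7 + 4 / r0) * L = (7 + 2 / r0) * L + 2 / r0 * L := by ring
    rw [h5]
    refine Fin.cases ?_ (fun j' => ?_) j
    · have : 0 ≤ 2 / r0 * L := by positivity
      linarith
    · have h1 : q j'.succ = q 0 + d j' := by rw [hd]; ring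
      have h2 : |d j'| ≤ S := by
        rw [hS]
        exact Finset.single_le_sum (f := fun j => |d j|) (fun j _ => abs_nonneg _)
          (Finset.mem_univ j')
      rw [h1]
      have h3 := abs_add_le (q 0) (d j')
      linarith
  have hggi : |gg ω₁ ω₂ i| ≤ |q i| + |b| * w₁ := by
    have h1 : gg ω₁ ω₂ i = q i - b * (c i - (ω₂.1.1 i - ω₁.1.1 i)) := by rw [hqi]; ring
    have h2 : |c i - (ω₂.1.1 i - ω₁.1.1 i)| ≤ w₁ := by
      have h3 := H.c_le i
      have h4 := H.near i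
      have h5 : 0 ≤ ((k : ℝ) + 2) * ρ := by positivity
      have h6 := abs_sub (c i) (ω₂.1.1 i - ω₁.1.1 i)
      linarith
    rw [h1]
    refine (abs_sub _ _).trans (add_le_add le_rfl ?_)
    rw [abs_mul]
    exact mul_le_mul_of_nonneg_left h2 (abs_nonneg _)
  have hbw : |b| * w₁ ≤ 32 * K * L * (w₁ / ρ) := by
    have h1 : |b| ≤ 32 * K * L / ρ := by
      rw [le_div_iff₀ hρ]
      have h2 : ρ = 16 * K * vh := by rw [hvh]; field_simp
      have h3 : |b| * ρ = 16 * K * (vh * |b|) := by rw [h2]; ring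
      rw [h3]
      have h4 : 32 * K * L = 16 * K * (2 * L) := by ring
      rw [h4]
      exact mul_le_mul_of_nonneg_left hbL (by positivity)
    have h2 : 32 * K * L * (w₁ / ρ) = 32 * K * L / ρ * w₁ := by ring
    rw [h2]
    exact mul_le_mul_of_nonneg_right h1 hw.le
  have hwρ : 1 ≤ w₁ / ρ := by
    rw [le_div_iff₀ hρ, one_mul]
    exact H.ρ_le
  have hfin : |gg ω₁ ω₂ i| ≤ (7 + 4 / r0 + 32 * K) * L * (w₁ / ρ) := by
    have h1 : (7 + 4 / r0) * L ≤ (7 + 4 / r0) * L * (w₁ / ρ) :=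
      le_mul_of_one_le_right (by positivity) hwρ
    have h2 : (7 + 4 / r0 + 32 * K) * L * (w₁ / ρ) = (7 + 4 / r0) * L * (w₁ / ρ) +
        32 * K * L * (w₁ / ρ) := by ring
    rw [h2]
    linarith [hqiL i]
  refine hfin.trans ?_
  have h1 : (7 + 4 / r0 + 32 * K) * L * (w₁ / ρ) ≤
      (7 + 4 / r0 + 32 * K) * (32 * K * (2 / r0) ^ k * m / ρ) * (w₁ / ρ) :=
    mul_le_mul_of_nonneg_right (mul_le_mul_of_nonneg_left hLm (by positivity)) (by positivity)
  refine h1.trans (le_of_eq ?_)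
  field_simp

end Pool.Agent.Lib.BeerLin
end

section

/-!
# B4b: the closure lemma
-/

set_option autoImplicit false

namespace Pool.Agent.Lib.BeerLin

open Set MeasureTheory Topology
open scoped ENNReal
open Pool.Agent.Lib.BeerIndex

variable {k : ℕ}

/-- the final computation -/
private theorem b4b_real {D q : ℕ} (hD : 2 ≤ D) {C Cp m w w₁ φ κ ρ t K A : ℝ} (hC : 0 < C)
    (hCp : 0 < Cp) (hm : 0 < m) (hw : 0 < w) (hw₁ : w ≤ w₁) (hφ : 0 < φ) (hκ : 0 < κ)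
    (hκ1 : κ ≤ 1) (hK : 0 < K) (hA : 0 < A) (ht : 0 ≤ t)
    (hρ : (κ / 2) ^ q * w₁ / A ≤ ρ) (hpr : φ * t ≤ Cp * m * w₁ / ρ ^ 2)
    (htp : κ ≤ C * (w₁ / ((κ / 2) ^ q * w / K)) * (t / ((κ / 2) ^ q * w / K)) ^ D) :
    κ ^ (1 + q * (3 * D + 1)) * √(w₁ / w) * (w ^ 2 * φ / m) ≤
      max 1 (C * K ^ (D + 1) * (Cp * A ^ 2) ^ D * 2 ^ (q * (3 * D + 1))) := by
  have hw₁' : 0 < w₁ := hw.trans_le hw₁
  set p := (κ / 2) ^ q with hp
  have hp0 : 0 < p := by positivity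
  have hρ0 : 0 < ρ := lt_of_lt_of_le (by positivity) hρ
  set r := w₁ / w with hr
  have hr1 : 1 ≤ r := by rw [hr, le_div_iff₀ hw]; linarith
  set B := w ^ 2 * φ / m with hB
  have hB0 : 0 < B := by positivity
  -- bound for t
  have h1 : w₁ / ρ ^ 2 ≤ A ^ 2 / (p ^ 2 * w₁) := by
    have e1 : (p * w₁ / A) ^ 2 ≤ ρ ^ 2 := pow_le_pow_left₀ (by positivity) hρ 2
    rw [div_le_div_iff₀ (by positivity) (by positivity)]
    have e2 : (p * w₁) ^ 2 ≤ A ^ 2 * ρ ^ 2 := by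
      rw [div_pow, div_le_iff₀ (by positivity)] at e1
      linarith
    nlinarith
  have h2 : t ≤ Cp * A ^ 2 * m / (φ * p ^ 2 * w₁) := by
    have e1 : φ * t ≤ Cp * m * (A ^ 2 / (p ^ 2 * w₁)) := by
      calc φ * t ≤ Cp * m * w₁ / ρ ^ 2 := hpr
        _ = Cp * m * (w₁ / ρ ^ 2) := by ring
        _ ≤ _ := mul_le_mul_of_nonneg_left h1 (by positivity)
    rw [le_div_iff₀ (by positivity)]
    have e2 : Cp * m * (A ^ 2 / (p ^ 2 * w₁)) * (p ^ 2 * w₁) = Cp * m * A ^ 2 := by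
      field_simp
    calc t * (φ * p ^ 2 * w₁) = φ * t * (p ^ 2 * w₁) := by ring
      _ ≤ Cp * m * (A ^ 2 / (p ^ 2 * w₁)) * (p ^ 2 * w₁) :=
        mul_le_mul_of_nonneg_right e1 (by positivity)
      _ = Cp * A ^ 2 * m := by rw [e2]; ring
  have h3 : t / (p * w / K) ≤ K * (Cp * A ^ 2) / (p ^ 3 * r * B) := by
    rw [div_le_iff₀ (by positivity)]
    refine h2.trans (le_of_eq ?_)
    rw [hr, hB]
    field_simp
  have h4 : κ ≤ C * (K * r / p) * (K * (Cp * A ^ 2) / (p ^ 3 * r * B)) ^ D := by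
    refine htp.trans ?_
    have e1 : w₁ / (p * w / K) = K * r / p := by rw [hr]; field_simp
    rw [e1]
    refine mul_le_mul_of_nonneg_left ?_ (by positivity)
    exact pow_le_pow_left₀ (by positivity) h3 D
  have h5 : κ * p ^ (3 * D + 1) * r ^ (D - 1) * B ^ D ≤ C * K ^ (D + 1) * (Cp * A ^ 2) ^ D := by
    have e1 : C * (K * r / p) * (K * (Cp * A ^ 2) / (p ^ 3 * r * B)) ^ D =
        C * K ^ (D + 1) * (Cp * A ^ 2) ^ D / (p ^ (3 * D + 1) * r ^ (D - 1) * B ^ D) := by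
      obtain ⟨d, rfl⟩ : ∃ d, D = d + 1 := ⟨D - 1, by omega⟩
      rw [show d + 1 - 1 = d by omega, div_pow, mul_pow, mul_pow, mul_pow, ← pow_mul]
      field_simp
      ring
    rw [e1, le_div_iff₀ (by positivity)] at h4
    linarith
  have h6 : p ^ (3 * D + 1) = κ ^ (q * (3 * D + 1)) / 2 ^ (q * (3 * D + 1)) := by
    rw [hp, ← pow_mul, div_pow]
  have h7 : κ ^ (1 + q * (3 * D + 1)) * r ^ (D - 1) * B ^ D ≤
      C * K ^ (D + 1) * (Cp * A ^ 2) ^ D * 2 ^ (q * (3 * D + 1)) := by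
    rw [h6] at h5
    have e1 : κ * (κ ^ (q * (3 * D + 1)) / 2 ^ (q * (3 * D + 1))) * r ^ (D - 1) * B ^ D =
        κ ^ (1 + q * (3 * D + 1)) * r ^ (D - 1) * B ^ D / 2 ^ (q * (3 * D + 1)) := by
      rw [pow_add, pow_one]
      ring
    rw [e1, div_le_iff₀ (by positivity)] at h5
    exact h5
  have hs1 : 1 ≤ √r := by rw [Real.one_le_sqrt]; exact hr1
  have h8 : √r ^ D ≤ r ^ (D - 1) := by
    calc √r ^ D ≤ √r ^ (2 * (D - 1)) := pow_le_pow_right₀ hs1 (by omega)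
      _ = r ^ (D - 1) := by rw [pow_mul, Real.sq_sqrt (by linarith)]
  set N := 1 + q * (3 * D + 1) with hN
  have h9 : (κ ^ N * √r * B) ^ D ≤ C * K ^ (D + 1) * (Cp * A ^ 2) ^ D * 2 ^ (q * (3 * D + 1)) := by
    refine le_trans ?_ h7
    rw [mul_pow, mul_pow]
    refine mul_le_mul_of_nonneg_right ?_ (by positivity)
    refine mul_le_mul ?_ h8 (by positivity) (by positivity)
    calc (κ ^ N) ^ D ≤ (κ ^ N) ^ 1 :=
          pow_le_pow_of_le_one (by positivity) (pow_le_one₀ hκ.le hκ1) (by omega)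
      _ = κ ^ N := pow_one _
  by_cases hx : κ ^ N * √r * B ≤ 1
  · exact hx.trans (le_max_left _ _)
  · push Not at hx
    refine le_trans ?_ (le_max_right _ _)
    refine le_trans ?_ h9
    calc κ ^ N * √r * B = (κ ^ N * √r * B) ^ 1 := (pow_one _).symm
      _ ≤ _ := pow_le_pow_right₀ hx.le (by omega)

/-- **Closure lemma.** If through many lines of the plate `ω` of width `w` there are plates of width `w₁` at angle
`~ φ`, which in turn have many walls of width `w` at angle `~ φ`, then `κ` is small.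

Proof. Let `q` be as in `exists_tent`, `h = c0 (κ/2)^q w / (16 (k+1))` (`≤ w`, `4 h ≤ w`). For `τ` in the given
set `Z` choose `α τ = a₁`. `two_points` (`D = k + 1`, `a = ω.2`, this `h`) gives `τ₁, τ₂ ∈ Z` with
`‖τ₁ - τ₂‖ ≤ h`, `|α τ₁ - α τ₂| ≤ φ h/w₁`, `κ ≤ C (w₁/h) (‖τ₁ - τ₂‖/h)^(k+1)`. Let
`ω₁ = ((sh τ₁ ω).1, α τ₁)`, `ω₂ = ((sh τ₂ ω).1, α τ₂)`; then `gg ω₁ ω₂ = (ω.2 - α τ₁) • (τ₂ - τ₁)`, so
`φ |τ₂ i - τ₁ i| ≤ |gg i| ≤ 2 φ h`. `exists_tent` for `ω₁` gives walls; `Prism R m w₁ ρ (4 φ h) φ ω₁ ω₂ c τ a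
(plate ω w)` holds (`height`: `2 φ h + φ h < 4 φ h`; `(4 φ h)/φ = 4 h ≤ c0 ρ`, `≤ w`;
`ω₂.1.1 - ω₁.1.1 = τ₂ - τ₁`). By `prism` and for the `i` with `|τ₂ i - τ₁ i| = ‖τ₂ - τ₁‖`:
`φ ‖τ₂ - τ₁‖ ≤ Cp m w₁/ρ²`, `ρ ≥ (κ/2)^q w₁/(4(k+1))`. Raise to the power `D = k + 1` and insert in the
lower bound of `‖τ₂ - τ₁‖^D`: with constants depending on `k` only,
`(w² φ/m)^D (w₁/w)^(D-1) κ^N ≤ C'`, `N = 1 + q (D + 1) + 2 q D`. As `D ≥ 2` and `w₁/w ≥ 1`,
`(w₁/w)^(D-1) ≥ √(w₁/w)^D`, so `A = √(w₁/w) (w² φ/m)` satisfies `A^D κ^N ≤ C'`, hence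
`(κ^N A)^D ≤ C'`, `κ^N A ≤ max 1 C'`. -/
theorem closure_lemma (hk : 1 ≤ k) : ∃ (Cb : ℝ) (n : ℕ), 0 < Cb ∧ 1 ≤ n ∧
    ∀ (R : Set (X k)) (m w w₁ φ κ : ℝ) (ω : Om k), 0 < m → 0 < w → w ≤ w₁ → 0 < φ → 0 < κ →
      κ ≤ 1 → Fills R (ENNReal.ofReal m) → ω ∈ G R w →
      ENNReal.ofReal (κ * w ^ (k + 1)) ≤
        volume {τ : V k | ‖τ‖ ≤ w / 16 ∧ ∃ a₁, φ ≤ |a₁ - ω.2| ∧ |a₁ - ω.2| ≤ 2 * φ ∧
          ((sh τ ω).1, a₁) ∈ Rich R w w₁ φ κ} →
      κ ^ n * √(w₁ / w) * (w ^ 2 * φ / m) ≤ Cb := by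
  obtain ⟨q, hq1, hq⟩ := exists_tent (k := k) hk
  obtain ⟨C, hC, hC2⟩ := two_points (k + 1) (by omega)
  obtain ⟨Cp, hCp, hCp2⟩ := prism (k := k) hk
  have hk0 : (0 : ℝ) < (k : ℝ) + 1 := by positivity
  refine ⟨max 1 (C * (256 * ((k : ℝ) + 1) ^ 2) ^ (k + 1 + 1) *
    (Cp * (4 * ((k : ℝ) + 1)) ^ 2) ^ (k + 1) * 2 ^ (q * (3 * (k + 1) + 1))),
    1 + q * (3 * (k + 1) + 1), lt_of_lt_of_le one_pos (le_max_left _ _), by omega, ?_⟩
  intro R m w w₁ φ κ ω hm hw hw₁ hφ hκ hκ1 hfill hω hvol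
  have hw₁' : 0 < w₁ := hw.trans_le hw₁
  set Z : Set (V k) := {τ : V k | ‖τ‖ ≤ w / 16 ∧ ∃ a₁, φ ≤ |a₁ - ω.2| ∧ |a₁ - ω.2| ≤ 2 * φ ∧
    ((sh τ ω).1, a₁) ∈ Rich R w w₁ φ κ} with hZ
  set p := (κ / 2) ^ q with hp
  have hp0 : 0 < p := by positivity
  have hp1 : p ≤ 1 := pow_le_one₀ (by positivity) (by linarith)
  set K : ℝ := 256 * ((k : ℝ) + 1) ^ 2 with hK
  have hK256 : 256 ≤ K := by
    rw [hK]
    have : (1 : ℝ) ≤ ((k : ℝ) + 1) ^ 2 := by
      have : (0 : ℝ) ≤ (k : ℝ) := by positivity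
      nlinarith
    linarith
  have hK0 : 0 < K := by linarith
  set h := p * w / K with hh
  have hh0 : 0 < h := by positivity
  have h4 : 4 * h ≤ w := by
    rw [hh]
    have e1 : p * w ≤ w := by nlinarith
    have e2 : p * w / K ≤ w / 256 := by
      exact div_le_div₀ hw.le e1 (by norm_num) hK256
    linarith
  -- choose the slopes
  classical
  have hch : ∀ τ : V k, ∃ a₁ : ℝ, τ ∈ Z → (φ ≤ |a₁ - ω.2| ∧ |a₁ - ω.2| ≤ 2 * φ ∧
      ((sh τ ω).1, a₁) ∈ Rich R w w₁ φ κ) := by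
    intro τ
    by_cases hτ : τ ∈ Z
    · obtain ⟨a₁, ha⟩ := hτ.2
      exact ⟨a₁, fun _ => ha⟩
    · exact ⟨0, fun h => absurd h hτ⟩
  choose α hα using hch
  obtain ⟨τ₁, hτ₁, τ₂, hτ₂, hd, hs, hκC⟩ := hC2 Z α ω.2 φ w w₁ h κ hφ hw hw₁ hh0 (by linarith) hκ
    (fun τ hτ => hτ.1) (fun τ hτ => (hα τ hτ).2.1) hvol
  obtain ⟨ha1, ha1', hR1⟩ := hα τ₁ hτ₁
  obtain ⟨ha2, ha2', hR2⟩ := hα τ₂ hτ₂
  obtain ⟨ρ, c, τ, a, hρ, hc, htent, hside, hwall⟩ := hq R w w₁ φ κ _ hw₁' hκ hκ1 hR1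
  set ω₁ : Om k := ((sh τ₁ ω).1, α τ₁) with hω₁
  set ω₂ : Om k := ((sh τ₂ ω).1, α τ₂) with hω₂
  have hρ0 : 0 < ρ := lt_of_lt_of_le (by positivity) hρ
  have hgg : ∀ i, gg ω₁ ω₂ i = (ω.2 - α τ₁) * (τ₂ i - τ₁ i) := by
    intro i
    simp only [gg, hω₁, hω₂, sh, Pi.add_apply, Pi.smul_apply, smul_eq_mul]
    ring
  have hcomp : ∀ i, |τ₂ i - τ₁ i| ≤ ‖τ₁ - τ₂‖ := by
    intro i
    have := norm_le_pi_norm (τ₁ - τ₂) i
    rw [Real.norm_eq_abs, Pi.sub_apply, abs_sub_comm] at this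
    exact this
  have habs : |ω.2 - α τ₁| ≤ 2 * φ := by rw [abs_sub_comm]; exact ha1'
  have habs' : φ ≤ |ω.2 - α τ₁| := by rw [abs_sub_comm]; exact ha1
  have hmul : (4 * φ * h) / φ = 4 * h := by field_simp
  have hP : Prism R m w₁ ρ (4 * φ * h) φ ω₁ ω₂ c τ a (plate ω w) := by
    refine
      { m_pos := hm
        w₁_pos := hw₁'
        ρ_pos := hρ0
        ρ_le := ?_
        h_pos := by positivity
        φ_pos := hφ
        h_le := ?_
        fills := hfill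
        floor₁ := hR1.1.2
        floor₂ := hR2.1.2
        c_le := hc
        near := ?_
        tent := htent
        side := hside
        wall := ?_
        height := ?_
        T_conv := convex_plate _ _
        T_sub := hω.2
        T₁ := ?_
        T₂ := ?_ }
    · have h1 := hc 0
      have h2 := abs_nonneg (c 0)
      have h3 : (0 : ℝ) ≤ (k : ℝ) := by positivity
      nlinarith
    · rw [hmul, hh]
      have e1 : c0 k * (p * w₁ / (4 * ((k : ℝ) + 1))) ≤ c0 k * ρ :=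
        mul_le_mul_of_nonneg_left hρ c0_pos.le
      refine le_trans ?_ e1
      have e2 : c0 k * (p * w₁ / (4 * ((k : ℝ) + 1))) = p * w₁ / (64 * ((k : ℝ) + 1) ^ 2) := by
        rw [c0]
        field_simp
        norm_num
      have e3 : 4 * (p * w / K) = p * w / (64 * ((k : ℝ) + 1) ^ 2) := by
        rw [hK]
        field_simp
        norm_num
      rw [e2, e3]
      exact div_le_div_of_nonneg_right (mul_le_mul_of_nonneg_left hw₁ hp0.le) (by positivity)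
    · intro i
      have e : ω₂.1.1 i - ω₁.1.1 i = τ₂ i - τ₁ i := by
        simp only [hω₁, hω₂, sh, Pi.add_apply]
        ring
      rw [e]
      calc |τ₂ i - τ₁ i| ≤ ‖τ₁ - τ₂‖ := hcomp i
        _ ≤ h := hd
        _ ≤ w₁ / 4 := by linarith
    · intro j
      rw [hmul]
      exact (plate_mono _ h4).trans (hwall j)
    · intro i
      have e1 : |gg ω₁ ω₂ i| ≤ 2 * φ * h := by
        rw [hgg i, abs_mul]
        exact mul_le_mul habs ((hcomp i).trans hd) (abs_nonneg _) (by positivity)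
      have e2 : |ω₂.2 - ω₁.2| * w₁ ≤ φ * h := by
        have : |ω₂.2 - ω₁.2| ≤ φ * h / w₁ := by
          simp only [hω₁, hω₂]
          rw [abs_sub_comm]
          exact hs
        calc |ω₂.2 - ω₁.2| * w₁ ≤ φ * h / w₁ * w₁ := mul_le_mul_of_nonneg_right this hw₁'.le
          _ = φ * h := by field_simp
      have e3 : 0 < φ * h := by positivity
      linarith
    · exact plate_inter_sh_nonempty ω τ₁ _ (hτ₁.1.trans (by linarith)) hw₁'.le
    · exact plate_inter_sh_nonempty ω τ₂ _ (hτ₂.1.trans (by linarith)) hw₁'.le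
  have hpr := hCp2 R m w₁ ρ (4 * φ * h) φ ω₁ ω₂ c τ a (plate ω w) hP
  have hpr2 : φ * ‖τ₁ - τ₂‖ ≤ Cp * m * w₁ / ρ ^ 2 := by
    obtain ⟨i, hi⟩ : ∃ i, |τ₂ i - τ₁ i| = ‖τ₁ - τ₂‖ := by
      obtain ⟨i, -, hi⟩ := Finset.exists_max_image Finset.univ
        (fun i : Fin (k + 1) => |τ₂ i - τ₁ i|) ⟨0, Finset.mem_univ _⟩
      refine ⟨i, le_antisymm (hcomp i) ?_⟩
      rw [pi_norm_le_iff_of_nonneg (abs_nonneg _)]
      intro j
      rw [Real.norm_eq_abs, Pi.sub_apply, abs_sub_comm]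
      exact hi j (Finset.mem_univ _)
    rw [← hi]
    refine le_trans ?_ (hpr i)
    rw [hgg i, abs_mul]
    exact mul_le_mul_of_nonneg_right habs' (abs_nonneg _)
  exact b4b_real (D := k + 1) (by omega) hC hCp hm hw hw₁ hφ hκ hκ1 hK0
    (by positivity) (norm_nonneg _) hρ hpr2 hκC


end Pool.Agent.Lib.BeerLin
end
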