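import Pool.Agent.Lib.MP_d216ef_co.Lin.A2

/-!
# C1a: measurability of the typed plates, measure of the typed slopes
-/

set_option autoImplicit false

namespace Pool.Agent.Lib.BeerLin

open Set MeasureTheory Topology
open scoped ENNReal
open Pool.Agent.Lib.BeerIndex

variable {k : ℕ}

/-- projection along `[-1, 1]` -/
private theorem isClosed_proj {C : Set (Om k × ℝ)} (hC : IsClosed C)
    (h1 : ∀ x ∈ C, |x.2| ≤ 1) : IsClosed {ω : Om k | ∃ a, (ω, a) ∈ C} := by
  have h2 : {ω : Om k | ∃ a, (ω, a) ∈ C}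
      = Prod.fst '' ((fun q : Om k × Icc (-1 : ℝ) 1 => (q.1, (q.2 : ℝ))) ⁻¹' C) := by
    ext ω
    constructor
    · rintro ⟨a, ha⟩
      have := h1 _ ha
      rw [abs_le] at this
      exact ⟨(ω, ⟨a, this⟩), ha, rfl⟩
    · rintro ⟨⟨ω', a⟩, ha, rfl⟩
      exact ⟨a, ha⟩
  rw [h2]
  apply isClosedMap_fst_of_compactSpace
  exact hC.preimage (continuous_fst.prodMk (continuous_subtype_val.comp continuous_snd))

private theorem isClosed_pre {R : Set (X k)} (hR : IsClosed R) (w : ℝ) :
    IsClosed {x : Om k × ℝ | (x.1.1, x.2) ∈ G R w} :=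
  (isClosed_G hR w).preimage ((continuous_fst.comp continuous_fst).prodMk continuous_snd)

/-- `VR R w δ` is closed: it is the projection along the compact factor `a ∈ [-1, 1]` of a closed set
(slopes of elements of `G` are in `[-1, 1]`). -/
theorem isClosed_VR {R : Set (X k)} (hR : IsClosed R) (w δ : ℝ) : IsClosed (VR R w δ) := by
  have hC : IsClosed {x : Om k × ℝ | x.1.2 + δ ≤ x.2 ∧ (x.1.1, x.2) ∈ G R w} :=
    (isClosed_le ((continuous_snd.comp continuous_fst).add continuous_const)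
      continuous_snd).inter (isClosed_pre hR w)
  exact isClosed_proj hC fun x hx => hx.2.1

theorem isClosed_VL {R : Set (X k)} (hR : IsClosed R) (w δ : ℝ) : IsClosed (VL R w δ) := by
  have hC : IsClosed {x : Om k × ℝ | x.2 ≤ x.1.2 - δ ∧ (x.1.1, x.2) ∈ G R w} :=
    (isClosed_le continuous_snd
      ((continuous_snd.comp continuous_fst).sub continuous_const)).inter (isClosed_pre hR w)
  exact isClosed_proj hC fun x hx => hx.2.1

theorem measurableSet_G {R : Set (X k)} (hR : IsClosed R) (w : ℝ) : MeasurableSet (G R w) :=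
  (isClosed_G hR w).measurableSet

theorem measurableSet_Ty {R : Set (X k)} (hR : IsClosed R) (w δ : ℝ) :
    MeasurableSet (Ty R w δ) :=
  (measurableSet_G hR w).diff
    ((isClosed_VR hR w δ).measurableSet.inter (isClosed_VL hR w δ).measurableSet)

/-- The slopes of the plates through `p` which are not in `VR` form a set of diameter `≤ δ`, and so do
those which are not in `VL`. -/
theorem volume_sec_Ty_le (R : Set (X k)) (w : ℝ) {δ : ℝ} (hδ : 0 ≤ δ) (p : V k × V k) :
    volume (sec (Ty R w δ) p) ≤ ENNReal.ofReal (2 * δ) := by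
  have hA : volume {a : ℝ | (p, a) ∈ G R w ∧ (p, a) ∉ VR R w δ} ≤ ENNReal.ofReal δ := by
    refine (Real.volume_le_diam _).trans (Metric.ediam_le_of_forall_dist_le ?_)
    rintro a ⟨ha, ha'⟩ b ⟨hb, hb'⟩
    rw [Real.dist_eq, abs_le]
    constructor
    · by_contra hc
      exact ha' ⟨b, by simp only; linarith, hb⟩
    · by_contra hc
      exact hb' ⟨a, by simp only; linarith, ha⟩
  have hB : volume {a : ℝ | (p, a) ∈ G R w ∧ (p, a) ∉ VL R w δ} ≤ ENNReal.ofReal δ := by
    refine (Real.volume_le_diam _).trans (Metric.ediam_le_of_forall_dist_le ?_)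
    rintro a ⟨ha, ha'⟩ b ⟨hb, hb'⟩
    rw [Real.dist_eq, abs_le]
    constructor
    · by_contra hc
      exact hb' ⟨a, by simp only; linarith, ha⟩
    · by_contra hc
      exact ha' ⟨b, by simp only; linarith, hb⟩
  have hsub : sec (Ty R w δ) p ⊆ {a : ℝ | (p, a) ∈ G R w ∧ (p, a) ∉ VR R w δ} ∪
      {a : ℝ | (p, a) ∈ G R w ∧ (p, a) ∉ VL R w δ} := by
    rintro a ⟨h1, h2⟩
    by_cases h3 : (p, a) ∈ VR R w δ
    · exact Or.inr ⟨h1, fun h4 => h2 ⟨h3, h4⟩⟩
    · exact Or.inl ⟨h1, h3⟩
  calc volume (sec (Ty R w δ) p) ≤ _ := measure_mono hsub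
    _ ≤ _ := measure_union_le _ _
    _ ≤ ENNReal.ofReal δ + ENNReal.ofReal δ := add_le_add hA hB
    _ = ENNReal.ofReal (2 * δ) := by rw [← ENNReal.ofReal_add hδ hδ, two_mul]

end Pool.Agent.Lib.BeerLin
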