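import Pool.Agent.Lib.MP_d216ef_co.Lin.A2

/-!
# C1b: shifts preserve the measure; the functions Wf
-/

set_option autoImplicit false

namespace Pool.Agent.Lib.BeerLin

open Set MeasureTheory Topology
open scoped ENNReal
open Pool.Agent.Lib.BeerIndex

variable {k : ℕ}

/-- For fixed slope, `sh τ` is a translation of `V k × V k`. -/
theorem measurePreserving_sh (τ : V k) :
    MeasurePreserving (sh τ : Om k → Om k) volume volume := by
  have h1 : MeasurePreserving (fun q : ℝ × (V k × V k) => (q.1, (q.2.1 + τ, q.2.2 + q.1 • τ)))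
      ((volume : Measure ℝ).prod ((volume : Measure (V k)).prod (volume : Measure (V k))))
      ((volume : Measure ℝ).prod ((volume : Measure (V k)).prod (volume : Measure (V k)))) := by
    refine MeasurePreserving.skew_product (f := fun a : ℝ => a)
      (g := fun (a : ℝ) (p : V k × V k) => (p.1 + τ, p.2 + a • τ)) (MeasurePreserving.id volume) ?_ ?_
    · unfold Function.uncurry
      fun_prop
    · refine Filter.Eventually.of_forall fun a => ?_
      have h2 : MeasurePreserving (fun p : V k × V k => p + (τ, a • τ))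
          ((volume : Measure (V k)).prod (volume : Measure (V k)))
          ((volume : Measure (V k)).prod (volume : Measure (V k))) :=
        measurePreserving_add_right _ _
      exact h2.map_eq
  have h3 : MeasurePreserving (Prod.swap : (V k × V k) × ℝ → ℝ × (V k × V k))
      (((volume : Measure (V k)).prod (volume : Measure (V k))).prod (volume : Measure ℝ))
      ((volume : Measure ℝ).prod ((volume : Measure (V k)).prod (volume : Measure (V k)))) :=
    Measure.measurePreserving_swap
  have h4 : MeasurePreserving (Prod.swap : ℝ × (V k × V k) → (V k × V k) × ℝ)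
      ((volume : Measure ℝ).prod ((volume : Measure (V k)).prod (volume : Measure (V k))))
      (((volume : Measure (V k)).prod (volume : Measure (V k))).prod (volume : Measure ℝ)) :=
    Measure.measurePreserving_swap
  exact (h4.comp h1).comp h3

theorem measurable_sh : Measurable fun q : V k × Om k => sh q.1 q.2 :=
  continuous_sh.measurable

theorem measurableSet_sec {T : Set (Om k)} (hT : MeasurableSet T) (p : V k × V k) :
    MeasurableSet (sec T p) :=
  measurable_prodMk_left hT

theorem measurable_Wf {T : Set (Om k)} (hT : MeasurableSet T) (φ : ℝ) :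
    Measurable (Wf T φ) := by
  have hS : MeasurableSet {q : Om k × ℝ | (q.1.1, q.2) ∈ T ∧ φ ≤ |q.2 - q.1.2| ∧
      |q.2 - q.1.2| < 2 * φ} := by
    have h1 : Measurable fun q : Om k × ℝ => |q.2 - q.1.2| := by fun_prop
    have h2 : Measurable fun q : Om k × ℝ => ((q.1.1, q.2) : Om k) := by fun_prop
    exact (h2 hT).inter ((measurableSet_le measurable_const h1).inter
      (measurableSet_lt h1 measurable_const))
  exact measurable_measure_prodMk_left hS

theorem Wf_le_sec (T : Set (Om k)) (φ : ℝ) (ω : Om k) : Wf T φ ω ≤ volume (sec T ω.1) :=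
  measure_mono fun _ ha => ha.1

private def triSet (T T₁ : Set (Om k)) (φ : ℝ) : Set ((V k × V k) × ℝ × ℝ) :=
  {q | (q.1, q.2.1) ∈ T₁ ∧ (q.1, q.2.2) ∈ T ∧ φ ≤ |q.2.2 - q.2.1| ∧ |q.2.2 - q.2.1| < 2 * φ}

private theorem measurableSet_triSet {T T₁ : Set (Om k)} (hT : MeasurableSet T)
    (hT₁ : MeasurableSet T₁) (φ : ℝ) : MeasurableSet (triSet T T₁ φ) := by
  have h1 : Measurable fun q : (V k × V k) × ℝ × ℝ => |q.2.2 - q.2.1| := by fun_prop
  have h2 : Measurable fun q : (V k × V k) × ℝ × ℝ => ((q.1, q.2.1) : Om k) := by fun_prop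
  have h3 : Measurable fun q : (V k × V k) × ℝ × ℝ => ((q.1, q.2.2) : Om k) := by fun_prop
  exact (h2 hT₁).inter ((h3 hT).inter ((measurableSet_le measurable_const h1).inter
    (measurableSet_lt h1 measurable_const)))

private theorem lintegral_Wf_eq {T T₁ : Set (Om k)} (hT : MeasurableSet T) (hT₁ : MeasurableSet T₁)
    (φ : ℝ) : ∫⁻ ω in T₁, Wf T φ ω =
      ∫⁻ p : V k × V k, ∫⁻ a : ℝ, ∫⁻ a' : ℝ, (triSet T T₁ φ).indicator 1 (p, a, a') := by
  rw [← lintegral_indicator hT₁]
  have hm : Measurable (T₁.indicator (Wf T φ)) := (measurable_Wf hT φ).indicator hT₁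
  rw [Measure.volume_eq_prod (V k × V k) ℝ, lintegral_prod _ hm.aemeasurable]
  refine lintegral_congr fun p => lintegral_congr fun a => ?_
  by_cases ha : (p, a) ∈ T₁
  · rw [Set.indicator_of_mem ha]
    have hm2 : MeasurableSet {a' : ℝ | (p, a, a') ∈ triSet T T₁ φ} := by
      have h2 : Measurable fun a' : ℝ => ((p, a, a') : (V k × V k) × ℝ × ℝ) := by fun_prop
      exact h2 (measurableSet_triSet hT hT₁ φ)
    have h3 : ∀ a' : ℝ, (triSet T T₁ φ).indicator (1 : (V k × V k) × ℝ × ℝ → ℝ≥0∞) (p, a, a') =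
        {a' : ℝ | (p, a, a') ∈ triSet T T₁ φ}.indicator 1 a' := by
      intro a'
      by_cases h : (p, a, a') ∈ triSet T T₁ φ
      · rw [Set.indicator_of_mem h, Set.indicator_of_mem (show a' ∈ {a' : ℝ | (p, a, a') ∈ triSet T T₁ φ} from h)]
        rfl
      · rw [Set.indicator_of_notMem h, Set.indicator_of_notMem (show a' ∉ {a' : ℝ | (p, a, a') ∈ triSet T T₁ φ} from h)]
    simp only [h3]
    rw [lintegral_indicator_one hm2]
    unfold Wf
    congr 1
    ext a'
    simp only [Set.mem_setOf_eq, triSet]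
    exact ⟨fun h => ⟨ha, h⟩, fun h => h.2⟩
  · rw [Set.indicator_of_notMem ha]
    have h3 : ∀ a' : ℝ, (triSet T T₁ φ).indicator (1 : (V k × V k) × ℝ × ℝ → ℝ≥0∞) (p, a, a') = 0 := by
      intro a'
      exact Set.indicator_of_notMem (fun h => ha h.1) _
    simp only [h3, lintegral_zero]

/-- symmetry of the incidence measure (Tonelli) -/
theorem lintegral_Wf_comm {T T₁ : Set (Om k)} (hT : MeasurableSet T) (hT₁ : MeasurableSet T₁)
    (φ : ℝ) : ∫⁻ ω in T₁, Wf T φ ω = ∫⁻ ω in T, Wf T₁ φ ω := by
  rw [lintegral_Wf_eq hT hT₁ φ, lintegral_Wf_eq hT₁ hT φ]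
  refine lintegral_congr fun p => ?_
  have hm : Measurable (Function.uncurry fun (a a' : ℝ) =>
      (triSet T T₁ φ).indicator (1 : (V k × V k) × ℝ × ℝ → ℝ≥0∞) (p, a, a')) := by
    have h1 : Measurable ((triSet T T₁ φ).indicator (1 : (V k × V k) × ℝ × ℝ → ℝ≥0∞)) :=
      measurable_one.indicator (measurableSet_triSet hT hT₁ φ)
    have h2 : Measurable fun q : ℝ × ℝ => ((p, q.1, q.2) : (V k × V k) × ℝ × ℝ) := by fun_prop
    exact h1.comp h2
  rw [lintegral_lintegral_swap hm.aemeasurable]
  refine lintegral_congr fun a => lintegral_congr fun a' => ?_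
  have h : (p, a', a) ∈ triSet T T₁ φ ↔ (p, a, a') ∈ triSet T₁ T φ := by
    simp only [triSet, Set.mem_setOf_eq]
    rw [abs_sub_comm a a']
    tauto
  by_cases h1 : (p, a', a) ∈ triSet T T₁ φ
  · rw [Set.indicator_of_mem h1, Set.indicator_of_mem (h.mp h1)]
    rfl
  · rw [Set.indicator_of_notMem h1, Set.indicator_of_notMem (fun h2 => h1 (h.mpr h2))]

end Pool.Agent.Lib.BeerLin
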