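import Pool.Agent.Lib.MP_d216ef_co.Lin.A2

/-!
# D2a: measurability of QQ
-/

set_option autoImplicit false

namespace Pool.Agent.Lib.BeerLin

open Set MeasureTheory Topology
open scoped ENNReal
open Pool.Agent.Lib.BeerIndex

variable {k : ℕ}

/-- the condition of `HH_plate` in terms of `Y, Z` (and `|Z| ≤ |Y|`) -/
def QQ (R : Set (X k)) (p : V k × V k) (Y Z : ℝ) : Prop :=
  |Z| ≤ |Y| ∧ sh (fun _ => Y / (4 * ((k : ℝ) + 1))) ((Lam p.1, Lam p.2), Z / Y) ∈
    G R (|Y| / (4 * ((k : ℝ) + 1)))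

theorem isClosed_Rt {S : Set (X k)} (hS : IsClosed S) (t : Fin (k + 1) → Fin k → ℝ) :
    IsClosed (Rt S t) := by
  have h1 : Continuous fun u : Fin k → ℝ => UU t u := by
    unfold UU
    refine continuous_finsetSum _ fun i _ => ?_
    exact (continuous_bary_apply i).smul continuous_const
  have h2 : Continuous fun x : X k => ((UU t x.1, x.2) : X k) :=
    (h1.comp continuous_fst).prodMk continuous_snd
  exact hS.preimage h2

private theorem d2a_ev (u : Fin k → ℝ) : Continuous fun y : V k => ev y u := by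
  unfold ev
  refine continuous_finsetSum _ fun i _ => ?_
  exact continuous_const.mul (continuous_apply i)

private theorem d2a_closed {R : Set (X k)} (hR : IsClosed R) :
    IsClosed {q : Om k × ℝ | 0 ≤ q.2 ∧ q.1 ∈ G R q.2} := by
  have hG : {q : Om k × ℝ | 0 ≤ q.2 ∧ q.1 ∈ G R q.2} =
      ({q : Om k × ℝ | 0 ≤ q.2} ∩ {q : Om k × ℝ | |q.1.2| ≤ 1}) ∩
        ⋂ u ∈ Sx k, ⋂ σ ∈ Set.Icc (-1 : ℝ) 1,
      {q : Om k × ℝ | ((u, ev q.1.1.1 u + q.2 * σ, ev q.1.1.2 u + q.1.2 * (q.2 * σ)) : X k) ∈ R} := by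
    ext q
    simp only [G, Set.mem_inter_iff, Set.mem_iInter, Set.mem_setOf_eq]
    constructor
    · rintro ⟨h0, h1, h2⟩
      refine ⟨⟨h0, h1⟩, fun u hu σ hσ => h2 ⟨hu, ?_, ?_⟩⟩
      · show |ev q.1.1.1 u + q.2 * σ - ev q.1.1.1 u| ≤ q.2
        rw [add_sub_cancel_left, abs_mul, abs_of_nonneg h0]
        have h3 : |σ| ≤ 1 := abs_le.2 hσ
        nlinarith
      · show ev q.1.1.2 u + q.1.2 * (q.2 * σ) =
          ev q.1.1.2 u + q.1.2 * (ev q.1.1.1 u + q.2 * σ - ev q.1.1.1 u)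
        ring
    · rintro ⟨⟨h0, h1⟩, h2⟩
      refine ⟨h0, h1, ?_⟩
      rintro ⟨u, s, t⟩ ⟨hu, hs, ht⟩
      simp only at hu hs ht
      obtain ⟨σ, hσ, hσ'⟩ : ∃ σ ∈ Set.Icc (-1 : ℝ) 1, q.2 * σ = s - ev q.1.1.1 u := by
        rcases h0.lt_or_eq with h | h
        · refine ⟨(s - ev q.1.1.1 u) / q.2, abs_le.1 ?_, by field_simp⟩
          rw [abs_div, abs_of_pos h, div_le_one h]
          exact hs
        · rw [← h] at hs
          have h5 : s - ev q.1.1.1 u = 0 := abs_nonpos_iff.1 hs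
          exact ⟨0, ⟨by norm_num, by norm_num⟩, by rw [h5, mul_zero]⟩
      have h3 := h2 u hu σ hσ
      rw [hσ'] at h3
      have h4 : ((u, ev q.1.1.1 u + (s - ev q.1.1.1 u),
          ev q.1.1.2 u + q.1.2 * (s - ev q.1.1.1 u)) : X k) = (u, s, t) := by
        rw [← ht, add_sub_cancel]
      rwa [h4] at h3
  rw [hG]
  refine IsClosed.inter (IsClosed.inter (isClosed_le continuous_const continuous_snd)
    (isClosed_le (by fun_prop) continuous_const)) ?_
  refine isClosed_biInter fun u _ => isClosed_biInter fun σ _ => ?_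
  refine hR.preimage ?_
  have h1 : Continuous fun q : Om k × ℝ => ev q.1.1.1 u :=
    (d2a_ev u).comp (continuous_fst.comp (continuous_fst.comp continuous_fst))
  have h2 : Continuous fun q : Om k × ℝ => ev q.1.1.2 u :=
    (d2a_ev u).comp (continuous_snd.comp (continuous_fst.comp continuous_fst))
  fun_prop

/-- joint measurability: `{((p, Y, Z)) | QQ R p Y Z ∧ Y ≠ 0}` is the intersection of the open set `Y ≠ 0`
with the preimage of a closed set under a map which is continuous there: the set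
`{(ω, w) | ω ∈ G R w}` is closed if `R` is (intersection over `u ∈ Sx k`, `σ ∈ [-1, 1]` of the closed
conditions `(u, ev y u + w σ, ev z u + a w σ) ∈ R`, for `w ≥ 0`). -/
theorem measurableSet_QQ {R : Set (X k)} (hR : IsClosed R) :
    MeasurableSet {q : (V k × V k) × ℝ × ℝ | q.2.1 ≠ 0 ∧ QQ R q.1 q.2.1 q.2.2} := by
  have hLam : Continuous (Lam : V k → V k) := by
    unfold Lam
    refine continuous_pi fun i => ?_
    fun_prop
  have hm1 : Measurable fun q : (V k × V k) × ℝ × ℝ =>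
      ((fun _ => q.2.1 / (4 * ((k : ℝ) + 1)), ((Lam q.1.1, Lam q.1.2), q.2.2 / q.2.1)) :
        V k × Om k) := by
    refine Measurable.prodMk ?_ (Measurable.prodMk ?_ ?_)
    · exact (by fun_prop : Continuous fun q : (V k × V k) × ℝ × ℝ =>
        (fun _ => q.2.1 / (4 * ((k : ℝ) + 1)) : V k)).measurable
    · exact ((hLam.comp (continuous_fst.comp continuous_fst)).prodMk
        (hLam.comp (continuous_snd.comp continuous_fst))).measurable
    · exact (measurable_snd.comp measurable_snd).div (measurable_fst.comp measurable_snd)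
  have hm2 : Measurable fun q : (V k × V k) × ℝ × ℝ =>
      ((sh (fun _ => q.2.1 / (4 * ((k : ℝ) + 1))) ((Lam q.1.1, Lam q.1.2), q.2.2 / q.2.1),
        |q.2.1| / (4 * ((k : ℝ) + 1))) : Om k × ℝ) := by
    refine Measurable.prodMk ?_ ?_
    · exact continuous_sh.measurable.comp hm1
    · exact (by fun_prop : Continuous fun q : (V k × V k) × ℝ × ℝ =>
        |q.2.1| / (4 * ((k : ℝ) + 1))).measurable
  have hs : {q : (V k × V k) × ℝ × ℝ | q.2.1 ≠ 0 ∧ QQ R q.1 q.2.1 q.2.2} =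
      ({q : (V k × V k) × ℝ × ℝ | q.2.1 ≠ 0} ∩ {q : (V k × V k) × ℝ × ℝ | |q.2.2| ≤ |q.2.1|}) ∩
      (fun q : (V k × V k) × ℝ × ℝ =>
      ((sh (fun _ => q.2.1 / (4 * ((k : ℝ) + 1))) ((Lam q.1.1, Lam q.1.2), q.2.2 / q.2.1),
        |q.2.1| / (4 * ((k : ℝ) + 1))) : Om k × ℝ)) ⁻¹'
        {q : Om k × ℝ | 0 ≤ q.2 ∧ q.1 ∈ G R q.2} := by
    ext q
    constructor
    · rintro ⟨h1, h2, h3⟩
      exact ⟨⟨h1, h2⟩, div_nonneg (abs_nonneg _) (by positivity), h3⟩
    · rintro ⟨⟨h1, h2⟩, _, h3⟩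
      exact ⟨h1, h2, h3⟩
  rw [hs]
  refine MeasurableSet.inter (MeasurableSet.inter ?_ ?_) ((d2a_closed hR).measurableSet.preimage hm2)
  · exact (isOpen_ne_fun (by fun_prop) continuous_const).measurableSet
  · exact (isClosed_le (by fun_prop) (by fun_prop)).measurableSet

end Pool.Agent.Lib.BeerLin
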