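import Pool.Agent.Lib.MP_d216ef_co.Lin.A2
import Pool.Agent.Lib.MP_d216ef_co.Lin.A3b
import Pool.Agent.Lib.MP_d216ef_co.Lin.C1a
import Pool.Agent.Lib.MP_d216ef_co.Lin.C1b
import Pool.Agent.Lib.MP_d216ef_co.Lin.D2a

section

/-!
# D1a: the contraction Lam
-/

set_option autoImplicit false

namespace Pool.Agent.Lib.BeerLin

open Set MeasureTheory Topology
open scoped ENNReal
open Pool.Agent.Lib.BeerIndex

variable {k : ℕ}

/-- contraction in barycentric form: `∑ β_i (Lam v)_i = ∑ γ_i v_i` with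
`γ_i = β_i/2 + 1/(2(k+1))`, if `∑ β = 1`. -/
theorem sum_Lam {F : Type*} [AddCommGroup F] [Module ℝ F] (v : Fin (k + 1) → F)
    (β : Fin (k + 1) → ℝ) (hβ : ∑ i, β i = 1) :
    ∑ i, β i • Lam v i = ∑ i, (β i / 2 + 1 / (2 * ((k : ℝ) + 1))) • v i := by
  have h1 : ∀ i, β i • Lam v i = (β i / 2) • v i + β i • ((1 / (2 * ((k : ℝ) + 1))) • ∑ j, v j) := by
    intro i
    unfold Lam
    rw [smul_add, smul_smul]
    congr 2
    ring
  simp only [h1, add_smul]
  rw [Finset.sum_add_distrib, Finset.sum_add_distrib, ← Finset.sum_smul, hβ, one_smul,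
    Finset.smul_sum]

/-- `JJ (Lam t) = JJ t / 2^k` (the edge vectors are divided by `2`) -/
theorem JJ_Lam (t : Fin (k + 1) → Fin k → ℝ) : JJ (Lam t) = JJ t / 2 ^ k := by
  have hm : mat (Lam t) = (1 / 2 : ℝ) • mat t := by
    ext i j
    simp only [mat, Lam, Matrix.smul_apply, Matrix.of_apply, Pi.add_apply, Pi.smul_apply,
      Pi.sub_apply, smul_eq_mul]
    ring
  unfold JJ
  rw [hm, Matrix.det_smul, abs_mul, Fintype.card_fin, abs_of_nonneg (by positivity)]
  rw [one_div, inv_pow]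
  field_simp

end Pool.Agent.Lib.BeerLin
end

section

/-!
# D1b: a good simplex gives a plate over the contracted face
-/

set_option autoImplicit false

namespace Pool.Agent.Lib.BeerLin

open Set MeasureTheory Topology
open scoped ENNReal
open Pool.Agent.Lib.BeerIndex

variable {k : ℕ}

/-- **Plate in a simplex.** With `Y = y_C - ∑ β_i y_i`, `Z = z_C - ∑ β_i z_i`, `β = bc t u_C`:

Proof. `|Z/Y| ≤ 1` by the last part of `HH`. Let `x = (u, y, z)` be a point of the plate: `u ∈ Sx k`,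
`σ = y - ev (Lam p.1 + Y/(4(k+1))) u`, `|σ| ≤ |Y|/(4(k+1))`, so
`y = ev (Lam p.1) u + s Y`, `z = ev (Lam p.2) u + s Z` with `s = 1/(4(k+1)) + σ/Y ∈ [0, 1/(2(k+1))]`.
By `sum_Lam` and `sum_bc_smul` the point `(UU (Lam t) u, y, z)` is
`∑ γ_i e_i + s (C - ∑ β_i e_i) = ∑ (γ_i - s β_i) e_i + s C`, where `e_i = (t i, p.1 i, p.2 i)`,
`γ_i = bary u i/2 + 1/(2(k+1)) ≥ 1/(2(k+1)) ≥ s ≥ s β_i`; the coefficients are nonnegative with sum `1`. -/
theorem HH_plate {S : Set (X k)} {t : Fin (k + 1) → Fin k → ℝ} {p : V k × V k} {C : X k}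
    (hJ : 0 < JJ t) (h : HH S t p C) (hY : C.2.1 - ∑ i, bc t C.1 i * p.1 i ≠ 0) :
    sh (fun _ => (C.2.1 - ∑ i, bc t C.1 i * p.1 i) / (4 * ((k : ℝ) + 1)))
      ((Lam p.1, Lam p.2), (C.2.2 - ∑ i, bc t C.1 i * p.2 i) / (C.2.1 - ∑ i, bc t C.1 i * p.1 i)) ∈
      G (Rt S (Lam t)) (|C.2.1 - ∑ i, bc t C.1 i * p.1 i| / (4 * ((k : ℝ) + 1))) := by
  obtain ⟨hS, hb, hZY⟩ := h
  set Y : ℝ := C.2.1 - ∑ i, bc t C.1 i * p.1 i with hYdef
  set Z : ℝ := C.2.2 - ∑ i, bc t C.1 i * p.2 i with hZdef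
  have hk : (0 : ℝ) < (k : ℝ) + 1 := by positivity
  have hYpos : 0 < |Y| := abs_pos.2 hY
  refine ⟨?_, ?_⟩
  · show |Z / Y| ≤ 1
    rw [abs_div]
    exact (div_le_one hYpos).2 hZY
  · intro x hx
    obtain ⟨hu, h1, h2⟩ := hx
    have e1 : ev (Lam p.1 + fun _ => Y / (4 * ((k : ℝ) + 1))) x.1 =
        ev (Lam p.1) x.1 + Y / (4 * ((k : ℝ) + 1)) := by
      rw [ev_add, ev_const]
    have e2 : ev (Lam p.2 + (Z / Y) • fun _ => Y / (4 * ((k : ℝ) + 1))) x.1 =
        ev (Lam p.2) x.1 + Z / Y * (Y / (4 * ((k : ℝ) + 1))) := by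
      rw [ev_add, ev_smul, ev_const]
    change |x.2.1 - ev (Lam p.1 + fun _ => Y / (4 * ((k : ℝ) + 1))) x.1| ≤
      |Y| / (4 * ((k : ℝ) + 1)) at h1
    change x.2.2 = ev (Lam p.2 + (Z / Y) • fun _ => Y / (4 * ((k : ℝ) + 1))) x.1 +
      Z / Y * (x.2.1 - ev (Lam p.1 + fun _ => Y / (4 * ((k : ℝ) + 1))) x.1) at h2
    rw [e1] at h1
    rw [e1, e2] at h2
    set σ : ℝ := x.2.1 - (ev (Lam p.1) x.1 + Y / (4 * ((k : ℝ) + 1))) with hσ
    set s : ℝ := 1 / (4 * ((k : ℝ) + 1)) + σ / Y with hs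
    have hσY : |σ / Y| ≤ 1 / (4 * ((k : ℝ) + 1)) := by
      rw [abs_div, div_le_iff₀ hYpos]
      calc |σ| ≤ |Y| / (4 * ((k : ℝ) + 1)) := h1
        _ = 1 / (4 * ((k : ℝ) + 1)) * |Y| := by ring
    have hs0 : 0 ≤ s := by
      have := (abs_le.1 hσY).1
      rw [hs]
      linarith
    have hs1 : s ≤ 1 / (2 * ((k : ℝ) + 1)) := by
      have h3 := (abs_le.1 hσY).2
      have h4 : 1 / (2 * ((k : ℝ) + 1)) = 1 / (4 * ((k : ℝ) + 1)) + 1 / (4 * ((k : ℝ) + 1)) := by
        field_simp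
        norm_num
      rw [hs, h4]
      linarith
    have hsY : s * Y = Y / (4 * ((k : ℝ) + 1)) + σ := by
      rw [hs, add_mul, div_mul_cancel₀ _ hY]
      ring
    have hsZ : s * Z = Z / Y * (Y / (4 * ((k : ℝ) + 1))) + Z / Y * σ := by
      rw [hs]
      field_simp
    have hy : x.2.1 = ev (Lam p.1) x.1 + s * Y := by
      rw [hsY, hσ]
      ring
    have hz : x.2.2 = ev (Lam p.2) x.1 + s * Z := by
      rw [h2, hsZ]
      ring
    set γ : Fin (k + 1) → ℝ := fun i => bary x.1 i / 2 + 1 / (2 * ((k : ℝ) + 1)) with hγ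
    have hγsum : ∑ i, γ i = 1 := by
      rw [hγ, Finset.sum_add_distrib, ← Finset.sum_div, sum_bary, Finset.sum_const,
        Finset.card_univ, Fintype.card_fin, nsmul_eq_mul]
      push_cast
      field_simp
      norm_num
    have L1 : ∑ i, γ i • t i = UU (Lam t) x.1 := by
      unfold UU
      rw [sum_Lam t (bary x.1) (sum_bary x.1)]
    have L2 : ∑ i, γ i * p.1 i = ev (Lam p.1) x.1 := by
      have h3 := sum_Lam p.1 (bary x.1) (sum_bary x.1)
      simp only [smul_eq_mul] at h3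
      exact h3.symm
    have L3 : ∑ i, γ i * p.2 i = ev (Lam p.2) x.1 := by
      have h3 := sum_Lam p.2 (bary x.1) (sum_bary x.1)
      simp only [smul_eq_mul] at h3
      exact h3.symm
    have hcpos : ∀ i, 0 ≤ γ i - s * bc t C.1 i := by
      intro i
      have h3 : 0 ≤ bary x.1 i := hu i
      have h4 : s * bc t C.1 i ≤ s * 1 :=
        mul_le_mul_of_nonneg_left ((le_abs_self _).trans (hb i)) hs0
      have h5 : 1 / (2 * ((k : ℝ) + 1)) ≤ γ i := by
        show 1 / (2 * ((k : ℝ) + 1)) ≤ bary x.1 i / 2 + 1 / (2 * ((k : ℝ) + 1))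
        linarith
      linarith
    have hcsum : s + ∑ i, (γ i - s * bc t C.1 i) = 1 := by
      rw [Finset.sum_sub_distrib, ← Finset.mul_sum, sum_bc, hγsum]
      ring
    set e : Fin (k + 1) → X k := fun i => (t i, p.1 i, p.2 i) with he
    have hmem : s • C + ∑ i, (γ i - s * bc t C.1 i) • e i ∈ convexHull ℝ (insert C (range e)) := by
      have h3 := (convex_convexHull ℝ (insert C (range e))).sum_mem
        (t := (Finset.univ : Finset (Fin (k + 2))))
        (w := Fin.cons s (fun i => γ i - s * bc t C.1 i)) (z := Fin.cons C e)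
        (by
          intro i _
          refine Fin.cases ?_ (fun j => ?_) i
          · exact hs0
          · exact hcpos j)
        (by
          rw [Fin.sum_univ_succ]
          simpa using hcsum)
        (by
          intro i _
          refine Fin.cases ?_ (fun j => ?_) i
          · exact subset_convexHull ℝ _ (mem_insert _ _)
          · exact subset_convexHull ℝ _ (mem_insert_of_mem _ (mem_range_self j)))
      rw [Fin.sum_univ_succ] at h3
      simpa using h3
    have hpt : s • C + ∑ i, (γ i - s * bc t C.1 i) • e i = (UU (Lam t) x.1, x.2) := by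
      have hbc : ∑ i, bc t C.1 i • t i = C.1 := sum_bc_smul hJ C.1
      refine Prod.ext ?_ (Prod.ext ?_ ?_)
      · rw [Prod.fst_add, Prod.smul_fst, Prod.fst_sum]
        simp only [Prod.smul_fst, he]
        simp only [sub_smul, Finset.sum_sub_distrib, mul_smul]
        rw [← Finset.smul_sum, hbc, L1]
        abel
      · rw [Prod.snd_add, Prod.fst_add, Prod.smul_snd, Prod.smul_fst, Prod.snd_sum, Prod.fst_sum]
        simp only [Prod.smul_snd, Prod.smul_fst, he, smul_eq_mul, sub_mul, Finset.sum_sub_distrib,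
          mul_assoc]
        rw [← Finset.mul_sum, L2, hy, hYdef]
        ring
      · rw [Prod.snd_add, Prod.snd_add, Prod.smul_snd, Prod.smul_snd, Prod.snd_sum, Prod.snd_sum]
        simp only [Prod.smul_snd, he, smul_eq_mul, sub_mul, Finset.sum_sub_distrib,
          mul_assoc]
        rw [← Finset.mul_sum, L3, hz, hZdef]
        ring
    rw [hpt] at hmem
    exact hS hmem

end Pool.Agent.Lib.BeerLin
end

section

/-!
# A5: the roof lemma
-/

set_option autoImplicit false

namespace Pool.Agent.Lib.BeerLin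

open Set MeasureTheory Topology
open scoped ENNReal
open Pool.Agent.Lib.BeerIndex

variable {k : ℕ}

private theorem ev_zero' (u : Fin k → ℝ) : ev (0 : V k) u = 0 := by
  exact ev_const (k := k) 0 u

private theorem cont_ev (y : V k) {E : Type*} [TopologicalSpace E] {f : E → Fin k → ℝ}
    (hf : Continuous f) : Continuous fun x => ev y (f x) :=
  continuous_ev.comp (continuous_const.prodMk hf)

/-- the height over the plate -/
private def hy (ω : Om k) (x : X k) : ℝ := x.2.1 - ev ω.1.1 x.1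

private def hz (ω : Om k) (x : X k) : ℝ := x.2.2 - ev ω.1.2 x.1 - ω.2 * hy ω x

/-- the functions defining the polytope -/
private def gg (ω : Om k) (τ : Fin (k + 2) → V k) (a : Fin (k + 2) → ℝ) :
    Option (Fin (k + 2)) → X k → ℝ
  | none, x => hz ω x
  | some j, x => (a j - ω.2) * (hy ω x - ev (τ j) x.1) - hz ω x

private theorem hy_comb (ω : Om k) (x y : X k) {c d : ℝ} (h : c + d = 1) :
    hy ω (c • x + d • y) = c * hy ω x + d * hy ω y := by
  have h1 := ev_comb ω.1.1 x.1 y.1 h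
  simp only [hy, Prod.fst_add, Prod.snd_add, Prod.smul_fst, Prod.smul_snd, smul_eq_mul, h1]
  ring

private theorem hz_comb (ω : Om k) (x y : X k) {c d : ℝ} (h : c + d = 1) :
    hz ω (c • x + d • y) = c * hz ω x + d * hz ω y := by
  have h1 := ev_comb ω.1.2 x.1 y.1 h
  have h2 := hy_comb ω x y h
  simp only [hz, Prod.fst_add, Prod.snd_add, Prod.smul_fst, Prod.smul_snd, smul_eq_mul, h1] at *
  rw [h2]
  ring

private theorem gg_comb (ω : Om k) (τ : Fin (k + 2) → V k) (a : Fin (k + 2) → ℝ)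
    (o : Option (Fin (k + 2))) (x y : X k) {c d : ℝ} (h : c + d = 1) :
    gg ω τ a o (c • x + d • y) = c * gg ω τ a o x + d * gg ω τ a o y := by
  cases o with
  | none => exact hz_comb ω x y h
  | some j =>
    have h1 := ev_comb (τ j) x.1 y.1 h
    have h2 := hy_comb ω x y h
    have h3 := hz_comb ω x y h
    simp only [gg]
    rw [h2, h3]
    simp only [Prod.fst_add, Prod.smul_fst, h1]
    ring

private theorem hy_cont (ω : Om k) : Continuous (hy ω : X k → ℝ) := by
  unfold hy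
  exact (continuous_fst.comp continuous_snd).sub (cont_ev _ continuous_fst)

private theorem hz_cont (ω : Om k) : Continuous (hz ω : X k → ℝ) := by
  unfold hz
  exact ((continuous_snd.comp continuous_snd).sub (cont_ev _ continuous_fst)).sub
    (continuous_const.mul (hy_cont ω))

private theorem gg_cont (ω : Om k) (τ : Fin (k + 2) → V k) (a : Fin (k + 2) → ℝ)
    (o : Option (Fin (k + 2))) : Continuous (gg ω τ a o) := by
  cases o with
  | none => exact hz_cont ω
  | some j =>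
    exact (continuous_const.mul ((hy_cont ω).sub (cont_ev _ continuous_fst))).sub (hz_cont ω)

/-- the polytope -/
private def KK (ω : Om k) (τ : Fin (k + 2) → V k) (a : Fin (k + 2) → ℝ) : Set (X k) :=
  {x | ∀ o, 0 ≤ gg ω τ a o x}

private theorem KK_convex (ω : Om k) (τ : Fin (k + 2) → V k) (a : Fin (k + 2) → ℝ) :
    Convex ℝ (KK ω τ a) := by
  intro x hx y hy c d hc hd hcd o
  rw [gg_comb ω τ a o x y hcd]
  exact add_nonneg (mul_nonneg hc (hx o)) (mul_nonneg hd (hy o))

private theorem KK_closed (ω : Om k) (τ : Fin (k + 2) → V k) (a : Fin (k + 2) → ℝ) :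
    IsClosed (KK ω τ a) := by
  have : KK ω τ a = ⋂ o, {x | 0 ≤ gg ω τ a o x} := by
    ext x
    simp [KK]
  rw [this]
  exact isClosed_iInter fun o => isClosed_le continuous_const (gg_cont ω τ a o)

/-- **Roof lemma.** Over a plate `ω` of width `w` in `R` there cannot be a high roof.

Proof. Put `ρ = w / (16 (k+1))`. For `x = (u, y, z)` let `y' = y - ev ω.1.1 u` and
`z' = z - ev ω.1.2 u - ω.2 * y'`, `b 0 = a 0 - ω.2 ≥ δ`, `b i.succ = ω.2 - a i.succ ≥ δ`, and
`K = {x | 0 ≤ z', z' ≤ b 0 * (y' - ev (τ 0) u), ∀ i, z' ≤ b i.succ * (ev (τ i.succ) u - y')}`.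
For `x ∈ K` we have `ev (τ 0) u ≤ y' ≤ ev (τ i.succ) u`, hence by `tent` (with `c = 0`, `s = 0`, this `ρ`)
`u` is in the (interior of the) simplex and `|y'| ≤ 2 ρ`. So `K` is compact, and it is convex. By
`frontier_polyhedron` a frontier point `x` of `K` is in `K` and
* `z' = 0`, then `x ∈ plate ω w` (`|y'| ≤ 2 ρ ≤ w`), or
* `z' = b 0 * (y' - ev (τ 0) u)`, then `x ∈ plate ((sh (τ 0) ω).1, a 0) (w/2)`: with
  `σ = y' - ev (τ 0) u`, `z = ev ω.1.2 u + ω.2 * ev (τ 0) u + a 0 * σ`, `|σ| ≤ 2 ρ + |ev (τ 0) u| ≤ w/2`, or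
* the same for some `i.succ` (`|τ j i| ≤ ρ (k + 1)`, so `|σ| ≤ 2 ρ + (k+1) ρ ≤ w/2`).
The plates are convex subsets of `R` and each of the last ones meets `plate ω w`
(`plate_inter_sh_nonempty`). So `volume K ≤ ofReal m` by `Fills` (`n = k + 2`, `C 0 = plate ω w`).
By `tent_core` (`c = 0`) `K` contains the sheared box `|u i - 1/(k+1)| ≤ 1/(16 (k+1)^3)`,
`y' ∈ [ρ/(8(k+1)), ρ/(4(k+1))]`, `z' ∈ [0, δ ρ/(16(k+1))]`, whose volume is computed by `volume_shear`
and `volume_cube`. -/
theorem roof (hk : 1 ≤ k) : ∃ cr : ℝ, 0 < cr ∧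
    ∀ (R : Set (X k)) (m w δ : ℝ) (ω : Om k) (τ : Fin (k + 2) → V k) (a : Fin (k + 2) → ℝ),
      0 ≤ m → 0 < w → 0 < δ → Fills R (ENNReal.ofReal m) → plate ω w ⊆ R →
      (∀ j i, |τ j i - (w / (16 * ((k : ℝ) + 1))) * (mo j : V k) i| ≤
        c0 k * (w / (16 * ((k : ℝ) + 1)))) →
      δ ≤ a 0 - ω.2 → (∀ i : Fin (k + 1), δ ≤ ω.2 - a i.succ) →
      (∀ j, plate ((sh (τ j) ω).1, a j) (w / 2) ⊆ R) →
      cr * w ^ 2 * δ ≤ m := by
  have hk0 : (0 : ℝ) < (k : ℝ) + 1 := by positivity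
  refine ⟨(2 * (1 / (16 * ((k : ℝ) + 1) ^ 3))) ^ k *
    (1 / (16 * ((k : ℝ) + 1)) * (1 / (8 * ((k : ℝ) + 1))) *
      (1 / (16 * ((k : ℝ) + 1)) * (1 / (16 * ((k : ℝ) + 1))))), by positivity, ?_⟩
  intro R m w δ ω τ a hm hw hδ hF hpl hτ ha0 ha1 hR
  set ρ : ℝ := w / (16 * ((k : ℝ) + 1)) with hρ
  have hρ0 : 0 < ρ := by positivity
  have hwρ : w = 16 * ((k : ℝ) + 1) * ρ := by
    rw [hρ]
    field_simp
  have hc0 : (0 : ℝ) < c0 k := c0_pos
  have hc1 : c0 k ≤ 1 := by
    unfold c0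
    rw [div_le_one (by positivity)]
    nlinarith
  have hτc : ∀ j i, |τ j i - ((0 : V k) i + ρ * (mo j : V k) i)| ≤ c0 k * ρ := by
    intro j i
    have := hτ j i
    simpa using this
  -- sizes of the shifts
  have hτn : ∀ j i, |τ j i| ≤ ρ * ((k : ℝ) + 1) := by
    intro j i
    have h1 := hτ j i
    have h2 := abs_mo_le hk j i
    have h3 : |τ j i| ≤ |τ j i - ρ * (mo j : V k) i| + |ρ * (mo j : V k) i| := by
      have := abs_add_le (τ j i - ρ * (mo j : V k) i) (ρ * (mo j : V k) i)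
      simpa using this
    have h4 : |ρ * (mo j : V k) i| ≤ ρ * k := by
      rw [abs_mul, abs_of_pos hρ0]
      exact mul_le_mul_of_nonneg_left h2 hρ0.le
    have h5 : c0 k * ρ ≤ 1 * ρ := mul_le_mul_of_nonneg_right hc1 hρ0.le
    nlinarith
  -- points of the polytope
  have hmem : ∀ x ∈ KK ω τ a, x.1 ∈ Sx k ∧ |hy ω x| ≤ 2 * ρ ∧ 0 ≤ hz ω x ∧
      ∀ j, hz ω x ≤ (a j - ω.2) * (hy ω x - ev (τ j) x.1) := by
    intro x hx
    have hz0 : 0 ≤ hz ω x := hx none
    have hj : ∀ j, hz ω x ≤ (a j - ω.2) * (hy ω x - ev (τ j) x.1) := by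
      intro j
      have h1 : 0 ≤ (a j - ω.2) * (hy ω x - ev (τ j) x.1) - hz ω x := hx (some j)
      linarith
    have h0 : ev (τ 0) x.1 ≤ hy ω x := by
      have h1 := hj 0
      by_contra hc
      push Not at hc
      have : (a 0 - ω.2) * (hy ω x - ev (τ 0) x.1) < 0 :=
        mul_neg_of_pos_of_neg (by linarith) (by linarith)
      linarith
    have h1 : ∀ i : Fin (k + 1), hy ω x ≤ ev (τ i.succ) x.1 := by
      intro i
      have h1 := hj i.succ
      have h2 := ha1 i
      by_contra hc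
      push Not at hc
      have : (a i.succ - ω.2) * (hy ω x - ev (τ i.succ) x.1) < 0 :=
        mul_neg_of_neg_of_pos (by linarith) (by linarith)
      linarith
    have h2 := tent hk hρ0 0 τ hτc x.1 0 (fun j => by simp only [Pi.zero_apply, abs_zero]; positivity)
      (hy ω x) (by simpa using h0) (fun i => by simpa using h1 i)
    obtain ⟨h3, h4⟩ := h2
    rw [ev_zero', sub_zero] at h4
    exact ⟨fun i => (h3 i).le, h4, hz0, hj⟩
  -- compactness
  have hcomp : IsCompact (KK ω τ a) := by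
    set B : ℝ := (a 0 - ω.2) * (2 * ρ + ρ * ((k : ℝ) + 1)) with hB
    have hcont : Continuous fun p : (Fin k → ℝ) × ℝ × ℝ =>
        ((p.1, p.2.1 + ev ω.1.1 p.1, p.2.2 + ev ω.1.2 p.1 + ω.2 * p.2.1) : X k) := by
      refine continuous_fst.prodMk (((continuous_fst.comp continuous_snd).add
        (cont_ev _ continuous_fst)).prodMk (((continuous_snd.comp continuous_snd).add
        (cont_ev _ continuous_fst)).add (continuous_const.mul (continuous_fst.comp continuous_snd))))
    have hc := ((isCompact_Sx (k := k)).prod ((isCompact_Icc (a := -(2 * ρ)) (b := 2 * ρ)).prod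
      (isCompact_Icc (a := (0 : ℝ)) (b := B)))).image hcont
    refine hc.of_isClosed_subset (KK_closed ω τ a) ?_
    intro x hx
    obtain ⟨h1, h2, h3, h4⟩ := hmem x hx
    refine ⟨(x.1, hy ω x, hz ω x), ⟨h1, ?_, ?_⟩, ?_⟩
    · exact abs_le.1 h2
    · refine ⟨h3, (h4 0).trans ?_⟩
      rw [hB]
      refine mul_le_mul_of_nonneg_left ?_ (by linarith)
      have h5 := abs_ev_le (y := τ 0) h1 (hτn 0)
      have h6 := abs_le.1 h2
      have h7 := abs_le.1 h5
      linarith [h6.2, h7.1]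
    · refine Prod.ext rfl (Prod.ext ?_ ?_)
      · simp only [hy]
        ring
      · simp only [hz, hy]
        ring
  -- covering of the frontier
  have hvol : volume (KK ω τ a) ≤ ENNReal.ofReal m := by
    refine hF (KK ω τ a) (k + 2) (Fin.cons (plate ω w)
      (fun j => plate ((sh (τ j) ω).1, a j) (w / 2))) hcomp (KK_convex ω τ a) ?_ ?_ ?_ ?_
    · intro i
      refine Fin.cases ?_ (fun j => ?_) i
      · simpa using convex_plate ω w
      · simpa using convex_plate _ _
    · intro i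
      refine Fin.cases ?_ (fun j => ?_) i
      · simpa using hpl
      · simpa using hR j
    · intro i
      refine Fin.cases ?_ (fun j => ?_) i
      · exact Relation.ReflTransGen.refl
      · refine Relation.ReflTransGen.single ?_
        simp only [Fin.cons_zero, Fin.cons_succ]
        refine plate_inter_sh_nonempty ω (τ j) (a j) ?_ (by positivity)
        rw [pi_norm_le_iff_of_nonneg hw.le]
        intro i
        rw [Real.norm_eq_abs]
        refine (hτn j i).trans ?_
        rw [hwρ]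
        nlinarith [mul_pos hk0 hρ0]
    · intro x hx
      obtain ⟨hxK, o, ho⟩ := frontier_polyhedron (gg ω τ a) (gg_cont ω τ a) hx
      obtain ⟨h1, h2, h3, h4⟩ := hmem x hxK
      rw [mem_iUnion]
      cases o with
      | none =>
        refine ⟨0, ?_⟩
        rw [Fin.cons_zero]
        have ho' : hz ω x = 0 := ho
        refine ⟨h1, ?_, ?_⟩
        · refine le_trans (b := 2 * ρ) h2 ?_
          rw [hwρ]
          nlinarith [mul_nonneg (Nat.cast_nonneg (α := ℝ) k) hρ0.le]
        · simp only [hz, hy] at ho'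
          linarith
      | some j =>
        refine ⟨j.succ, ?_⟩
        rw [Fin.cons_succ]
        have ho' : (a j - ω.2) * (hy ω x - ev (τ j) x.1) - hz ω x = 0 := ho
        have h5 := abs_ev_le (y := τ j) h1 (hτn j)
        refine ⟨h1, ?_, ?_⟩
        · simp only [sh, ev_add]
          have h6 := abs_le.1 h2
          have h7 := abs_le.1 h5
          have h8 : (2 : ℝ) * ρ + ρ * ((k : ℝ) + 1) ≤ w / 2 := by
            rw [hwρ]
            nlinarith [mul_nonneg (Nat.cast_nonneg (α := ℝ) k) hρ0.le]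
          simp only [hy] at h6
          rw [abs_le]
          constructor <;> linarith [h6.1, h6.2, h7.1, h7.2]
        · simp only [sh, ev_add, ev_smul]
          simp only [hz, hy] at ho'
          linarith
  -- the box
  set A : Set (Fin k → ℝ) := {u | ∀ i, |u i - 1 / ((k : ℝ) + 1)| ≤ 1 / (16 * ((k : ℝ) + 1) ^ 3)}
    with hA
  have hAm : MeasurableSet A := by
    have : A = ⋂ i, {u : Fin k → ℝ | |u i - 1 / ((k : ℝ) + 1)| ≤ 1 / (16 * ((k : ℝ) + 1) ^ 3)} := by
      ext u
      simp [hA]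
    rw [this]
    refine (isClosed_iInter fun i => isClosed_le ?_ continuous_const).measurableSet
    exact ((continuous_apply i).sub continuous_const).abs
  have hbox : {x : X k | x.1 ∈ A ∧ x.2.1 - ev ω.1.1 x.1 ∈
      Icc (ρ / (8 * ((k : ℝ) + 1))) (ρ / (4 * ((k : ℝ) + 1))) ∧
      x.2.2 - (fun q : (Fin k → ℝ) × ℝ => ev ω.1.2 q.1 + ω.2 * (q.2 - ev ω.1.1 q.1)) (x.1, x.2.1) ∈
      Icc 0 (δ * (ρ / (16 * ((k : ℝ) + 1))))} ⊆ KK ω τ a := by
    rintro x ⟨h1, h2, h3⟩
    obtain ⟨h4, h5, h6⟩ := tent_core hk hρ0 0 τ hτc x.1 h1 (hy ω x)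
      (by rw [ev_zero', sub_zero]; exact h2.1) (by rw [ev_zero', sub_zero]; exact h2.2)
    have hzx : hz ω x = x.2.2 -
        (fun q : (Fin k → ℝ) × ℝ => ev ω.1.2 q.1 + ω.2 * (q.2 - ev ω.1.1 q.1)) (x.1, x.2.1) := by
      simp only [hz, hy]
      ring
    rw [← hzx] at h3
    have hr : 0 < ρ / (16 * ((k : ℝ) + 1)) := by positivity
    intro o
    cases o with
    | none => exact h3.1
    | some j =>
      change 0 ≤ (a j - ω.2) * (hy ω x - ev (τ j) x.1) - hz ω x
      have h7 : δ * (ρ / (16 * ((k : ℝ) + 1))) ≤ (a j - ω.2) * (hy ω x - ev (τ j) x.1) := by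
        revert h5 h6
        refine Fin.cases ?_ (fun i => ?_) j
        · intro h5 h6
          exact mul_le_mul ha0 (by linarith) hr.le (by linarith)
        · intro h5 h6
          have h8 : (a i.succ - ω.2) * (hy ω x - ev (τ i.succ) x.1) =
              (ω.2 - a i.succ) * (ev (τ i.succ) x.1 - hy ω x) := by ring
          rw [h8]
          exact mul_le_mul (ha1 i) (by linarith [h6 i]) hr.le (by linarith [ha1 i])
      linarith [h3.2]
  have hFc : Continuous (fun u : Fin k → ℝ => ev ω.1.1 u) := cont_ev _ continuous_id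
  have hHc : Continuous (fun q : (Fin k → ℝ) × ℝ => ev ω.1.2 q.1 + ω.2 * (q.2 - ev ω.1.1 q.1)) :=
    (cont_ev _ continuous_fst).add (continuous_const.mul
      (continuous_snd.sub (cont_ev _ continuous_fst)))
  have hbv := volume_shear A hAm (fun u => ev ω.1.1 u) hFc _ hHc (ρ / (8 * ((k : ℝ) + 1)))
    (ρ / (4 * ((k : ℝ) + 1))) 0 (δ * (ρ / (16 * ((k : ℝ) + 1))))
  have hcv := volume_cube (k := k) (fun _ => 1 / ((k : ℝ) + 1))
    (r := 1 / (16 * ((k : ℝ) + 1) ^ 3)) (by positivity)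
  have hle := (measure_mono hbox).trans hvol
  rw [hbv] at hle
  have hAv : volume A = ENNReal.ofReal ((2 * (1 / (16 * ((k : ℝ) + 1) ^ 3))) ^ k) := hcv
  rw [hAv, ← ENNReal.ofReal_mul (by
    have : ρ / (8 * ((k : ℝ) + 1)) ≤ ρ / (4 * ((k : ℝ) + 1)) := by
      gcongr
      norm_num
    linarith), ← ENNReal.ofReal_mul (by positivity), ENNReal.ofReal_le_ofReal_iff hm] at hle
  refine le_trans (le_of_eq ?_) hle
  rw [hρ]
  field_simp
  ring

end Pool.Agent.Lib.BeerLin
end

section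

/-!
# A6: the typed lemma
-/

set_option autoImplicit false

namespace Pool.Agent.Lib.BeerLin

open Set MeasureTheory Topology
open scoped ENNReal
open Pool.Agent.Lib.BeerIndex

variable {k : ℕ}

/-- **Typed lemma.** Every plate of width `w` in `R` is typed (at scale `w/2`) at a positive proportion of
its lines.

Proof. Let `cr` be the constant of `roof`, `C₁ = 1 / cr` (then `4 cr C₁ > 1`), `δ = C₁ m / (w/2)^2`,
`ρ = w / (16 (k+1))`, `B j = {τ | ∀ i, |τ i - ρ * mo j i| ≤ c0 ρ}` for `j : Fin (k+2)` (closed cubes of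
side `2 c0 ρ`, contained in `{‖τ‖ ≤ w/2}` by `abs_mo_le`; `sh τ ω ∈ G R (w/2)` there by `sh_mem_G`).
If some `B j` consists of `τ` with `sh τ ω ∈ Ty R (w/2) δ`, its volume `(2 c0 ρ)^(k+1)` gives the claim.
Otherwise for every `j` there is `τ j ∈ B j` with `sh (τ j) ω ∈ VR ∩ VL`; take `a 0 ≥ ω.2 + δ` from `VR`
for `j = 0` and `a i.succ ≤ ω.2 - δ` from `VL` for `j = i.succ`. By `roof`
`cr w² δ ≤ m`, i.e. `4 cr C₁ m ≤ m`, contradiction. -/
theorem typed (hk : 1 ≤ k) : ∃ c C₁ : ℝ, 0 < c ∧ 0 < C₁ ∧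
    ∀ (R : Set (X k)) (m w : ℝ) (ω : Om k), 0 < m → 0 < w → Fills R (ENNReal.ofReal m) →
      ω ∈ G R w →
      ENNReal.ofReal (c * w ^ (k + 1)) ≤
        volume {τ : V k | ‖τ‖ ≤ w / 2 ∧ sh τ ω ∈ Ty R (w / 2) (C₁ * m / (w / 2) ^ 2)} := by
  obtain ⟨cr, hcr, hroof⟩ := roof (k := k) hk
  have hk0 : (0 : ℝ) < (k : ℝ) + 1 := by positivity
  have hc0 : 0 < c0 k := c0_pos
  have hc0' : c0 k ≤ 1 := by
    unfold c0
    rw [div_le_one (by positivity)]
    have : (0 : ℝ) ≤ (k : ℝ) := Nat.cast_nonneg k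
    linarith
  refine ⟨(2 * (c0 k * (1 / (16 * ((k : ℝ) + 1))))) ^ (k + 1), 1 / cr, by positivity, by positivity,
    ?_⟩
  intro R m w ω hm hw hF hω
  set δ : ℝ := 1 / cr * m / (w / 2) ^ 2 with hδ
  have hδ0 : 0 < δ := by positivity
  set ρ : ℝ := w / (16 * ((k : ℝ) + 1)) with hρ
  have hρ0 : 0 < ρ := by positivity
  have hρk : ρ * ((k : ℝ) + 1) = w / 16 := by
    rw [hρ]
    field_simp
  -- the cubes
  have hnorm : ∀ (j : Fin (k + 2)) (τ : V k), (∀ i, |τ i - ρ * (mo j : V k) i| ≤ c0 k * ρ) →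
      ‖τ‖ ≤ w / 2 := by
    intro j τ hτ
    rw [pi_norm_le_iff_of_nonneg (by positivity)]
    intro i
    rw [Real.norm_eq_abs]
    have h1 : |τ i| ≤ |τ i - ρ * (mo j : V k) i| + |ρ * (mo j : V k) i| := by
      have := abs_add_le (τ i - ρ * (mo j : V k) i) (ρ * (mo j : V k) i)
      rwa [sub_add_cancel] at this
    have h2 : |ρ * (mo j : V k) i| ≤ ρ * k := by
      rw [abs_mul, abs_of_pos hρ0]
      exact mul_le_mul_of_nonneg_left (abs_mo_le hk j i) hρ0.le
    have h3 : c0 k * ρ ≤ ρ := by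
      have := mul_le_mul_of_nonneg_right hc0' hρ0.le
      linarith
    have h4 := hτ i
    have h5 : ρ * k + ρ = w / 16 := by
      rw [← hρk]
      ring
    linarith
  by_cases hcase : ∃ j : Fin (k + 2), ∀ τ : V k, (∀ i, |τ i - ρ * (mo j : V k) i| ≤ c0 k * ρ) →
      sh τ ω ∈ Ty R (w / 2) δ
  · obtain ⟨j, hj⟩ := hcase
    have hvol := volume_cube (k := k + 1) (fun i => ρ * (mo j : V k) i) (r := c0 k * ρ)
      (by positivity)
    have heq : (2 * (c0 k * (1 / (16 * ((k : ℝ) + 1))))) ^ (k + 1) * w ^ (k + 1) =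
        (2 * (c0 k * ρ)) ^ (k + 1) := by
      rw [← mul_pow]
      congr 1
      rw [hρ]
      field_simp
    rw [heq, ← hvol]
    apply measure_mono
    intro τ hτ
    exact ⟨hnorm j τ hτ, hj τ hτ⟩
  · exfalso
    push Not at hcase
    choose τ hτ hτ' using hcase
    have hG : ∀ j, sh (τ j) ω ∈ G R (w / 2) := by
      intro j
      apply sh_mem_G hω
      have := hnorm j (τ j) (hτ j)
      linarith
    have hboth : ∀ j, sh (τ j) ω ∈ VR R (w / 2) δ ∩ VL R (w / 2) δ := by
      intro j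
      by_contra hcon
      exact hτ' j ⟨hG j, hcon⟩
    have hR : ∀ j, ∃ a, ω.2 + δ ≤ a ∧ ((sh (τ j) ω).1, a) ∈ G R (w / 2) := fun j => (hboth j).1
    have hL : ∀ j, ∃ a, a ≤ ω.2 - δ ∧ ((sh (τ j) ω).1, a) ∈ G R (w / 2) := fun j => (hboth j).2
    choose aR haR haR' using hR
    choose aL haL haL' using hL
    have key := hroof R m w δ ω τ
      (Fin.cons (aR 0) (fun i : Fin (k + 1) => aL i.succ) : Fin (k + 2) → ℝ) hm.le hw hδ0 hF
      hω.2 hτ (by
        simp only [Fin.cons_zero]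
        have := haR 0
        linarith) (by
        intro i
        simp only [Fin.cons_succ]
        have := haL i.succ
        linarith) (by
        intro j
        refine Fin.cases ?_ (fun i => ?_) j
        · simp only [Fin.cons_zero]
          exact (haR' 0).2
        · simp only [Fin.cons_succ]
          exact (haL' i.succ).2)
    have h4 : cr * w ^ 2 * δ = 4 * m := by
      rw [hδ]
      field_simp
      ring
    rw [h4] at key
    linarith

end Pool.Agent.Lib.BeerLin
end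

section

/-!
# C2: most plates are typed
-/

set_option autoImplicit false

namespace Pool.Agent.Lib.BeerLin

open Set MeasureTheory Topology
open scoped ENNReal
open Pool.Agent.Lib.BeerIndex

variable {k : ℕ}

/-- Averaging over the shifts.

Proof. `ofReal (c w^(k+1)) * volume G' ≤ ∫⁻ ω in G', volume {τ | ‖τ‖ ≤ w/2 ∧ sh τ ω ∈ T}
≤ ∫⁻ τ in {‖τ‖ ≤ w/2}, volume (sh τ ⁻¹' T) = volume {‖τ‖ ≤ w/2} * volume T = ofReal (w^(k+1)) * volume T`
(Tonelli, `measurePreserving_sh`; the closed sup-norm ball of radius `w/2` has volume `w^(k+1)`). -/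
theorem averaging {G' T : Set (Om k)} (hG : MeasurableSet G') (hT : MeasurableSet T) {c w : ℝ}
    (hw : 0 < w) (hc : 0 ≤ c)
    (h : ∀ ω ∈ G', ENNReal.ofReal (c * w ^ (k + 1)) ≤
      volume {τ : V k | ‖τ‖ ≤ w / 2 ∧ sh τ ω ∈ T}) :
    ENNReal.ofReal c * volume G' ≤ volume T := by
  set E : Set (V k × Om k) := {q | ‖q.1‖ ≤ w / 2 ∧ sh q.1 q.2 ∈ T} with hE
  have hEm : MeasurableSet E :=
    (measurableSet_le measurable_fst.norm measurable_const).inter (measurable_sh hT)
  have h1 : ∫⁻ ω : Om k, volume {τ : V k | ‖τ‖ ≤ w / 2 ∧ sh τ ω ∈ T} =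
      ((volume : Measure (V k)).prod (volume : Measure (Om k))) E :=
    (Measure.prod_apply_symm hEm).symm
  have h2 : ((volume : Measure (V k)).prod (volume : Measure (Om k))) E =
      ENNReal.ofReal (w ^ (k + 1)) * volume T := by
    rw [Measure.prod_apply hEm]
    have h3 : ∀ τ : V k, volume (Prod.mk τ ⁻¹' E) =
        (Metric.closedBall (0 : V k) (w / 2)).indicator (fun _ => volume T) τ := by
      intro τ
      by_cases hτ : ‖τ‖ ≤ w / 2
      · rw [indicator_of_mem (by simpa using hτ)]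
        have : Prod.mk τ ⁻¹' E = sh τ ⁻¹' T := by
          ext ω
          simp [hE, hτ]
        rw [this]
        exact (measurePreserving_sh τ).measure_preimage hT.nullMeasurableSet
      · rw [indicator_of_notMem (by simpa using hτ)]
        have : Prod.mk τ ⁻¹' E = ∅ := by
          ext ω
          simp [hE, hτ]
        rw [this, measure_empty]
    simp_rw [h3]
    rw [lintegral_indicator Metric.isClosed_closedBall.measurableSet, setLIntegral_const,
      Real.volume_pi_closedBall _ (by positivity), Fintype.card_fin, mul_comm]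
    congr 3
    ring
  have h4 : ENNReal.ofReal (c * w ^ (k + 1)) * volume G' ≤ ENNReal.ofReal (w ^ (k + 1)) * volume T := by
    rw [← h2, ← h1, ← setLIntegral_const]
    exact (setLIntegral_mono' hG h).trans (setLIntegral_le_lintegral _ _)
  have hw' : 0 < w ^ (k + 1) := by positivity
  rw [ENNReal.ofReal_mul hc, mul_comm (ENNReal.ofReal c), mul_assoc] at h4
  exact (ENNReal.mul_le_mul_iff_right (by simpa using hw') ENNReal.ofReal_ne_top).1 h4

theorem volume_G_le (hk : 1 ≤ k) : ∃ C C₁ : ℝ, 0 < C ∧ 0 < C₁ ∧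
    ∀ (R : Set (X k)) (m w : ℝ), IsClosed R → Fills R (ENNReal.ofReal m) → 0 < m → 0 < w →
      volume (G R w) ≤ ENNReal.ofReal C * volume (Ty R (w / 2) (C₁ * m / (w / 2) ^ 2)) := by
  obtain ⟨c, C₁, hc, hC₁, H⟩ := typed hk
  refine ⟨1 / c, C₁, by positivity, hC₁, fun R m w hR hF hm hw => ?_⟩
  have h1 := averaging (measurableSet_G hR w) (measurableSet_Ty hR (w / 2) (C₁ * m / (w / 2) ^ 2)) hw
    hc.le (fun ω hω => H R m w ω hm hw hF hω)
  have h2 : ENNReal.ofReal (1 / c) * ENNReal.ofReal c = 1 := by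
    rw [← ENNReal.ofReal_mul (by positivity), one_div, inv_mul_cancel₀ hc.ne', ENNReal.ofReal_one]
  calc volume (G R w) = ENNReal.ofReal (1 / c) * (ENNReal.ofReal c * volume (G R w)) := by
        rw [← mul_assoc, h2, one_mul]
    _ ≤ _ := by gcongr

end Pool.Agent.Lib.BeerLin
end

section

/-!
# D2b: integration over the apex, for fixed t and p
-/

set_option autoImplicit false

namespace Pool.Agent.Lib.BeerLin

open Set MeasureTheory Topology
open scoped ENNReal
open Pool.Agent.Lib.BeerIndex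

variable {k : ℕ}

/-- volume of the parameters with `|bary u i| ≤ 1` is finite, so
`volume {x | ∀ i, |bc t x i| ≤ 1} ≤ ofReal (C JJ t)` -/
theorem volume_bc_le : ∃ C : ℝ, 0 < C ∧ ∀ t : Fin (k + 1) → Fin k → ℝ, 0 < JJ t →
    volume {x : Fin k → ℝ | ∀ i, |bc t x i| ≤ 1} ≤ ENNReal.ofReal (C * JJ t) := by
  refine ⟨2 ^ k, by positivity, fun t ht => ?_⟩
  have h1 : {x : Fin k → ℝ | ∀ i, |bc t x i| ≤ 1} ⊆ UU t '' (Icc (-1) 1) := by
    intro x hx
    refine ⟨co t x, ?_, UU_co ht x⟩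
    rw [mem_Icc]
    constructor
    · intro i
      have := abs_le.1 (hx i.succ)
      simpa [bc] using this.1
    · intro i
      have := abs_le.1 (hx i.succ)
      simpa [bc] using this.2
  refine (measure_mono h1).trans ?_
  rw [volume_image_UU, Real.volume_Icc_pi, mul_comm (2 ^ k : ℝ),
    ENNReal.ofReal_mul (JJ_nonneg t)]
  refine mul_le_mul_right ?_ _
  have h2 : ∀ i : Fin k, ENNReal.ofReal ((1 : Fin k → ℝ) i - (-1 : Fin k → ℝ) i) = 2 := by
    intro i
    norm_num
  rw [Finset.prod_congr rfl (fun i _ => h2 i), Finset.prod_const, Finset.card_univ, Fintype.card_fin,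
    ENNReal.ofReal_pow (by norm_num)]
  norm_num

/-- Integration over the apex.

Proof. By `HH_plate` (and as `Y = 0` is a null set) the set `{C | HH S t p C}` is a.e. contained in
`{C | (∀ i, |bc t C.1 i| ≤ 1) ∧ Y ≠ 0 ∧ QQ (Rt S (Lam t)) p Y Z}`; for fixed `C.1` the pair `(Y, Z)` is a
translate of `C.2`. -/
theorem volume_HH_le {C₀ : ℝ} {S : Set (X k)} (hS : IsClosed S) {t : Fin (k + 1) → Fin k → ℝ}
    (hJ : 0 < JJ t)
    (hC₀ : volume {x : Fin k → ℝ | ∀ i, |bc t x i| ≤ 1} ≤ ENNReal.ofReal (C₀ * JJ t))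
    (p : V k × V k) :
    volume {C : X k | HH S t p C} ≤ ENNReal.ofReal (C₀ * JJ t) *
      volume {q : ℝ × ℝ | q.1 ≠ 0 ∧ QQ (Rt S (Lam t)) p q.1 q.2} := by
  set B : Set (Fin k → ℝ) := {x : Fin k → ℝ | ∀ i, |bc t x i| ≤ 1} with hB
  set Q : Set (ℝ × ℝ) := {q : ℝ × ℝ | q.1 ≠ 0 ∧ QQ (Rt S (Lam t)) p q.1 q.2} with hQ
  have hQm : MeasurableSet Q := by
    have h := measurableSet_QQ (isClosed_Rt hS (Lam t))
    have h2 : Measurable (fun q : ℝ × ℝ => ((p, q) : (V k × V k) × ℝ × ℝ)) := by fun_prop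
    exact h2 h
  have hBm : MeasurableSet B := by
    have : B = ⋂ i, {x : Fin k → ℝ | |bc t x i| ≤ 1} := by
      ext x; simp [hB]
    rw [this]
    refine MeasurableSet.iInter fun i => ?_
    exact (isClosed_le (by fun_prop) continuous_const).measurableSet
  set f : (Fin k → ℝ) → ℝ × ℝ := fun x => (∑ i, bc t x i * p.1 i, ∑ i, bc t x i * p.2 i) with hf
  have hfm : Measurable f := by
    have : Continuous f := by
      rw [hf]
      fun_prop
    exact this.measurable
  have hmp : MeasurePreserving (fun C : X k => ((C.1, C.2 - f C.1) : X k)) volume volume := by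
    have := MeasurePreserving.skew_product (μa := (volume : Measure (Fin k → ℝ)))
      (μb := (volume : Measure (Fin k → ℝ))) (μc := (volume : Measure (ℝ × ℝ)))
      (μd := (volume : Measure (ℝ × ℝ))) (f := id) (MeasurePreserving.id _)
      (g := fun x q => q - f x) (by
        have h1 : Measurable (fun C : (Fin k → ℝ) × (ℝ × ℝ) => C.2 - f C.1) :=
          measurable_snd.sub (hfm.comp measurable_fst)
        exact h1) (by
        refine Filter.Eventually.of_forall fun x => ?_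
        exact (measurePreserving_sub_right (volume : Measure (ℝ × ℝ)) (f x)).map_eq)
    exact this
  have hsub : {C : X k | HH S t p C} ⊆ (fun C : X k => ((C.1, C.2 - f C.1) : X k)) ⁻¹'
      ((univ ×ˢ ({0} ×ˢ univ)) ∪ (B ×ˢ Q)) := by
    intro C hC
    have hC' : HH S t p C := hC
    by_cases hY : C.2.1 - ∑ i, bc t C.1 i * p.1 i = 0
    · left
      refine ⟨mem_univ _, ?_, mem_univ _⟩
      exact hY
    · right
      refine ⟨hC'.2.1, hY, hC'.2.2, ?_⟩
      exact HH_plate hJ hC' hY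
  have hm : MeasurableSet (((univ : Set (Fin k → ℝ)) ×ˢ (({0} : Set ℝ) ×ˢ (univ : Set ℝ))) ∪ (B ×ˢ Q)) :=
    (MeasurableSet.univ.prod ((measurableSet_singleton 0).prod MeasurableSet.univ)).union
      (hBm.prod hQm)
  refine (measure_mono hsub).trans ?_
  rw [hmp.measure_preimage hm.nullMeasurableSet]
  refine (measure_union_le _ _).trans ?_
  have h0 : volume (((univ : Set (Fin k → ℝ)) ×ˢ (({0} : Set ℝ) ×ˢ (univ : Set ℝ)))) = 0 := by
    rw [Measure.volume_eq_prod, Measure.prod_prod, Measure.volume_eq_prod, Measure.prod_prod]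
    simp
  rw [h0, zero_add, Measure.volume_eq_prod, Measure.prod_prod]
  exact mul_le_mul_left hC₀ _

end Pool.Agent.Lib.BeerLin
end
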