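import Pool.Agent.Lib.MP_d216ef_co.Main

/-!
# Linear bound `b_{d-1}(S) ≤ α(d) c(S)` for `d ≥ 3` (MP_d216ef_co): definitions

Write `d = k + 2`, `k ≥ 1`. Points of `ℝ^d` are written `(u, y, z) ∈ ℝ^k × ℝ × ℝ`. A simplex in the
`u`-space is fixed and used as parameter simplex `Sx k` (barycentric coordinates `bary u`); a
`(d-2)`-dimensional simplex transversal to the `(y, z)`-planes is given by its vertex values
`p = (y, z) ∈ V k × V k` (a line), a strip of width `w` of a hyperplane containing it by the slope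
`a`: this is `plate ((y, z), a) w`. `G R w` is the set of all plates of width `w` (and slope
`|a| ≤ 1`) contained in `R`.

The proof is explained in `Paper.md` in this folder.
-/

set_option autoImplicit false

namespace Pool.Agent.Lib.BeerLin

open Set MeasureTheory Topology
open scoped ENNReal
open Pool.Agent.Lib.BeerIndex

/-- vertex values of an affine function on the parameter simplex -/
abbrev V (k : ℕ) := Fin (k + 1) → ℝ

/-- `ℝ^k × ℝ × ℝ` -/
abbrev X (k : ℕ) := (Fin k → ℝ) × ℝ × ℝ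

/-- a line `(y, z)` and a slope `a` -/
abbrev Om (k : ℕ) := (V k × V k) × ℝ

variable {k : ℕ}

/-- the parameter simplex -/
def Sx (k : ℕ) : Set (Fin k → ℝ) := {u | ∀ i, 0 ≤ bary u i}

/-- the affine function with vertex values `y` -/
def ev (y : V k) (u : Fin k → ℝ) : ℝ := ∑ i, bary u i * y i

/-- the strip of (half) width `w` with slope `a` around the line `(y, z)` -/
def plate (ω : Om k) (w : ℝ) : Set (X k) :=
  {x | x.1 ∈ Sx k ∧ |x.2.1 - ev ω.1.1 x.1| ≤ w ∧
    x.2.2 = ev ω.1.2 x.1 + ω.2 * (x.2.1 - ev ω.1.1 x.1)}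

/-- the plates of width `w` contained in `R` -/
def G (R : Set (X k)) (w : ℝ) : Set (Om k) := {ω | |ω.2| ≤ 1 ∧ plate ω w ⊆ R}

/-- shift of the line inside the hyperplane of the plate -/
def sh (τ : V k) (ω : Om k) : Om k := ((ω.1.1 + τ, ω.1.2 + ω.2 • τ), ω.2)

/-- there is another plate through the same line, with larger slope -/
def VR (R : Set (X k)) (w δ : ℝ) : Set (Om k) := {ω | ∃ a, ω.2 + δ ≤ a ∧ (ω.1, a) ∈ G R w}

/-- there is another plate through the same line, with smaller slope -/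
def VL (R : Set (X k)) (w δ : ℝ) : Set (Om k) := {ω | ∃ a, a ≤ ω.2 - δ ∧ (ω.1, a) ∈ G R w}

/-- typed plates -/
def Ty (R : Set (X k)) (w δ : ℝ) : Set (Om k) := G R w \ (VR R w δ ∩ VL R w δ)

/-- `R` has the filling property with constant `m`: a compact convex set whose frontier is covered by
finitely many convex subsets of `R`, all joined to the first one, has volume at most `m`. -/
def Fills {E : Type*} [NormedAddCommGroup E] [NormedSpace ℝ E] [MeasureSpace E] (R : Set E)
    (m : ℝ≥0∞) : Prop :=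
  ∀ (K : Set E) (n : ℕ) (C : Fin (n + 1) → Set E), IsCompact K → Convex ℝ K →
    (∀ i, Convex ℝ (C i)) → (∀ i, C i ⊆ R) →
    (∀ i, Relation.ReflTransGen (fun a b => (C a ∩ C b).Nonempty) 0 i) →
    frontier K ⊆ ⋃ i, C i → volume K ≤ m

/-- model positions of the walls of a tent: `0` for the lower wall; the `i`-th upper wall has value
`1` at the vertices `≠ i` and `-(k - 1/2)` at the vertex `i`. -/
noncomputable def mo (j : Fin (k + 2)) : V k :=
  (Fin.cons (0 : V k) (fun i : Fin (k + 1) => (fun i' => if i' = i then -((k : ℝ) - 1 / 2) else 1 : V k)) :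
    Fin (k + 2) → V k) j

/-- the small constant `1 / (16 (k + 1))` -/
noncomputable def c0 (k : ℕ) : ℝ := 1 / (16 * ((k : ℝ) + 1))

/-- the lines through which there is a wall of scale `w` with slope difference in `[φ, 2φ]` -/
def Wall (R : Set (X k)) (w φ : ℝ) : Set (Om k) :=
  {ω₁ | ∃ a, φ ≤ |a - ω₁.2| ∧ |a - ω₁.2| ≤ 2 * φ ∧ (ω₁.1, a) ∈ G R w}

/-- plates of scale `w₁` with many walls of scale `w` -/
def Rich (R : Set (X k)) (w w₁ φ κ : ℝ) : Set (Om k) :=
  {ω₁ | ω₁ ∈ G R w₁ ∧ ENNReal.ofReal (κ * w₁ ^ (k + 1)) ≤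
    volume {τ : V k | ‖τ‖ ≤ w₁ / 2 ∧ sh τ ω₁ ∈ Wall R w φ}}

/-- slopes of the plates of `T` through the line `p` -/
def sec (T : Set (Om k)) (p : V k × V k) : Set ℝ := {a | (p, a) ∈ T}

/-- measure of the set of plates of `T` through the same line with slope difference in `[φ, 2φ)` -/
noncomputable def Wf (T : Set (Om k)) (φ : ℝ) (ω₁ : Om k) : ℝ≥0∞ :=
  volume {a : ℝ | (ω₁.1, a) ∈ T ∧ φ ≤ |a - ω₁.2| ∧ |a - ω₁.2| < 2 * φ}

/-- `S` over the simplex with vertices `t`, in the parameters of `Sx k` -/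
def Rt (S : Set (X k)) (t : Fin (k + 1) → Fin k → ℝ) : Set (X k) := {x | (UU t x.1, x.2) ∈ S}

/-- contraction of the vertices towards their barycentre by the factor `1/2` -/
noncomputable def Lam {F : Type*} [AddCommGroup F] [Module ℝ F] (v : Fin (k + 1) → F) :
    Fin (k + 1) → F :=
  fun i => (1 / 2 : ℝ) • v i + (1 / (2 * ((k : ℝ) + 1))) • ∑ j, v j

/-- the simplex with vertices `(t i, p.1 i, p.2 i)` and `C` is in `S`, `C` is not too far and its
displacement from the hyperplane of the face is more in direction `y` than in direction `z` -/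
def HH (S : Set (X k)) (t : Fin (k + 1) → Fin k → ℝ) (p : V k × V k) (C : X k) : Prop :=
  convexHull ℝ (insert C (range fun i => ((t i, p.1 i, p.2 i) : X k))) ⊆ S ∧
  (∀ i, |bc t C.1 i| ≤ 1) ∧
  |C.2.2 - ∑ i, bc t C.1 i * p.2 i| ≤ |C.2.1 - ∑ i, bc t C.1 i * p.1 i|

end Pool.Agent.Lib.BeerLin
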