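import Pool.Agent.Lib.MP_d216ef_co.Lin.D2a
import Pool.Agent.Lib.MP_d216ef_co.Lin.Defs
import Pool.Agent.Lib.MP_d216ef_co.Lin.C1b
import Pool.Agent.Lib.MP_d216ef_co.Lin.C1a

section

/-!
# D4a: lines with vertices in S
-/

set_option autoImplicit false

namespace Pool.Agent.Lib.BeerLin

open Set MeasureTheory Topology
open scoped ENNReal
open Pool.Agent.Lib.BeerIndex

variable {k : ℕ}

/-- lines all of whose vertices are in `S` -/
def PP (S : Set (X k)) (t : Fin (k + 1) → Fin k → ℝ) : Set (V k × V k) :=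
  {p | ∀ i, ((t i, p.1 i, p.2 i) : X k) ∈ S}

theorem isClosed_PP {S : Set (X k)} (hS : IsClosed S) (t : Fin (k + 1) → Fin k → ℝ) :
    IsClosed (PP S t) := by
  have e : PP S t = ⋂ i, (fun p : V k × V k => ((t i, p.1 i, p.2 i) : X k)) ⁻¹' S := by
    ext p; simp [PP]
  rw [e]
  refine isClosed_iInter fun i => hS.preimage ?_
  fun_prop

theorem volume_PP_ne_top {S : Set (X k)} (hS : IsCompact S) (t : Fin (k + 1) → Fin k → ℝ) :
    volume (PP S t) ≠ ∞ := by
  obtain ⟨C, hC⟩ := hS.isBounded.exists_norm_le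
  have hsub : PP S t ⊆ Metric.closedBall (0 : V k × V k) C := by
    intro p hp
    have h0 := hC _ (hp 0)
    have hC0 : 0 ≤ C := (norm_nonneg _).trans h0
    rw [mem_closedBall_zero_iff, Prod.norm_def, max_le_iff, pi_norm_le_iff_of_nonneg hC0,
      pi_norm_le_iff_of_nonneg hC0]
    refine ⟨fun i => ?_, fun i => ?_⟩
    · have h1 := hC _ (hp i)
      rw [Prod.norm_def, max_le_iff, Prod.norm_def, max_le_iff] at h1
      exact h1.2.1
    · have h1 := hC _ (hp i)
      rw [Prod.norm_def, max_le_iff, Prod.norm_def, max_le_iff] at h1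
      exact h1.2.2
  exact ((measure_mono hsub).trans_lt (isCompact_closedBall _ _).measure_lt_top).ne

/-- the line of a plate in `Rt S t` has its vertices in `S` (points of the plate over the vertices of the
parameter simplex: `bary u = Pi.single i 1`, `UU t u = t i`) -/
theorem mem_PP_of_G {S : Set (X k)} {t : Fin (k + 1) → Fin k → ℝ} {w : ℝ} (hw : 0 < w)
    {ω : Om k} (h : ω ∈ G (Rt S t) w) : ω.1 ∈ PP S t := by
  obtain ⟨-, h2⟩ := h
  intro i
  set u : Fin k → ℝ := fun j => if j.succ = i then 1 else 0 with hu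
  have hb : bary u = Pi.single i 1 := by
    funext j
    refine Fin.cases ?_ (fun l => ?_) j
    · rw [bary_zero]
      refine Fin.cases ?_ (fun m => ?_) i (motive := fun i => 1 - ∑ l : Fin k,
        (if l.succ = i then (1 : ℝ) else 0) = (Pi.single i 1 : Fin (k + 1) → ℝ) 0)
      · simp
      · simp
    · rw [bary_succ, hu]
      by_cases hl : l.succ = i
      · subst hl; simp
      · simp only [if_neg hl]
        rw [Pi.single_eq_of_ne hl]
  have hev : ∀ y : V k, ev y u = y i := by
    intro y
    unfold ev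
    rw [hb]
    simp [Pi.single_apply]
  have hUU : UU t u = t i := by
    unfold UU
    rw [hb]
    simp [Pi.single_apply]
  have hx : ((u, ω.1.1 i, ω.1.2 i) : X k) ∈ plate ω w := by
    refine ⟨?_, ?_, ?_⟩
    · intro j
      simp only
      rw [hb, Pi.single_apply]
      split_ifs <;> norm_num
    · simp only
      rw [hev, sub_self, abs_zero]
      exact hw.le
    · simp only
      rw [hev, hev, sub_self, mul_zero, add_zero]
  have h3 := h2 hx
  change ((UU t u, ω.1.1 i, ω.1.2 i) : X k) ∈ S at h3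
  rwa [hUU] at h3

end Pool.Agent.Lib.BeerLin
end

section

section

/-!
# D3a: Jacobian of Lam
-/

set_option autoImplicit false

namespace Pool.Agent.Lib.BeerLin

open Set MeasureTheory Topology
open scoped ENNReal
open Pool.Agent.Lib.BeerIndex

variable {k : ℕ}

/-- `Lam` as a linear map -/
private noncomputable def d3a_L (k : ℕ) (F : Type*) [AddCommGroup F] [Module ℝ F] :
    (Fin (k + 1) → F) →ₗ[ℝ] (Fin (k + 1) → F) where
  toFun := Lam
  map_add' v w := by
    funext i
    simp only [Lam, Pi.add_apply, Finset.sum_add_distrib, smul_add]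
    abel
  map_smul' c v := by
    funext i
    simp only [Lam, Pi.smul_apply, RingHom.id_apply, ← Finset.smul_sum, smul_add]
    rw [smul_comm c (1 / 2 : ℝ), smul_comm c (1 / (2 * ((k : ℝ) + 1)))]

private theorem d3a_ker (F : Type*) [AddCommGroup F] [Module ℝ F] :
    LinearMap.ker (d3a_L k F) = ⊥ := by
  rw [LinearMap.ker_eq_bot']
  intro v hv
  have h1 : ∀ i, (1 / 2 : ℝ) • v i + (1 / (2 * ((k : ℝ) + 1))) • ∑ j, v j = 0 := fun i =>
    congrFun hv i
  have hk : ((k : ℝ) + 1) ≠ 0 := by positivity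
  have h2 : ∑ j, v j = 0 := by
    have h3 : ∑ i : Fin (k + 1), ((1 / 2 : ℝ) • v i + (1 / (2 * ((k : ℝ) + 1))) • ∑ j, v j) = 0 :=
      Finset.sum_eq_zero fun i _ => h1 i
    rw [Finset.sum_add_distrib, ← Finset.smul_sum, Finset.sum_const, Finset.card_univ,
      Fintype.card_fin, ← Nat.cast_smul_eq_nsmul ℝ, smul_smul, ← add_smul] at h3
    have h4 : (1 / 2 : ℝ) + ((k + 1 : ℕ) : ℝ) * (1 / (2 * ((k : ℝ) + 1))) = 1 := by
      push_cast
      field_simp
      norm_num
    rwa [h4, one_smul] at h3
  funext i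
  have h5 := h1 i
  rw [h2, smul_zero, add_zero] at h5
  have h6 := congrArg (fun x => (2 : ℝ) • x) h5
  simpa [smul_smul] using h6

private theorem d3a_gen (F : Type*) [NormedAddCommGroup F] [NormedSpace ℝ F]
    [FiniteDimensional ℝ F] [MeasurableSpace (Fin (k + 1) → F)] [BorelSpace (Fin (k + 1) → F)]
    (μ : Measure (Fin (k + 1) → F)) [μ.IsAddHaarMeasure] :
    ∃ C : ℝ, 0 < C ∧ ∀ A : Set (Fin (k + 1) → F),
      μ ((Lam : (Fin (k + 1) → F) → (Fin (k + 1) → F)) ⁻¹' A) = ENNReal.ofReal C * μ A := by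
  have hu : IsUnit (d3a_L k F) := (LinearMap.isUnit_iff_ker_eq_bot _).2 (d3a_ker F)
  have hdet : LinearMap.det (d3a_L k F) ≠ 0 := (LinearMap.isUnit_det _ hu).ne_zero
  exact ⟨|(LinearMap.det (d3a_L k F))⁻¹|, abs_pos.2 (inv_ne_zero hdet), fun A =>
    Measure.addHaar_preimage_linearMap μ hdet A⟩

/-- `Lam` on real vertex values is a linear isomorphism; preimages have proportional volume. -/
theorem volume_preimage_Lam : ∃ C : ℝ, 0 < C ∧ ∀ A : Set (V k), 
    volume ((Lam : V k → V k) ⁻¹' A) = ENNReal.ofReal C * volume A :=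
  d3a_gen ℝ volume

/-- `Lam` on the vertices of the parameter simplex (`Fin (k+1) → Fin k → ℝ`). -/
theorem volume_preimage_Lam_t : ∃ C : ℝ, 0 < C ∧ ∀ A : Set (Fin (k + 1) → Fin k → ℝ), 
    volume ((Lam : (Fin (k + 1) → Fin k → ℝ) → (Fin (k + 1) → Fin k → ℝ)) ⁻¹' A) =
      ENNReal.ofReal C * volume A :=
  haveI : (volume : Measure (Fin (k + 1) → Fin k → ℝ)).IsAddHaarMeasure :=
    Measure.pi.isAddHaarMeasure (fun _ : Fin (k + 1) => (volume : Measure (Fin k → ℝ)))
  d3a_gen (Fin k → ℝ) volume

end Pool.Agent.Lib.BeerLin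
end

section

/-!
# D5a: faces are nondegenerate almost surely
-/

set_option autoImplicit false

namespace Pool.Agent.Lib.BeerLin

open Set MeasureTheory Topology
open scoped ENNReal
open Pool.Agent.Lib.BeerIndex

variable {k : ℕ}

/-- the direction along which the edge matrix changes by multiples of the identity -/
private def e0 (k : ℕ) : Fin (k + 1) → X k :=
  Fin.cons ((0, 0, 0) : X k) (fun i : Fin k => ((Pi.single i 1, 0, 0) : X k))

private theorem mat_add (e : Fin (k + 1) → X k) (t : ℝ) :
    mat (fun i => ((e + t • e0 k) i).1) =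
      Matrix.scalar (Fin k) t - (-(mat (fun i => (e i).1))) := by
  ext j i
  simp only [mat, Matrix.of_apply, Matrix.scalar_apply, Matrix.sub_apply, Matrix.neg_apply,
    Pi.add_apply, Pi.smul_apply, Prod.fst_add, Prod.smul_fst, e0, Fin.cons_succ, Fin.cons_zero,
    Matrix.diagonal_apply, Pi.single_apply, Pi.zero_apply, smul_eq_mul]
  split_ifs <;> ring

private theorem haar_X : (volume : Measure (X k)).IsAddHaarMeasure := by
  have h1 : (volume : Measure (Fin k → ℝ)).IsAddHaarMeasure := inferInstance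
  have h2 : ((volume : Measure ℝ).prod (volume : Measure ℝ)).IsAddHaarMeasure := inferInstance
  rw [Measure.volume_eq_prod, Measure.volume_eq_prod]
  exact Measure.prod.instIsAddHaarMeasure _ _

private theorem haar_E : (volume : Measure (Fin (k + 1) → X k)).IsAddHaarMeasure := by
  have h : (volume : Measure (X k)).IsAddHaarMeasure := haar_X
  exact Measure.pi.isAddHaarMeasure _

/-- For almost every `e : Fin (k+1) → X k` the projections `(e i).1` are affinely independent.
(Compare `ae_JJ_pos` in `Nondeg.lean`; e.g. by `volume_hyperplane` and induction on the columns, or apply the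
result there.) -/
theorem ae_JJ : ∀ᵐ e : Fin (k + 1) → X k, 0 < JJ (fun i => (e i).1) := by
  have hcont : Continuous fun e : Fin (k + 1) → X k => JJ (fun i => (e i).1) := by
    unfold JJ mat
    refine continuous_abs.comp (Continuous.matrix_det ?_)
    refine continuous_matrix fun j i => ?_
    simp only [Matrix.of_apply]
    fun_prop
  have hs : MeasurableSet {e : Fin (k + 1) → X k | 0 < JJ (fun i => (e i).1)} :=
    (isOpen_lt continuous_const hcont).measurableSet
  have h0 : (volume : Measure (Fin (k + 1) → X k)).IsAddHaarMeasure := haar_E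
  refine ae_mem_of_ae_add_linearMap_mem
    (LinearMap.toSpanSingleton ℝ (Fin (k + 1) → X k) (e0 k)) (volume : Measure ℝ) volume hs ?_
  intro e
  set P := (-(mat (fun i => (e i).1))).charpoly with hP
  have hP0 : P ≠ 0 := (Matrix.charpoly_monic _).ne_zero
  have hfin : {t : ℝ | P.eval t = 0}.Finite := by
    have := Polynomial.finite_setOfPred_isRoot hP0
    exact this
  have hae : ∀ᵐ t : ℝ, t ∉ {t : ℝ | P.eval t = 0} := hfin.countable.ae_notMem volume
  filter_upwards [hae] with t ht
  show 0 < JJ (fun i => ((e + LinearMap.toSpanSingleton ℝ (Fin (k + 1) → X k) (e0 k) t) i).1)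
  rw [LinearMap.toSpanSingleton_apply, JJ, mat_add, ← Matrix.eval_charpoly]
  exact abs_pos.2 ht

end Pool.Agent.Lib.BeerLin
end

section

/-!
# D5b: choice of the face
-/

set_option autoImplicit false

namespace Pool.Agent.Lib.BeerLin

open Set MeasureTheory Topology
open scoped ENNReal
open Pool.Agent.Lib.BeerIndex

variable {k : ℕ}

/-- **Choice of the face.** If all faces are nondegenerate, some vertex `A j` has all barycentric coordinates
`≤ 1` in absolute value with respect to the others.

Proof. There is `c ≠ 0` with `∑ c_i = 0`, `∑ c_i • t_i = 0` (`k + 2` points in `ℝ^k`): e.g. from the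
barycentric coordinates of the last point with respect to the others. All `c_i ≠ 0` by `eq_zero_of_comb` for
the face without the `i`-th vertex (if `c_i = 0`, `c` restricted to the face is `0`). Let `|c j|` be maximal;
the barycentric coordinates of `t_j` with respect to the others are `-c_i/c_j` (`eq_bc`). -/
theorem exists_face (t : Fin (k + 2) → Fin k → ℝ)
    (h : ∀ j : Fin (k + 2), 0 < JJ (fun i => t (j.succAbove i))) :
    ∃ j : Fin (k + 2), ∀ i, |bc (fun i => t (j.succAbove i)) (t j) i| ≤ 1 := by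
  -- the relation
  set l : Fin (k + 2) := Fin.last (k + 1) with hl
  let c : Fin (k + 2) → ℝ := fun i => Fin.snoc (α := fun _ => ℝ)
    (fun i' : Fin (k + 1) => bc (fun i => t (l.succAbove i)) (t l) i') (-1) i
  have hc0 : ∑ i, c i = 0 := by
    rw [Fin.sum_univ_castSucc]
    simp only [c, Fin.snoc_castSucc, Fin.snoc_last, sum_bc]
    ring
  have hc1 : ∑ i, c i • t i = 0 := by
    rw [Fin.sum_univ_castSucc]
    simp only [c, Fin.snoc_castSucc, Fin.snoc_last]
    have h1 := sum_bc_smul (h l) (t l)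
    have h2 : ∀ i : Fin (k + 1), l.succAbove i = i.castSucc := fun i => Fin.succAbove_last_apply i
    simp only [h2] at h1 ⊢
    rw [h1, ← hl]
    simp
  have hcl : c l = -1 := by
    simp only [c, hl, Fin.snoc_last]
  -- the largest coefficient
  obtain ⟨j, -, hj⟩ := Finset.exists_max_image Finset.univ (fun i => |c i|)
    ⟨l, Finset.mem_univ l⟩
  have hcj : c j ≠ 0 := by
    intro h0
    have := hj l (Finset.mem_univ l)
    rw [h0, hcl] at this
    norm_num at this
  refine ⟨j, fun i => ?_⟩
  have e1 : ∑ i, (-(c (j.succAbove i)) / c j) = 1 := by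
    rw [Fin.sum_univ_succAbove _ j] at hc0
    rw [← Finset.sum_div, Finset.sum_neg_distrib]
    have : ∑ i : Fin (k + 1), c (j.succAbove i) = - c j := by linarith
    rw [this, neg_neg, div_self hcj]
  have e2 : ∑ i, (-(c (j.succAbove i)) / c j) • t (j.succAbove i) = t j := by
    rw [Fin.sum_univ_succAbove _ j] at hc1
    have h3 : ∑ i : Fin (k + 1), c (j.succAbove i) • t (j.succAbove i) = - (c j • t j) := by
      rw [eq_neg_iff_add_eq_zero, add_comm]
      exact hc1
    have h4 : ∑ i : Fin (k + 1), (-(c (j.succAbove i)) / c j) • t (j.succAbove i) =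
        (-(c j)⁻¹) • ∑ i : Fin (k + 1), c (j.succAbove i) • t (j.succAbove i) := by
      rw [Finset.smul_sum]
      refine Finset.sum_congr rfl fun i _ => ?_
      rw [smul_smul]
      congr 1
      rw [div_eq_mul_inv]
      ring
    rw [h4, h3, smul_neg, neg_smul, neg_neg, smul_smul, inv_mul_cancel₀ hcj, one_smul]
  have hb := eq_bc (h j) e1 e2
  rw [← hb]
  simp only
  rw [abs_div, abs_neg, div_le_one (abs_pos.mpr hcj)]
  exact hj _ (Finset.mem_univ _)

end Pool.Agent.Lib.BeerLin
end

section

/-!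
# T1: a convex body whose frontier is in P is in P
-/

set_option autoImplicit false

namespace Pool.Agent.Lib.BeerLin

open Set MeasureTheory Topology
open scoped ENNReal
open Pool.Agent.Lib.BeerIndex

variable {k : ℕ}

/-- **Topological lemma.** If all maps of the sphere `S^{d-1}` to `P` are nullhomotopic, and the frontier of the
compact convex set `K` is in `P`, then `K ⊆ P`.

Proof. Let `x ∈ K`, `x ∉ P`; then `x ∉ frontier K`, so `x ∈ interior K`. Translate: `K' = K - x` is a
compact convex neighbourhood of `0`, `g = gauge K'` is continuous, positive off `0` (`K'` bounded), and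
`g v = 1 ↔ v ∈ frontier K'` (`gauge_eq_one_iff_mem_frontier`). The map `f v = x + (g v)⁻¹ • v` of the unit
sphere is a continuous map to `P` (its values are in `frontier K`), so there is a homotopy `H` in `P` from `f`
to a constant `p`. Extend: `Q w = H (1 - ‖w‖, w/‖w‖) - x` for `0 < ‖w‖ ≤ 1` and `Q 0 = p - x`; more
precisely, as in `Pool.Agent.Lib.BeerIndex.mem_of_ray` (file `Topo.lean`), use the time
`clamp (2 (1 - ‖w‖))` so that `Q` is constant near `0`, and is continuous on the whole space (for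
`‖w‖ ≥ 1` the time is `0`, `Q w = f (w/‖w‖) - x`). `Q` never vanishes as `x ∉ P`, and on the unit sphere
`⟪w, Q w⟫ = (g w)⁻¹ ‖w‖² > 0`: contradiction with
`Pool.Agent.Lib.Topology38.exists_zero_of_continuous` (Brouwer). -/
theorem convex_subset_of_frontier {d : ℕ} {P K : Set (EuclideanSpace ℝ (Fin d))}
    (hK : IsCompact K) (hc : Convex ℝ K) (hfr : frontier K ⊆ P)
    (hnull : ∀ f : C(Metric.sphere (0 : EuclideanSpace ℝ (Fin d)) 1, P), f.Nullhomotopic)
    (hd : 1 ≤ d) : K ⊆ P := by
  intro x hxK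
  by_contra hx
  -- the translated body
  set e : EuclideanSpace ℝ (Fin d) ≃ₜ EuclideanSpace ℝ (Fin d) := Homeomorph.addLeft x with he
  have hev : ∀ v, e v = x + v := fun v => rfl
  set K' : Set (EuclideanSpace ℝ (Fin d)) := e ⁻¹' K with hK'
  have hc' : Convex ℝ K' := hc.translate_preimage_right x
  have hint : x ∈ interior K := by
    by_contra hni
    exact hx (hfr (by rw [hK.isClosed.frontier_eq]; exact ⟨hxK, hni⟩))
  have h0 : K' ∈ 𝓝 (0 : EuclideanSpace ℝ (Fin d)) := by
    refine e.continuous.continuousAt.preimage_mem_nhds ?_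
    rw [hev, add_zero]
    exact mem_interior_iff_mem_nhds.1 hint
  have hb : Bornology.IsVonNBounded ℝ K' := by
    rw [NormedSpace.isVonNBounded_iff]
    obtain ⟨R, hR⟩ := hK.isBounded.subset_closedBall 0
    refine (Metric.isBounded_closedBall (x := (0 : EuclideanSpace ℝ (Fin d)))
      (r := R + ‖x‖)).subset fun v hv => ?_
    have h1 : x + v ∈ K := hv
    have h2 := hR h1
    rw [mem_closedBall_zero_iff] at h2 ⊢
    have h3 : ‖v‖ = ‖(x + v) - x‖ := by rw [add_sub_cancel_left]
    rw [h3]
    exact (norm_sub_le _ _).trans (by linarith)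
  have hgc : Continuous (gauge K') := continuous_gauge hc' h0
  have hgp : ∀ v : EuclideanSpace ℝ (Fin d), v ≠ 0 → 0 < gauge K' v := fun v hv =>
    (gauge_pos (absorbent_nhds_zero h0) hb).2 hv
  have hne : ∀ v : Metric.sphere (0 : EuclideanSpace ℝ (Fin d)) 1,
      (v : EuclideanSpace ℝ (Fin d)) ≠ 0 := by
    intro v hv
    have h1 : ‖(v : EuclideanSpace ℝ (Fin d))‖ = 1 := by simp
    rw [hv, norm_zero] at h1
    exact zero_ne_one h1
  have hfrP : ∀ v : EuclideanSpace ℝ (Fin d), v ≠ 0 → x + (gauge K' v)⁻¹ • v ∈ P := by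
    intro v hv
    have h1 := hgp v hv
    have h2 : gauge K' ((gauge K' v)⁻¹ • v) = 1 := by
      rw [gauge_smul_of_nonneg (inv_nonneg.2 h1.le), smul_eq_mul, inv_mul_cancel₀ h1.ne']
    have h3 := (gauge_eq_one_iff_mem_frontier hc' h0).1 h2
    rw [hK', ← e.preimage_frontier] at h3
    exact hfr h3
  let F : C(Metric.sphere (0 : EuclideanSpace ℝ (Fin d)) 1, P) :=
    { toFun := fun v => ⟨x + (gauge K' (v : EuclideanSpace ℝ (Fin d)))⁻¹ •
        (v : EuclideanSpace ℝ (Fin d)), hfrP _ (hne v)⟩
      continuous_toFun := by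
        refine Continuous.subtype_mk ?_ _
        refine continuous_const.add ?_
        exact (Continuous.inv₀ (hgc.comp continuous_subtype_val)
          fun v => (hgp _ (hne v)).ne').smul continuous_subtype_val }
  obtain ⟨p, ⟨H⟩⟩ := hnull F
  -- the contraction along rays
  let v0 : Metric.sphere (0 : EuclideanSpace ℝ (Fin d)) 1 :=
    ⟨EuclideanSpace.single (⟨0, hd⟩ : Fin d) (1 : ℝ), by simp⟩
  set pt : EuclideanSpace ℝ (Fin d) → Metric.sphere (0 : EuclideanSpace ℝ (Fin d)) 1 := fun w =>
    if h : ‖w‖ ≠ 0 then ⟨‖w‖⁻¹ • w, by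
      rw [mem_sphere_zero_iff_norm, norm_smul, norm_inv, norm_norm, inv_mul_cancel₀ h]⟩
    else v0 with hpt
  set tm : EuclideanSpace ℝ (Fin d) → unitInterval := fun w =>
    Set.projIcc 0 1 zero_le_one (2 * (1 - ‖w‖)) with htm
  have htmc : Continuous tm := by
    simp only [htm]
    exact continuous_projIcc.comp (by fun_prop)
  have hFc : Continuous fun w => H (tm w, pt w) := by
    rw [continuous_iff_continuousAt]
    intro w
    rcases lt_or_ge 0 ‖w‖ with hw | hw
    · have hopen : IsOpen {w : EuclideanSpace ℝ (Fin d) | 0 < ‖w‖} :=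
        isOpen_lt continuous_const continuous_norm
      have hon : ContinuousOn pt {w : EuclideanSpace ℝ (Fin d) | 0 < ‖w‖} := by
        rw [continuousOn_iff_continuous_domRestrict]
        have hc : Continuous fun w : {w : EuclideanSpace ℝ (Fin d) | 0 < ‖w‖} =>
            ‖(w : EuclideanSpace ℝ (Fin d))‖⁻¹ • (w : EuclideanSpace ℝ (Fin d)) := by
          have hc1 : Continuous fun w : {w : EuclideanSpace ℝ (Fin d) | 0 < ‖w‖} =>
              ‖(w : EuclideanSpace ℝ (Fin d))‖⁻¹ :=
            (continuous_norm.comp continuous_subtype_val).inv₀ fun w => (LT.lt.ne' w.2)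
          exact hc1.smul continuous_subtype_val
        have he : {w : EuclideanSpace ℝ (Fin d) | 0 < ‖w‖}.domRestrict pt =
            fun w => ⟨‖(w : EuclideanSpace ℝ (Fin d))‖⁻¹ • (w : EuclideanSpace ℝ (Fin d)), by
              rw [mem_sphere_zero_iff_norm, norm_smul, norm_inv, norm_norm,
                inv_mul_cancel₀ (LT.lt.ne' w.2)]⟩ := by
          funext w
          simp only [hpt, Set.domRestrict_apply]
          rw [dif_pos (LT.lt.ne' w.2)]
        rw [he]
        exact Continuous.subtype_mk hc _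
      have hat : ContinuousAt pt w := hon.continuousAt (hopen.mem_nhds hw)
      exact H.continuous.continuousAt.comp (htmc.continuousAt.prodMk hat)
    · have hn : ‖w‖ < 1 / 2 := by linarith
      have hopen : IsOpen {w : EuclideanSpace ℝ (Fin d) | ‖w‖ < 1 / 2} :=
        isOpen_lt continuous_norm continuous_const
      have hev : (fun w => H (tm w, pt w)) =ᶠ[𝓝 w] fun _ => p := by
        filter_upwards [hopen.mem_nhds hn] with v hv
        have hv' : ‖v‖ < 1 / 2 := hv
        have : tm v = 1 := by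
          simp only [htm]
          rw [Set.projIcc_of_right_le zero_le_one (by linarith)]
          rfl
        rw [this]
        exact H.apply_one _
      exact (continuousAt_congr hev).2 continuousAt_const
  have hGc : Continuous fun w => ((H (tm w, pt w) : P) : EuclideanSpace ℝ (Fin d)) - x :=
    (continuous_subtype_val.comp hFc).sub continuous_const
  obtain ⟨w, -, hw0⟩ := Pool.Agent.Lib.Topology38.exists_zero_of_continuous hGc (by
    intro w hw
    have e1 : tm w = 0 := by
      simp only [htm]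
      rw [Set.projIcc_of_le_left zero_le_one (by rw [hw]; norm_num)]
      rfl
    have hwn : ‖w‖ ≠ 0 := by rw [hw]; norm_num
    have e3 : (pt w : EuclideanSpace ℝ (Fin d)) = w := by
      simp only [hpt]
      rw [dif_pos hwn]
      simp [hw]
    have e2 : ((H (tm w, pt w) : P) : EuclideanSpace ℝ (Fin d)) = x + (gauge K' w)⁻¹ • w := by
      rw [e1, H.apply_zero]
      change x + (gauge K' (pt w : EuclideanSpace ℝ (Fin d)))⁻¹ •
        (pt w : EuclideanSpace ℝ (Fin d)) = _
      rw [e3]
    have hw1 : w ≠ 0 := fun h => hwn (by rw [h, norm_zero])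
    change 0 < inner ℝ w (((H (tm w, pt w) : P) : EuclideanSpace ℝ (Fin d)) - x)
    rw [e2, add_sub_cancel_left, inner_smul_right, real_inner_self_eq_norm_sq, hw]
    have := hgp w hw1
    positivity)
  apply hx
  have h3 : ((H (tm w, pt w) : P) : EuclideanSpace ℝ (Fin d)) = x := sub_eq_zero.1 hw0
  rw [← h3]
  exact (H (tm w, pt w)).2

end Pool.Agent.Lib.BeerLin
end

section

/-!
# T3a: monotonicity and transport of the filling property
-/

set_option autoImplicit false

namespace Pool.Agent.Lib.BeerLin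

open Set MeasureTheory Topology
open scoped ENNReal
open Pool.Agent.Lib.BeerIndex

variable {k : ℕ}

theorem Fills.mono {E : Type*} [NormedAddCommGroup E] [NormedSpace ℝ E] [MeasureSpace E]
    {S S' : Set E} {m m' : ℝ≥0∞} (h : Fills S m) (hS : S' ⊆ S) (hm : m ≤ m') : Fills S' m' :=
  fun K n C hK hKc hC hCS hj hf => (h K n C hK hKc hC (fun i => (hCS i).trans hS) hj hf).trans hm

/-- **Transport.** `Φ` maps convex sets to convex sets, compact sets to compact sets, frontiers to frontiers,
and `volume (Φ '' K) = J * volume K`. -/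
theorem Fills.transport {E F : Type*} [NormedAddCommGroup E] [NormedSpace ℝ E] [MeasureSpace E]
    [NormedAddCommGroup F] [NormedSpace ℝ F] [MeasureSpace F] (Φ : E ≃ₜ F)
    (haff : ∀ (x y : E) (a b : ℝ), a + b = 1 → Φ (a • x + b • y) = a • Φ x + b • Φ y)
    {J : ℝ≥0∞} (hJ0 : J ≠ 0) (hJT : J ≠ ∞) (hJ : ∀ K : Set E, volume (Φ '' K) = J * volume K)
    {S : Set F} {m : ℝ≥0∞} (h : Fills S m) : Fills (Φ ⁻¹' S) (m / J) := by
  have hconv : ∀ A : Set E, Convex ℝ A → Convex ℝ (Φ '' A) := by
    rintro A hA _ ⟨x, hx, rfl⟩ _ ⟨y, hy, rfl⟩ a b ha hb hab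
    exact ⟨a • x + b • y, hA hx hy ha hb hab, haff x y a b hab⟩
  intro K n C hK hKc hC hCS hj hf
  have h1 := h (Φ '' K) n (fun i => Φ '' C i) (hK.image Φ.continuous) (hconv K hKc)
    (fun i => hconv _ (hC i)) (fun i => image_subset_iff.mpr (hCS i))
    (fun i => by
      refine Relation.ReflTransGen.mono ?_ _ _ (hj i)
      rintro a b ⟨x, hxa, hxb⟩
      exact ⟨Φ x, ⟨x, hxa, rfl⟩, ⟨x, hxb, rfl⟩⟩)
    (by
      rw [← Φ.image_frontier, ← image_iUnion]
      exact image_mono hf)
  rw [hJ K] at h1
  rw [ENNReal.le_div_iff_mul_le (Or.inl hJ0) (Or.inl hJT), mul_comm]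
  exact h1

/-- the homeomorphism `UU t` -/
private noncomputable def t3aU (t : Fin (k + 1) → Fin k → ℝ) (hJ : 0 < JJ t) :
    (Fin k → ℝ) ≃ₜ (Fin k → ℝ) where
  toFun := UU t
  invFun := co t
  left_inv := fun u => co_UU hJ u
  right_inv := fun u => UU_co hJ u
  continuous_toFun := by
    unfold UU
    fun_prop
  continuous_invFun := continuous_co t

/-- the measure of images under a homeomorphism, from the push forward under its inverse -/
private theorem t3a_image {E F : Type*} [TopologicalSpace E] [MeasureSpace E] [BorelSpace E]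
    [TopologicalSpace F] [MeasureSpace F] [BorelSpace F] (Φ : E ≃ₜ F) {J : ℝ≥0∞}
    (h : Measure.map Φ.symm (volume : Measure F) = J • (volume : Measure E)) (K : Set E) :
    volume (Φ '' K) = J * volume K := by
  have h1 : Measure.map Φ.symm (volume : Measure F) K = volume (Φ '' K) := by
    have h2 := MeasurableEquiv.map_apply (μ := (volume : Measure F)) Φ.symm.toMeasurableEquiv K
    rw [Homeomorph.toMeasurableEquiv_coe] at h2
    rw [h2, Φ.image_eq_preimage_symm]
  rw [← h1, h, Measure.smul_apply, smul_eq_mul]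

/-- Transport to the parameter simplex: `(u, y, z) ↦ (UU t u, y, z)` is an affine homeomorphism with
Jacobian `JJ t` (`volume_image_UU`, product measure). -/
theorem fills_Rt {S : Set (X k)} {t : Fin (k + 1) → Fin k → ℝ} (hJ : 0 < JJ t) {M : ℝ}
    (h : Fills S (ENNReal.ofReal M)) : Fills (Rt S t) (ENNReal.ofReal (M / JJ t)) := by
  set Φ : X k ≃ₜ X k := (t3aU t hJ).prodCongr (Homeomorph.refl (ℝ × ℝ)) with hΦ
  have hc : Measurable (co t) := (continuous_co t).measurable
  have hmap1 : Measure.map (co t) volume = ENNReal.ofReal (JJ t) • volume := by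
    ext A hA
    rw [Measure.map_apply hc hA, Measure.smul_apply, smul_eq_mul, ← volume_image_UU]
    congr 1
    exact ((t3aU t hJ).image_eq_preimage_symm A).symm
  have hmap : Measure.map Φ.symm (volume : Measure (X k)) =
      ENNReal.ofReal (JJ t) • (volume : Measure (X k)) := by
    have h1 : (Φ.symm : X k → X k) = Prod.map (co t) (id : ℝ × ℝ → ℝ × ℝ) := rfl
    rw [h1, Measure.volume_eq_prod (Fin k → ℝ) (ℝ × ℝ),
      ← Measure.map_prod_map _ _ hc measurable_id, hmap1, Measure.map_id, Measure.prod_smul_left]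
  have key := Fills.transport Φ (J := ENNReal.ofReal (JJ t)) ?_ ?_ ENNReal.ofReal_ne_top
    (t3a_image Φ hmap) h
  · rw [ENNReal.ofReal_div_of_pos hJ]
    exact key
  · intro x y a b hab
    refine Prod.ext ?_ rfl
    exact UU_comb t x.1 y.1 hab
  · exact (ENNReal.ofReal_pos.mpr hJ).ne'

/-- exchange of the coordinates `y` and `z` -/
def swp (k : ℕ) : X k ≃ₜ X k := (Homeomorph.refl (Fin k → ℝ)).prodCongr (Homeomorph.prodComm ℝ ℝ)

theorem fills_swp {S : Set (X k)} {m : ℝ≥0∞} (h : Fills S m) : Fills (swp k ⁻¹' S) m := by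
  have hmap : Measure.map (swp k).symm (volume : Measure (X k)) =
      (1 : ℝ≥0∞) • (volume : Measure (X k)) := by
    have h1 : ((swp k).symm : X k → X k) =
        Prod.map (id : (Fin k → ℝ) → (Fin k → ℝ)) (Prod.swap : ℝ × ℝ → ℝ × ℝ) := rfl
    rw [h1, Measure.volume_eq_prod (Fin k → ℝ) (ℝ × ℝ),
      ← Measure.map_prod_map _ _ measurable_id measurable_swap, Measure.map_id, one_smul,
      Measure.volume_eq_prod ℝ ℝ, Measure.prod_swap]
  have key := Fills.transport (swp k) (J := 1) ?_ one_ne_zero ENNReal.one_ne_top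
    (t3a_image (swp k) hmap) h
  · rwa [div_one] at key
  · intro x y a b hab
    rfl

end Pool.Agent.Lib.BeerLin
end

section

/-!
# T3b: union of a compact family of simplices
-/

set_option autoImplicit false

namespace Pool.Agent.Lib.BeerLin

open Set MeasureTheory Topology
open scoped ENNReal
open Pool.Agent.Lib.BeerIndex

variable {k : ℕ}

/-- the union of a compact family of simplices is compact (continuous image of `𝒦 × stdSimplex`) -/
theorem isCompact_iUnion_convexHull {E : Type*} [NormedAddCommGroup E] [NormedSpace ℝ E] {n : ℕ}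
    {𝒦 : Set (Fin (n + 1) → E)} (h𝒦 : IsCompact 𝒦) :
    IsCompact (⋃ A ∈ 𝒦, convexHull ℝ (range A)) := by
  have hhull : ∀ A : Fin (n + 1) → E, convexHull ℝ (range A)
      = (fun β : Fin (n + 1) → ℝ => ∑ i, β i • A i) '' stdSimplex ℝ (Fin (n + 1)) := by
    intro A
    have h1 := convexHull_basis_eq_stdSimplex (R := ℝ) (ι := Fin (n + 1))
    let L : (Fin (n + 1) → ℝ) →ₗ[ℝ] E := Fintype.linearCombination ℝ A
    have h2 : (fun β : Fin (n + 1) → ℝ => ∑ i, β i • A i) = L := by
      funext β
      simp [L, Fintype.linearCombination_apply]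
    rw [h2, ← h1, LinearMap.image_convexHull, ← range_comp]
    congr 1
    congr 1
    funext i
    simp [L, Fintype.linearCombination_apply]
  have heq : (⋃ A ∈ 𝒦, convexHull ℝ (range A))
      = (fun x : (Fin (n + 1) → E) × (Fin (n + 1) → ℝ) => ∑ i, x.2 i • x.1 i) ''
        (𝒦 ×ˢ stdSimplex ℝ (Fin (n + 1))) := by
    ext y
    simp only [mem_iUnion, exists_prop, hhull, mem_image, mem_prod, Prod.exists]
    constructor
    · rintro ⟨A, hA, β, hβ, rfl⟩
      exact ⟨A, β, ⟨hA, hβ⟩, rfl⟩
    · rintro ⟨A, β, ⟨hA, hβ⟩, rfl⟩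
      exact ⟨A, hA, β, hβ, rfl⟩
  rw [heq]
  refine (h𝒦.prod (isCompact_stdSimplex ℝ (Fin (n + 1)))).image ?_
  fun_prop

end Pool.Agent.Lib.BeerLin
end

section

/-!
# T2: the filling property of S
-/

set_option autoImplicit false

namespace Pool.Agent.Lib.BeerLin

open Set MeasureTheory Topology
open scoped ENNReal
open Pool.Agent.Lib.BeerIndex

variable {k : ℕ}

/-- **Filling property.** Proof. If `frontier K = ∅` then `K = ∅` or `K = univ`, `K` compact and the space
noncompact, so `K = ∅`. Otherwise some `C i` is nonempty. All points of `⋃ C i` are in the same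
p-component: points of the same convex set `C i ⊆ S` are joined by a segment in `S`, and if `C i ∩ C j ≠ ∅`
all points of `C i ∪ C j` are joined; all `i` with `C i ≠ ∅` are reached from `0` (if `C 0 = ∅` then
`ReflTransGen` from `0` reaches only `0`, so `n = 0` and the frontier is empty). Let `A ∈ ⋃ C i`; then
`frontier K ⊆ pComponent S A`, so `K ⊆ pComponent S A ⊆ S` by `convex_subset_of_frontier`, and
`volume K ≤ supc S` by `le_supc`. -/
theorem fills_of_null {d : ℕ} (hd : 1 ≤ d) (S : Set (EuclideanSpace ℝ (Fin d)))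
    (hnull : ∀ A ∈ S, ∀ f : C(Metric.sphere (0 : EuclideanSpace ℝ (Fin d)) 1, pComponent S A),
      f.Nullhomotopic) : Fills S (supc S) := by
  intro K n C hK hc hCc hCS hjoin hfr
  have hne : Nonempty (Fin d) := ⟨⟨0, hd⟩⟩
  rcases Set.eq_empty_or_nonempty (frontier K) with hE | ⟨x, hx⟩
  · rcases frontier_eq_empty_iff.1 hE with h | h
    · rw [h, measure_empty]
      exact zero_le
    · exact absurd (h ▸ hK) (noncompact_univ (EuclideanSpace ℝ (Fin d)))
  obtain ⟨i, hi⟩ := Set.mem_iUnion.1 (hfr hx)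
  have hC0 : (C 0).Nonempty := by
    rcases Relation.ReflTransGen.cases_head (hjoin i) with h | ⟨c, hc0, _⟩
    · rw [h]
      exact ⟨x, hi⟩
    · exact hc0.mono Set.inter_subset_left
  obtain ⟨A, hA⟩ := hC0
  have key : ∀ i, ∀ y ∈ C i, PolyJoined S A y := by
    intro i
    induction hjoin i with
    | refl =>
      intro y hy
      exact .of_segment (((hCc 0).segment_subset hA hy).trans (hCS 0))
    | @tail b c _ hbc ih =>
      intro y hy
      obtain ⟨z, hzb, hzc⟩ := hbc
      exact (ih z hzb).trans (.of_segment (((hCc c).segment_subset hzc hy).trans (hCS c)))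
  have hfr' : frontier K ⊆ pComponent S A := by
    intro y hy
    obtain ⟨j, hj⟩ := Set.mem_iUnion.1 (hfr hy)
    exact ⟨hCS j hj, key j y hj⟩
  have hsub := convex_subset_of_frontier hK hc hfr' (hnull A (hCS 0 hA)) hd
  exact le_supc hc (fun y hy => (hsub hy).1)

end Pool.Agent.Lib.BeerLin
end

section

/-!
# C3: local density lemma
-/

set_option autoImplicit false

namespace Pool.Agent.Lib.BeerLin

open Set MeasureTheory Topology
open scoped ENNReal
open Pool.Agent.Lib.BeerIndex

variable {k : ℕ}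

/-- **Local density lemma.**

Proof. Let `B = {‖τ‖ ≤ w/4}`, of volume `(w/2)^(k+1)`. By Tonelli and `measurePreserving_sh`
`volume B * volume P = ∫⁻ ω, volume {τ ∈ B | sh τ ω ∈ P}`. If the set `{τ ∈ B | sh τ ω ∈ P}` contains some
`τ₀`, then `ω ∈ Y` and for all its elements `τ`, `sh (τ - τ₀) (sh τ₀ ω) = sh τ ω ∈ P ⊆ W`,
`‖τ - τ₀‖ ≤ w/2`, so its volume is at most `ofReal (κ w^(k+1))`. -/
theorem local_density {P W Y : Set (Om k)} (hP : MeasurableSet P) (hY : MeasurableSet Y)
    {w κ : ℝ} (hw : 0 < w) (hκ : 0 ≤ κ) (hPW : P ⊆ W)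
    (h : ∀ ω ∈ P, volume {τ : V k | ‖τ‖ ≤ w / 2 ∧ sh τ ω ∈ W} ≤
      ENNReal.ofReal (κ * w ^ (k + 1)))
    (hPY : ∀ (ω : Om k) (τ : V k), ‖τ‖ ≤ w / 4 → sh τ ω ∈ P → ω ∈ Y) :
    volume P ≤ ENNReal.ofReal (2 ^ (k + 1) * κ) * volume Y := by
  classical
  set B : Set (V k) := Metric.closedBall 0 (w / 4) with hB
  have hBm : MeasurableSet B := Metric.isClosed_closedBall.measurableSet
  have hBv : volume B = ENNReal.ofReal ((w / 2) ^ (k + 1)) := by
    rw [hB, Real.volume_pi_closedBall _ (by positivity)]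
    congr 1
    rw [Fintype.card_fin]
    congr 1
    ring
  have hmeas : Measurable fun q : V k × Om k => P.indicator (1 : Om k → ℝ≥0∞) (sh q.1 q.2) :=
    (measurable_one.indicator hP).comp measurable_sh
  have hcomp : ∀ τ : V k, ∫⁻ ω, P.indicator (1 : Om k → ℝ≥0∞) (sh τ ω) = volume P := by
    intro τ
    rw [(measurePreserving_sh τ).lintegral_comp (measurable_one.indicator hP),
      lintegral_indicator_one hP]
  have h1 : volume B * volume P =
      ∫⁻ ω, ∫⁻ τ in B, P.indicator (1 : Om k → ℝ≥0∞) (sh τ ω) := by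
    have e1 : volume B * volume P =
        ∫⁻ τ in B, ∫⁻ ω, P.indicator (1 : Om k → ℝ≥0∞) (sh τ ω) := by
      simp only [hcomp]
      rw [lintegral_const, Measure.restrict_apply_univ, mul_comm]
    rw [e1]
    exact lintegral_lintegral_swap (f := fun (τ : V k) (ω : Om k) =>
      P.indicator (1 : Om k → ℝ≥0∞) (sh τ ω)) (by exact hmeas.aemeasurable)
  have h2 : ∀ ω : Om k, ∫⁻ τ in B, P.indicator (1 : Om k → ℝ≥0∞) (sh τ ω) ≤
      Y.indicator (fun _ => ENNReal.ofReal (κ * w ^ (k + 1))) ω := by
    intro ω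
    have hset : MeasurableSet {τ : V k | sh τ ω ∈ P} := by
      have : Measurable fun τ : V k => sh τ ω :=
        measurable_sh.comp (measurable_id.prodMk measurable_const)
      exact this hP
    have e1 : ∫⁻ τ in B, P.indicator (1 : Om k → ℝ≥0∞) (sh τ ω) =
        volume (B ∩ {τ : V k | sh τ ω ∈ P}) := by
      have e2 : (fun τ : V k => P.indicator (1 : Om k → ℝ≥0∞) (sh τ ω)) =
          ({τ : V k | sh τ ω ∈ P}).indicator 1 := by
        funext τ
        simp only [indicator_apply, mem_ofPred_eq, Pi.one_apply]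
      rw [e2, lintegral_indicator_one hset, Measure.restrict_apply hset, inter_comm]
    rw [e1]
    by_cases hne : (B ∩ {τ : V k | sh τ ω ∈ P}).Nonempty
    · obtain ⟨τ₀, hτ₀, hτ₀P⟩ := hne
      rw [mem_ofPred_eq] at hτ₀P
      have hn0 : ‖τ₀‖ ≤ w / 4 := by simpa [hB] using hτ₀
      have hωY : ω ∈ Y := hPY ω τ₀ hn0 hτ₀P
      rw [indicator_of_mem hωY]
      refine le_trans ?_ (h _ hτ₀P)
      have hsub : B ∩ {τ : V k | sh τ ω ∈ P} ⊆
          (fun τ : V k => τ - τ₀) ⁻¹' {τ : V k | ‖τ‖ ≤ w / 2 ∧ sh τ (sh τ₀ ω) ∈ W} := by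
        rintro τ ⟨hτ, hτP⟩
        have hn : ‖τ‖ ≤ w / 4 := by simpa [hB] using hτ
        refine ⟨?_, ?_⟩
        · calc ‖τ - τ₀‖ ≤ ‖τ‖ + ‖τ₀‖ := norm_sub_le _ _
            _ ≤ w / 4 + w / 4 := add_le_add hn hn0
            _ = w / 2 := by ring
        · have e3 : sh (τ - τ₀) (sh τ₀ ω) = sh τ ω := by
            simp only [sh]
            refine Prod.ext (Prod.ext ?_ ?_) rfl
            · simp
            · simp only
              rw [smul_sub]
              abel
          rw [e3]
          exact hPW hτP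
      refine le_trans (measure_mono hsub) (le_of_eq ?_)
      have := measure_preimage_add_right (volume : Measure (V k)) (-τ₀)
        {τ : V k | ‖τ‖ ≤ w / 2 ∧ sh τ (sh τ₀ ω) ∈ W}
      simpa [sub_eq_add_neg] using this
    · rw [not_nonempty_iff_eq_empty] at hne
      rw [hne, measure_empty]
      exact bot_le
  have h3 : volume B * volume P ≤ ENNReal.ofReal (κ * w ^ (k + 1)) * volume Y := by
    rw [h1]
    refine le_trans (lintegral_mono h2) (le_of_eq ?_)
    rw [lintegral_indicator_const hY]
  rw [hBv] at h3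
  have hb : 0 < (w / 2) ^ (k + 1) := by positivity
  have hbb : ENNReal.ofReal ((w / 2) ^ (k + 1)) ≠ 0 := by
    rw [Ne, ENNReal.ofReal_eq_zero, not_le]; exact hb
  have h4 : ENNReal.ofReal (κ * w ^ (k + 1)) =
      ENNReal.ofReal ((w / 2) ^ (k + 1)) * ENNReal.ofReal (2 ^ (k + 1) * κ) := by
    rw [← ENNReal.ofReal_mul hb.le]
    congr 1
    rw [div_pow]
    field_simp
  rw [h4, mul_assoc] at h3
  exact (ENNReal.mul_le_mul_iff_right hbb ENNReal.ofReal_ne_top).1 h3

end Pool.Agent.Lib.BeerLin
end

section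

/-!
# C5a: dyadic decomposition of the angle
-/

set_option autoImplicit false

namespace Pool.Agent.Lib.BeerLin

open Set MeasureTheory Topology
open scoped ENNReal
open Pool.Agent.Lib.BeerIndex

variable {k : ℕ}

/-- Dyadic decomposition of the angle, for `φ₀ > 0`.

Proof. `volume (sec T p) * volume (sec T₁ p) = ∫⁻ a₁ in sec T₁ p, volume (sec T p)`, and `sec T p` is the
union of `{a | |a - a₁| < φ₀}` (volume `2 φ₀`) and the bands `φ₀ 2^i ≤ |a - a₁| < φ₀ 2^(i+1)`. Integrate in
`p` (Tonelli: `∫⁻ p, ∫⁻ a₁ in sec T₁ p, g (p, a₁) = ∫⁻ ω in T₁, g ω`). -/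
theorem dyadic_angle {T T₁ : Set (Om k)} (hT : MeasurableSet T) (hT₁ : MeasurableSet T₁) {φ₀ : ℝ}
    (hφ₀ : 0 < φ₀) :
    ∫⁻ p, volume (sec T p) * volume (sec T₁ p) ≤
      ENNReal.ofReal (2 * φ₀) * volume T₁ +
        ∑' i : ℕ, ∫⁻ ω in T₁, Wf T (φ₀ * 2 ^ i) ω := by
  have hmT : Measurable fun p : V k × V k => volume (sec T p) := measurable_measure_prodMk_left hT
  -- Tonelli
  have h1 : ∫⁻ p, volume (sec T p) * volume (sec T₁ p) =
      ∫⁻ ω in T₁, volume (sec T ω.1) := by
    rw [← lintegral_indicator hT₁]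
    have hmeas : Measurable (T₁.indicator fun ω : Om k => volume (sec T ω.1)) :=
      (hmT.comp measurable_fst).indicator hT₁
    have h5 : ∫⁻ ω : Om k, T₁.indicator (fun ω : Om k => volume (sec T ω.1)) ω =
        ∫⁻ p : V k × V k, ∫⁻ a : ℝ, T₁.indicator (fun ω : Om k => volume (sec T ω.1)) (p, a) :=
      lintegral_prod _ hmeas.aemeasurable
    rw [h5]
    refine lintegral_congr fun p => ?_
    have h2 : (fun a : ℝ => T₁.indicator (fun ω : Om k => volume (sec T ω.1)) (p, a)) =
        (sec T₁ p).indicator (fun _ => volume (sec T p)) := by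
      funext a
      by_cases ha : (p, a) ∈ T₁
      · rw [Set.indicator_of_mem ha, Set.indicator_of_mem (show a ∈ sec T₁ p from ha)]
      · rw [Set.indicator_of_notMem ha, Set.indicator_of_notMem (show a ∉ sec T₁ p from ha)]
    rw [h2, lintegral_indicator_const (measurableSet_sec hT₁ p)]
  -- pointwise decomposition
  have h3 : ∀ ω : Om k, volume (sec T ω.1) ≤
      ENNReal.ofReal (2 * φ₀) + ∑' i : ℕ, Wf T (φ₀ * 2 ^ i) ω := by
    intro ω
    have hsub : sec T ω.1 ⊆ Metric.ball ω.2 φ₀ ∪ ⋃ i : ℕ, {a : ℝ | (ω.1, a) ∈ T ∧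
        φ₀ * 2 ^ i ≤ |a - ω.2| ∧ |a - ω.2| < 2 * (φ₀ * 2 ^ i)} := by
      intro a ha
      by_cases hlt : |a - ω.2| < φ₀
      · left
        rw [Metric.mem_ball, Real.dist_eq]
        exact hlt
      · right
        rw [not_lt] at hlt
        have h4 : 1 ≤ |a - ω.2| / φ₀ := (one_le_div hφ₀).2 hlt
        obtain ⟨n, hn1, hn2⟩ := exists_nat_pow_near h4 (one_lt_two)
        rw [Set.mem_iUnion]
        refine ⟨n, ha, ?_, ?_⟩
        · rw [le_div_iff₀ hφ₀] at hn1
          linarith
        · rw [div_lt_iff₀ hφ₀] at hn2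
          rw [pow_succ] at hn2
          linarith
    refine (measure_mono hsub).trans ((measure_union_le _ _).trans (add_le_add ?_ ?_))
    · rw [Real.volume_ball]
    · exact measure_iUnion_le _
  rw [h1]
  calc ∫⁻ ω in T₁, volume (sec T ω.1)
      ≤ ∫⁻ ω in T₁, (ENNReal.ofReal (2 * φ₀) + ∑' i : ℕ, Wf T (φ₀ * 2 ^ i) ω) :=
        lintegral_mono fun ω => h3 ω
    _ = ENNReal.ofReal (2 * φ₀) * volume T₁ + ∑' i : ℕ, ∫⁻ ω in T₁, Wf T (φ₀ * 2 ^ i) ω := by
        rw [lintegral_add_left measurable_const, setLIntegral_const,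
          lintegral_tsum fun i => (measurable_Wf hT _).aemeasurable]

end Pool.Agent.Lib.BeerLin
end

section

/-!
# D4c: the set CC of all pairs (apex, face)
-/

set_option autoImplicit false

namespace Pool.Agent.Lib.BeerLin

open Set MeasureTheory Topology
open scoped ENNReal
open Pool.Agent.Lib.BeerIndex

variable {k : ℕ}

/-- the set of all `(C, e)` with `HH` -/
def CC (S : Set (X k)) : Set (X k × (Fin (k + 1) → X k)) :=
  {q | 0 < JJ (fun i => (q.2 i).1) ∧
    HH S (fun i => (q.2 i).1) ((fun i => (q.2 i).2.1), (fun i => (q.2 i).2.2)) q.1}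

private theorem continuous_mat :
    Continuous fun t : Fin (k + 1) → Fin k → ℝ => mat t := by
  refine continuous_matrix fun j i => ?_
  simp only [mat, Matrix.of_apply]
  fun_prop

private theorem measurable_co' {Y : Type*} [MeasurableSpace Y] {t : Y → Fin (k + 1) → Fin k → ℝ}
    {y : Y → Fin k → ℝ} (ht : Measurable t) (hy : Measurable y) :
    Measurable fun q => co (t q) (y q) := by
  refine measurable_pi_lambda _ fun j => ?_
  simp only [co, Matrix.toLin'_apply, Matrix.mulVec, dotProduct, Matrix.inv_def,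
    Ring.inverse_eq_inv', Matrix.smul_apply, smul_eq_mul, Pi.sub_apply]
  refine Finset.measurable_sum _ fun l _ => ?_
  refine Measurable.mul (Measurable.mul ?_ ?_) ?_
  · exact ((continuous_mat (k := k)).matrix_det.measurable.comp ht).inv
  · exact ((continuous_mat (k := k)).matrix_adjugate.matrix_elem j l).measurable.comp ht
  · exact ((measurable_pi_apply l).comp hy).sub
      ((measurable_pi_apply l).comp ((measurable_pi_apply 0).comp ht))

private theorem measurable_bc' {Y : Type*} [MeasurableSpace Y] {t : Y → Fin (k + 1) → Fin k → ℝ}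
    {y : Y → Fin k → ℝ} (ht : Measurable t) (hy : Measurable y) (i : Fin (k + 1)) :
    Measurable fun q => bc (t q) (y q) i := by
  have h := measurable_co' ht hy
  have h2 : Measurable fun s : Fin k → ℝ => bary s i := (continuous_bary_apply i).measurable
  unfold bc
  exact h2.comp h

private theorem isClosed_convexHull_subset {ι E Y : Type*} [Fintype ι] [NormedAddCommGroup E]
    [NormedSpace ℝ E] [TopologicalSpace Y] {S : Set E} (hS : IsClosed S) (v : Y → ι → E)
    (hv : ∀ i, Continuous fun q => v q i) : IsClosed {q | convexHull ℝ (range (v q)) ⊆ S} := by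
  classical
  have h : {q | convexHull ℝ (range (v q)) ⊆ S} =
      ⋂ w ∈ stdSimplex ℝ ι, {q | ∑ i, w i • v q i ∈ S} := by
    ext q
    have h1 : convexHull ℝ (range (v q)) =
        (Fintype.linearCombination ℝ (v q)) '' stdSimplex ℝ ι := by
      rw [← convexHull_basis_eq_stdSimplex, LinearMap.image_convexHull, ← Set.range_comp]
      congr 2
      funext i
      simp [Fintype.linearCombination_apply]
    simp only [mem_ofPred_eq, h1, mem_iInter, image_subset_iff]
    rfl
  rw [h]
  refine isClosed_biInter fun w _ => hS.preimage ?_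
  exact continuous_finsetSum _ fun i _ => (hv i).const_smul (w i)

/-- `{0 < JJ}` is open, there `bc` is continuous, and the other conditions are closed (the convex hull
condition is an intersection over the weights). -/
theorem measurableSet_CC {S : Set (X k)} (hS : IsClosed S) : MeasurableSet (CC S) := by
  have hbc : ∀ i, Measurable fun q : X k × (Fin (k + 1) → X k) =>
      bc (fun i => (q.2 i).1) q.1.1 i := by
    intro i
    have hc1 : Continuous fun q : X k × (Fin (k + 1) → X k) =>
        ((fun i => (q.2 i).1) : Fin (k + 1) → Fin k → ℝ) := by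
      fun_prop
    have hc2 : Continuous fun q : X k × (Fin (k + 1) → X k) => q.1.1 := by
      fun_prop
    exact measurable_bc' hc1.measurable hc2.measurable i
  have hJ : Measurable fun q : X k × (Fin (k + 1) → X k) => JJ (fun i => (q.2 i).1) := by
    unfold JJ
    have hmat : Continuous fun q : X k × (Fin (k + 1) → X k) => mat (fun i => (q.2 i).1) := by
      refine continuous_matrix fun j i => ?_
      simp only [mat, Matrix.of_apply]
      fun_prop
    exact (continuous_abs.comp hmat.matrix_det).measurable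
  have h0 : MeasurableSet {q : X k × (Fin (k + 1) → X k) | 0 < JJ (fun i => (q.2 i).1)} :=
    measurableSet_lt measurable_const hJ
  have h1 : MeasurableSet {q : X k × (Fin (k + 1) → X k) |
      convexHull ℝ (insert q.1 (range fun i =>
        (((q.2 i).1, (q.2 i).2.1, (q.2 i).2.2) : X k))) ⊆ S} := by
    have h2 := isClosed_convexHull_subset (Y := X k × (Fin (k + 1) → X k)) hS
      (fun q => (Fin.cons q.1 q.2 : Fin (k + 2) → X k)) (fun i => by
        refine Fin.cases ?_ (fun j => ?_) i
        · simp only [Fin.cons_zero]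
          fun_prop
        · simp only [Fin.cons_succ]
          fun_prop)
    simp only [Fin.range_cons] at h2
    exact h2.measurableSet
  have h2 : MeasurableSet {q : X k × (Fin (k + 1) → X k) |
      ∀ i, |bc (fun i => (q.2 i).1) q.1.1 i| ≤ 1} := by
    rw [ofPred_forall]
    exact MeasurableSet.iInter fun i => measurableSet_le (hbc i).abs measurable_const
  have h3 : MeasurableSet {q : X k × (Fin (k + 1) → X k) |
      |q.1.2.2 - ∑ i, bc (fun i => (q.2 i).1) q.1.1 i * (q.2 i).2.2| ≤
        |q.1.2.1 - ∑ i, bc (fun i => (q.2 i).1) q.1.1 i * (q.2 i).2.1|} := by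
    refine measurableSet_le ?_ ?_
    · refine Measurable.abs (Measurable.sub (by fun_prop) ?_)
      exact Finset.measurable_sum _ fun i _ => (hbc i).mul (by fun_prop)
    · refine Measurable.abs (Measurable.sub (by fun_prop) ?_)
      exact Finset.measurable_sum _ fun i _ => (hbc i).mul (by fun_prop)
  have h4 : CC S = {q : X k × (Fin (k + 1) → X k) | 0 < JJ (fun i => (q.2 i).1)} ∩
      ({q : X k × (Fin (k + 1) → X k) |
      convexHull ℝ (insert q.1 (range fun i =>
        (((q.2 i).1, (q.2 i).2.1, (q.2 i).2.2) : X k))) ⊆ S} ∩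
      ({q : X k × (Fin (k + 1) → X k) |
      ∀ i, |bc (fun i => (q.2 i).1) q.1.1 i| ≤ 1} ∩
      {q : X k × (Fin (k + 1) → X k) |
      |q.1.2.2 - ∑ i, bc (fun i => (q.2 i).1) q.1.1 i * (q.2 i).2.2| ≤
        |q.1.2.1 - ∑ i, bc (fun i => (q.2 i).1) q.1.1 i * (q.2 i).2.1|})) := by
    ext q
    rfl
  rw [h4]
  exact h0.inter (h1.inter (h2.inter h3))

/-- `e ↦ (t, (y, z))` preserves the volume (`volume_measurePreserving_arrowProdEquivProdArrow` twice) -/
theorem measurePreserving_split :
    MeasurePreserving (fun e : Fin (k + 1) → X k =>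
      ((fun i => (e i).1, ((fun i => (e i).2.1), (fun i => (e i).2.2))) :
        (Fin (k + 1) → Fin k → ℝ) × (V k × V k))) volume volume := by
  have h1 := volume_measurePreserving_arrowProdEquivProdArrow (Fin k → ℝ) (ℝ × ℝ) (Fin (k + 1))
  have h2 := volume_measurePreserving_arrowProdEquivProdArrow ℝ ℝ (Fin (k + 1))
  exact ((MeasurePreserving.id volume).prod h2).comp h1

end Pool.Agent.Lib.BeerLin
end

section

/-!
# D3b: integration over the line and over Y, Z
-/

set_option autoImplicit false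

namespace Pool.Agent.Lib.BeerLin

open Set MeasureTheory Topology
open scoped ENNReal
open Pool.Agent.Lib.BeerIndex

variable {k : ℕ}

/-! ### auxiliary facts -/

/-- Scaling of the Lebesgue integral. -/
private theorem d3b_scale (f : ℝ → ℝ≥0∞) {c : ℝ} (hc : c ≠ 0) :
    ∫⁻ x, f (x * c⁻¹) = ENNReal.ofReal |c| * ∫⁻ x, f x := by
  have hc' : c⁻¹ ≠ 0 := inv_ne_zero hc
  have h1 : ∫⁻ x, f (x * c⁻¹) = ∫⁻ x, f x ∂(Measure.map (· * c⁻¹) volume) := by
    have he : MeasurableEmbedding (fun x : ℝ => x * c⁻¹) :=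
      (Homeomorph.mulRight₀ c⁻¹ hc').measurableEmbedding
    exact (he.lintegral_map f).symm
  rw [h1, Real.map_volume_mul_right hc', lintegral_smul_measure, inv_inv, smul_eq_mul]

/-- Integral of an even function. -/
private theorem d3b_abs (f : ℝ → ℝ≥0∞) (hf0 : f 0 = 0)
    (hf : Measurable fun x => (Ioi (0 : ℝ)).indicator f x) :
    ∫⁻ x, f |x| = 2 * ∫⁻ x in Ioi (0 : ℝ), f x := by
  have h1 : ∀ x : ℝ, f |x| = (Ioi (0 : ℝ)).indicator f x + (Ioi (0 : ℝ)).indicator f (-x) := by
    intro x
    rcases lt_trichotomy x 0 with h | h | h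
    · rw [indicator_of_notMem (by simpa using h.le), indicator_of_mem (by simpa using h), zero_add,
        abs_of_neg h]
    · subst h; simp [hf0]
    · rw [indicator_of_mem (by simpa using h), indicator_of_notMem (by simpa using h.le), add_zero,
        abs_of_pos h]
  have h2 : ∫⁻ x, (Ioi (0 : ℝ)).indicator f (-x) = ∫⁻ x, (Ioi (0 : ℝ)).indicator f x :=
    (Measure.measurePreserving_neg (volume : Measure ℝ)).lintegral_comp hf
  rw [lintegral_congr h1, lintegral_add_left hf, h2, lintegral_indicator measurableSet_Ioi, two_mul]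

/-- Preimages under `Lam × Lam` and a translation. -/
private theorem d3b_LamLam {C : ℝ} (hC : 0 < C)
    (hLam : ∀ A : Set (V k), volume ((Lam : V k → V k) ⁻¹' A) = ENNReal.ofReal C * volume A)
    (hm : Measurable (Lam : V k → V k)) {B : Set (V k × V k)} (hB : MeasurableSet B)
    (c : V k × V k) :
    volume {p : V k × V k | ((Lam p.1, Lam p.2) : V k × V k) + c ∈ B} =
      ENNReal.ofReal (C ^ 2) * volume B := by
  have h1 : Measure.map (Lam : V k → V k) volume = ENNReal.ofReal C • volume := by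
    ext A hA
    rw [Measure.map_apply hm hA, hLam, Measure.smul_apply, smul_eq_mul]
  have hB' : MeasurableSet ((fun q : V k × V k => q + c) ⁻¹' B) :=
    (measurable_add_const c) hB
  have h2 : volume ((fun q : V k × V k => q + c) ⁻¹' B) = volume B := by
    rw [Measure.volume_eq_prod]
    exact measure_preimage_add_right ((volume : Measure (V k)).prod (volume : Measure (V k))) c B
  have h3 : {p : V k × V k | ((Lam p.1, Lam p.2) : V k × V k) + c ∈ B} =
      (Prod.map (Lam : V k → V k) (Lam : V k → V k)) ⁻¹' ((fun q : V k × V k => q + c) ⁻¹' B) := rfl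
  have h4 : Measure.map (Prod.map (Lam : V k → V k) (Lam : V k → V k))
      (volume : Measure (V k × V k)) = ENNReal.ofReal (C ^ 2) • (volume : Measure (V k × V k)) := by
    rw [Measure.volume_eq_prod, ← Measure.map_prod_map _ _ hm hm, h1, Measure.prod_smul_left,
      Measure.prod_smul_right, smul_smul, ← ENNReal.ofReal_mul hC.le, sq]
  rw [h3, ← Measure.map_apply (hm.prodMap hm) hB', h4, Measure.smul_apply, smul_eq_mul, h2]

private theorem d3b_measurable_Lam : Measurable (Lam : V k → V k) := by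
  have : Continuous (Lam : V k → V k) := by
    unfold Lam
    fun_prop
  exact this.measurable

/-- **Integration over lines and displacements.**

Proof. By Tonelli (`measurableSet_QQ`) the left side is
`∫⁻ (Y, Z), Y ≠ 0, |Z| ≤ |Y|, volume {p | sh _ ((Lam p.1, Lam p.2), Z/Y) ∈ G R (|Y|/(4(k+1)))}`; for fixed
`Y, Z` the map `p ↦ (Lam p.1 + const, Lam p.2 + const)` is affine with preimage factor `C²`
(`volume_preimage_Lam`, translation), so the inner volume is
`C² volume {p | (p, Z/Y) ∈ G R (|Y|/(4(k+1)))}`. For fixed `Y ≠ 0` substitute `Z = a Y` (factor `|Y|`,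
`|a| ≤ 1`): the integral over `Z` is `|Y| C² volume (G R (|Y|/(4(k+1))))`. Finally substitute
`w = |Y|/(4(k+1))`: `∫⁻ Y, |Y| g(|Y|/(4(k+1))) = 2 (4(k+1))² ∫⁻ w in Ioi 0, w g w`. -/
theorem lintegral_QQ_le : ∃ C : ℝ, 0 < C ∧ ∀ R : Set (X k), IsClosed R →
    ∫⁻ p, volume {q : ℝ × ℝ | q.1 ≠ 0 ∧ QQ R p q.1 q.2} ≤
      ENNReal.ofReal C * ∫⁻ w in Ioi (0 : ℝ), ENNReal.ofReal w * volume (G R w) := by
  obtain ⟨C, hC, hLam⟩ := volume_preimage_Lam (k := k)
  set c : ℝ := 4 * ((k : ℝ) + 1) with hc
  have hc0 : 0 < c := by positivity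
  refine ⟨C ^ 2 * (2 * (c * c)), by positivity, fun R hR => ?_⟩
  have hQ := measurableSet_QQ hR
  set Q : Set ((V k × V k) × ℝ × ℝ) := {q | q.2.1 ≠ 0 ∧ QQ R q.1 q.2.1 q.2.2} with hQdef
  -- Tonelli
  have e1 : ∫⁻ p, volume {q : ℝ × ℝ | q.1 ≠ 0 ∧ QQ R p q.1 q.2} =
      ∫⁻ q : ℝ × ℝ, volume {p : V k × V k | (p, q) ∈ Q} := by
    have h1 := Measure.prod_apply (μ := (volume : Measure (V k × V k)))
      (ν := (volume : Measure (ℝ × ℝ))) hQ
    have h2 := Measure.prod_apply_symm (μ := (volume : Measure (V k × V k)))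
      (ν := (volume : Measure (ℝ × ℝ))) hQ
    rw [h1] at h2
    exact h2
  -- the inner volume
  have e2 : ∀ q : ℝ × ℝ, q.1 ≠ 0 → volume {p : V k × V k | (p, q) ∈ Q} ≤
      ENNReal.ofReal (C ^ 2) * volume {p : V k × V k | (p, q.2 * q.1⁻¹) ∈ G R (|q.1| / c)} := by
    intro q hq
    have hB : MeasurableSet {p : V k × V k | (p, q.2 * q.1⁻¹) ∈ G R (|q.1| / c)} :=
      measurable_prodMk_right (measurableSet_G hR _)
    rw [← d3b_LamLam hC hLam d3b_measurable_Lam hB
      ((fun _ => q.1 / c), (q.2 * q.1⁻¹) • (fun _ => q.1 / c))]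
    apply measure_mono
    intro p hp
    have h := hp.2.2
    simp only [sh] at h
    simp only [mem_ofPred_eq, Prod.mk_add_mk]
    rw [← div_eq_mul_inv]
    exact h
  have hmeas : Measurable fun q : ℝ × ℝ => volume {p : V k × V k | (p, q) ∈ Q} :=
    measurable_measure_prodMk_right hQ
  -- integration over `Z`
  have e3 : ∀ Y : ℝ, ∫⁻ Z, volume {p : V k × V k | (p, (Y, Z)) ∈ Q} ≤
      ENNReal.ofReal (C ^ 2) * (ENNReal.ofReal |Y| * volume (G R (|Y| / c))) := by
    intro Y
    rcases eq_or_ne Y 0 with hY | hY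
    · have : ∀ Z, {p : V k × V k | (p, (Y, Z)) ∈ Q} = ∅ := by
        intro Z
        ext p
        simp only [mem_ofPred_eq, mem_empty_iff_false, iff_false]
        exact fun h => h.1 hY
      simp [this]
    · calc ∫⁻ Z, volume {p : V k × V k | (p, (Y, Z)) ∈ Q}
          ≤ ∫⁻ Z, ENNReal.ofReal (C ^ 2) *
              volume {p : V k × V k | (p, Z * Y⁻¹) ∈ G R (|Y| / c)} :=
            lintegral_mono fun Z => e2 (Y, Z) hY
        _ = ENNReal.ofReal (C ^ 2) *
              ∫⁻ Z, volume {p : V k × V k | (p, Z * Y⁻¹) ∈ G R (|Y| / c)} :=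
            lintegral_const_mul' _ _ ENNReal.ofReal_ne_top
        _ = ENNReal.ofReal (C ^ 2) * (ENNReal.ofReal |Y| *
              ∫⁻ a, volume {p : V k × V k | (p, a) ∈ G R (|Y| / c)}) := by
            rw [d3b_scale (fun a => volume {p : V k × V k | (p, a) ∈ G R (|Y| / c)}) hY]
        _ = ENNReal.ofReal (C ^ 2) * (ENNReal.ofReal |Y| * volume (G R (|Y| / c))) := by
            have h := Measure.prod_apply_symm (μ := (volume : Measure (V k × V k)))
              (ν := (volume : Measure ℝ)) (measurableSet_G hR (|Y| / c))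
            have h' : volume (G R (|Y| / c)) =
              ∫⁻ a, volume {p : V k × V k | (p, a) ∈ G R (|Y| / c)} := h
            rw [h']
  -- the function of the width
  set v : ℝ → ℝ≥0∞ := fun w => volume (G R w) with hv
  have hvm : Measurable v := by
    have : Antitone v := fun w w' h => measure_mono (G_anti R h)
    exact this.measurable
  have e4 : ∫⁻ Y : ℝ, ENNReal.ofReal |Y| * volume (G R (|Y| / c)) =
      ENNReal.ofReal (2 * (c * c)) *
        ∫⁻ w in Ioi (0 : ℝ), ENNReal.ofReal w * volume (G R w) := by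
    have hm1 : Measurable fun x : ℝ => ENNReal.ofReal x * v (x / c) :=
      ENNReal.measurable_ofReal.mul (hvm.comp (measurable_id.div_const c))
    have h1 := d3b_abs (fun x => ENNReal.ofReal x * v (x / c)) (by simp)
      (hm1.indicator measurableSet_Ioi)
    have h2 : ∫⁻ x in Ioi (0 : ℝ), ENNReal.ofReal x * v (x / c) =
        ENNReal.ofReal (c * c) * ∫⁻ w in Ioi (0 : ℝ), ENNReal.ofReal w * v w := by
      rw [← lintegral_indicator measurableSet_Ioi]
      have h3 : ∀ x : ℝ, (Ioi (0 : ℝ)).indicator (fun x => ENNReal.ofReal x * v (x / c)) x =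
          (fun w => (Ioi (0 : ℝ)).indicator
            (fun w => ENNReal.ofReal c * (ENNReal.ofReal w * v w)) w) (x * c⁻¹) := by
        intro x
        by_cases hx : 0 < x
        · have hx' : 0 < x * c⁻¹ := by positivity
          show (Ioi (0 : ℝ)).indicator (fun x => ENNReal.ofReal x * v (x / c)) x =
            (Ioi (0 : ℝ)).indicator
            (fun w => ENNReal.ofReal c * (ENNReal.ofReal w * v w)) (x * c⁻¹)
          rw [indicator_of_mem (show x ∈ Ioi (0 : ℝ) from hx),
            indicator_of_mem (show x * c⁻¹ ∈ Ioi (0 : ℝ) from hx'), ← mul_assoc,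
            ← ENNReal.ofReal_mul hc0.le, div_eq_mul_inv]
          congr 2
          field_simp
        · have hx' : ¬ 0 < x * c⁻¹ := by
            rw [not_lt] at hx ⊢
            exact mul_nonpos_of_nonpos_of_nonneg hx (inv_nonneg.mpr hc0.le)
          show (Ioi (0 : ℝ)).indicator (fun x => ENNReal.ofReal x * v (x / c)) x =
            (Ioi (0 : ℝ)).indicator
            (fun w => ENNReal.ofReal c * (ENNReal.ofReal w * v w)) (x * c⁻¹)
          rw [indicator_of_notMem (show x ∉ Ioi (0 : ℝ) from hx),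
            indicator_of_notMem (show x * c⁻¹ ∉ Ioi (0 : ℝ) from hx')]
      rw [lintegral_congr h3, d3b_scale _ hc0.ne', lintegral_indicator measurableSet_Ioi,
        lintegral_const_mul' _ _ ENNReal.ofReal_ne_top, abs_of_pos hc0, ← mul_assoc,
        ← ENNReal.ofReal_mul hc0.le]
    rw [show (∫⁻ Y : ℝ, ENNReal.ofReal |Y| * volume (G R (|Y| / c))) =
      ∫⁻ x : ℝ, (fun x => ENNReal.ofReal x * v (x / c)) |x| from rfl, h1, h2, ← mul_assoc,
      ENNReal.ofReal_mul (by norm_num : (0 : ℝ) ≤ 2)]
    simp [hv]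
  calc ∫⁻ p, volume {q : ℝ × ℝ | q.1 ≠ 0 ∧ QQ R p q.1 q.2}
      = ∫⁻ q : ℝ × ℝ, volume {p : V k × V k | (p, q) ∈ Q} := e1
    _ = ∫⁻ Y : ℝ, ∫⁻ Z : ℝ, volume {p : V k × V k | (p, (Y, Z)) ∈ Q} := by
        rw [Measure.volume_eq_prod ℝ ℝ, lintegral_prod _ hmeas.aemeasurable]
    _ ≤ ∫⁻ Y : ℝ, ENNReal.ofReal (C ^ 2) * (ENNReal.ofReal |Y| * volume (G R (|Y| / c))) :=
        lintegral_mono e3
    _ = ENNReal.ofReal (C ^ 2) * ∫⁻ Y : ℝ, ENNReal.ofReal |Y| * volume (G R (|Y| / c)) :=
        lintegral_const_mul' _ _ ENNReal.ofReal_ne_top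
    _ = ENNReal.ofReal (C ^ 2 * (2 * (c * c))) *
          ∫⁻ w in Ioi (0 : ℝ), ENNReal.ofReal w * volume (G R w) := by
        rw [e4, ← mul_assoc, ← ENNReal.ofReal_mul (by positivity)]

end Pool.Agent.Lib.BeerLin
end

section

/-!
# F1a: coordinates
-/

set_option autoImplicit false

namespace Pool.Agent.Lib.BeerLin

open Set MeasureTheory Topology
open scoped ENNReal
open Pool.Agent.Lib.BeerIndex

variable {k : ℕ}

private noncomputable def F1aL (k : ℕ) : EuclideanSpace ℝ (Fin (k + 2)) ≃ₗ[ℝ] X k where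
  toFun x := (fun i => x i.succ.succ, x 0, x (Fin.succ 0))
  map_add' x y := rfl
  map_smul' c x := rfl
  invFun p := WithLp.toLp 2 (Fin.cons p.2.1 (Fin.cons p.2.2 p.1 : Fin (k + 1) → ℝ))
  left_inv x := by
    ext i
    refine Fin.cases ?_ (fun j => ?_) i
    · rfl
    · refine Fin.cases ?_ (fun l => ?_) j
      · rfl
      · rfl
  right_inv p := rfl

/-- coordinates -/
theorem exists_coord (k : ℕ) :
    ∃ L : EuclideanSpace ℝ (Fin (k + 2)) ≃L[ℝ] X k, MeasurePreserving L volume volume := by
  refine ⟨(F1aL k).toContinuousLinearEquiv, ?_⟩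
  have m0 : MeasurePreserving (@WithLp.ofLp 2 (Fin (k + 2) → ℝ)) volume volume :=
    PiLp.volume_preserving_ofLp _
  have m1 := volume_preserving_piFinSuccAbove (fun _ : Fin (k + 2) => ℝ) 0
  have m2 := volume_preserving_piFinSuccAbove (fun _ : Fin (k + 1) => ℝ) 0
  have m3 := (MeasurePreserving.id (volume : Measure ℝ)).prod m2
  have m4 := (volume_preserving_prodAssoc (α₁ := ℝ) (β₁ := ℝ) (γ₁ := Fin k → ℝ)).symm
  have m5 : MeasurePreserving (Prod.swap : (ℝ × ℝ) × (Fin k → ℝ) → (Fin k → ℝ) × (ℝ × ℝ))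
      (volume.prod volume) (volume.prod volume) := Measure.measurePreserving_swap
  have m6 := m5.comp (m4.comp (m3.comp (m1.comp m0)))
  exact m6

end Pool.Agent.Lib.BeerLin
end
end
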