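import Pool.Agent.Lib.MP_d216ef_co.Lin.B4b
import Pool.Agent.Lib.MP_d216ef_co.Lin.C1a
import Pool.Agent.Lib.MP_d216ef_co.Lin.C1b
import Pool.Agent.Lib.MP_d216ef_co.Lin.F1a
import Pool.Agent.Lib.MP_d216ef_co.Lin.D2b

section

/-!
# C4: pairs of plates of two scales through the same line, at angle ~ φ
-/

set_option autoImplicit false

namespace Pool.Agent.Lib.BeerLin

open Set MeasureTheory Topology
open scoped ENNReal
open Pool.Agent.Lib.BeerIndex

variable {k : ℕ}

private theorem Ty_subset_G (R : Set (X k)) (w δ : ℝ) : Ty R w δ ⊆ G R w := fun _ h => h.1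

private theorem exists_of_Wf_pos {T : Set (Om k)} {φ : ℝ} {ω : Om k} (h : 0 < Wf T φ ω) :
    ∃ a : ℝ, (ω.1, a) ∈ T ∧ φ ≤ |a - ω.2| ∧ |a - ω.2| < 2 * φ := by
  by_contra hne
  have h0 : {a : ℝ | (ω.1, a) ∈ T ∧ φ ≤ |a - ω.2| ∧ |a - ω.2| < 2 * φ} = ∅ := by
    ext a
    simp only [Set.mem_ofPred_eq, Set.mem_empty_iff_false, iff_false]
    intro ha
    exact hne ⟨a, ha⟩
  unfold Wf at h
  rw [h0, measure_empty] at h
  exact lt_irrefl _ h

/-- a function bounded by `c` integrates over `T` to at most `c` times the measure of the part where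
it is positive -/
private theorem lintegral_le_of_pos {T : Set (Om k)} {f : Om k → ℝ≥0∞} {c : ℝ≥0∞}
    (hf : Measurable f) (hT : MeasurableSet T) (hc : ∀ ω, f ω ≤ c) :
    ∫⁻ ω in T, f ω ≤ c * volume {ω | ω ∈ T ∧ 0 < f ω} := by
  have hW : MeasurableSet {ω | 0 < f ω} := measurableSet_lt measurable_const hf
  have hsub : T ⊆ {ω | ω ∈ T ∧ 0 < f ω} ∪ (T \ {ω | 0 < f ω}) := by
    intro ω hω
    by_cases h : 0 < f ω
    · exact Or.inl ⟨hω, h⟩
    · exact Or.inr ⟨hω, h⟩
  calc ∫⁻ ω in T, f ω ≤ ∫⁻ ω in {ω | ω ∈ T ∧ 0 < f ω} ∪ (T \ {ω | 0 < f ω}), f ω :=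
        lintegral_mono_set hsub
    _ ≤ (∫⁻ ω in {ω | ω ∈ T ∧ 0 < f ω}, f ω) + (∫⁻ ω in (T \ {ω | 0 < f ω}), f ω) :=
        lintegral_union_le _ _ _
    _ ≤ c * volume {ω | ω ∈ T ∧ 0 < f ω} + 0 := by
        gcongr
        · calc ∫⁻ ω in {ω | ω ∈ T ∧ 0 < f ω}, f ω ≤ ∫⁻ ω in {ω | ω ∈ T ∧ 0 < f ω}, c :=
                lintegral_mono fun ω => hc ω
            _ = c * volume {ω | ω ∈ T ∧ 0 < f ω} := setLIntegral_const _ _
        · have h0 : ∫⁻ ω in (T \ {ω | 0 < f ω}), f ω = ∫⁻ ω in (T \ {ω | 0 < f ω}), 0 := by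
            refine setLIntegral_congr_fun (hT.diff hW) ?_
            intro ω hω
            have : ¬ (0 < f ω) := hω.2
            exact le_antisymm (not_lt.1 this) zero_le
          rw [h0, lintegral_zero]
    _ = c * volume {ω | ω ∈ T ∧ 0 < f ω} := add_zero _

private theorem measurable_shvol {W : Set (Om k)} (hW : MeasurableSet W) (r : ℝ) :
    Measurable fun ω : Om k => volume {τ : V k | ‖τ‖ ≤ r ∧ sh τ ω ∈ W} := by
  have hs : MeasurableSet {q : Om k × V k | ‖q.2‖ ≤ r ∧ sh q.2 q.1 ∈ W} := by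
    apply MeasurableSet.inter
    · exact measurableSet_le (measurable_snd.norm) measurable_const
    · have hm : Measurable fun q : Om k × V k => sh q.2 q.1 :=
        measurable_sh.comp (measurable_snd.prodMk measurable_fst)
      exact hm hW
  exact measurable_measure_prodMk_left hs

/-- **Band bound.** Let `T = Ty R w (C₁ m/w²)`, `T₁ = Ty R w₁ (C₁ m/w₁²)`, `w ≤ w₁`.

Proof. `Cb, n` of `closure_lemma` (enlarge the constant). Let `δ = C₁ m/w²`, `δ₁ = C₁ m/w₁²`,
`W = {ω₁ | 0 < Wf T φ ω₁} ⊆ Wall R w φ` (measurable, `measurable_Wf`),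
`Ri = {ω₁ ∈ T₁ | ofReal (κ w₁^(k+1)) ≤ volume {τ | ‖τ‖ ≤ w₁/2 ∧ sh τ ω₁ ∈ W}} ⊆ Rich R w w₁ φ κ`
(measurable by Tonelli). With `P = (T₁ ∩ W) \ Ri`, `Y = G R (w₁/2)`, `local_density` gives
`volume P ≤ ofReal (2^(k+1) κ) * volume (G R (w₁/2))` (`mem_G_of_sh`). As `Wf T φ ≤ ofReal (2 δ)` and
`Wf T φ = 0` off `W`:
`∫⁻ ω in T₁, Wf T φ ω ≤ ofReal (2 δ) * volume P + ∫⁻ ω in Ri, Wf T φ ω`, and the last integral is
`∫⁻ ω in T, Wf Ri φ ω ≤ ofReal (2 δ₁) * volume Z`, `Z = {ω ∈ T | 0 < Wf Ri φ ω}` (`lintegral_Wf_comm`).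
Let `W' = {ω | 0 < Wf Ri φ ω}`. If `volume {τ | ‖τ‖ ≤ w/16 ∧ sh τ ω ∈ W'} ≤ ofReal (κ w^(k+1))` for all
`ω ∈ Z`, then `local_density` (with `w/8` in place of `w`, `8^(k+1) κ` in place of `κ`, `P = Z`, `W = W'`,
`Y = G R (w/2)`) gives `volume Z ≤ ofReal (16^(k+1) κ) * volume (G R (w/2))`, and we are done. Otherwise some
`ω ∈ Z ⊆ G R w` satisfies the hypothesis of `closure_lemma` (and `κ < 1`, because
`κ w^(k+1) < volume {‖τ‖ ≤ w/16} = (w/8)^(k+1)`), whose conclusion contradicts `Cb < …`. -/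
theorem band_bound (hk : 1 ≤ k) (C₁ : ℝ) (hC₁ : 0 < C₁) :
    ∃ (Cb : ℝ) (n : ℕ), 0 < Cb ∧ 1 ≤ n ∧
    ∀ (R : Set (X k)) (m w w₁ φ κ : ℝ), IsClosed R → Fills R (ENNReal.ofReal m) → 0 < m →
      0 < w → w ≤ w₁ → 0 < φ → 0 < κ → Cb < κ ^ n * √(w₁ / w) * (w ^ 2 * φ / m) →
      ∫⁻ ω in Ty R w₁ (C₁ * m / w₁ ^ 2), Wf (Ty R w (C₁ * m / w ^ 2)) φ ω ≤
        ENNReal.ofReal (Cb * κ) * (ENNReal.ofReal (m / w ^ 2) * volume (G R (w₁ / 2)) +
          ENNReal.ofReal (m / w₁ ^ 2) * volume (G R (w / 2))) := by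
  obtain ⟨Cb₀, n, hCb₀, hn, hclo⟩ := closure_lemma (k := k) hk
  refine ⟨max Cb₀ (2 * C₁ * 16 ^ (k + 1)), n, lt_max_of_lt_left hCb₀, hn, ?_⟩
  intro R m w w₁ φ κ hR hfill hm hw hww hφ hκ hbig
  set Cb : ℝ := max Cb₀ (2 * C₁ * 16 ^ (k + 1)) with hCb
  have hw1 : 0 < w₁ := lt_of_lt_of_le hw hww
  set δ : ℝ := C₁ * m / w ^ 2 with hδ
  set δ₁ : ℝ := C₁ * m / w₁ ^ 2 with hδ₁
  have hδ0 : 0 ≤ δ := by rw [hδ]; positivity
  have hδ₁0 : 0 ≤ δ₁ := by rw [hδ₁]; positivity
  have hT : MeasurableSet (Ty R w δ) := measurableSet_Ty hR w δ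
  have hT₁ : MeasurableSet (Ty R w₁ δ₁) := measurableSet_Ty hR w₁ δ₁
  have hfm : Measurable (Wf (Ty R w δ) φ) := measurable_Wf hT φ
  set W : Set (Om k) := {ω₁ | 0 < Wf (Ty R w δ) φ ω₁} with hWdef
  have hW : MeasurableSet W := measurableSet_lt measurable_const hfm
  have hWWall : W ⊆ Wall R w φ := by
    intro ω hω
    obtain ⟨a, h1, h2, h3⟩ := exists_of_Wf_pos hω
    exact ⟨a, h2, h3.le, Ty_subset_G R w δ h1⟩
  set Fn : Om k → ℝ≥0∞ := fun ω => volume {τ : V k | ‖τ‖ ≤ w₁ / 2 ∧ sh τ ω ∈ W} with hFn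
  have hFm : Measurable Fn := measurable_shvol hW (w₁ / 2)
  set Ri : Set (Om k) := Ty R w₁ δ₁ ∩ {ω₁ | ENNReal.ofReal (κ * w₁ ^ (k + 1)) ≤ Fn ω₁} with hRi
  have hRim : MeasurableSet Ri := hT₁.inter (measurableSet_le measurable_const hFm)
  have hRiT : Ri ⊆ Ty R w₁ δ₁ := Set.inter_subset_left
  have hRiRich : Ri ⊆ Rich R w w₁ φ κ := by
    intro ω hω
    refine ⟨Ty_subset_G R w₁ δ₁ hω.1, le_trans hω.2 (measure_mono ?_)⟩
    intro τ hτ
    exact ⟨hτ.1, hWWall hτ.2⟩
  -- part P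
  have hP : MeasurableSet ((Ty R w₁ δ₁ ∩ W) \ Ri) := (hT₁.inter hW).diff hRim
  have hPvol : volume ((Ty R w₁ δ₁ ∩ W) \ Ri) ≤
      ENNReal.ofReal (2 ^ (k + 1) * κ) * volume (G R (w₁ / 2)) := by
    refine local_density (W := W) hP (measurableSet_G hR (w₁ / 2)) hw1 hκ.le ?_ ?_ ?_
    · intro ω hω
      exact hω.1.2
    · intro ω hω
      have h1 : ¬ (ENNReal.ofReal (κ * w₁ ^ (k + 1)) ≤ Fn ω) := fun h => hω.2 ⟨hω.1.1, h⟩
      exact (not_le.1 h1).le
    · intro ω τ hτ hω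
      exact mem_G_of_sh (Ty_subset_G R w₁ δ₁ hω.1.1) (by linarith)
  have hf2 : ∀ ω, Wf (Ty R w δ) φ ω ≤ ENNReal.ofReal (2 * δ) := fun ω =>
    (Wf_le_sec _ _ _).trans (volume_sec_Ty_le R w hδ0 ω.1)
  have hg2 : ∀ ω, Wf Ri φ ω ≤ ENNReal.ofReal (2 * δ₁) := by
    intro ω
    have hs : sec Ri ω.1 ⊆ sec (Ty R w₁ δ₁) ω.1 := fun a ha => hRiT ha
    exact (Wf_le_sec _ _ _).trans ((measure_mono hs).trans (volume_sec_Ty_le R w₁ hδ₁0 ω.1))
  have hgm : Measurable (Wf Ri φ) := measurable_Wf hRim φ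
  set W' : Set (Om k) := {ω | 0 < Wf Ri φ ω} with hW'def
  have hW' : MeasurableSet W' := measurableSet_lt measurable_const hgm
  have hZm : MeasurableSet (Ty R w δ ∩ W') := hT.inter hW'
  -- the bound for Z
  have hZvol : volume (Ty R w δ ∩ W') ≤
      ENNReal.ofReal (2 ^ (k + 1) * (8 ^ (k + 1) * κ)) * volume (G R (w / 2)) := by
    by_cases hall : ∀ ω ∈ Ty R w δ ∩ W',
        volume {τ : V k | ‖τ‖ ≤ w / 16 ∧ sh τ ω ∈ W'} ≤ ENNReal.ofReal (κ * w ^ (k + 1))
    · refine local_density (W := W') (w := w / 8) hZm (measurableSet_G hR (w / 2)) (by positivity)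
        (by positivity) Set.inter_subset_right ?_ ?_
      · intro ω hω
        have h1 := hall ω hω
        have e1 : w / 8 / 2 = w / 16 := by ring
        have e2 : 8 ^ (k + 1) * κ * (w / 8) ^ (k + 1) = κ * w ^ (k + 1) := by
          rw [div_pow]
          field_simp
        rw [e1, e2]
        exact h1
      · intro ω τ hτ hω
        exact mem_G_of_sh (Ty_subset_G R w δ hω.1) (by linarith)
    · exfalso
      push Not at hall
      obtain ⟨ω, hω, hlt⟩ := hall
      have hκ1 : κ ≤ 1 := by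
        have h1 : ENNReal.ofReal (κ * w ^ (k + 1)) <
            volume (Metric.closedBall (0 : V k) (w / 16)) := by
          refine lt_of_lt_of_le hlt (measure_mono ?_)
          intro τ hτ
          rw [mem_closedBall_zero_iff]
          exact hτ.1
        rw [Real.volume_pi_closedBall _ (by positivity), Fintype.card_fin,
          ENNReal.ofReal_lt_ofReal_iff (by positivity)] at h1
        have h2 : (2 * (w / 16)) ^ (k + 1) ≤ w ^ (k + 1) :=
          pow_le_pow_left₀ (by positivity) (by linarith) _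
        have h3 : κ * w ^ (k + 1) < 1 * w ^ (k + 1) := by linarith
        exact (lt_of_mul_lt_mul_right h3 (by positivity)).le
      have h2 := hclo R m w w₁ φ κ ω hm hw hww hφ hκ hκ1 hfill (Ty_subset_G R w δ hω.1) ?_
      · have h3 : Cb₀ ≤ Cb := le_max_left _ _
        linarith
      · refine hlt.le.trans (measure_mono ?_)
        intro τ hτ
        obtain ⟨a, h1, h2, h3⟩ := exists_of_Wf_pos hτ.2
        exact ⟨hτ.1, a, h2, h3.le, hRiRich h1⟩
  -- the integral
  have hsub : Ty R w₁ δ₁ ∩ W ⊆ ((Ty R w₁ δ₁ ∩ W) \ Ri) ∪ Ri := by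
    intro ω hω
    by_cases h : ω ∈ Ri
    · exact Or.inr h
    · exact Or.inl ⟨hω, h⟩
  have hI0 : ∫⁻ ω in Ty R w₁ δ₁, Wf (Ty R w δ) φ ω ≤
      ∫⁻ ω in Ty R w₁ δ₁ ∩ W, Wf (Ty R w δ) φ ω := by
    have hs : Ty R w₁ δ₁ ⊆ (Ty R w₁ δ₁ ∩ W) ∪ (Ty R w₁ δ₁ \ W) := by
      rw [Set.inter_union_sdiff]
    refine (lintegral_mono_set hs).trans ((lintegral_union_le _ _ _).trans ?_)
    have h0 : ∫⁻ ω in (Ty R w₁ δ₁ \ W), Wf (Ty R w δ) φ ω = ∫⁻ ω in (Ty R w₁ δ₁ \ W), 0 := by
      refine setLIntegral_congr_fun (hT₁.diff hW) ?_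
      intro ω hω
      have : ¬ (0 < Wf (Ty R w δ) φ ω) := hω.2
      exact le_antisymm (not_lt.1 this) zero_le
    rw [h0, lintegral_zero, add_zero]
  have hI1 : ∫⁻ ω in ((Ty R w₁ δ₁ ∩ W) \ Ri), Wf (Ty R w δ) φ ω ≤
      ENNReal.ofReal (2 * δ) * (ENNReal.ofReal (2 ^ (k + 1) * κ) * volume (G R (w₁ / 2))) := by
    calc ∫⁻ ω in ((Ty R w₁ δ₁ ∩ W) \ Ri), Wf (Ty R w δ) φ ω
        ≤ ∫⁻ _ω in ((Ty R w₁ δ₁ ∩ W) \ Ri), ENNReal.ofReal (2 * δ) := lintegral_mono hf2
      _ = ENNReal.ofReal (2 * δ) * volume ((Ty R w₁ δ₁ ∩ W) \ Ri) := setLIntegral_const _ _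
      _ ≤ _ := by gcongr
  have hI2 : ∫⁻ ω in Ri, Wf (Ty R w δ) φ ω ≤
      ENNReal.ofReal (2 * δ₁) *
        (ENNReal.ofReal (2 ^ (k + 1) * (8 ^ (k + 1) * κ)) * volume (G R (w / 2))) := by
    rw [lintegral_Wf_comm hT hRim φ]
    refine (lintegral_le_of_pos hgm hT hg2).trans ?_
    gcongr
    exact hZvol
  have hA : (2 * C₁ * 16 ^ (k + 1)) ≤ Cb := le_max_right _ _
  have hCb0 : 0 < Cb := lt_max_of_lt_left hCb₀
  have hc1 : ENNReal.ofReal (2 * δ) * ENNReal.ofReal (2 ^ (k + 1) * κ) ≤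
      ENNReal.ofReal (Cb * κ) * ENNReal.ofReal (m / w ^ 2) := by
    rw [← ENNReal.ofReal_mul (by positivity), ← ENNReal.ofReal_mul (by positivity)]
    apply ENNReal.ofReal_le_ofReal
    have h1 : (2 : ℝ) ^ (k + 1) ≤ 16 ^ (k + 1) := pow_le_pow_left₀ (by norm_num) (by norm_num) _
    have h2 : 2 * C₁ * 2 ^ (k + 1) ≤ Cb := le_trans (by gcongr) hA
    calc 2 * δ * (2 ^ (k + 1) * κ) = (2 * C₁ * 2 ^ (k + 1)) * κ * (m / w ^ 2) := by
          rw [hδ]; ring
      _ ≤ Cb * κ * (m / w ^ 2) := by gcongr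
  have hc2 : ENNReal.ofReal (2 * δ₁) * ENNReal.ofReal (2 ^ (k + 1) * (8 ^ (k + 1) * κ)) ≤
      ENNReal.ofReal (Cb * κ) * ENNReal.ofReal (m / w₁ ^ 2) := by
    rw [← ENNReal.ofReal_mul (by positivity), ← ENNReal.ofReal_mul (by positivity)]
    apply ENNReal.ofReal_le_ofReal
    have h1 : (2 : ℝ) ^ (k + 1) * 8 ^ (k + 1) = 16 ^ (k + 1) := by
      rw [← mul_pow]; norm_num
    calc 2 * δ₁ * (2 ^ (k + 1) * (8 ^ (k + 1) * κ))
        = (2 * C₁ * (2 ^ (k + 1) * 8 ^ (k + 1))) * κ * (m / w₁ ^ 2) := by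
          rw [hδ₁]; ring
      _ ≤ Cb * κ * (m / w₁ ^ 2) := by rw [h1]; gcongr
  calc ∫⁻ ω in Ty R w₁ δ₁, Wf (Ty R w δ) φ ω
      ≤ ∫⁻ ω in Ty R w₁ δ₁ ∩ W, Wf (Ty R w δ) φ ω := hI0
    _ ≤ (∫⁻ ω in ((Ty R w₁ δ₁ ∩ W) \ Ri), Wf (Ty R w δ) φ ω) + (∫⁻ ω in Ri, Wf (Ty R w δ) φ ω) :=
        (lintegral_mono_set hsub).trans (lintegral_union_le _ _ _)
    _ ≤ ENNReal.ofReal (2 * δ) * (ENNReal.ofReal (2 ^ (k + 1) * κ) * volume (G R (w₁ / 2))) +
        ENNReal.ofReal (2 * δ₁) *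
          (ENNReal.ofReal (2 ^ (k + 1) * (8 ^ (k + 1) * κ)) * volume (G R (w / 2))) :=
        add_le_add hI1 hI2
    _ = (ENNReal.ofReal (2 * δ) * ENNReal.ofReal (2 ^ (k + 1) * κ)) * volume (G R (w₁ / 2)) +
        (ENNReal.ofReal (2 * δ₁) * ENNReal.ofReal (2 ^ (k + 1) * (8 ^ (k + 1) * κ))) *
          volume (G R (w / 2)) := by rw [mul_assoc, mul_assoc]
    _ ≤ (ENNReal.ofReal (Cb * κ) * ENNReal.ofReal (m / w ^ 2)) * volume (G R (w₁ / 2)) +
        (ENNReal.ofReal (Cb * κ) * ENNReal.ofReal (m / w₁ ^ 2)) * volume (G R (w / 2)) := by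
        gcongr
    _ = ENNReal.ofReal (Cb * κ) * (ENNReal.ofReal (m / w ^ 2) * volume (G R (w₁ / 2)) +
          ENNReal.ofReal (m / w₁ ^ 2) * volume (G R (w / 2))) := by ring

end Pool.Agent.Lib.BeerLin
end

section

/-!
# C5b: the two scale estimate
-/

set_option autoImplicit false

namespace Pool.Agent.Lib.BeerLin

open Set MeasureTheory Topology
open scoped ENNReal
open Pool.Agent.Lib.BeerIndex

variable {k : ℕ}

/-- **Two scale estimate.**

Proof. Let `x = w/w₁ ∈ (0, 1]`, `κ₁ = x^(1/4)`, `φ₀ = κ₁ m/w²`, `Cb, n` from `band_bound`, and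
`κ i = (2 Cb x^(1/4) 2^(-i))^(1/n)`; then
`κ i ^ n * √(w₁/w) * (w² (φ₀ 2^i)/m) = 2 Cb x^(1/4) 2^(-i) x^(-1/2) x^(1/4) 2^i = 2 Cb > Cb`. By
`dyadic_angle` and `band_bound` the integral is at most
`2 x^(1/4) (m/w²) volume (Ty R w₁ _) + ∑ i, Cb κ i (…)`, `Ty ⊆ G R w₁ ⊆ G R (w₁/2)`, and
`∑ i, κ i = (2 Cb)^(1/n) x^(1/(4n)) ∑ i, 2^(-i/n)`. Take `c = 1/(4 n)`. -/
theorem two_scales (hk : 1 ≤ k) (C₁ : ℝ) (hC₁ : 0 < C₁) : ∃ C c : ℝ, 0 < C ∧ 0 < c ∧
    ∀ (R : Set (X k)) (m w w₁ : ℝ), IsClosed R → Fills R (ENNReal.ofReal m) → 0 < m →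
      0 < w → w ≤ w₁ →
      ∫⁻ p, volume (sec (Ty R w (C₁ * m / w ^ 2)) p) *
          volume (sec (Ty R w₁ (C₁ * m / w₁ ^ 2)) p) ≤
        ENNReal.ofReal (C * (w / w₁) ^ c) *
          (ENNReal.ofReal (m / w ^ 2) * volume (G R (w₁ / 2)) +
            ENNReal.ofReal (m / w₁ ^ 2) * volume (G R (w / 2))) := by
  obtain ⟨Cb, n, hCb, hn, H⟩ := band_bound hk C₁ hC₁
  have hn0 : (0 : ℝ) < n := by exact_mod_cast hn
  have hnne : n ≠ 0 := by omega
  set r : ℝ := (1 / 2 : ℝ) ^ (1 / (n : ℝ)) with hr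
  have hr0 : 0 < r := by positivity
  have hr1 : r < 1 := Real.rpow_lt_one (by norm_num) (by norm_num) (by positivity)
  set B : ℝ := (2 * Cb) ^ (1 / (n : ℝ)) with hB
  have hB0 : 0 < B := by positivity
  refine ⟨2 + Cb * B * (1 - r)⁻¹, 1 / (4 * (n : ℝ)), ?_, by positivity, ?_⟩
  · have : 0 < (1 - r)⁻¹ := inv_pos.2 (by linarith)
    positivity
  intro R m w w₁ hR hF hm hw hww
  have hw₁ : 0 < w₁ := hw.trans_le hww
  set x : ℝ := w / w₁ with hx
  have hx0 : 0 < x := by positivity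
  have hx1 : x ≤ 1 := by
    rw [hx, div_le_one hw₁]
    exact hww
  set s : ℝ := x ^ (1 / 4 : ℝ) with hs
  have hs0 : 0 < s := by positivity
  set y : ℝ := x ^ (1 / (4 * (n : ℝ))) with hy
  have hy0 : 0 < y := by positivity
  have hyn : y ^ n = s := by
    rw [hy, hs, ← Real.rpow_natCast, ← Real.rpow_mul hx0.le]
    congr 1
    field_simp
  have hsy : s ≤ y := by
    rw [hs, hy]
    refine Real.rpow_le_rpow_of_exponent_ge hx0 hx1 ?_
    have h1 : (1 : ℝ) ≤ n := by exact_mod_cast hn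
    rw [div_le_div_iff₀ (by positivity) (by norm_num)]
    linarith
  have hBn : B ^ n = 2 * Cb := by
    rw [hB, ← Real.rpow_natCast, ← Real.rpow_mul (by positivity), one_div,
      inv_mul_cancel₀ hn0.ne', Real.rpow_one]
  have hrn : r ^ n = 1 / 2 := by
    rw [hr, ← Real.rpow_natCast, ← Real.rpow_mul (by positivity), one_div (n : ℝ),
      inv_mul_cancel₀ hn0.ne', Real.rpow_one]
  have hs2 : √(w₁ / w) = (s ^ 2)⁻¹ := by
    have h1 : w₁ / w = x⁻¹ := by rw [hx, inv_div]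
    rw [h1, Real.sqrt_inv]
    congr 1
    rw [Real.sqrt_eq_rpow, hs, ← Real.rpow_natCast, ← Real.rpow_mul hx0.le]
    norm_num
  set φ₀ : ℝ := s * (m / w ^ 2) with hφ₀
  have hφ₀0 : 0 < φ₀ := by positivity
  set A : ℝ≥0∞ := ENNReal.ofReal (m / w ^ 2) * volume (G R (w₁ / 2)) +
    ENNReal.ofReal (m / w₁ ^ 2) * volume (G R (w / 2)) with hA
  set κ : ℕ → ℝ := fun i => B * y * r ^ i with hκ
  have hκ0 : ∀ i, 0 < κ i := fun i => by
    simp only [hκ]
    positivity
  have hterm : ∀ i : ℕ, ∫⁻ ω in Ty R w₁ (C₁ * m / w₁ ^ 2), Wf (Ty R w (C₁ * m / w ^ 2)) (φ₀ * 2 ^ i) ω ≤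
      ENNReal.ofReal (Cb * κ i) * A := by
    intro i
    refine H R m w w₁ (φ₀ * 2 ^ i) (κ i) hR hF hm hw hww (by positivity) (hκ0 i) ?_
    have h1 : κ i ^ n = 2 * Cb * s * (1 / 2) ^ i := by
      simp only [hκ]
      rw [mul_pow, mul_pow, hBn, hyn, ← pow_mul, mul_comm i n, pow_mul, hrn]
    have h2 : κ i ^ n * √(w₁ / w) * (w ^ 2 * (φ₀ * 2 ^ i) / m) = 2 * Cb := by
      rw [h1, hs2, hφ₀]
      have h3 : ((1 : ℝ) / 2) ^ i * 2 ^ i = 1 := by
        rw [← mul_pow]
        norm_num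
      have h4 : 2 * Cb * s * (1 / 2) ^ i * (s ^ 2)⁻¹ * (w ^ 2 * (s * (m / w ^ 2) * 2 ^ i) / m) =
          2 * Cb * (((1 : ℝ) / 2) ^ i * 2 ^ i) * (s ^ 2 * (s ^ 2)⁻¹) * ((w ^ 2 / w ^ 2) * (m / m)) := by
        ring
      rw [h4, h3, mul_inv_cancel₀ (by positivity), div_self (by positivity), div_self hm.ne']
      ring
    rw [h2]
    linarith
  have hTm : MeasurableSet (Ty R w (C₁ * m / w ^ 2)) := measurableSet_Ty hR _ _
  have hT₁m : MeasurableSet (Ty R w₁ (C₁ * m / w₁ ^ 2)) := measurableSet_Ty hR _ _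
  have hfirst : ENNReal.ofReal (2 * φ₀) * volume (Ty R w₁ (C₁ * m / w₁ ^ 2)) ≤
      ENNReal.ofReal (2 * y) * A := by
    have h1 : volume (Ty R w₁ (C₁ * m / w₁ ^ 2)) ≤ volume (G R (w₁ / 2)) :=
      measure_mono (diff_subset.trans (G_anti R (by linarith)))
    calc ENNReal.ofReal (2 * φ₀) * volume (Ty R w₁ (C₁ * m / w₁ ^ 2))
        ≤ ENNReal.ofReal (2 * y * (m / w ^ 2)) * volume (G R (w₁ / 2)) := by
          refine mul_le_mul' (ENNReal.ofReal_le_ofReal ?_) h1
          rw [hφ₀]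
          have : 0 ≤ m / w ^ 2 := by positivity
          nlinarith
      _ = ENNReal.ofReal (2 * y) * (ENNReal.ofReal (m / w ^ 2) * volume (G R (w₁ / 2))) := by
          rw [ENNReal.ofReal_mul (by positivity), mul_assoc]
      _ ≤ ENNReal.ofReal (2 * y) * A := by
          refine mul_le_mul' le_rfl ?_
          rw [hA]
          exact le_self_add
  have hgeo : HasSum (fun i : ℕ => Cb * κ i) (Cb * (B * y * (1 - r)⁻¹)) := by
    simp only [hκ]
    exact ((hasSum_geometric_of_lt_one hr0.le hr1).mul_left (B * y)).mul_left Cb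
  have hsum : ∑' i : ℕ, ENNReal.ofReal (Cb * κ i) * A =
      ENNReal.ofReal (Cb * (B * y * (1 - r)⁻¹)) * A := by
    rw [ENNReal.tsum_mul_right, ← ENNReal.ofReal_tsum_of_nonneg (fun i => ?_) hgeo.summable,
      hgeo.tsum_eq]
    have := hκ0 i
    positivity
  calc ∫⁻ p, volume (sec (Ty R w (C₁ * m / w ^ 2)) p) *
          volume (sec (Ty R w₁ (C₁ * m / w₁ ^ 2)) p)
      ≤ ENNReal.ofReal (2 * φ₀) * volume (Ty R w₁ (C₁ * m / w₁ ^ 2)) +
        ∑' i : ℕ, ∫⁻ ω in Ty R w₁ (C₁ * m / w₁ ^ 2), Wf (Ty R w (C₁ * m / w ^ 2)) (φ₀ * 2 ^ i) ω :=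
        dyadic_angle hTm hT₁m hφ₀0
    _ ≤ ENNReal.ofReal (2 * y) * A + ∑' i : ℕ, ENNReal.ofReal (Cb * κ i) * A :=
        add_le_add hfirst (ENNReal.tsum_le_tsum hterm)
    _ = ENNReal.ofReal ((2 + Cb * B * (1 - r)⁻¹) * y) * A := by
        have h1r : 0 < (1 - r)⁻¹ := inv_pos.2 (by linarith)
        rw [hsum, ← add_mul, ← ENNReal.ofReal_add (by positivity) (by positivity)]
        congr 2
        ring

end Pool.Agent.Lib.BeerLin
end

section

/-!
# C6a: summation over the scales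
-/

set_option autoImplicit false

namespace Pool.Agent.Lib.BeerLin

open Set MeasureTheory Topology
open scoped ENNReal
open Pool.Agent.Lib.BeerIndex

variable {k : ℕ}

/-- For every width the plates have total measure at most `2 volume P`. -/
theorem volume_G_le_P {R : Set (X k)} {P : Set (V k × V k)} (hP : MeasurableSet P) {w : ℝ}
    (h : ∀ ω ∈ G R w, ω.1 ∈ P) : volume (G R w) ≤ 2 * volume P := by
  have _ := hP
  have h1 : G R w ⊆ P ×ˢ Icc (-1 : ℝ) 1 := by
    intro ω hω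
    refine ⟨h ω hω, ?_⟩
    exact abs_le.1 hω.1
  calc volume (G R w) ≤ volume (P ×ˢ Icc (-1 : ℝ) 1) := measure_mono h1
    _ = volume P * volume (Icc (-1 : ℝ) 1) := by
        rw [Measure.volume_eq_prod, Measure.prod_prod]
    _ = 2 * volume P := by
        rw [Real.volume_Icc, mul_comm]
        congr 1
        norm_num

/-- Cauchy-Schwarz for functions supported on `P`. -/
theorem sq_lintegral_le_of_support {P : Set (V k × V k)} (hP : MeasurableSet P)
    {f : V k × V k → ℝ≥0∞} (hf : Measurable f) (hfP : ∀ p ∉ P, f p = 0) :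
    (∫⁻ p, f p) ^ 2 ≤ volume P * ∫⁻ p, f p * f p := by
  have h1 := ENNReal.lintegral_mul_le_Lp_mul_Lq volume Real.HolderConjugate.two_two
    hf.aemeasurable ((measurable_const (a := (1 : ℝ≥0∞))).indicator hP).aemeasurable
  have h2 : ∀ p, (f * P.indicator fun _ => (1 : ℝ≥0∞)) p = f p := by
    intro p
    rw [Pi.mul_apply]
    by_cases hp : p ∈ P
    · rw [indicator_of_mem hp, mul_one]
    · rw [indicator_of_notMem hp, mul_zero, hfP p hp]
  have h3 : ∀ p, (P.indicator (fun _ => (1 : ℝ≥0∞)) p) ^ (2 : ℝ) = P.indicator 1 p := by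
    intro p
    by_cases hp : p ∈ P
    · rw [indicator_of_mem hp, indicator_of_mem hp, ENNReal.one_rpow]; rfl
    · rw [indicator_of_notMem hp, indicator_of_notMem hp,
        ENNReal.zero_rpow_of_pos (by norm_num)]
  have h4 : ∀ p, f p ^ (2 : ℝ) = f p * f p := by
    intro p
    rw [ENNReal.rpow_two, sq]
  simp only [h2, h3, h4, lintegral_indicator_one hP] at h1
  calc (∫⁻ p, f p) ^ 2
      ≤ ((∫⁻ p, f p * f p) ^ (1 / 2 : ℝ) * volume P ^ (1 / 2 : ℝ)) ^ 2 :=
        pow_le_pow_left₀ zero_le h1 2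
    _ = volume P * ∫⁻ p, f p * f p := by
        have hsq : ∀ x : ℝ≥0∞, (x ^ (1 / 2 : ℝ)) ^ 2 = x := by
          intro x
          rw [← ENNReal.rpow_two, ← ENNReal.rpow_mul]
          norm_num
        rw [mul_pow, hsq, hsq, mul_comm]

private theorem C6a_geom {θ : ℝ} (h0 : 0 ≤ θ) (h1 : θ < 1) (n : ℕ) :
    ∑ l ∈ Finset.range n, θ ^ l ≤ 1 / (1 - θ) := by
  have h2 := (summable_geometric_of_lt_one h0 h1).sum_le_tsum (Finset.range n)
    (fun l _ => pow_nonneg h0 l)
  rw [tsum_geometric_of_lt_one h0 h1] at h2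
  rw [one_div]
  exact h2

private theorem C6a_geom2 {θ : ℝ} (h0 : 0 ≤ θ) (h1 : θ < 1) (i J : ℕ) :
    ∑ j ∈ Finset.range J, θ ^ ((i - j) + (j - i)) ≤ 2 / (1 - θ) := by
  have hle : ∑ j ∈ Finset.range J, θ ^ ((i - j) + (j - i)) ≤
      ∑ j ∈ Finset.range (i + 1 + J), θ ^ ((i - j) + (j - i)) := by
    apply Finset.sum_le_sum_of_subset_of_nonneg
    · intro j hj
      rw [Finset.mem_range] at hj ⊢
      omega
    · intro j _ _
      exact pow_nonneg h0 _
  refine hle.trans ?_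
  rw [Finset.sum_range_add]
  have e1 : ∑ j ∈ Finset.range (i + 1), θ ^ ((i - j) + (j - i)) =
      ∑ l ∈ Finset.range (i + 1), θ ^ l := by
    rw [← Finset.sum_range_reflect (fun l => θ ^ l) (i + 1)]
    refine Finset.sum_congr rfl fun j hj => ?_
    rw [Finset.mem_range] at hj
    congr 1
    omega
  have e2 : ∑ x ∈ Finset.range J, θ ^ ((i - (i + 1 + x)) + ((i + 1 + x) - i)) ≤
      ∑ l ∈ Finset.range J, θ ^ l := by
    apply Finset.sum_le_sum
    intro x _
    have e3 : (i - (i + 1 + x)) + ((i + 1 + x) - i) = x + 1 := by omega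
    rw [e3, pow_succ]
    exact mul_le_of_le_one_right (pow_nonneg h0 _) h1.le
  rw [e1]
  have e4 := C6a_geom h0 h1 (i + 1)
  have e5 := C6a_geom h0 h1 J
  have e6 : (2 : ℝ) / (1 - θ) = 1 / (1 - θ) + 1 / (1 - θ) := by ring
  linarith

/-- the combinatorial part of the summation -/
private theorem C6a_abs {C C' θ : ℝ} (hC : 0 < C) (hC' : 0 < C') (h0 : 0 ≤ θ) (h1 : θ < 1) (J : ℕ)
    (A B B' : ℕ → ℝ≥0∞) (p₀ F2 : ℝ≥0∞) (hp₀ : p₀ ≠ ∞) (hB0 : B 0 ≤ 2 * p₀) (hB'0 : B' 0 ≤ 2 * p₀)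
    (hB's : ∀ j, B' (j + 1) = 4 * B j) (hBs : ∀ j, B (j + 1) ≤ 4 * ENNReal.ofReal C * A j)
    (hA : ∀ j, A j ≠ ∞)
    (hCS : (∑ j ∈ Finset.range J, A j) ^ 2 ≤ p₀ * F2)
    (hF2 : F2 ≤ ∑ i ∈ Finset.range J, ∑ j ∈ Finset.range J,
      ENNReal.ofReal (C' * θ ^ ((i - j) + (j - i))) * (B' i + B' j)) :
    ∑ j ∈ Finset.range J, B j ≤
      ENNReal.ofReal (2 + 4 * C * (4 * C' / (1 - θ) * (10 + 16 * C) + 1)) * p₀ := by
  have h1θ : 0 < 1 - θ := by linarith
  set D : ℝ := 4 * C' / (1 - θ) with hD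
  have hD0 : 0 < D := by positivity
  -- step (a)
  have ha : ∀ i, ∑ j ∈ Finset.range J, ENNReal.ofReal (C' * θ ^ ((i - j) + (j - i))) ≤
      ENNReal.ofReal (D / 2) := by
    intro i
    rw [← ENNReal.ofReal_sum_of_nonneg (fun j _ => mul_nonneg hC'.le (pow_nonneg h0 _)),
      ← Finset.mul_sum]
    apply ENNReal.ofReal_le_ofReal
    have h2 := mul_le_mul_of_nonneg_left (C6a_geom2 h0 h1 i J) hC'.le
    refine h2.trans (le_of_eq ?_)
    rw [hD]
    ring
  -- step (b)
  have hb : F2 ≤ ENNReal.ofReal D * ∑ j ∈ Finset.range J, B' j := by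
    refine hF2.trans ?_
    have e1 : ∑ i ∈ Finset.range J, ∑ j ∈ Finset.range J,
        ENNReal.ofReal (C' * θ ^ ((i - j) + (j - i))) * (B' i + B' j) =
        (∑ i ∈ Finset.range J, (∑ j ∈ Finset.range J,
          ENNReal.ofReal (C' * θ ^ ((i - j) + (j - i)))) * B' i) +
        (∑ j ∈ Finset.range J, (∑ i ∈ Finset.range J,
          ENNReal.ofReal (C' * θ ^ ((j - i) + (i - j)))) * B' j) := by
      have e2 : ∀ i j, ENNReal.ofReal (C' * θ ^ ((i - j) + (j - i))) * (B' i + B' j) =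
          ENNReal.ofReal (C' * θ ^ ((i - j) + (j - i))) * B' i +
          ENNReal.ofReal (C' * θ ^ ((j - i) + (i - j))) * B' j := by
        intro i j
        rw [mul_add, add_comm (j - i) (i - j)]
      simp only [e2, Finset.sum_add_distrib]
      congr 1
      · refine Finset.sum_congr rfl fun i _ => ?_
        rw [Finset.sum_mul]
      · rw [Finset.sum_comm]
        refine Finset.sum_congr rfl fun j _ => ?_
        rw [Finset.sum_mul]
    rw [e1]
    have e3 : ∑ i ∈ Finset.range J, (∑ j ∈ Finset.range J,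
          ENNReal.ofReal (C' * θ ^ ((i - j) + (j - i)))) * B' i ≤
        ENNReal.ofReal (D / 2) * ∑ j ∈ Finset.range J, B' j := by
      rw [Finset.mul_sum]
      exact Finset.sum_le_sum fun i _ => mul_le_mul_left (ha i) _
    have e4 : ENNReal.ofReal D = ENNReal.ofReal (D / 2) + ENNReal.ofReal (D / 2) := by
      rw [← ENNReal.ofReal_add (by positivity) (by positivity)]
      congr 1
      ring
    rw [e4, add_mul]
    exact add_le_add e3 e3
  -- step (c)
  have hc : ∑ j ∈ Finset.range J, B' j ≤ 2 * p₀ + 4 * ∑ j ∈ Finset.range J, B j := by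
    cases J with
    | zero => simp
    | succ J =>
      rw [Finset.sum_range_succ' B', add_comm, Finset.sum_congr rfl fun j _ => hB's j,
        ← Finset.mul_sum]
      refine add_le_add hB'0 (mul_le_mul_right ?_ 4)
      rw [Finset.sum_range_succ]
      exact le_self_add
  -- step (d)
  have hd : ∑ j ∈ Finset.range J, B j ≤
      2 * p₀ + 4 * ENNReal.ofReal C * ∑ j ∈ Finset.range J, A j := by
    cases J with
    | zero => simp
    | succ J =>
      rw [Finset.sum_range_succ' B, add_comm]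
      refine add_le_add hB0 ?_
      calc ∑ j ∈ Finset.range J, B (j + 1)
          ≤ ∑ j ∈ Finset.range J, 4 * ENNReal.ofReal C * A j := Finset.sum_le_sum fun j _ => hBs j
        _ = 4 * ENNReal.ofReal C * ∑ j ∈ Finset.range J, A j := by rw [Finset.mul_sum]
        _ ≤ _ := by
          refine mul_le_mul_right ?_ _
          rw [Finset.sum_range_succ]
          exact le_self_add
  -- conversion to reals
  set F : ℝ≥0∞ := ∑ j ∈ Finset.range J, A j with hF
  have hFfin : F ≠ ∞ := ENNReal.sum_ne_top.2 fun j _ => hA j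
  obtain ⟨f, hf0, hfF⟩ : ∃ f : ℝ, 0 ≤ f ∧ F = ENNReal.ofReal f :=
    ⟨F.toReal, ENNReal.toReal_nonneg, (ENNReal.ofReal_toReal hFfin).symm⟩
  obtain ⟨p, hp0, hpp⟩ : ∃ p : ℝ, 0 ≤ p ∧ p₀ = ENNReal.ofReal p :=
    ⟨p₀.toReal, ENNReal.toReal_nonneg, (ENNReal.ofReal_toReal hp₀).symm⟩
  have h4 : (4 : ℝ≥0∞) = ENNReal.ofReal 4 := by norm_num
  have h2 : (2 : ℝ≥0∞) = ENNReal.ofReal 2 := by norm_num
  have hd' : ∑ j ∈ Finset.range J, B j ≤ ENNReal.ofReal (2 * p + 4 * C * f) := by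
    refine hd.trans (le_of_eq ?_)
    rw [hfF, hpp, h4, h2, ← ENNReal.ofReal_mul (by norm_num), ← ENNReal.ofReal_mul (by norm_num),
      ← ENNReal.ofReal_mul (by positivity), ← ENNReal.ofReal_add (by positivity) (by positivity)]
  have hF2' : F2 ≤ ENNReal.ofReal (D * (2 * p + 4 * (2 * p + 4 * C * f))) := by
    calc F2 ≤ ENNReal.ofReal D * ∑ j ∈ Finset.range J, B' j := hb
      _ ≤ ENNReal.ofReal D * (2 * p₀ + 4 * ∑ j ∈ Finset.range J, B j) :=
          mul_le_mul_right hc _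
      _ ≤ ENNReal.ofReal D * (2 * p₀ + 4 * ENNReal.ofReal (2 * p + 4 * C * f)) := by
          gcongr
      _ = _ := by
          rw [hpp, h4, h2, ← ENNReal.ofReal_mul (by norm_num), ← ENNReal.ofReal_mul (by norm_num),
            ← ENNReal.ofReal_add (by positivity) (by positivity), ← ENNReal.ofReal_mul hD0.le]
  have hreal : f ^ 2 ≤ p * (D * (2 * p + 4 * (2 * p + 4 * C * f))) := by
    have h5 : ENNReal.ofReal (f ^ 2) ≤
        ENNReal.ofReal (p * (D * (2 * p + 4 * (2 * p + 4 * C * f)))) := by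
      calc ENNReal.ofReal (f ^ 2) = F ^ 2 := by rw [hfF, ENNReal.ofReal_pow hf0]
        _ ≤ p₀ * F2 := hCS
        _ ≤ p₀ * ENNReal.ofReal (D * (2 * p + 4 * (2 * p + 4 * C * f))) :=
            mul_le_mul_right hF2' _
        _ = _ := by rw [hpp, ← ENNReal.ofReal_mul hp0]
    exact (ENNReal.ofReal_le_ofReal_iff (by positivity)).1 h5
  set K : ℝ := D * (10 + 16 * C) with hK
  have hK0 : 0 < K := by positivity
  have hfle : f ≤ (K + 1) * p := by
    by_contra hcon
    push Not at hcon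
    have h6 : 0 ≤ (K + 1) * p := by positivity
    have h7 : 0 < f := lt_of_le_of_lt h6 hcon
    have h8 : (K + 1) * p * f < f * f := mul_lt_mul_of_pos_right hcon h7
    have h9 : D * (2 * p + 4 * (2 * p + 4 * C * f)) ≤ K * (p + f) := by
      rw [hK]
      have : D * (10 + 16 * C) * (p + f) - D * (2 * p + 4 * (2 * p + 4 * C * f)) =
          D * (16 * C * p + 10 * f) := by ring
      have h10 : 0 ≤ D * (16 * C * p + 10 * f) := by positivity
      linarith
    have h10 : p * (D * (2 * p + 4 * (2 * p + 4 * C * f))) ≤ p * (K * (p + f)) :=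
      mul_le_mul_of_nonneg_left h9 hp0
    have h11 : p * (K * p) ≤ p * f := by
      apply mul_le_mul_of_nonneg_left _ hp0
      nlinarith
    nlinarith
  refine hd'.trans ?_
  rw [hpp, ← ENNReal.ofReal_mul (by positivity)]
  apply ENNReal.ofReal_le_ofReal
  have h12 : 4 * C * f ≤ 4 * C * ((K + 1) * p) := mul_le_mul_of_nonneg_left hfle (by positivity)
  calc 2 * p + 4 * C * f ≤ 2 * p + 4 * C * ((K + 1) * p) := by linarith
    _ = (2 + 4 * C * (K + 1)) * p := by ring

/-- **Summation over the scales** `w_j = √m 2^j`.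

Proof. Let `C, C₁` be as in `volume_G_le`, `C', c` as in `two_scales` (for this `C₁`),
`T j = Ty R (w j) (C₁ m/(w j)²)`, `A j = 4^j volume (T j)`, `B j = 4^j volume (G R (w j))`,
`B' j = 4^j volume (G R (w j/2))`, `p₀ = volume P`. All are finite (`volume_G_le_P`). We have `A j ≤ B j`,
`B 0 ≤ 2 p₀`, `B' 0 ≤ 2 p₀`, `B' (j+1) = 4 B j`, and `B (j+1) ≤ 4 C A j` (`volume_G_le`). Let
`f p = ∑ j < J, 4^j volume (sec (T j) p)`, `F = ∫⁻ f = ∑ j < J, A j < ∞`. Expanding the square and using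
`two_scales` for `j ≤ j₁` (`m/(w j)² = 4^(-j)`, `w j/w j₁ = 2^(j - j₁)`):
`∫⁻ f² ≤ 2 ∑_{j ≤ j₁ < J} C' 2^(-c (j₁ - j)) (B' j₁ + B' j) ≤ C'' ∑ j < J, B' j
≤ C'' (2 p₀ + 4 ∑ j < J, B j) ≤ C₃ (p₀ + F)`. With `sq_lintegral_le_of_support`
(`f = 0` off `P`): `F² ≤ C₃ p₀ (p₀ + F)`, hence `F ≤ (C₃ + 1) p₀`. Finally
`∑ j < J, B j ≤ 2 p₀ + 4 C F`. -/
theorem sum_scales (hk : 1 ≤ k) : ∃ C : ℝ, 0 < C ∧
    ∀ (R : Set (X k)) (m : ℝ) (P : Set (V k × V k)) (J : ℕ), IsClosed R →
      Fills R (ENNReal.ofReal m) → 0 < m → MeasurableSet P → volume P ≠ ∞ →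
      (∀ w, 0 < w → ∀ ω ∈ G R w, ω.1 ∈ P) →
      ∑ j ∈ Finset.range J, ENNReal.ofReal (4 ^ j) * volume (G R (√m * 2 ^ j)) ≤
        ENNReal.ofReal C * volume P := by
  obtain ⟨C, C₁, hC, hC₁, hGle⟩ := volume_G_le hk
  obtain ⟨C', c, hC', hc, htwo⟩ := two_scales hk C₁ hC₁
  set θ : ℝ := (1 / 2 : ℝ) ^ c with hθ
  have hθ0 : 0 < θ := Real.rpow_pos_of_pos (by norm_num) c
  have hθ1 : θ < 1 := Real.rpow_lt_one (by norm_num) (by norm_num) hc
  have h1θ : 0 < 1 - θ := by linarith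
  refine ⟨2 + 4 * C * (4 * C' / (1 - θ) * (10 + 16 * C) + 1), by positivity, ?_⟩
  intro R m P J hR hfill hm hP hPfin hGP
  set w : ℕ → ℝ := fun j => √m * 2 ^ j with hw
  have hsm : 0 < √m := Real.sqrt_pos.2 hm
  have hw0 : ∀ j, 0 < w j := fun j => by simp only [hw]; positivity
  have hwsq : ∀ j, w j ^ 2 = m * 4 ^ j := by
    intro j
    simp only [hw]
    rw [mul_pow, Real.sq_sqrt hm.le, ← pow_mul, mul_comm j 2, pow_mul]
    norm_num
  have hmw : ∀ j, m / w j ^ 2 = ((4 : ℝ) ^ j)⁻¹ := by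
    intro j
    rw [hwsq]
    field_simp
  have hwh : ∀ j, w (j + 1) / 2 = w j := by
    intro j
    simp only [hw]
    rw [pow_succ]
    ring
  set T : ℕ → Set (Om k) := fun j => Ty R (w j) (C₁ * m / w j ^ 2) with hT
  have hTm : ∀ j, MeasurableSet (T j) := fun j => measurableSet_Ty hR _ _
  have hTG : ∀ j, T j ⊆ G R (w j) := fun j => sdiff_subset
  have hG2 : ∀ v, 0 < v → volume (G R v) ≤ 2 * volume P := fun v hv =>
    volume_G_le_P hP (hGP v hv)
  have hTfin : ∀ j, volume (T j) ≠ ∞ := by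
    intro j
    refine ne_top_of_le_ne_top ?_ ((measure_mono (hTG j)).trans (hG2 _ (hw0 j)))
    exact ENNReal.mul_ne_top (by norm_num) hPfin
  have h4j : ∀ j : ℕ, ENNReal.ofReal ((4 : ℝ) ^ (j + 1)) = 4 * ENNReal.ofReal ((4 : ℝ) ^ j) := by
    intro j
    have h4 : (4 : ℝ≥0∞) = ENNReal.ofReal 4 := by norm_num
    rw [h4, ← ENNReal.ofReal_mul (by norm_num), pow_succ, mul_comm]
  set f : V k × V k → ℝ≥0∞ := fun p =>
    ∑ j ∈ Finset.range J, ENNReal.ofReal (4 ^ j) * volume (sec (T j) p) with hf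
  have hsecm : ∀ j, Measurable fun p : V k × V k => volume (sec (T j) p) := fun j =>
    measurable_measure_prodMk_left (hTm j)
  have hfm : Measurable f := by
    simp only [hf]
    exact Finset.measurable_sum _ fun j _ => (hsecm j).const_mul _
  have hint : ∀ j, ∫⁻ p : V k × V k, volume (sec (T j) p) = volume (T j) := by
    intro j
    rw [Measure.volume_eq_prod (V k × V k) ℝ, Measure.prod_apply (hTm j)]
    rfl
  have hFint : ∫⁻ p, f p = ∑ j ∈ Finset.range J, ENNReal.ofReal (4 ^ j) * volume (T j) := by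
    simp only [hf]
    rw [lintegral_finsetSum _ fun j _ => (hsecm j).const_mul _]
    refine Finset.sum_congr rfl fun j _ => ?_
    rw [lintegral_const_mul _ (hsecm j), hint j]
  have hfP : ∀ p ∉ P, f p = 0 := by
    intro p hp
    simp only [hf]
    apply Finset.sum_eq_zero
    intro j _
    have h1 : sec (T j) p = ∅ := by
      ext a
      simp only [mem_empty_iff_false, iff_false]
      intro ha
      exact hp (hGP (w j) (hw0 j) (p, a) (hTG j ha))
    rw [h1, measure_empty, mul_zero]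
  have hCS := sq_lintegral_le_of_support hP hfm hfP
  rw [hFint] at hCS
  have hcross : ∀ i j, i ≤ j →
      ENNReal.ofReal (4 ^ i) * ENNReal.ofReal (4 ^ j) *
        ∫⁻ p : V k × V k, volume (sec (T i) p) * volume (sec (T j) p) ≤
      ENNReal.ofReal (C' * θ ^ (j - i)) *
        (ENNReal.ofReal (4 ^ i) * volume (G R (w i / 2)) +
          ENNReal.ofReal (4 ^ j) * volume (G R (w j / 2))) := by
    intro i j hij
    have hwij : w i ≤ w j := by
      simp only [hw]
      exact mul_le_mul_of_nonneg_left (pow_le_pow_right₀ (by norm_num) hij) hsm.le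
    have h1 := htwo R m (w i) (w j) hR hfill hm (hw0 i) hwij
    have h2 : (w i / w j) ^ c = θ ^ (j - i) := by
      have e1 : w i / w j = (1 / 2 : ℝ) ^ (j - i) := by
        simp only [hw]
        have e2 : (2 : ℝ) ^ j = 2 ^ (j - i) * 2 ^ i := by
          rw [← pow_add]
          congr 1
          omega
        rw [e2, one_div, inv_pow]
        field_simp
      rw [e1, hθ, ← Real.rpow_natCast, ← Real.rpow_natCast, ← Real.rpow_mul (by norm_num),
        ← Real.rpow_mul (by norm_num), mul_comm]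
    rw [h2, hmw, hmw] at h1
    calc ENNReal.ofReal (4 ^ i) * ENNReal.ofReal (4 ^ j) *
          ∫⁻ p : V k × V k, volume (sec (T i) p) * volume (sec (T j) p)
        ≤ ENNReal.ofReal (4 ^ i) * ENNReal.ofReal (4 ^ j) *
          (ENNReal.ofReal (C' * θ ^ (j - i)) *
            (ENNReal.ofReal ((4 : ℝ) ^ i)⁻¹ * volume (G R (w j / 2)) +
              ENNReal.ofReal ((4 : ℝ) ^ j)⁻¹ * volume (G R (w i / 2)))) :=
          mul_le_mul_right h1 _
      _ = ENNReal.ofReal (C' * θ ^ (j - i)) *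
            ((ENNReal.ofReal (4 ^ i) * ENNReal.ofReal ((4 : ℝ) ^ i)⁻¹) *
              (ENNReal.ofReal (4 ^ j) * volume (G R (w j / 2))) +
            (ENNReal.ofReal (4 ^ j) * ENNReal.ofReal ((4 : ℝ) ^ j)⁻¹) *
              (ENNReal.ofReal (4 ^ i) * volume (G R (w i / 2)))) := by ring
      _ = _ := by
          have e3 : ∀ l : ℕ, ENNReal.ofReal ((4 : ℝ) ^ l) * ENNReal.ofReal ((4 : ℝ) ^ l)⁻¹ = 1 := by
            intro l
            rw [← ENNReal.ofReal_mul (by positivity), mul_inv_cancel₀ (by positivity),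
              ENNReal.ofReal_one]
          rw [e3, e3, one_mul, one_mul, add_comm]
  have hF2 : ∫⁻ p, f p * f p ≤ ∑ i ∈ Finset.range J, ∑ j ∈ Finset.range J,
      ENNReal.ofReal (C' * θ ^ ((i - j) + (j - i))) *
        (ENNReal.ofReal (4 ^ i) * volume (G R (w i / 2)) +
          ENNReal.ofReal (4 ^ j) * volume (G R (w j / 2))) := by
    have e1 : ∀ p, f p * f p = ∑ i ∈ Finset.range J, ∑ j ∈ Finset.range J,
        ENNReal.ofReal (4 ^ i) * ENNReal.ofReal (4 ^ j) *
          (volume (sec (T i) p) * volume (sec (T j) p)) := by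
      intro p
      simp only [hf]
      rw [Finset.sum_mul_sum]
      refine Finset.sum_congr rfl fun i _ => Finset.sum_congr rfl fun j _ => ?_
      ring
    have hm2 : ∀ i j, Measurable fun p : V k × V k =>
        ENNReal.ofReal (4 ^ i) * ENNReal.ofReal (4 ^ j) *
          (volume (sec (T i) p) * volume (sec (T j) p)) := fun i j =>
      ((hsecm i).mul (hsecm j)).const_mul _
    rw [lintegral_congr e1, lintegral_finsetSum _ fun i _ =>
      Finset.measurable_sum _ fun j _ => hm2 i j]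
    refine Finset.sum_le_sum fun i _ => ?_
    rw [lintegral_finsetSum _ fun j _ => hm2 i j]
    refine Finset.sum_le_sum fun j _ => ?_
    have hmm : Measurable fun p : V k × V k => volume (sec (T i) p) * volume (sec (T j) p) :=
      (hsecm i).mul (hsecm j)
    rw [lintegral_const_mul _ hmm]
    rcases le_total i j with hij | hij
    · have e2 : (i - j) + (j - i) = j - i := by omega
      rw [e2]
      exact hcross i j hij
    · have e2 : (i - j) + (j - i) = i - j := by omega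
      rw [e2]
      have e3 := hcross j i hij
      have e4 : ∫⁻ p : V k × V k, volume (sec (T i) p) * volume (sec (T j) p) =
          ∫⁻ p : V k × V k, volume (sec (T j) p) * volume (sec (T i) p) :=
        lintegral_congr fun p => mul_comm _ _
      rw [e4, mul_comm (ENNReal.ofReal (4 ^ i)) (ENNReal.ofReal (4 ^ j)),
        add_comm (ENNReal.ofReal (4 ^ i) * volume (G R (w i / 2)))]
      exact e3
  exact C6a_abs hC hC' hθ0.le hθ1 J (fun j => ENNReal.ofReal (4 ^ j) * volume (T j))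
    (fun j => ENNReal.ofReal (4 ^ j) * volume (G R (w j)))
    (fun j => ENNReal.ofReal (4 ^ j) * volume (G R (w j / 2))) (volume P) (∫⁻ p, f p * f p) hPfin
    (by simpa using hG2 (w 0) (hw0 0))
    (by simpa using hG2 (w 0 / 2) (by have := hw0 0; positivity))
    (by
      intro j
      rw [hwh, h4j, mul_assoc])
    (by
      intro j
      have h1 := hGle R m (w (j + 1)) hR hfill hm (hw0 (j + 1))
      rw [hwh] at h1
      rw [h4j]
      calc 4 * ENNReal.ofReal (4 ^ j) * volume (G R (w (j + 1)))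
          ≤ 4 * ENNReal.ofReal (4 ^ j) * (ENNReal.ofReal C * volume (T j)) :=
            mul_le_mul_right h1 _
        _ = 4 * ENNReal.ofReal C * (ENNReal.ofReal (4 ^ j) * volume (T j)) := by ring)
    (fun j => ENNReal.mul_ne_top ENNReal.ofReal_ne_top (hTfin j)) hCS hF2

end Pool.Agent.Lib.BeerLin
end

section

/-!
# C6b: integrated form
-/

set_option autoImplicit false

namespace Pool.Agent.Lib.BeerLin

open Set MeasureTheory Topology
open scoped ENNReal
open Pool.Agent.Lib.BeerIndex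

variable {k : ℕ}

/-- Dyadic cover of `(0, ∞)`. -/
private theorem C6b_cover {s : ℝ} (hs : 0 < s) : Ioi (0 : ℝ) ⊆
    Ioc 0 s ∪ ⋃ j : ℕ, Ioc (s * 2 ^ j) (s * 2 ^ (j + 1)) := by
  intro w hw
  have hw0 : 0 < w := hw
  by_cases h : w ≤ s
  · exact Or.inl ⟨hw0, h⟩
  · right
    push Not at h
    have hex : ∃ n : ℕ, w ≤ s * 2 ^ n := by
      obtain ⟨n, hn⟩ := pow_unbounded_of_one_lt (w / s) (one_lt_two)
      refine ⟨n, ?_⟩
      rw [div_lt_iff₀ hs] at hn
      linarith
    have h1 := Nat.find_spec hex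
    have h0 : Nat.find hex ≠ 0 := by
      intro h0
      rw [h0, pow_zero, mul_one] at h1
      linarith
    obtain ⟨j, hj⟩ := Nat.exists_eq_succ_of_ne_zero h0
    rw [mem_iUnion]
    refine ⟨j, ?_, ?_⟩
    · have h2 := Nat.find_min hex (m := j) (by omega)
      push Not at h2
      exact h2
    · rw [hj] at h1
      exact h1

/-- Bound of the integral over an interval. -/
private theorem C6b_int {f : ℝ → ℝ≥0∞} {a b : ℝ} {v : ℝ≥0∞}
    (h : ∀ w ∈ Ioc a b, f w ≤ v) :
    ∫⁻ w in Ioc a b, ENNReal.ofReal w * f w ≤ ENNReal.ofReal b * v * ENNReal.ofReal (b - a) := by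
  have h1 : ∫⁻ w in Ioc a b, ENNReal.ofReal w * f w ≤ ∫⁻ _ in Ioc a b, ENNReal.ofReal b * v := by
    apply setLIntegral_mono' measurableSet_Ioc
    intro w hw
    exact mul_le_mul' (ENNReal.ofReal_le_ofReal hw.2) (h w hw)
  refine h1.trans (le_of_eq ?_)
  rw [setLIntegral_const, Real.volume_Ioc]

/-- **Integrated form.**

Proof. Split `(0, ∞)` into `(0, √m]`, where `volume (G R w) ≤ 2 volume P` and `∫ w dw = m/2`, and the
intervals `(√m 2^j, √m 2^(j+1)]`, where `volume (G R w) ≤ volume (G R (√m 2^j))` (`G_anti`) and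
`∫ w dw = (3/2) m 4^j`; use `sum_scales` for all `J`. -/
theorem integral_scales (hk : 1 ≤ k) : ∃ C : ℝ, 0 < C ∧
    ∀ (R : Set (X k)) (m : ℝ) (P : Set (V k × V k)), IsClosed R →
      Fills R (ENNReal.ofReal m) → 0 < m → MeasurableSet P → volume P ≠ ∞ →
      (∀ w, 0 < w → ∀ ω ∈ G R w, ω.1 ∈ P) →
      ∫⁻ w in Ioi (0 : ℝ), ENNReal.ofReal w * volume (G R w) ≤
        ENNReal.ofReal (C * m) * volume P := by
  obtain ⟨C₀, hC₀, hsum⟩ := sum_scales (k := k) hk
  refine ⟨2 + 2 * C₀, by positivity, ?_⟩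
  intro R m P hR hF hm hP hPf hG
  have hs : 0 < √m := Real.sqrt_pos.2 hm
  have hss : √m * √m = m := Real.mul_self_sqrt hm.le
  have hfirst : ∫⁻ w in Ioc (0 : ℝ) (√m), ENNReal.ofReal w * volume (G R w) ≤
      ENNReal.ofReal (2 * m) * volume P := by
    refine (C6b_int (f := fun w => volume (G R w)) (v := 2 * volume P)
      fun w hw => volume_G_le_P hP (hG w hw.1)).trans (le_of_eq ?_)
    rw [sub_zero, ENNReal.ofReal_mul (by norm_num : (0 : ℝ) ≤ 2), ← hss,
      ENNReal.ofReal_mul hs.le]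
    have h2 : ENNReal.ofReal 2 = 2 := by norm_num
    rw [h2, hss]
    ring
  have hj : ∀ j : ℕ, ∫⁻ w in Ioc (√m * 2 ^ j) (√m * 2 ^ (j + 1)),
      ENNReal.ofReal w * volume (G R w) ≤
      ENNReal.ofReal (2 * m) * (ENNReal.ofReal (4 ^ j) * volume (G R (√m * 2 ^ j))) := by
    intro j
    refine (C6b_int (f := fun w => volume (G R w)) (v := volume (G R (√m * 2 ^ j)))
      fun w hw => measure_mono (G_anti R hw.1.le)).trans (le_of_eq ?_)
    have e1 : √m * 2 ^ (j + 1) - √m * 2 ^ j = √m * 2 ^ j := by ring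
    rw [e1]
    have e2 : ENNReal.ofReal (√m * 2 ^ (j + 1)) * volume (G R (√m * 2 ^ j)) *
        ENNReal.ofReal (√m * 2 ^ j) = (ENNReal.ofReal (√m * 2 ^ (j + 1)) *
        ENNReal.ofReal (√m * 2 ^ j)) * volume (G R (√m * 2 ^ j)) := by ring
    rw [e2, ← ENNReal.ofReal_mul (by positivity), ← mul_assoc (ENNReal.ofReal (2 * m)),
      ← ENNReal.ofReal_mul (p := 2 * m) (by positivity)]
    congr 2
    have e3 : (4 : ℝ) ^ j = 2 ^ j * 2 ^ j := by
      rw [← mul_pow]
      norm_num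
    rw [e3]
    calc √m * 2 ^ (j + 1) * (√m * 2 ^ j) = (√m * √m) * (2 * (2 ^ j * 2 ^ j)) := by ring
      _ = 2 * m * (2 ^ j * 2 ^ j) := by rw [hss]; ring
  have htsum : ∑' j : ℕ, ENNReal.ofReal (4 ^ j) * volume (G R (√m * 2 ^ j)) ≤
      ENNReal.ofReal C₀ * volume P :=
    ENNReal.tsum_le_of_sum_range_le fun J => hsum R m P J hR hF hm hP hPf hG
  calc ∫⁻ w in Ioi (0 : ℝ), ENNReal.ofReal w * volume (G R w)
      ≤ ∫⁻ w in Ioc 0 (√m) ∪ ⋃ j : ℕ, Ioc (√m * 2 ^ j) (√m * 2 ^ (j + 1)),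
          ENNReal.ofReal w * volume (G R w) := lintegral_mono_set (C6b_cover hs)
    _ ≤ (∫⁻ w in Ioc (0 : ℝ) (√m), ENNReal.ofReal w * volume (G R w)) +
          ∫⁻ w in ⋃ j : ℕ, Ioc (√m * 2 ^ j) (√m * 2 ^ (j + 1)),
            ENNReal.ofReal w * volume (G R w) := lintegral_union_le _ _ _
    _ ≤ ENNReal.ofReal (2 * m) * volume P +
          ∑' j : ℕ, ENNReal.ofReal (2 * m) *
            (ENNReal.ofReal (4 ^ j) * volume (G R (√m * 2 ^ j))) := by
        refine add_le_add hfirst ((lintegral_iUnion_le _ _).trans ?_)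
        exact ENNReal.tsum_le_tsum hj
    _ ≤ ENNReal.ofReal (2 * m) * volume P +
          ENNReal.ofReal (2 * m) * (ENNReal.ofReal C₀ * volume P) := by
        rw [ENNReal.tsum_mul_left]
        gcongr
    _ = ENNReal.ofReal ((2 + 2 * C₀) * m) * volume P := by
        have e1 : (2 + 2 * C₀) * m = 2 * m + 2 * m * C₀ := by ring
        rw [e1, ENNReal.ofReal_add (by positivity) (by positivity),
          ENNReal.ofReal_mul (p := 2 * m) (q := C₀) (by positivity)]
        ring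

end Pool.Agent.Lib.BeerLin
end

section

/-!
# D4b: the estimate for fixed t
-/

set_option autoImplicit false

namespace Pool.Agent.Lib.BeerLin

open Set MeasureTheory Topology
open scoped ENNReal
open Pool.Agent.Lib.BeerIndex

variable {k : ℕ}

/-- **Fixed `t`.** Combine `volume_bc_le`, `volume_HH_le`, `lintegral_QQ_le`, `integral_scales` for
`R = Rt S (Lam t)`, `m = M / JJ (Lam t) = 2^k M / JJ t` (`fills_Rt`, `JJ_Lam`), `P = PP S (Lam t)`. -/
theorem fixed_t (hk : 1 ≤ k) : ∃ C : ℝ, 0 < C ∧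
    ∀ (S : Set (X k)) (t : Fin (k + 1) → Fin k → ℝ) (M : ℝ), IsCompact S → 0 < JJ t → 0 < M →
      Fills S (ENNReal.ofReal M) →
      ∫⁻ p, volume {C : X k | HH S t p C} ≤ ENNReal.ofReal (C * M) * volume (PP S (Lam t)) := by
  obtain ⟨C₀, hC₀, h₀⟩ := volume_bc_le (k := k)
  obtain ⟨C₁, hC₁, h₁⟩ := lintegral_QQ_le (k := k)
  obtain ⟨C₂, hC₂, h₂⟩ := integral_scales (k := k) hk
  refine ⟨C₀ * C₁ * C₂ * 2 ^ k, by positivity, ?_⟩
  intro S t M hS hJ hM hF
  have hJL : JJ (Lam t) = JJ t / 2 ^ k := JJ_Lam t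
  have hJL0 : 0 < JJ (Lam t) := by rw [hJL]; positivity
  have hR : IsClosed (Rt S (Lam t)) := isClosed_Rt hS.isClosed (Lam t)
  have hFR := fills_Rt hJL0 hF
  have hm : 0 < M / JJ (Lam t) := div_pos hM hJL0
  have e1 := h₂ (Rt S (Lam t)) (M / JJ (Lam t)) (PP S (Lam t)) hR hFR hm
    (isClosed_PP hS.isClosed (Lam t)).measurableSet (volume_PP_ne_top hS (Lam t))
    (fun w hw ω hω => mem_PP_of_G hw hω)
  calc ∫⁻ p, volume {C : X k | HH S t p C}
      ≤ ∫⁻ p, ENNReal.ofReal (C₀ * JJ t) *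
          volume {q : ℝ × ℝ | q.1 ≠ 0 ∧ QQ (Rt S (Lam t)) p q.1 q.2} :=
        lintegral_mono fun p => volume_HH_le hS.isClosed hJ (h₀ t hJ) p
    _ = ENNReal.ofReal (C₀ * JJ t) *
          ∫⁻ p, volume {q : ℝ × ℝ | q.1 ≠ 0 ∧ QQ (Rt S (Lam t)) p q.1 q.2} :=
        lintegral_const_mul' _ _ ENNReal.ofReal_ne_top
    _ ≤ ENNReal.ofReal (C₀ * JJ t) * (ENNReal.ofReal C₁ *
          (ENNReal.ofReal (C₂ * (M / JJ (Lam t))) * volume (PP S (Lam t)))) := by
        gcongr
        exact (h₁ (Rt S (Lam t)) hR).trans (by gcongr)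
    _ = ENNReal.ofReal (C₀ * C₁ * C₂ * 2 ^ k * M) * volume (PP S (Lam t)) := by
        rw [← mul_assoc, ← mul_assoc, ← ENNReal.ofReal_mul (by positivity),
          ← ENNReal.ofReal_mul (by positivity)]
        congr 2
        rw [hJL]
        field_simp

end Pool.Agent.Lib.BeerLin
end

section

/-!
# D4d: integration over t
-/

set_option autoImplicit false

namespace Pool.Agent.Lib.BeerLin

open Set MeasureTheory Topology
open scoped ENNReal
open Pool.Agent.Lib.BeerIndex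

variable {k : ℕ}

/-- the inverse of the splitting map -/
private def jn (q : (Fin (k + 1) → Fin k → ℝ) × (V k × V k)) : Fin (k + 1) → X k :=
  fun i => (q.1 i, q.2.1 i, q.2.2 i)

private theorem continuous_jn : Continuous (jn (k := k)) := by
  refine continuous_pi fun i => ?_
  unfold jn
  fun_prop

/-- the set of all pairs `(t, p)` with vertices in `S` -/
private def WW (S : Set (X k)) : Set ((Fin (k + 1) → Fin k → ℝ) × (V k × V k)) :=
  {q | ∀ i, jn q i ∈ S}

private theorem isClosed_WW {S : Set (X k)} (hS : IsClosed S) : IsClosed (WW S) := by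
  have : WW S = ⋂ i, (fun q => jn q i) ⁻¹' S := by
    ext q; simp [WW]
  rw [this]
  exact isClosed_iInter fun i => hS.preimage ((continuous_apply i).comp continuous_jn)

private theorem continuous_Lam_t :
    Continuous (Lam : (Fin (k + 1) → Fin k → ℝ) → (Fin (k + 1) → Fin k → ℝ)) := by
  refine continuous_pi fun i => ?_
  unfold Lam
  fun_prop

private theorem lintegral_PP {S : Set (X k)} (hS : IsClosed S) :
    ∫⁻ t, volume (PP S t) = volume S ^ (k + 1) := by
  have hW := (isClosed_WW hS).measurableSet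
  have h1 : volume (WW S) = ∫⁻ t, volume (PP S t) := by
    rw [show (volume : Measure ((Fin (k + 1) → Fin k → ℝ) × (V k × V k))) = volume.prod volume
      from rfl, Measure.prod_apply hW]
    rfl
  have h2 := (measurePreserving_split (k := k)).measure_preimage hW.nullMeasurableSet
  rw [← h1, ← h2]
  have h3 : (fun e : Fin (k + 1) → X k =>
      ((fun i => (e i).1, ((fun i => (e i).2.1), (fun i => (e i).2.2))) :
        (Fin (k + 1) → Fin k → ℝ) × (V k × V k))) ⁻¹' (WW S) = Set.pi univ fun _ => S := by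
    ext e
    simp [WW, jn]
  rw [h3, volume_pi_pi]
  simp

private theorem lintegral_PP_Lam : ∃ C : ℝ, 0 < C ∧ ∀ S : Set (X k), IsClosed S →
    ∫⁻ t, volume (PP S (Lam t)) = ENNReal.ofReal C * volume S ^ (k + 1) := by
  obtain ⟨C, hC, h⟩ := volume_preimage_Lam_t (k := k)
  refine ⟨C, hC, fun S hS => ?_⟩
  have hm : Measurable fun t : Fin (k + 1) → Fin k → ℝ => volume (PP S t) :=
    measurable_measure_prodMk_left (isClosed_WW hS).measurableSet
  have hL : Measurable (Lam : (Fin (k + 1) → Fin k → ℝ) → (Fin (k + 1) → Fin k → ℝ)) :=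
    continuous_Lam_t.measurable
  have hmap : Measure.map (Lam : (Fin (k + 1) → Fin k → ℝ) → (Fin (k + 1) → Fin k → ℝ)) volume =
      ENNReal.ofReal C • volume := by
    ext A hA
    rw [Measure.map_apply hL hA, h A]
    simp
  have h1 : ∫⁻ t, volume (PP S (Lam t)) = ∫⁻ t, volume (PP S t) ∂(Measure.map
      (Lam : (Fin (k + 1) → Fin k → ℝ) → (Fin (k + 1) → Fin k → ℝ)) volume) :=
    (lintegral_map hm hL).symm
  rw [h1, hmap, lintegral_smul_measure, lintegral_PP hS]
  rfl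

/-- **Integration over `t`.**

Proof. `volume (CC S) = ∫⁻ e, volume {C | (C, e) ∈ CC S} = ∫⁻ t, ∫⁻ p, (0 < JJ t), volume {C | HH S t p C}`
(Tonelli, `measurePreserving_split`) `≤ ∫⁻ t, ofReal (C M) volume (PP S (Lam t))`
`= ofReal (C M) C' ∫⁻ t, volume (PP S t)` (`volume_preimage_Lam_t`: the image of the volume under `Lam` is a
multiple of the volume) `= ofReal (C M) C' volume {e | ∀ i, e i ∈ S} = ofReal (C M) C' (volume S)^(k+1)`. -/
theorem volume_CC_le (hk : 1 ≤ k) : ∃ C : ℝ, 0 < C ∧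
    ∀ (S : Set (X k)) (M : ℝ), IsCompact S → 0 < M → Fills S (ENNReal.ofReal M) →
      volume (CC S) ≤ ENNReal.ofReal (C * M) * volume S ^ (k + 1) := by
  obtain ⟨C1, hC1, h1⟩ := fixed_t (k := k) hk
  obtain ⟨C2, hC2, h2⟩ := lintegral_PP_Lam (k := k)
  refine ⟨C1 * C2, by positivity, fun S M hS hM hF => ?_⟩
  have hSc := hS.isClosed
  have hCC := measurableSet_CC hSc
  -- the section function
  set g : (Fin (k + 1) → Fin k → ℝ) × (V k × V k) → ℝ≥0∞ :=
    fun q => volume ((fun C : X k => (C, jn q)) ⁻¹' CC S) with hg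
  have hgm : Measurable g :=
    (measurable_measure_prodMk_right hCC).comp continuous_jn.measurable
  have h3 : volume (CC S) = ∫⁻ q, g q := by
    rw [show (volume : Measure (X k × (Fin (k + 1) → X k))) = volume.prod volume from rfl,
      Measure.prod_apply_symm hCC, ← (measurePreserving_split (k := k)).lintegral_comp hgm]
    rfl
  have h4 : ∫⁻ q, g q = ∫⁻ t, ∫⁻ p, g (t, p) := by
    rw [show (volume : Measure ((Fin (k + 1) → Fin k → ℝ) × (V k × V k))) = volume.prod volume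
      from rfl, lintegral_prod _ hgm.aemeasurable]
  have h5 : ∀ t : Fin (k + 1) → Fin k → ℝ,
      ∫⁻ p, g (t, p) ≤ ENNReal.ofReal (C1 * M) * volume (PP S (Lam t)) := by
    intro t
    by_cases ht : 0 < JJ t
    · refine le_trans (lintegral_mono fun p => ?_) (h1 S t M hS ht hM hF)
      refine measure_mono fun C hC => ?_
      exact hC.2
    · have : ∀ p, g (t, p) = 0 := by
        intro p
        have h6 : ((fun C : X k => (C, jn (t, p))) ⁻¹' CC S) = ∅ := by
          ext C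
          simp only [mem_preimage, mem_empty_iff_false, iff_false]
          exact fun hC => ht hC.1
        rw [hg]
        simp only [h6, measure_empty]
      simp only [this, lintegral_zero]
      exact zero_le
  have hm : Measurable fun t : Fin (k + 1) → Fin k → ℝ => volume (PP S t) :=
    measurable_measure_prodMk_left (isClosed_WW hSc).measurableSet
  calc volume (CC S) = ∫⁻ t, ∫⁻ p, g (t, p) := by rw [h3, h4]
    _ ≤ ∫⁻ t, ENNReal.ofReal (C1 * M) * volume (PP S (Lam t)) := lintegral_mono h5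
    _ = ENNReal.ofReal (C1 * M) * ∫⁻ t, volume (PP S (Lam t)) :=
        lintegral_const_mul _ (hm.comp continuous_Lam_t.measurable)
    _ = ENNReal.ofReal (C1 * M) * (ENNReal.ofReal C2 * volume S ^ (k + 1)) := by rw [h2 S hSc]
    _ = ENNReal.ofReal (C1 * C2 * M) * volume S ^ (k + 1) := by
        rw [← mul_assoc, ← ENNReal.ofReal_mul (by positivity)]
        congr 2
        ring

end Pool.Agent.Lib.BeerLin
end

section

/-!
# D5c: sum over the faces and the two charts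
-/

set_option autoImplicit false

namespace Pool.Agent.Lib.BeerLin

open Set MeasureTheory Topology
open scoped ENNReal
open Pool.Agent.Lib.BeerIndex

variable {k : ℕ}

private theorem swp_apply (x : X k) : swp k x = (x.1, x.2.2, x.2.1) := rfl

private theorem mp_swp : MeasurePreserving (swp k : X k → X k) volume volume := by
  have h1 : MeasurePreserving (id : (Fin k → ℝ) → (Fin k → ℝ)) volume volume :=
    MeasurePreserving.id _
  have h2 : MeasurePreserving (Prod.swap : ℝ × ℝ → ℝ × ℝ) volume volume :=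
    Measure.measurePreserving_swap
  exact h1.prod h2

/-- the map `swp` as a linear map -/
private def swpL (k : ℕ) : X k →ₗ[ℝ] X k where
  toFun x := (x.1, x.2.2, x.2.1)
  map_add' _ _ := rfl
  map_smul' _ _ := rfl

private theorem hull_swp {ι : Type*} {A : ι → X k} {S : Set (X k)}
    (h : convexHull ℝ (range A) ⊆ S) :
    convexHull ℝ (range fun i => swp k (A i)) ⊆ swp k ⁻¹' S := by
  have h1 : convexHull ℝ (range fun i => swp k (A i)) ⊆ swpL k ⁻¹' (convexHull ℝ (range A)) := by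
    refine convexHull_min ?_ ((convex_convexHull ℝ (range A)).linear_preimage (swpL k))
    rintro _ ⟨i, rfl⟩
    exact subset_convexHull ℝ _ ⟨i, rfl⟩
  intro x hx
  exact h (h1 hx)

private theorem insert_range {α : Type*} (A : Fin (k + 2) → α) (j : Fin (k + 2)) :
    insert (A j) (range fun i => A (j.succAbove i)) = range A := by
  ext x
  constructor
  · rintro (rfl | ⟨i, rfl⟩)
    · exact ⟨j, rfl⟩
    · exact ⟨_, rfl⟩
  · rintro ⟨i, rfl⟩
    by_cases hij : i = j
    · exact Or.inl (by rw [hij])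
    · obtain ⟨i', hi'⟩ := Fin.exists_succAbove_eq hij
      exact Or.inr ⟨i', by simp only [hi']⟩

/-- **Bound of the simplex set of a compact set.**

Proof. For almost all `A` in the left side all faces are nondegenerate (`ae_JJ` and
`volume_preserving_piFinSuccAbove`); take `j` from `exists_face` (for `t i = (A i).1`). According to
`|Z| ≤ |Y|` or `|Y| ≤ |Z|` the pair `(A j, A ∘ j.succAbove)` is in `CC S`, or
`(swp (A j), swp ∘ A ∘ j.succAbove)` is in `CC (swp ⁻¹' S)` (`swp k` is a linear involution and preserves the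
volume, `convexHull` commutes with it). Sum over `j` and the two cases, `volume_CC_le` for `S` and
`swp k ⁻¹' S` (`fills_swp`), and the maps `A ↦ (A j, A ∘ j.succAbove)` preserve the volume. -/
theorem volume_simplexSet_compact_le (hk : 1 ≤ k) : ∃ C : ℝ, 0 < C ∧
    ∀ (S : Set (X k)) (M : ℝ), IsCompact S → 0 < M → Fills S (ENNReal.ofReal M) →
      volume {A : Fin (k + 2) → X k | convexHull ℝ (range A) ⊆ S} ≤
        ENNReal.ofReal (C * M) * volume S ^ (k + 1) := by
  obtain ⟨C, hC, hCC⟩ := volume_CC_le hk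
  refine ⟨((k + 2 : ℕ) : ℝ) * 2 * C, by positivity, ?_⟩
  intro S M hS hM hF
  have hS' : IsCompact (swp k ⁻¹' S) := (swp k).isCompact_preimage.mpr hS
  have hF' : Fills (swp k ⁻¹' S) (ENNReal.ofReal M) := fills_swp hF
  have hV : volume (swp k ⁻¹' S) = volume S :=
    mp_swp.measure_preimage hS.measurableSet.nullMeasurableSet
  have e1 := hCC S M hS hM hF
  have e2 := hCC (swp k ⁻¹' S) M hS' hM hF'
  rw [hV] at e2
  -- the maps
  let φ : ∀ j : Fin (k + 2), (Fin (k + 2) → X k) → X k × (Fin (k + 1) → X k) :=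
    fun j A => (A j, fun i => A (j.succAbove i))
  have hφ : ∀ j, MeasurePreserving (φ j) volume volume := fun j =>
    volume_preserving_piFinSuccAbove (fun _ => X k) j
  let ψ : X k × (Fin (k + 1) → X k) → X k × (Fin (k + 1) → X k) :=
    fun q => (swp k q.1, fun i => swp k (q.2 i))
  have hψ : MeasurePreserving ψ volume volume := by
    have h1 : MeasurePreserving (fun (e : Fin (k + 1) → X k) i => swp k (e i)) volume volume :=
      volume_preserving_pi (fun _ => mp_swp)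
    exact mp_swp.prod h1
  have hae : ∀ᵐ A : Fin (k + 2) → X k, ∀ j : Fin (k + 2),
      0 < JJ (fun i => (A (j.succAbove i)).1) := by
    rw [ae_all_iff]
    intro j
    have h1 : ∀ᵐ q : X k × (Fin (k + 1) → X k), 0 < JJ (fun i => (q.2 i).1) :=
      Measure.quasiMeasurePreserving_snd.ae ae_JJ
    exact (hφ j).quasiMeasurePreserving.ae h1
  have hsub : {A : Fin (k + 2) → X k | convexHull ℝ (range A) ⊆ S} ≤ᵐ[volume]
      (⋃ j, ((φ j) ⁻¹' (CC S) ∪ (φ j) ⁻¹' (ψ ⁻¹' (CC (swp k ⁻¹' S)))) :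
        Set (Fin (k + 2) → X k)) := by
    filter_upwards [hae] with A hA
    intro hAS
    have hAS' : convexHull ℝ (range A) ⊆ S := hAS
    obtain ⟨j, hj⟩ := exists_face (fun i => (A i).1) hA
    show A ∈ (⋃ j, ((φ j) ⁻¹' (CC S) ∪ (φ j) ⁻¹' (ψ ⁻¹' (CC (swp k ⁻¹' S)))) :
        Set (Fin (k + 2) → X k))
    refine mem_iUnion.mpr ⟨j, ?_⟩
    rcases le_total
      |(A j).2.2 - ∑ i, bc (fun i => (A (j.succAbove i)).1) (A j).1 i * (A (j.succAbove i)).2.2|
      |(A j).2.1 - ∑ i, bc (fun i => (A (j.succAbove i)).1) (A j).1 i * (A (j.succAbove i)).2.1|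
      with hle | hle
    · left
      refine ⟨hA j, ?_, hj, hle⟩
      show convexHull ℝ (insert (A j) (range fun i => A (j.succAbove i))) ⊆ S
      rw [insert_range]
      exact hAS'
    · right
      refine ⟨hA j, ?_, hj, hle⟩
      show convexHull ℝ (insert (swp k (A j)) (range fun i => swp k (A (j.succAbove i)))) ⊆
        swp k ⁻¹' S
      rw [insert_range (fun i => swp k (A i)) j]
      exact hull_swp hAS'
  have hm : volume (⋃ j, ((φ j) ⁻¹' (CC S) ∪ (φ j) ⁻¹' (ψ ⁻¹' (CC (swp k ⁻¹' S)))) :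
        Set (Fin (k + 2) → X k)) ≤
      ∑ _j : Fin (k + 2), (volume (CC S) + volume (CC (swp k ⁻¹' S))) := by
    refine (measure_iUnion_fintype_le _ _).trans (Finset.sum_le_sum fun j _ => ?_)
    refine (measure_union_le _ _).trans ?_
    have m1 : MeasurableSet (CC S) := measurableSet_CC hS.isClosed
    have m2 : MeasurableSet (CC (swp k ⁻¹' S)) := measurableSet_CC hS'.isClosed
    have m3 : MeasurableSet (ψ ⁻¹' (CC (swp k ⁻¹' S))) := hψ.measurable m2
    rw [(hφ j).measure_preimage m1.nullMeasurableSet, (hφ j).measure_preimage m3.nullMeasurableSet,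
      hψ.measure_preimage m2.nullMeasurableSet]
  refine (measure_mono_ae hsub).trans (hm.trans ?_)
  rw [Finset.sum_const, Finset.card_univ, Fintype.card_fin, nsmul_eq_mul]
  have e3 : volume (CC S) + volume (CC (swp k ⁻¹' S)) ≤
      2 * (ENNReal.ofReal (C * M) * volume S ^ (k + 1)) := by
    rw [two_mul]
    exact add_le_add e1 e2
  calc ((k + 2 : ℕ) : ℝ≥0∞) * (volume (CC S) + volume (CC (swp k ⁻¹' S)))
      ≤ ((k + 2 : ℕ) : ℝ≥0∞) * (2 * (ENNReal.ofReal (C * M) * volume S ^ (k + 1))) := by gcongr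
    _ = ENNReal.ofReal (((k + 2 : ℕ) : ℝ) * 2 * C * M) * volume S ^ (k + 1) := by
        have h4 : ((k + 2 : ℕ) : ℝ) * 2 * C * M = ((k + 2 : ℕ) : ℝ) * (2 * (C * M)) := by ring
        have h5 : ENNReal.ofReal (((k + 2 : ℕ) : ℝ) * (2 * (C * M))) =
            ((k + 2 : ℕ) : ℝ≥0∞) * (2 * ENNReal.ofReal (C * M)) := by
          rw [ENNReal.ofReal_mul (p := ((k + 2 : ℕ) : ℝ)) (Nat.cast_nonneg _),
            ENNReal.ofReal_mul (p := (2 : ℝ)) (by norm_num),
            ENNReal.ofReal_natCast, ENNReal.ofReal_ofNat]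
        rw [h4, h5]
        ring

end Pool.Agent.Lib.BeerLin
end

section

/-!
# F1b: main estimate
-/

set_option autoImplicit false

namespace Pool.Agent.Lib.BeerLin

open Set MeasureTheory Topology
open scoped ENNReal
open Pool.Agent.Lib.BeerIndex

variable {k : ℕ}

/-- **Main estimate.**

Proof. Let `L` be as in `exists_coord`. `H = simplexSet (k+1) S` is null measurable of finite measure
(`⊆ S^(k+2)`); for `η < volume H` there is a compact `𝒦 ⊆ H` with `η < volume 𝒦` (a measurable subset of `H`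
a.e. equal to `H`, inner regularity). `S' = ⋃ A ∈ 𝒦, convexHull (range A)` is compact
(`isCompact_iUnion_convexHull`), `S' ⊆ S`, so `Fills S' (ofReal M)` (`fills_of_null`, `Fills.mono`) and
`Fills (L '' S') (ofReal M)` by `Fills.transport` (with `J = 1`, `Φ = L.symm`). As `𝒦 ⊆ {A | convexHull (range A) ⊆ S'}`,
and `L` preserves volume and convex hulls, `volume_simplexSet_compact_le` gives
`η < volume 𝒦 ≤ ofReal (C M) volume S' ^ (k+1) ≤ ofReal (C M) volume S ^ (k+1)`. -/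
theorem main_estimate_linear (hk : 1 ≤ k) : ∃ C : ℝ, 0 < C ∧
    ∀ S : Set (EuclideanSpace ℝ (Fin (k + 2))),
      volume S ≠ ∞ → NullMeasurableSet (simplexSet (k + 1) S) volume →
      (∀ A ∈ S, ∀ f : C(Metric.sphere (0 : EuclideanSpace ℝ (Fin (k + 2))) 1, pComponent S A),
        f.Nullhomotopic) →
      ∀ M : ℝ, 0 < M → supc S ≤ ENNReal.ofReal M →
      volume (simplexSet (k + 1) S) ≤ ENNReal.ofReal (C * M) * volume S ^ (k + 1) := by
  obtain ⟨L, hL⟩ := exists_coord k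
  obtain ⟨C, hC, hmain⟩ := volume_simplexSet_compact_le (k := k) hk
  refine ⟨C, hC, ?_⟩
  intro S _ hnm hnull M hM hsup
  refine le_of_forall_lt fun η hη => ?_
  obtain ⟨T, hTH, hTm, hTae⟩ := hnm.exists_measurable_subset_ae_eq
  rw [← measure_congr hTae] at hη
  have hs1 : SigmaFinite
      (volume : Measure (Fin (k + 1 + 1) → EuclideanSpace ℝ (Fin (k + 2)))) := inferInstance
  have hs2 : Measure.InnerRegularCompactLTTop
      (volume : Measure (Fin (k + 1 + 1) → EuclideanSpace ℝ (Fin (k + 2)))) := inferInstance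
  have hs3 : Measure.InnerRegular
      (volume : Measure (Fin (k + 1 + 1) → EuclideanSpace ℝ (Fin (k + 2)))) :=
    @Measure.InnerRegularCompactLTTop.instInnerRegularOfSigmaFinite _ _ _ _ hs2 hs1
  obtain ⟨𝒦, h𝒦T, h𝒦c, h𝒦η⟩ := hTm.exists_lt_isCompact hη
  refine lt_of_lt_of_le h𝒦η ?_
  have h𝒦H : 𝒦 ⊆ simplexSet (k + 1) S := h𝒦T.trans hTH
  have hS'c : IsCompact (⋃ A ∈ 𝒦, convexHull ℝ (range A)) := isCompact_iUnion_convexHull h𝒦c
  have hS'S : (⋃ A ∈ 𝒦, convexHull ℝ (range A)) ⊆ S :=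
    iUnion₂_subset fun A hA => (h𝒦H hA).2
  have hF : Fills (⋃ A ∈ 𝒦, convexHull ℝ (range A)) (ENNReal.ofReal M) :=
    (fills_of_null (by omega) S hnull).mono hS'S hsup
  -- transport
  have hLe : MeasurableEmbedding L := L.toHomeomorph.measurableEmbedding
  have hvol : ∀ K : Set (X k), volume (L.symm '' K) = 1 * volume K := by
    intro K
    have e : (L.symm '' K) = L ⁻¹' K := by
      ext x
      constructor
      · rintro ⟨y, hy, rfl⟩
        simpa using hy
      · intro hx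
        exact ⟨L x, hx, by simp⟩
    rw [one_mul, e, hL.measure_preimage_emb hLe]
  have hF' : Fills (L.symm ⁻¹' (⋃ A ∈ 𝒦, convexHull ℝ (range A))) (ENNReal.ofReal M / 1) :=
    Fills.transport L.symm.toHomeomorph
      (fun x y a b _ => by simp) one_ne_zero ENNReal.one_ne_top hvol hF
  rw [div_one] at hF'
  have hcomp : IsCompact (L.symm ⁻¹' (⋃ A ∈ 𝒦, convexHull ℝ (range A))) := by
    have := hS'c.image L.continuous
    rwa [L.image_eq_preimage_symm] at this
  have h1 := hmain _ M hcomp hM hF'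
  have hpi : MeasurePreserving
      (fun (A : Fin (k + 2) → EuclideanSpace ℝ (Fin (k + 2))) (i : Fin (k + 2)) => L (A i)) :=
    volume_preserving_pi fun _ => hL
  calc volume 𝒦
      ≤ volume ((fun (A : Fin (k + 2) → EuclideanSpace ℝ (Fin (k + 2))) (i : Fin (k + 2)) =>
          L (A i)) ⁻¹' {A : Fin (k + 2) → X k | convexHull ℝ (range A) ⊆
            L.symm ⁻¹' (⋃ A ∈ 𝒦, convexHull ℝ (range A))}) := by
        refine measure_mono fun A hA => ?_
        simp only [mem_preimage, mem_ofPred_eq]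
        have hr : (range fun i => L (A i)) = L '' range A := by
          rw [← range_comp]
          rfl
        have hch : convexHull ℝ (L '' range A) = L '' convexHull ℝ (range A) :=
          (L.toLinearMap.image_convexHull (range A)).symm
        rw [hr, hch]
        rintro _ ⟨x, hx, rfl⟩
        simp only [mem_preimage, ContinuousLinearEquiv.symm_apply_apply]
        exact mem_iUnion₂.2 ⟨A, hA, hx⟩
    _ ≤ volume {A : Fin (k + 2) → X k | convexHull ℝ (range A) ⊆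
            L.symm ⁻¹' (⋃ A ∈ 𝒦, convexHull ℝ (range A))} := by
        refine (Measure.le_map_apply hpi.measurable.aemeasurable _).trans ?_
        rw [hpi.map_eq]
    _ ≤ ENNReal.ofReal (C * M) *
          volume (L.symm ⁻¹' (⋃ A ∈ 𝒦, convexHull ℝ (range A))) ^ (k + 1) := h1
    _ ≤ ENNReal.ofReal (C * M) * volume S ^ (k + 1) := by
        have h2 : volume (L.symm ⁻¹' (⋃ A ∈ 𝒦, convexHull ℝ (range A))) ≤ volume S := by
          rw [← hL.measure_preimage_emb hLe]
          refine measure_mono fun x hx => ?_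
          apply hS'S
          simpa using hx
        gcongr

end Pool.Agent.Lib.BeerLin
end

section

/-!
# F1c: main theorem
-/

set_option autoImplicit false

namespace Pool.Agent.Lib.BeerLin

open Set MeasureTheory Topology
open scoped ENNReal
open Pool.Agent.Lib.BeerIndex

variable {k : ℕ}

/-- **Main theorem** (compare `main_real` in `Main.lean`: apply the estimate with `M = supc S + δ`, `δ → 0`). -/
theorem main_linear (d : ℕ) (hd : 3 ≤ d) : ∃ α : ℝ, 0 < α ∧
    ∀ S : Set (EuclideanSpace ℝ (Fin d)), IndexDefined (d - 1) S →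
      (∀ A ∈ S, ∀ f : C(Metric.sphere (0 : EuclideanSpace ℝ (Fin d)) 1, pComponent S A),
        f.Nullhomotopic) →
      convIndex (d - 1) S ≤ α * convRatio S := by
  obtain ⟨k, rfl⟩ : ∃ k, d = k + 2 := ⟨d - 2, by omega⟩
  have hk : 1 ≤ k := by omega
  obtain ⟨C, hC0, hC⟩ := main_estimate_linear (k := k) hk
  refine ⟨C, hC0, ?_⟩
  intro S hS hnull
  have e1 : k + 2 - 1 = k + 1 := by omega
  rw [e1] at hS ⊢
  obtain ⟨-, hS0, hST, hSm⟩ := hS
  set l := (volume S).toReal with hl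
  have hlpos : 0 < l := ENNReal.toReal_pos hS0 hST
  set s := (supc S).toReal with hs
  have hs0 : 0 ≤ s := ENNReal.toReal_nonneg
  have hsT : supc S ≠ ⊤ := supc_ne_top hST
  have h3 : convIndex (k + 1) S = (volume (simplexSet (k + 1) S)).toReal / l ^ (k + 2) := rfl
  have hr : convRatio S = s / l := rfl
  have key : ∀ δ : ℝ, 0 < δ → (volume (simplexSet (k + 1) S)).toReal ≤ (C * (s + δ)) * l ^ (k + 1) := by
    intro δ hδ
    have h1 := hC S hST hSm hnull (s + δ) (by positivity) (by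
      rw [← ENNReal.ofReal_toReal hsT]
      exact ENNReal.ofReal_le_ofReal (by linarith))
    have hR : ENNReal.ofReal (C * (s + δ)) * volume S ^ (k + 1) ≠ ⊤ :=
      ENNReal.mul_ne_top ENNReal.ofReal_ne_top (ENNReal.pow_ne_top hST)
    have h2 := ENNReal.toReal_mono hR h1
    rw [ENNReal.toReal_mul, ENNReal.toReal_pow, ENNReal.toReal_ofReal (by positivity), ← hl] at h2
    exact h2
  have hfin : (volume (simplexSet (k + 1) S)).toReal ≤ C * s * l ^ (k + 1) := by
    refine le_of_forall_pos_le_add fun ε hε => ?_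
    have hpos : 0 < C * l ^ (k + 1) := by positivity
    have := key (ε / (C * l ^ (k + 1))) (by positivity)
    have h4 : C * (ε / (C * l ^ (k + 1))) * l ^ (k + 1) = ε := by field_simp
    nlinarith
  rw [h3, hr, div_le_iff₀ (by positivity)]
  have h5 : C * (s / l) * l ^ (k + 2) = C * s * l ^ (k + 1) := by
    rw [pow_succ l (k + 1)]
    field_simp
  rw [h5]
  exact hfin

end Pool.Agent.Lib.BeerLin
end
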